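import Mathlib

/-!
# CI87: `C^∞` mixing maps of tori (`n ≥ 5`) with completely positive entropy are not Borel

Definitions of all the objects (page `notes_MP_972473_CPEinf_helper87.md`).  Every row imports this
file.  `C^∞` is written `Sm`.
-/

set_option autoImplicit false

namespace CI

open Set Function Filter Topology

/-- `f` is of class `C^∞` -/
abbrev Sm {E F : Type*} [NormedAddCommGroup E] [NormedSpace ℝ E] [NormedAddCommGroup F]
    [NormedSpace ℝ F] (f : E → F) : Prop := ContDiff ℝ ((⊤ : ℕ∞) : WithTop ℕ∞) f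

/-! ## One-variable functions -/

/-- `exp (-1/t)` for `t > 0`, `0` for `t ≤ 0` -/
noncomputable def EE (t : ℝ) : ℝ := expNegInvGlue t

/-- `exp (-1/t^2)` -/
noncomputable def e1 (t : ℝ) : ℝ := expNegInvGlue (t ^ 2)

noncomputable def SS (h : ℝ) : ℝ := EE h - EE (-h)

noncomputable def chi (h : ℝ) : ℝ := Real.smoothTransition (4 * (1 - h ^ 2) / 3)

/-- odd increasing homeomorphism, identity off `[-1,1]`, flat at `0` -/
noncomputable def uu (h : ℝ) : ℝ := chi h * SS h + (1 - chi h) * h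

noncomputable def aa (t : ℝ) : ℝ := uu (4 * t) / 4

/-- bump function, `= 1` iff `|x| ≤ 1/8`, `= 0` if `|x| ≥ 1/4` -/
noncomputable def kap (x : ℝ) : ℝ := 1 - Real.smoothTransition ((x ^ 2 - 1 / 64) * (64 / 3))

/-- supported in `[-1,2]`, `= w` on `[0,1]`, derivative `≤ 1` with equality exactly on `[0,1]` -/
noncomputable def BB (w : ℝ) : ℝ :=
  w * (Real.smoothTransition (w + 1) * Real.smoothTransition (2 - w))

noncomputable def psi (s : ℝ) : ℝ := s * Real.smoothTransition s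

/-- `1` for `l ≥ 0`, `1/(1-l)` for `l ≤ -1` -/
noncomputable def nu (l : ℝ) : ℝ := 1 / (1 + psi (-l))

/-- `nu (log t)` for `t > 0`, `0` for `t ≤ 0` -/
noncomputable def mm (t : ℝ) : ℝ := if t ≤ 0 then 0 else nu (Real.log t)

/-- `w ↦ w - (1 - M) B w` -/
noncomputable def piM (M w : ℝ) : ℝ := w - (1 - M) * BB w

/-- the solution `w` of `piM (nu l) w = v` -/
noncomputable def PI (l v : ℝ) : ℝ := invFun (piM (nu l)) v

/-- degree one, odd, `0` on `[-1/8,1/8]`, strictly increasing on `[1/8,7/8]` -/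
noncomputable def ff (y : ℝ) : ℝ := ⌊y⌋ + Real.smoothTransition ((Int.fract y - 1 / 8) * (4 / 3))

noncomputable def Gh (t : ℝ) : ℝ := EE (EE t)

noncomputable def hl (t : ℝ) : ℝ := Gh t / (Gh t + Gh (1 - t))

/-- degree one, odd, strictly increasing, very flat at the integers -/
noncomputable def hh (y : ℝ) : ℝ := ⌊y⌋ + hl (Int.fract y)

/-- the diffeomorphism of the two-torus (lifted) -/
noncomputable def DD (y : ℝ × ℝ) : ℝ × ℝ := (y.1 + ff y.2, y.2 + hh (y.1 + ff y.2))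

/-! ## Parameters -/

/-- parameters: `(1, al, be)` is the direction of the linear flow, the stops are at the positions
`J i` of the line of `0`, with transversal coordinates `al * J i - q i` -/
structure Par where
  al : ℝ
  be : ℝ
  J : ℕ → ℕ
  q : ℕ → ℤ
  al_pos : 0 < al
  al_lt : al < 1
  be_pos : 0 < be
  be_lt : be < 1
  dense : ∀ δ : ℝ, 0 < δ → ∃ M : ℝ, 0 ≤ M ∧ ∀ x y z : ℝ, ∃ u ∈ Icc 0 M, ∃ i j k : ℤ,
    |u - x - i| < δ ∧ |al * u - y - j| < δ ∧ |be * u - z - k| < δ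
  J0 : J 0 = 0
  q0 : q 0 = 0
  J_step : ∀ i, J i + i + 1 ≤ J (i + 1)
  n_pos : ∀ i, 0 < al * J (i + 1) - q (i + 1)
  n_le : al * J 1 - q 1 ≤ 1 / 16
  n_step : ∀ i, al * J (i + 2) - q (i + 2) ≤ (al * J (i + 1) - q (i + 1)) / 2

/-- transversal coordinate of the stop number `i` (`nn P 0 = 0`) -/
noncomputable def nn (P : Par) (i : ℕ) : ℝ := P.al * P.J i - P.q i

noncomputable def et (P : Par) (i : ℕ) : ℝ := nn P i / 8

/-- `uu h - h` -/
noncomputable def gg (h : ℝ) : ℝ := uu h - h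

noncomputable def tau0 (P : Par) (h : ℝ) : ℝ :=
  ∑' i : ℕ, et P (i + 1) * gg ((h - nn P (i + 1)) / et P (i + 1))

noncomputable def vloc (P : Par) (t : ℝ) : ℝ := aa t + tau0 P (aa t)

noncomputable def bloc (P : Par) (t : ℝ) : ℝ := t - vloc P t

/-- circle homeomorphism with flat critical points -/
noncomputable def v0 (P : Par) (w : ℝ) : ℝ := round w + vloc P (w - round w)

noncomputable def bb (P : Par) (w : ℝ) : ℝ := bloc P (w - round w)

/-! ## The planar flow -/

noncomputable def KK (P : Par) (c : ℝ × ℝ) : ℝ :=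
  kap (c.1 - round c.1) * bb P (c.2 - P.al * (c.1 - round c.1))

/-- the transversal invariant -/
noncomputable def NN (P : Par) (c : ℝ × ℝ) : ℝ := c.2 - P.al * c.1 - KK P c

noncomputable def lam (P : Par) : ℝ := 1 / (1 + sSup (range fun t => |deriv (vloc P) t|))

/-- `deriv (bloc P)` at the local variable -/
noncomputable def db (P : Par) (w : ℝ) : ℝ := deriv (bloc P) (w - round w)

/-- the speed of `x` -/
noncomputable def VV (P : Par) (c : ℝ × ℝ) : ℝ :=
  lam P * (1 - kap (c.1 - round c.1) * db P (c.2 - P.al * (c.1 - round c.1)))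

/-- the vector field -/
noncomputable def ZZ (P : Par) (c : ℝ × ℝ) : ℝ × ℝ :=
  (VV P c, lam P * (P.al + deriv kap (c.1 - round c.1) * bb P (c.2 - P.al * (c.1 - round c.1))
    - P.al * (kap (c.1 - round c.1) * db P (c.2 - P.al * (c.1 - round c.1)))))

/-- a `C^∞` flow with generator `Z` -/
structure IsFl {E : Type*} [NormedAddCommGroup E] [NormedSpace ℝ E] (Z : E → E)
    (φ : ℝ → E → E) : Prop where
  smooth : Sm (fun q : ℝ × E => φ q.1 q.2)
  zero : ∀ c, φ 0 c = c
  add : ∀ s t c, φ (s + t) c = φ s (φ t c)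
  deriv : ∀ t c, HasDerivAt (fun t => φ t c) (Z (φ t c)) t

open Classical in
/-- the flow of `ZZ P` -/
noncomputable def phi (P : Par) : ℝ → ℝ × ℝ → ℝ × ℝ :=
  if h : ∃ φ, IsFl (ZZ P) φ then h.choose else fun _ c => c

/-- lift of the base `X = T^3`, points `((x, y), θ)` -/
abbrev E3 : Type := (ℝ × ℝ) × ℝ

/-- lift of `T^3 × T^2`, points `(((x, y), θ), (y₁, y₂))` -/
abbrev E5 : Type := E3 × (ℝ × ℝ)

/-- the flow on `E3` -/
noncomputable def Phi (P : Par) (t : ℝ) (c : E3) : E3 :=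
  (phi P t c.1, c.2 + t + P.be * ((phi P t c.1).1 - c.1.1))

/-- the phase: `eta (Phi t c) = eta c + t` -/
noncomputable def eta (P : Par) (c : E3) : ℝ := c.2 - P.be * c.1.1

/-- ends of the cylinder number `k` -/
noncomputable def Ak (P : Par) (k : ℕ) : ℝ := P.J (2 * k + 1)
noncomputable def Bk (P : Par) (k : ℕ) : ℝ := P.J (2 * k + 2)

/-! ## Arcs -/

/-- indices -/
def ixx (l : ℕ) : ℕ × ℕ × ℕ := Denumerable.ofNat (ℕ × ℕ × ℕ) l

/-- cylinder of the arc `l` -/
def kk (l : ℕ) : ℕ := (ixx l).1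

/-- level of the arc `l` -/
def lv (l : ℕ) : ℕ := (ixx l).2.1 + kk l + 3

/-- number of the arc `l` -/
def nm (l : ℕ) : ℕ := (ixx l).2.2

/-- left end of the arc `l` (phase) -/
noncomputable def aL (l : ℕ) : ℝ := if nm l < 2 ^ lv l then (nm l : ℝ) / 2 ^ lv l else 0

/-- length of the arc `l` -/
noncomputable def dL (l : ℕ) : ℝ := if nm l < 2 ^ lv l then 1 / 2 ^ lv l else 1 / 2 ^ (lv l + nm l)

/-- the fixed point `(0, jL l)` of `DD` -/
noncomputable def jL (l : ℕ) : ℝ := (1 / 2) ^ (l + 5)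

/-! ## The collapse -/

/-- fibre part of `rho` -/
noncomputable def el (l : ℕ) (y : ℝ × ℝ) : ℝ := e1 y.1 + e1 (y.2 - jL l)

noncomputable def rho (P : Par) (l : ℕ) (c : ℝ × ℝ) (y : ℝ × ℝ) : ℝ :=
  NN P c ^ 2 + EE (Ak P (kk l) - c.1) + EE (c.1 - Bk P (kk l)) + el l y

/-- `rho` at the section point of phase `aL l` -/
noncomputable def rb (P : Par) (l : ℕ) (z : E5) : ℝ :=
  rho P l (phi P (aL l - eta P z.1) z.1.1) z.2

/-- `rho` at the `G`-image of the section point of phase `aL l` -/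
noncomputable def rb' (P : Par) (l : ℕ) (z : E5) : ℝ :=
  rho P l (phi P (aL l - eta P z.1 + 1) z.1.1) (DD z.2)

/-- phase in the scale of the arc -/
noncomputable def us (P : Par) (l : ℕ) (z : E5) : ℝ := (eta P z.1 - aL l) / dL l

noncomputable def qf (P : Par) (l : ℕ) (ε : ℝ) (z : E5) : ℝ :=
  dL l * ((1 - mm (rb P l z / ε)) * BB (us P l z))

noncomputable def qf' (P : Par) (l : ℕ) (ε : ℝ) (z : E5) : ℝ :=
  dL l * ((1 - mm (rb' P l z / ε)) * BB (us P l z))

open Classical in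
noncomputable def dlt (P : Par) (l : ℕ) (ε : ℝ) (z : E5) : ℝ :=
  if rb P l z ≤ 0 then 0 else
    dL l * ((mm (rb' P l z / ε) - mm (rb P l z / ε)) * BB (PI (Real.log (rb P l z / ε)) (us P l z)))

/-- integer vectors -/
abbrev Z5 : Type := ((ℤ × ℤ) × ℤ) × (ℤ × ℤ)

/-- integer vectors as elements of `E5` -/
def sh (v : Z5) : E5 := (((v.1.1.1, v.1.1.2), v.1.2), (v.2.1, v.2.2))

/-- periodization -/
noncomputable def per (f : E5 → ℝ) (z : E5) : ℝ := ∑ᶠ v : Z5, f (z + sh v)

/-- total displacement of the collapsing map -/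
noncomputable def pe (P : Par) (ε : ℕ → ℝ) (e : ℕ → Bool) (z : E5) : ℝ :=
  ∑' l, if e l = true then per (qf P l (ε l)) z else 0

/-- total displacement of the map `F` -/
noncomputable def De (P : Par) (ε : ℕ → ℝ) (e : ℕ → Bool) (z : E5) : ℝ :=
  ∑' l, if e l = true then per (dlt P l (ε l)) z else 0

/-- the collapsing map, lifted -/
noncomputable def Tl (P : Par) (ε : ℕ → ℝ) (e : ℕ → Bool) (z : E5) : E5 :=
  (Phi P (-(pe P ε e z)) z.1, z.2)

/-- the map `F_e`, lifted -/
noncomputable def Fl (P : Par) (ε : ℕ → ℝ) (e : ℕ → Bool) (z : E5) : E5 :=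
  (Phi P (1 + De P ε e z) z.1, DD z.2)

/-- the uncollapsed map, lifted -/
noncomputable def Gl (P : Par) (z : E5) : E5 := (Phi P 1 z.1, DD z.2)

/-- the arc `l` (in lifts): `c'` is on the `Phi`-orbit of `c`, both on the cylinder and with phases in
`[aL, aL + dL]` -/
def ArcL (P : Par) (l : ℕ) (c c' : E3) : Prop :=
  NN P c.1 = 0 ∧ c.1.1 ∈ Icc (Ak P (kk l)) (Bk P (kk l)) ∧
    eta P c ∈ Icc (aL l) (aL l + dL l) ∧ ∃ t : ℝ, c' = Phi P t c ∧
    eta P c + t ∈ Icc (aL l) (aL l + dL l)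

end CI
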