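import Pool.Agent.LibCI87.Main

/-!
# Interface: what the analytic half (helper87) delivers to the topological half (helper48)

The planar flow (rows C1, C2, C3): `phi_isFl`, `phi_shift`, `phi_stop`, `lam_pos`, `VV_nonneg`,
`VV_le_one`, `VV_cont`, `VV_shift`, `KK_cont`, `KK_shift`, `NN_shift`, `NN_phi`, `NN_deriv`,
`NN_strictMono`, `NN_surj`, `VV_zero`, `VV_zero_iff`, `ZZ_zero`.
The functions of the fibre (rows B9, B10): `ff_sm`, `ff_add`, `ff_odd`, `ff_mono`, `ff_strict`,
`hh_sm`, `hh_add`, `hh_odd`, `hh_strictMono`.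
The collapse: `Phi_add`, `Phi_shift`, `eta_Phi` (C3), `per_shift` (D9), `collapse_main` (Main).
-/
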