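import Pool.Agent.LibCI87.Cls

/-! ROW A1 (easy, only Mathlib, ~70 lines).  Elementary closure properties of the classes.

Proofs: pointwise at `z ∈ U j`; `iteratedFDeriv_add_apply` / `iteratedFDeriv_add` (for `ContDiffAt`
functions; if only the version for `ContDiff` is found use `iteratedFDerivWithin` on the open set
`U j`: `iteratedFDerivWithin_of_isOpen`, `iteratedFDerivWithin_add_apply`), `iteratedFDeriv_neg`,
`iteratedFDeriv_const_smul_apply`.  For `add`: constants `C₁, m₁, C₂, m₂`: take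
`C = |C₁| + |C₂|`, `m = max m₁ m₂` and `Λ ^ m₁ ≤ Λ ^ m` (`pow_le_pow_right₀`, `Λ ≥ 1`).
`Cl.sl`: `w ≤ K Λ^p`.  `Cl.const`: the derivatives of order `≥ 1` of a constant vanish
(`iteratedFDeriv_const_of_ne`). -/

set_option autoImplicit false

namespace CI

open Set Function Filter Topology

variable {ι E F G : Type*} [NormedAddCommGroup E] [NormedSpace ℝ E] [NormedAddCommGroup F]
  [NormedSpace ℝ F] [NormedAddCommGroup G] [NormedSpace ℝ G]

private theorem a1_ab {C x : ℝ} (hx : 0 ≤ x) : C * x ≤ |C| * x :=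
  mul_le_mul_of_nonneg_right (le_abs_self C) hx

private theorem a1_le (i : ℕ) : ((i : ℕ∞) : WithTop ℕ∞) ≤ ((⊤ : ℕ∞) : WithTop ℕ∞) := by
  exact_mod_cast le_top

theorem Cl.mono {U : ι → Set E} {w w' Λ : ι → E → ℝ} {f : ι → E → F} (h : Cl U w Λ f)
    (hU : Co U Λ) (hw : ∀ j, ∀ z ∈ U j, 0 ≤ w j z) (K : ℝ) (p : ℕ)
    (hww : ∀ j, ∀ z ∈ U j, w j z ≤ K * (w' j z * Λ j z ^ p)) : Cl U w' Λ f := by
  refine ⟨h.smooth, fun i => ?_⟩
  obtain ⟨C, m, hC⟩ := h.bound i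
  refine ⟨|C| * K, p + m, fun j z hz => le_trans (hC j z hz) ?_⟩
  have hΛ : 0 ≤ Λ j z := le_trans zero_le_one (hU.one_le j z hz)
  refine le_trans (a1_ab (mul_nonneg (hw j z hz) (pow_nonneg hΛ m))) ?_
  calc |C| * (w j z * Λ j z ^ m) ≤ |C| * (K * (w' j z * Λ j z ^ p) * Λ j z ^ m) :=
        mul_le_mul_of_nonneg_left (mul_le_mul_of_nonneg_right (hww j z hz) (pow_nonneg hΛ m))
          (abs_nonneg C)
    _ = _ := by
        rw [pow_add]
        ring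

theorem Cl.subset {U U' : ι → Set E} {w Λ : ι → E → ℝ} {f : ι → E → F} (h : Cl U w Λ f)
    (hU : ∀ j, U' j ⊆ U j) : Cl U' w Λ f := by
  refine ⟨fun j z hz => h.smooth j z (hU j hz), fun i => ?_⟩
  obtain ⟨C, m, hC⟩ := h.bound i
  exact ⟨C, m, fun j z hz => hC j z (hU j hz)⟩

theorem Cl.congr {U : ι → Set E} {w Λ : ι → E → ℝ} {f g : ι → E → F} (h : Cl U w Λ f)
    (hU : Co U Λ) (hfg : ∀ j, ∀ z ∈ U j, f j z = g j z) : Cl U w Λ g := by
  have he : ∀ j, ∀ z ∈ U j, g j =ᶠ[𝓝 z] f j := fun j z hz => by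
    filter_upwards [(hU.isOpen j).mem_nhds hz] with y hy
    exact (hfg j y hy).symm
  refine ⟨fun j z hz => (h.smooth j z hz).congr_of_eventuallyEq (he j z hz), fun i => ?_⟩
  obtain ⟨C, m, hC⟩ := h.bound i
  refine ⟨C, m, fun j z hz => ?_⟩
  rw [((he j z hz).iteratedFDeriv ℝ i).eq_of_nhds]
  exact hC j z hz

theorem Cl.add {U : ι → Set E} {w Λ : ι → E → ℝ} {f g : ι → E → F} (hf : Cl U w Λ f)
    (hg : Cl U w Λ g) (hU : Co U Λ) (hw : ∀ j, ∀ z ∈ U j, 0 ≤ w j z) :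
    Cl U w Λ (fun j z => f j z + g j z) := by
  refine ⟨fun j z hz => (hf.smooth j z hz).add (hg.smooth j z hz), fun i => ?_⟩
  obtain ⟨C, m, hC⟩ := hf.bound i
  obtain ⟨C', m', hC'⟩ := hg.bound i
  refine ⟨|C| + |C'|, max m m', fun j z hz => ?_⟩
  have h1 := hU.one_le j z hz
  have hΛ : 0 ≤ Λ j z := le_trans zero_le_one h1
  have h2 : iteratedFDeriv ℝ i (fun z => f j z + g j z) z =
      iteratedFDeriv ℝ i (f j) z + iteratedFDeriv ℝ i (g j) z :=
    iteratedFDeriv_add_apply ((hf.smooth j z hz).of_le (a1_le i))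
      ((hg.smooth j z hz).of_le (a1_le i))
  have h3 : ∀ (D : ℝ) (n : ℕ), n ≤ max m m' → D * (w j z * Λ j z ^ n) ≤
      |D| * (w j z * Λ j z ^ max m m') := fun D n hn =>
    le_trans (a1_ab (mul_nonneg (hw j z hz) (pow_nonneg hΛ n)))
      (mul_le_mul_of_nonneg_left (mul_le_mul_of_nonneg_left (pow_le_pow_right₀ h1 hn)
        (hw j z hz)) (abs_nonneg D))
  rw [h2, add_mul]
  exact le_trans (norm_add_le _ _) (add_le_add (le_trans (hC j z hz) (h3 C m (le_max_left _ _)))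
    (le_trans (hC' j z hz) (h3 C' m' (le_max_right _ _))))

theorem Cl.neg {U : ι → Set E} {w Λ : ι → E → ℝ} {f : ι → E → F} (hf : Cl U w Λ f) :
    Cl U w Λ (fun j z => -f j z) := by
  refine ⟨fun j z hz => (hf.smooth j z hz).neg, fun i => ?_⟩
  obtain ⟨C, m, hC⟩ := hf.bound i
  refine ⟨C, m, fun j z hz => ?_⟩
  have h2 : iteratedFDeriv ℝ i (fun z => -f j z) z = -iteratedFDeriv ℝ i (f j) z :=
    iteratedFDeriv_neg_apply
  rw [h2, norm_neg]
  exact hC j z hz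

theorem Cl.sub {U : ι → Set E} {w Λ : ι → E → ℝ} {f g : ι → E → F} (hf : Cl U w Λ f)
    (hg : Cl U w Λ g) (hU : Co U Λ) (hw : ∀ j, ∀ z ∈ U j, 0 ≤ w j z) :
    Cl U w Λ (fun j z => f j z - g j z) := by
  have h1 := hf.add hg.neg hU hw
  refine h1.congr hU fun j z _ => ?_
  rw [sub_eq_add_neg]

theorem Cl.const_mul {U : ι → Set E} {w Λ : ι → E → ℝ} {f : ι → E → ℝ} (hf : Cl U w Λ f)
    (c : ℝ) : Cl U w Λ (fun j z => c * f j z) := by
  refine ⟨fun j z hz => contDiffAt_const.mul (hf.smooth j z hz), fun i => ?_⟩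
  obtain ⟨C, m, hC⟩ := hf.bound i
  refine ⟨|c| * C, m, fun j z hz => ?_⟩
  have h2 : iteratedFDeriv ℝ i (fun z => c * f j z) z = c • iteratedFDeriv ℝ i (f j) z :=
    iteratedFDeriv_const_smul_apply (a := c) ((hf.smooth j z hz).of_le (a1_le i))
  rw [h2, norm_smul, Real.norm_eq_abs, mul_assoc]
  exact mul_le_mul_of_nonneg_left (hC j z hz) (abs_nonneg c)

theorem Cl.const {U : ι → Set E} {Λ : ι → E → ℝ} (c : F) :
    Cl U (fun _ _ => 1) Λ (fun (_ : ι) (_ : E) => c) := by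
  refine ⟨fun j z _ => contDiffAt_const, fun i => ?_⟩
  rcases Nat.eq_zero_or_pos i with rfl | hi
  · refine ⟨‖c‖, 0, fun j z _ => ?_⟩
    rw [norm_iteratedFDeriv_zero, pow_zero, mul_one, mul_one]
  · refine ⟨0, 0, fun j z _ => ?_⟩
    rw [iteratedFDeriv_const_of_ne hi.ne' c]
    simp

theorem Cl.sl {U : ι → Set E} {w Λ : ι → E → ℝ} {f : ι → E → F} (h : Cl U w Λ f)
    (hU : Co U Λ) (hw : ∀ j, ∀ z ∈ U j, 0 ≤ w j z) (K : ℝ) (p : ℕ)
    (hww : ∀ j, ∀ z ∈ U j, w j z ≤ K * Λ j z ^ p) : Sl U Λ f := by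
  have h1 : Cl U (fun _ _ => 1) Λ f := h.mono hU hw K p fun j z hz => by
    rw [one_mul]
    exact hww j z hz
  refine ⟨h.smooth, fun i _ => ?_⟩
  obtain ⟨C, m, hC⟩ := h1.bound i
  refine ⟨C, m, fun j z hz => ?_⟩
  have h2 := hC j z hz
  rwa [one_mul] at h2

/-- a fixed function with bounded derivatives of positive order -/
theorem Sl.of_bounded {U : ι → Set E} {Λ : ι → E → ℝ} (hU : Co U Λ) (f : E → F) (hf : Sm f)
    (hb : ∀ i : ℕ, 1 ≤ i → ∃ C : ℝ, ∀ j, ∀ z ∈ U j, ‖iteratedFDeriv ℝ i f z‖ ≤ C) :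
    Sl U Λ (fun _ => f) := by
  refine ⟨fun j z _ => hf.contDiffAt, fun i hi => ?_⟩
  obtain ⟨C, hC⟩ := hb i hi
  refine ⟨C, 0, fun j z hz => ?_⟩
  rw [pow_zero, mul_one]
  exact hC j z hz

/-- a fixed smooth function, if all the sets `U j` are in a compact set -/
theorem Cl.of_compact {U : ι → Set E} {Λ : ι → E → ℝ} (hU : Co U Λ) (f : E → F) (hf : Sm f)
    (K : Set E) (hK : IsCompact K) (hUK : ∀ j, U j ⊆ K) :
    Cl U (fun _ _ => 1) Λ (fun _ => f) := by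
  refine ⟨fun j z _ => hf.contDiffAt, fun i => ?_⟩
  have h1 : Continuous fun z => ‖iteratedFDeriv ℝ i f z‖ :=
    (ContDiff.continuous_iteratedFDeriv (a1_le i) hf).norm
  obtain ⟨C, hC⟩ := hK.exists_bound_of_continuousOn h1.continuousOn
  refine ⟨C, 0, fun j z hz => ?_⟩
  rw [pow_zero, mul_one, mul_one]
  have h2 := hC z (hUK j hz)
  rwa [norm_norm] at h2

end CI
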