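import Pool.Agent.LibCI87.Cls

/-! ROW A2 (only Mathlib, ~50 lines).  Products.

At `z ∈ U j` (open): `iteratedFDeriv = iteratedFDerivWithin (U j)` (`iteratedFDerivWithin_of_isOpen`),
`norm_iteratedFDerivWithin_mul_le` (with `N = ⊤`; `ContDiffOn` on the open set from `ContDiffAt` at all
points, `IsOpen.uniqueDiffOn`), then the finite sum
`∑ l ≤ i, choose i l * (C_l w Λ^{m_l}) * (C'_{i-l} w' Λ^{m'_{i-l}})`: choose `C, m` by `choose` from
the hypotheses and bound each term by `choose i l * |C_l| * |C'_{i-l}| * (w w' Λ^M)` with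
`M = ∑_l (m_l + m'_{i-l})`. -/

set_option autoImplicit false

namespace CI

open Set Function Filter Topology

variable {ι E : Type*} [NormedAddCommGroup E] [NormedSpace ℝ E]

theorem Cl.mul {U : ι → Set E} {w w' Λ : ι → E → ℝ} {f g : ι → E → ℝ} (hf : Cl U w Λ f)
    (hg : Cl U w' Λ g) (hU : Co U Λ) (hw : ∀ j, ∀ z ∈ U j, 0 ≤ w j z)
    (hw' : ∀ j, ∀ z ∈ U j, 0 ≤ w' j z) :
    Cl U (fun j z => w j z * w' j z) Λ (fun j z => f j z * g j z) := by
  refine ⟨fun j z hz => (hf.smooth j z hz).mul (hg.smooth j z hz), fun i => ?_⟩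
  choose C m hC using hf.bound
  choose C' m' hC' using hg.bound
  refine ⟨∑ l ∈ Finset.range (i + 1), ((i.choose l : ℝ) * |C l| * |C' (i - l)|),
    ∑ l ∈ Finset.range (i + 1), (m l + m' (i - l)), fun j z hz => ?_⟩
  have hfo : ContDiffOn ℝ ((⊤ : ℕ∞) : WithTop ℕ∞) (f j) (U j) :=
    fun y hy => (hf.smooth j y hy).contDiffWithinAt
  have hgo : ContDiffOn ℝ ((⊤ : ℕ∞) : WithTop ℕ∞) (g j) (U j) :=
    fun y hy => (hg.smooth j y hy).contDiffWithinAt
  have h1 : ‖iteratedFDerivWithin ℝ i (fun y => f j y * g j y) (U j) z‖ ≤ _ :=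
    norm_iteratedFDerivWithin_mul_le hfo hgo (hU.isOpen j).uniqueDiffOn hz (n := i)
      (by exact_mod_cast le_top)
  rw [iteratedFDerivWithin_of_isOpen i (hU.isOpen j) hz] at h1
  refine h1.trans ?_
  rw [Finset.sum_mul]
  refine Finset.sum_le_sum fun l hl => ?_
  rw [iteratedFDerivWithin_of_isOpen l (hU.isOpen j) hz,
    iteratedFDerivWithin_of_isOpen (i - l) (hU.isOpen j) hz]
  have hL : 1 ≤ Λ j z := hU.one_le j z hz
  have hL0 : 0 ≤ Λ j z := zero_le_one.trans hL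
  have a1 : ‖iteratedFDeriv ℝ l (f j) z‖ ≤ |C l| * (w j z * Λ j z ^ m l) :=
    (hC l j z hz).trans (mul_le_mul_of_nonneg_right (le_abs_self _)
      (mul_nonneg (hw j z hz) (pow_nonneg hL0 _)))
  have a2 : ‖iteratedFDeriv ℝ (i - l) (g j) z‖ ≤ |C' (i - l)| * (w' j z * Λ j z ^ m' (i - l)) :=
    (hC' (i - l) j z hz).trans (mul_le_mul_of_nonneg_right (le_abs_self _)
      (mul_nonneg (hw' j z hz) (pow_nonneg hL0 _)))
  have a3 : Λ j z ^ (m l + m' (i - l)) ≤
      Λ j z ^ (∑ l ∈ Finset.range (i + 1), (m l + m' (i - l))) :=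
    pow_le_pow_right₀ hL
      (Finset.single_le_sum (f := fun l => m l + m' (i - l)) (fun _ _ => Nat.zero_le _) hl)
  have a4 : ‖iteratedFDeriv ℝ l (f j) z‖ * ‖iteratedFDeriv ℝ (i - l) (g j) z‖ ≤
      (|C l| * (w j z * Λ j z ^ m l)) * (|C' (i - l)| * (w' j z * Λ j z ^ m' (i - l))) :=
    mul_le_mul a1 a2 (norm_nonneg _) (mul_nonneg (abs_nonneg _)
      (mul_nonneg (hw j z hz) (pow_nonneg hL0 _)))
  have hnn : 0 ≤ ((i.choose l : ℝ) * |C l| * |C' (i - l)|) * (w j z * w' j z) :=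
    mul_nonneg (by positivity) (mul_nonneg (hw j z hz) (hw' j z hz))
  calc (i.choose l : ℝ) * ‖iteratedFDeriv ℝ l (f j) z‖ * ‖iteratedFDeriv ℝ (i - l) (g j) z‖
      = (i.choose l : ℝ) * (‖iteratedFDeriv ℝ l (f j) z‖ * ‖iteratedFDeriv ℝ (i - l) (g j) z‖) := by
        ring
    _ ≤ (i.choose l : ℝ) * ((|C l| * (w j z * Λ j z ^ m l)) *
          (|C' (i - l)| * (w' j z * Λ j z ^ m' (i - l)))) :=
        mul_le_mul_of_nonneg_left a4 (by positivity)
    _ = (((i.choose l : ℝ) * |C l| * |C' (i - l)|) * (w j z * w' j z)) *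
          Λ j z ^ (m l + m' (i - l)) := by rw [pow_add]; ring
    _ ≤ (((i.choose l : ℝ) * |C l| * |C' (i - l)|) * (w j z * w' j z)) *
          Λ j z ^ (∑ l ∈ Finset.range (i + 1), (m l + m' (i - l))) :=
        mul_le_mul_of_nonneg_left a3 hnn
    _ = ((i.choose l : ℝ) * |C l| * |C' (i - l)|) * (w j z * w' j z *
          Λ j z ^ (∑ l ∈ Finset.range (i + 1), (m l + m' (i - l)))) := by ring

end CI
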