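import Pool.Agent.LibCI87.Cls

/-! ROW A3 (only Mathlib, ~80 lines).  Composition.

Fix `i`.  For each `j`, `z ∈ U j` apply `norm_iteratedFDerivWithin_comp_le` (order `n = i`, `N = i`)
to `φ j` on an open neighbourhood `t` of `f j z` on which it is `C^i` and to `f j` on an open
neighbourhood `s` of `z` with `f j '' s ⊆ t` (`ContDiffAt.contDiffOn`, `ContDiffAt.continuousAt`), with
`C = max over l ≤ i of |C_l| * (w Λ^{m_l})` and `D = K Λ^M`, `K, M` such that
`C'_l Λ^{m'_l} ≤ D ^ l` for `1 ≤ l ≤ i` (`K = 1 + ∑|C'_l|`, `M = ∑ m'_l`, `D ≥ 1`).  On open sets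
`iteratedFDerivWithin = iteratedFDeriv`.  (One may shorten by first proving a pointwise version:
if `ContDiffAt ℝ i g (f x)`, `ContDiffAt ℝ i f x`, bounds as in `norm_iteratedFDeriv_comp_le`, then the
same conclusion.  This pointwise version `norm_comp_le_at` is also used in row A4.) -/

set_option autoImplicit false

namespace CI

open Set Function Filter Topology

variable {ι E F G : Type*} [NormedAddCommGroup E] [NormedSpace ℝ E] [NormedAddCommGroup F]
  [NormedSpace ℝ F] [NormedAddCommGroup G] [NormedSpace ℝ G]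

theorem norm_comp_le_at {g : F → G} {f : E → F} {n : ℕ} {x : E}
    (hg : ContDiffAt ℝ n g (f x)) (hf : ContDiffAt ℝ n f x) {C D : ℝ}
    (hC : ∀ i ≤ n, ‖iteratedFDeriv ℝ i g (f x)‖ ≤ C)
    (hD : ∀ i, 1 ≤ i → i ≤ n → ‖iteratedFDeriv ℝ i f x‖ ≤ D ^ i) :
    ‖iteratedFDeriv ℝ n (fun z => g (f z)) x‖ ≤ n.factorial * C * D ^ n := by
  obtain ⟨t, ht, hgt⟩ := hg.contDiffOn (m := (n : WithTop ℕ∞)) le_rfl (by simp)
  obtain ⟨u, hu, hfu⟩ := hf.contDiffOn (m := (n : WithTop ℕ∞)) le_rfl (by simp)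
  obtain ⟨t', ht't, ht'o, hxt'⟩ := mem_nhds_iff.1 ht
  have h1 : f ⁻¹' t' ∈ 𝓝 x := hf.continuousAt.preimage_mem_nhds (ht'o.mem_nhds hxt')
  obtain ⟨s, hsu, hso, hxs⟩ := mem_nhds_iff.1 (Filter.inter_mem hu h1)
  have hmap : MapsTo f s t' := fun y hy => (hsu hy).2
  have h2 := norm_iteratedFDerivWithin_comp_le (n := n) (N := (n : WithTop ℕ∞)) (x := x)
    (hgt.mono ht't) (hfu.mono (fun y hy => (hsu hy).1)) le_rfl ht'o.uniqueDiffOn hso.uniqueDiffOn
    hmap hxs (C := C) (D := D)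
    (fun i hi => by rw [iteratedFDerivWithin_of_isOpen i ht'o hxt']; exact hC i hi)
    (fun i hi hi' => by rw [iteratedFDerivWithin_of_isOpen i hso hxs]; exact hD i hi hi')
  rw [iteratedFDerivWithin_of_isOpen n hso hxs] at h2
  exact h2

theorem Cl.comp {U : ι → Set E} {w Λ : ι → E → ℝ} {f : ι → E → F} {φ : ι → F → G}
    (hf : Sl U Λ f) (hU : Co U Λ) (hw : ∀ j, ∀ z ∈ U j, 0 ≤ w j z)
    (hφs : ∀ j, ∀ z ∈ U j, ContDiffAt ℝ ((⊤ : ℕ∞) : WithTop ℕ∞) (φ j) (f j z))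
    (hφ : ∀ i : ℕ, ∃ C : ℝ, ∃ m : ℕ, ∀ j, ∀ z ∈ U j,
      ‖iteratedFDeriv ℝ i (φ j) (f j z)‖ ≤ C * (w j z * Λ j z ^ m)) :
    Cl U w Λ (fun j z => φ j (f j z)) := by
  refine ⟨fun j z hz => (hφs j z hz).comp z (hf.smooth j z hz), fun i => ?_⟩
  choose C m hC using hφ
  choose C' m' hC' using hf.bound
  -- extend C' to order 0
  let A : ℕ → ℝ := fun l => if h : 1 ≤ l then C' l h else 0
  let a : ℕ → ℕ := fun l => if h : 1 ≤ l then m' l h else 0
  have hA : ∀ l, 1 ≤ l → ∀ j, ∀ z ∈ U j, ‖iteratedFDeriv ℝ l (f j) z‖ ≤ A l * Λ j z ^ a l := by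
    intro l hl j z hz
    have := hC' l hl j z hz
    simp only [A, a, dif_pos hl]
    exact this
  set K : ℝ := 1 + ∑ l ∈ Finset.range (i + 1), |A l| with hK
  set M : ℕ := ∑ l ∈ Finset.range (i + 1), a l with hM
  set K0 : ℝ := ∑ l ∈ Finset.range (i + 1), |C l| with hK0
  set M0 : ℕ := ∑ l ∈ Finset.range (i + 1), m l with hM0
  have hK1 : 1 ≤ K := by
    have : 0 ≤ ∑ l ∈ Finset.range (i + 1), |A l| := Finset.sum_nonneg fun _ _ => abs_nonneg _
    rw [hK]; linarith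
  refine ⟨i.factorial * K0 * K ^ i, M0 + M * i, fun j z hz => ?_⟩
  have hL : 1 ≤ Λ j z := hU.one_le j z hz
  have hL0 : 0 ≤ Λ j z := zero_le_one.trans hL
  have hD1 : 1 ≤ K * Λ j z ^ M := by
    have := one_le_pow₀ hL (n := M)
    nlinarith
  have hin : (i : WithTop ℕ∞) ≤ ((⊤ : ℕ∞) : WithTop ℕ∞) := by exact_mod_cast le_top
  have key := norm_comp_le_at (g := φ j) (f := f j) (n := i) (x := z)
    ((hφs j z hz).of_le hin) ((hf.smooth j z hz).of_le hin)
    (C := K0 * (w j z * Λ j z ^ M0)) (D := K * Λ j z ^ M)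
    (fun l hl => by
      have hl' : l ∈ Finset.range (i + 1) := Finset.mem_range.2 (by omega)
      have b1 : |C l| ≤ K0 :=
        Finset.single_le_sum (f := fun l => |C l|) (fun _ _ => abs_nonneg _) hl'
      have b2 : Λ j z ^ m l ≤ Λ j z ^ M0 :=
        pow_le_pow_right₀ hL (Finset.single_le_sum (f := fun l => m l) (fun _ _ => Nat.zero_le _) hl')
      calc ‖iteratedFDeriv ℝ l (φ j) (f j z)‖ ≤ C l * (w j z * Λ j z ^ m l) := hC l j z hz
        _ ≤ |C l| * (w j z * Λ j z ^ m l) := mul_le_mul_of_nonneg_right (le_abs_self _)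
            (mul_nonneg (hw j z hz) (pow_nonneg hL0 _))
        _ ≤ K0 * (w j z * Λ j z ^ M0) := mul_le_mul b1
            (mul_le_mul_of_nonneg_left b2 (hw j z hz))
            (mul_nonneg (hw j z hz) (pow_nonneg hL0 _)) ((abs_nonneg _).trans b1))
    (fun l hl1 hl => by
      have hl' : l ∈ Finset.range (i + 1) := Finset.mem_range.2 (by omega)
      have b1 : |A l| ≤ K := by
        have : |A l| ≤ ∑ l ∈ Finset.range (i + 1), |A l| :=
          Finset.single_le_sum (f := fun l => |A l|) (fun _ _ => abs_nonneg _) hl'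
        rw [hK]; linarith
      have b2 : Λ j z ^ a l ≤ Λ j z ^ M :=
        pow_le_pow_right₀ hL (Finset.single_le_sum (f := fun l => a l) (fun _ _ => Nat.zero_le _) hl')
      calc ‖iteratedFDeriv ℝ l (f j) z‖ ≤ A l * Λ j z ^ a l := hA l hl1 j z hz
        _ ≤ |A l| * Λ j z ^ a l := mul_le_mul_of_nonneg_right (le_abs_self _) (pow_nonneg hL0 _)
        _ ≤ K * Λ j z ^ M := mul_le_mul b1 b2 (pow_nonneg hL0 _) ((abs_nonneg _).trans b1)
        _ ≤ (K * Λ j z ^ M) ^ l := le_self_pow₀ hD1 (by omega))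
  refine key.trans (le_of_eq ?_)
  rw [mul_pow, pow_add, pow_mul]
  ring

end CI
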