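import Pool.Agent.LibCI87.A3

/-! ROW A4 (~80 lines).  Scaled composition (symbols).  Use `norm_comp_le_at` (A3, stated).

Fix `i`, `j`, `z₀ ∈ U j`, `c = f j z₀ > 0`.  Apply `norm_comp_le_at` at `z₀` to `F z = f j z / c`
(`F z₀ = 1`, `‖D^l F z₀‖ = ‖D^l f z₀‖ / c ≤ |C_l| Λ^{m_l} ≤ D^l`, `D = (1 + ∑|C_l|) Λ^{∑ m_l}`) and
`g t = φ j (c * t)` (`‖D^l g 1‖ = |iteratedDeriv l g 1| = c^l |iteratedDeriv l (φ j) c| ≤ C w Λ^m`:
`iteratedDeriv_comp_const_mul`-type lemma, `norm_iteratedFDeriv_eq_norm_iteratedDeriv`; prove the scaling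
formula by `iteratedDeriv_const_mul`/`iteratedDeriv_comp_const_smul`, at a point only, e.g. for functions
`C^l` near the point; if the library lemma needs global smoothness, prove it by induction on `l` as an
eventual equality near `1`).  `φ j (f j z) = g (F z)`. -/

set_option autoImplicit false

namespace CI

open Set Function Filter Topology

variable {ι E : Type*} [NormedAddCommGroup E] [NormedSpace ℝ E]

theorem A4_iteratedDeriv_scale (φ : ℝ → ℝ) (c : ℝ) (l : ℕ) :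
    iteratedDeriv l (fun t => φ (c * t)) = fun x => c ^ l * iteratedDeriv l φ (c * x) := by
  induction l with
  | zero => funext x; simp
  | succ l ih =>
    rw [iteratedDeriv_succ, ih]
    funext x
    rw [deriv_const_mul_field]
    have h1 : deriv (fun x => iteratedDeriv l φ (c * x)) x = c • deriv (iteratedDeriv l φ) (c * x) :=
      deriv_comp_mul_left c (iteratedDeriv l φ) x
    rw [h1, ← iteratedDeriv_succ, smul_eq_mul]
    ring

theorem Cl.comp_scaled {U : ι → Set E} {w Λ : ι → E → ℝ} {f : ι → E → ℝ} {φ : ι → ℝ → ℝ}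
    (hf : Cl U f Λ f) (hU : Co U Λ) (hw : ∀ j, ∀ z ∈ U j, 0 ≤ w j z)
    (hpos : ∀ j, ∀ z ∈ U j, 0 < f j z)
    (hφs : ∀ j, ∀ z ∈ U j, ContDiffAt ℝ ((⊤ : ℕ∞) : WithTop ℕ∞) (φ j) (f j z))
    (hφ : ∀ i : ℕ, ∃ C : ℝ, ∃ m : ℕ, ∀ j, ∀ z ∈ U j,
      |iteratedDeriv i (φ j) (f j z)| * f j z ^ i ≤ C * (w j z * Λ j z ^ m)) :
    Cl U w Λ (fun j z => φ j (f j z)) := by
  refine ⟨fun j z hz => (hφs j z hz).comp z (hf.smooth j z hz), fun i => ?_⟩
  choose C m hC using hφ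
  choose A a hA using hf.bound
  set K : ℝ := 1 + ∑ l ∈ Finset.range (i + 1), |A l| with hK
  set M : ℕ := ∑ l ∈ Finset.range (i + 1), a l with hM
  set K0 : ℝ := ∑ l ∈ Finset.range (i + 1), |C l| with hK0
  set M0 : ℕ := ∑ l ∈ Finset.range (i + 1), m l with hM0
  have hK1 : 1 ≤ K := by
    have : 0 ≤ ∑ l ∈ Finset.range (i + 1), |A l| := Finset.sum_nonneg fun _ _ => abs_nonneg _
    rw [hK]; linarith
  refine ⟨i.factorial * K0 * K ^ i, M0 + M * i, fun j z hz => ?_⟩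
  have hL : 1 ≤ Λ j z := hU.one_le j z hz
  have hL0 : 0 ≤ Λ j z := zero_le_one.trans hL
  have hD1 : 1 ≤ K * Λ j z ^ M := by
    have := one_le_pow₀ hL (n := M)
    nlinarith
  have hin : ∀ l : ℕ, (l : WithTop ℕ∞) ≤ ((⊤ : ℕ∞) : WithTop ℕ∞) := fun l => by
    exact_mod_cast le_top
  have hc0 : 0 < f j z := hpos j z hz
  obtain ⟨c, hc⟩ : ∃ c, c = f j z := ⟨_, rfl⟩
  have hcpos : 0 < c := by rw [hc]; exact hc0
  have hcz : c * (c⁻¹ * f j z) = c := by rw [← hc]; field_simp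
  have e1 : (fun y => φ j (f j y)) = fun y => (fun t => φ j (c * t)) ((fun y => c⁻¹ * f j y) y) := by
    funext y
    have : c * (c⁻¹ * f j y) = f j y := by field_simp
    simp only [this]
  have hgs : ContDiffAt ℝ ((⊤ : ℕ∞) : WithTop ℕ∞) (fun t => φ j (c * t)) (c⁻¹ * f j z) := by
    have h1 : ContDiffAt ℝ ((⊤ : ℕ∞) : WithTop ℕ∞) (φ j) (c * (c⁻¹ * f j z)) := by
      rw [hcz, hc]; exact hφs j z hz
    exact ContDiffAt.comp (c⁻¹ * f j z) h1 (contDiffAt_const.mul contDiffAt_id)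
  have hFs : ContDiffAt ℝ ((⊤ : ℕ∞) : WithTop ℕ∞) (fun y => c⁻¹ * f j y) z :=
    contDiffAt_const.mul (hf.smooth j z hz)
  have key := norm_comp_le_at (g := fun t => φ j (c * t)) (f := fun y => c⁻¹ * f j y) (n := i) (x := z)
    (hgs.of_le (hin i)) (hFs.of_le (hin i))
    (C := K0 * (w j z * Λ j z ^ M0)) (D := K * Λ j z ^ M)
    (fun l hl => by
      have hl' : l ∈ Finset.range (i + 1) := Finset.mem_range.2 (by omega)
      have b1 : |C l| ≤ K0 :=
        Finset.single_le_sum (f := fun l => |C l|) (fun _ _ => abs_nonneg _) hl'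
      have b2 : Λ j z ^ m l ≤ Λ j z ^ M0 :=
        pow_le_pow_right₀ hL (Finset.single_le_sum (f := fun l => m l) (fun _ _ => Nat.zero_le _) hl')
      have b3 : ‖iteratedFDeriv ℝ l (fun t => φ j (c * t)) (c⁻¹ * f j z)‖ =
          |iteratedDeriv l (φ j) (f j z)| * f j z ^ l := by
        rw [norm_iteratedFDeriv_eq_norm_iteratedDeriv, A4_iteratedDeriv_scale]
        simp only [hcz]
        rw [Real.norm_eq_abs, abs_mul, abs_of_pos (pow_pos hcpos l), hc]
        ring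
      calc ‖iteratedFDeriv ℝ l (fun t => φ j (c * t)) (c⁻¹ * f j z)‖
          = |iteratedDeriv l (φ j) (f j z)| * f j z ^ l := b3
        _ ≤ C l * (w j z * Λ j z ^ m l) := hC l j z hz
        _ ≤ |C l| * (w j z * Λ j z ^ m l) := mul_le_mul_of_nonneg_right (le_abs_self _)
            (mul_nonneg (hw j z hz) (pow_nonneg hL0 _))
        _ ≤ K0 * (w j z * Λ j z ^ M0) := mul_le_mul b1
            (mul_le_mul_of_nonneg_left b2 (hw j z hz))
            (mul_nonneg (hw j z hz) (pow_nonneg hL0 _)) ((abs_nonneg _).trans b1))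
    (fun l hl1 hl => by
      have hl' : l ∈ Finset.range (i + 1) := Finset.mem_range.2 (by omega)
      have b1 : |A l| ≤ K := by
        have : |A l| ≤ ∑ l ∈ Finset.range (i + 1), |A l| :=
          Finset.single_le_sum (f := fun l => |A l|) (fun _ _ => abs_nonneg _) hl'
        rw [hK]; linarith
      have b2 : Λ j z ^ a l ≤ Λ j z ^ M :=
        pow_le_pow_right₀ hL (Finset.single_le_sum (f := fun l => a l) (fun _ _ => Nat.zero_le _) hl')
      have b3 : ‖iteratedFDeriv ℝ l (fun y => c⁻¹ * f j y) z‖ = c⁻¹ * ‖iteratedFDeriv ℝ l (f j) z‖ := by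
        have h1 : (fun y => c⁻¹ * f j y) = c⁻¹ • (f j) := by
          funext y; simp
        rw [h1, iteratedFDeriv_const_smul_apply ((hf.smooth j z hz).of_le (hin l)), norm_smul,
          Real.norm_eq_abs, abs_of_pos (inv_pos.2 hcpos)]
      have b4 : ‖iteratedFDeriv ℝ l (f j) z‖ ≤ |A l| * (f j z * Λ j z ^ a l) :=
        (hA l j z hz).trans (mul_le_mul_of_nonneg_right (le_abs_self _)
          (mul_nonneg hc0.le (pow_nonneg hL0 _)))
      calc ‖iteratedFDeriv ℝ l (fun y => c⁻¹ * f j y) z‖ = c⁻¹ * ‖iteratedFDeriv ℝ l (f j) z‖ := b3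
        _ ≤ c⁻¹ * (|A l| * (f j z * Λ j z ^ a l)) :=
            mul_le_mul_of_nonneg_left b4 (inv_pos.2 hcpos).le
        _ = |A l| * Λ j z ^ a l := by rw [← hc]; field_simp
        _ ≤ K * Λ j z ^ M := mul_le_mul b1 b2 (pow_nonneg hL0 _) ((abs_nonneg _).trans b1)
        _ ≤ (K * Λ j z ^ M) ^ l := le_self_pow₀ hD1 (by omega))
  have e2 : iteratedFDeriv ℝ i (fun y => φ j (f j y)) z =
      iteratedFDeriv ℝ i (fun y => (fun t => φ j (c * t)) ((fun y => c⁻¹ * f j y) y)) z := by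
    rw [← e1]
  rw [e2]
  refine key.trans (le_of_eq ?_)
  rw [mul_pow, pow_add, pow_mul]
  ring

theorem A4_inv (i : ℕ) (x : ℝ) (hx : 0 < x) :
    |iteratedDeriv i (fun t : ℝ => t⁻¹) x| * x ^ i = i.factorial * x⁻¹ := by
  have h : iteratedDeriv i (fun t : ℝ => t⁻¹) x = (-1) ^ i * (i.factorial : ℝ) * x ^ (-1 - (i : ℤ)) := by
    rw [iteratedDeriv_eq_iterate]
    exact iter_deriv_inv i x
  rw [h, abs_mul, abs_mul, abs_pow, abs_neg, abs_one, one_pow, one_mul,
    abs_of_nonneg (by positivity : (0 : ℝ) ≤ (i.factorial : ℝ)), abs_of_pos (zpow_pos hx _), mul_assoc]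
  congr 1
  have h2 : x ^ (-1 - (i : ℤ)) = x⁻¹ * (x ^ i)⁻¹ := by
    rw [zpow_sub₀ hx.ne', zpow_neg_one, zpow_natCast]
    rfl
  rw [h2, mul_assoc, inv_mul_cancel₀ (pow_pos hx i).ne', mul_one]

/-- `log` of a function of class `Cl f` -/
theorem Cl.log {U : ι → Set E} {Λ : ι → E → ℝ} {f : ι → E → ℝ} (hf : Cl U f Λ f) (hU : Co U Λ)
    (hpos : ∀ j, ∀ z ∈ U j, 0 < f j z) (K : ℝ) (p : ℕ)
    (hlog : ∀ j, ∀ z ∈ U j, |Real.log (f j z)| ≤ K * Λ j z ^ p) :
    Cl U (fun _ _ => 1) Λ (fun j z => Real.log (f j z)) := by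
  refine Cl.comp_scaled (φ := fun _ => Real.log) hf hU (fun _ _ _ => zero_le_one) hpos
    (fun j z hz => Real.contDiffAt_log.2 (hpos j z hz).ne') (fun i => ?_)
  rcases Nat.eq_zero_or_pos i with h0 | h0
  · refine ⟨K, p, fun j z hz => ?_⟩
    subst h0
    simpa using hlog j z hz
  · obtain ⟨n, rfl⟩ : ∃ n, i = n + 1 := ⟨i - 1, by omega⟩
    refine ⟨n.factorial, 0, fun j z hz => ?_⟩
    have hx := hpos j z hz
    have h1 : iteratedDeriv (n + 1) Real.log = iteratedDeriv n (fun t : ℝ => t⁻¹) := by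
      rw [iteratedDeriv_succ', Real.deriv_log']
    rw [h1, pow_succ, ← mul_assoc, A4_inv n _ hx]
    rw [mul_assoc, inv_mul_cancel₀ hx.ne']
    simp

/-- the inverse of a function of class `Cl f` -/
theorem Cl.inv {U : ι → Set E} {Λ : ι → E → ℝ} {f : ι → E → ℝ} (hf : Cl U f Λ f) (hU : Co U Λ)
    (hpos : ∀ j, ∀ z ∈ U j, 0 < f j z) :
    Cl U (fun j z => (f j z)⁻¹) Λ (fun j z => (f j z)⁻¹) := by
  refine Cl.comp_scaled (φ := fun _ t => t⁻¹) hf hU (fun j z hz => (inv_pos.2 (hpos j z hz)).le) hpos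
    (fun j z hz => contDiffAt_inv ℝ (hpos j z hz).ne') (fun i => ?_)
  refine ⟨i.factorial, 0, fun j z hz => ?_⟩
  rw [A4_inv i _ (hpos j z hz)]
  simp

end CI
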