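import Pool.Agent.LibCI87.A1
import Pool.Agent.LibCI87.A2
import Pool.Agent.LibCI87.A3

/-! ROW A5 (~110 lines).  Tiny functions.  Use A1, A2, A3 (stated).

* `of_cl`: `‖D^i f‖ Λ^k ≤ C w Λ^(m+k) ≤ |C| C'`.
* `cl`: `k = 0`.
* `mul_cl`: Leibniz as in A2 (`norm_iteratedFDerivWithin_mul_le` on the open set `U j`), each term
  `‖D^l f‖ ‖D^{i-l} g‖ Λ^k ≤ |C| (‖D^l f‖ Λ^{m+k}) ≤ ..`.
* `log1p`: pointwise composition: `log (1 + t) = t * R t` is avoided as follows.  Fix `i, k`.  At `z₀ ∈ U j`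
  let `δ > 0` be such that `‖D^l t z₀‖ ≤ δ` for `l ≤ i` (e.g. `δ = κ + max_l ‖D^l t z₀‖`, `κ > 0`
  arbitrary, `δ ≤ C₀ + 1`).  Write `log (1 + t z) = g (τ z)`, `τ = t / δ` (so `‖D^l τ z₀‖ ≤ 1`),
  `g s = log (1 + δ s)`; at `s₀ = τ z₀` (so `δ s₀ = t z₀ ∈ [-1/2, 1/2]`) one has `|g s₀| ≤ 2 δ`,
  `|iteratedDeriv l g s₀| ≤ δ^l (l-1)! 2^l ≤ C_l δ` (`δ ≤ C₀ + 1`).  `norm_comp_le_at` (A3) gives
  `‖D^i log(1+t) z₀‖ ≤ i! C δ`, and let `κ → 0`; finally `δ Λ^k ≤ C'`.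
  (Alternative: induction on the order with `D log(1+t) = (1+t)⁻¹ • D t`.) -/

set_option autoImplicit false

namespace CI

open Set Function Filter Topology

variable {ι E : Type*} [NormedAddCommGroup E] [NormedSpace ℝ E]

theorem A5_smooth_le (l : ℕ) : (l : WithTop ℕ∞) ≤ ((⊤ : ℕ∞) : WithTop ℕ∞) := by
  exact_mod_cast le_top

theorem Tn.of_cl {U : ι → Set E} {w Λ : ι → E → ℝ} {f : ι → E → ℝ} (hf : Cl U w Λ f)
    (hw : ∀ j, ∀ z ∈ U j, 0 ≤ w j z) (hU : Co U Λ)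
    (hwt : ∀ k : ℕ, ∃ C : ℝ, ∀ j, ∀ z ∈ U j, w j z * Λ j z ^ k ≤ C) : Tn U Λ f := by
  refine ⟨hf.smooth, fun i k => ?_⟩
  obtain ⟨C, m, hC⟩ := hf.bound i
  obtain ⟨C', hC'⟩ := hwt (m + k)
  refine ⟨|C| * C', fun j z hz => ?_⟩
  have hL : 1 ≤ Λ j z := hU.one_le j z hz
  have hL0 : 0 ≤ Λ j z := zero_le_one.trans hL
  calc ‖iteratedFDeriv ℝ i (f j) z‖ * Λ j z ^ k
      ≤ (|C| * (w j z * Λ j z ^ m)) * Λ j z ^ k := by
        refine mul_le_mul_of_nonneg_right ?_ (pow_nonneg hL0 _)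
        exact (hC j z hz).trans (mul_le_mul_of_nonneg_right (le_abs_self _)
          (mul_nonneg (hw j z hz) (pow_nonneg hL0 _)))
    _ = |C| * (w j z * Λ j z ^ (m + k)) := by rw [pow_add]; ring
    _ ≤ |C| * C' := mul_le_mul_of_nonneg_left (hC' j z hz) (abs_nonneg _)

theorem Tn.cl {U : ι → Set E} {Λ : ι → E → ℝ} {f : ι → E → ℝ} (hf : Tn U Λ f) :
    Cl U (fun _ _ => 1) Λ f := by
  refine ⟨hf.smooth, fun i => ?_⟩
  obtain ⟨C, hC⟩ := hf.bound i 0
  refine ⟨C, 0, fun j z hz => ?_⟩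
  have := hC j z hz
  simpa using this

theorem Tn.add {U : ι → Set E} {Λ : ι → E → ℝ} {f g : ι → E → ℝ} (hf : Tn U Λ f)
    (hg : Tn U Λ g) (hU : Co U Λ) : Tn U Λ (fun j z => f j z + g j z) := by
  refine ⟨fun j z hz => (hf.smooth j z hz).add (hg.smooth j z hz), fun i k => ?_⟩
  obtain ⟨C, hC⟩ := hf.bound i k
  obtain ⟨C', hC'⟩ := hg.bound i k
  refine ⟨C + C', fun j z hz => ?_⟩
  have hL0 : 0 ≤ Λ j z := zero_le_one.trans (hU.one_le j z hz)
  have h1 : iteratedFDeriv ℝ i (fun z => f j z + g j z) z =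
      iteratedFDeriv ℝ i (f j) z + iteratedFDeriv ℝ i (g j) z :=
    iteratedFDeriv_add_apply ((hf.smooth j z hz).of_le (A5_smooth_le i))
      ((hg.smooth j z hz).of_le (A5_smooth_le i))
  rw [h1]
  calc ‖iteratedFDeriv ℝ i (f j) z + iteratedFDeriv ℝ i (g j) z‖ * Λ j z ^ k
      ≤ (‖iteratedFDeriv ℝ i (f j) z‖ + ‖iteratedFDeriv ℝ i (g j) z‖) * Λ j z ^ k :=
        mul_le_mul_of_nonneg_right (norm_add_le _ _) (pow_nonneg hL0 _)
    _ = ‖iteratedFDeriv ℝ i (f j) z‖ * Λ j z ^ k + ‖iteratedFDeriv ℝ i (g j) z‖ * Λ j z ^ k := by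
        ring
    _ ≤ C + C' := add_le_add (hC j z hz) (hC' j z hz)

theorem Tn.neg {U : ι → Set E} {Λ : ι → E → ℝ} {f : ι → E → ℝ} (hf : Tn U Λ f) :
    Tn U Λ (fun j z => -f j z) := by
  refine ⟨fun j z hz => (hf.smooth j z hz).neg, fun i k => ?_⟩
  obtain ⟨C, hC⟩ := hf.bound i k
  refine ⟨C, fun j z hz => ?_⟩
  have h1 : iteratedFDeriv ℝ i (fun z => -f j z) z = -iteratedFDeriv ℝ i (f j) z :=
    iteratedFDeriv_neg_apply
  rw [h1, norm_neg]
  exact hC j z hz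

theorem Tn.mul_cl {U : ι → Set E} {Λ : ι → E → ℝ} {f g : ι → E → ℝ} (hf : Tn U Λ f)
    (hg : Cl U (fun _ _ => 1) Λ g) (hU : Co U Λ) : Tn U Λ (fun j z => f j z * g j z) := by
  refine ⟨fun j z hz => (hf.smooth j z hz).mul (hg.smooth j z hz), fun i k => ?_⟩
  choose C' m' hC' using hg.bound
  choose C hC using hf.bound
  refine ⟨∑ l ∈ Finset.range (i + 1),
    ((i.choose l : ℝ) * C l (m' (i - l) + k) * |C' (i - l)|), fun j z hz => ?_⟩
  have hL : 1 ≤ Λ j z := hU.one_le j z hz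
  have hL0 : 0 ≤ Λ j z := zero_le_one.trans hL
  have hfo : ContDiffOn ℝ ((⊤ : ℕ∞) : WithTop ℕ∞) (f j) (U j) :=
    fun y hy => (hf.smooth j y hy).contDiffWithinAt
  have hgo : ContDiffOn ℝ ((⊤ : ℕ∞) : WithTop ℕ∞) (g j) (U j) :=
    fun y hy => (hg.smooth j y hy).contDiffWithinAt
  have h1 : ‖iteratedFDerivWithin ℝ i (fun y => f j y * g j y) (U j) z‖ ≤ _ :=
    norm_iteratedFDerivWithin_mul_le hfo hgo (hU.isOpen j).uniqueDiffOn hz (n := i)
      (by exact_mod_cast le_top)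
  rw [iteratedFDerivWithin_of_isOpen i (hU.isOpen j) hz] at h1
  refine (mul_le_mul_of_nonneg_right h1 (pow_nonneg hL0 k)).trans ?_
  rw [Finset.sum_mul]
  refine Finset.sum_le_sum fun l hl => ?_
  rw [iteratedFDerivWithin_of_isOpen l (hU.isOpen j) hz,
    iteratedFDerivWithin_of_isOpen (i - l) (hU.isOpen j) hz]
  have a2 : ‖iteratedFDeriv ℝ (i - l) (g j) z‖ ≤ |C' (i - l)| * Λ j z ^ m' (i - l) := by
    have := hC' (i - l) j z hz
    rw [one_mul] at this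
    exact this.trans (mul_le_mul_of_nonneg_right (le_abs_self _) (pow_nonneg hL0 _))
  have a1 := hC l (m' (i - l) + k) j z hz
  calc (i.choose l : ℝ) * ‖iteratedFDeriv ℝ l (f j) z‖ * ‖iteratedFDeriv ℝ (i - l) (g j) z‖ *
        Λ j z ^ k
      ≤ (i.choose l : ℝ) * ‖iteratedFDeriv ℝ l (f j) z‖ * (|C' (i - l)| * Λ j z ^ m' (i - l)) *
        Λ j z ^ k := by
        refine mul_le_mul_of_nonneg_right ?_ (pow_nonneg hL0 k)
        exact mul_le_mul_of_nonneg_left a2 (by positivity)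
    _ = (i.choose l : ℝ) * (‖iteratedFDeriv ℝ l (f j) z‖ * Λ j z ^ (m' (i - l) + k)) *
        |C' (i - l)| := by rw [pow_add]; ring
    _ ≤ (i.choose l : ℝ) * C l (m' (i - l) + k) * |C' (i - l)| := by
        refine mul_le_mul_of_nonneg_right ?_ (abs_nonneg _)
        exact mul_le_mul_of_nonneg_left a1 (by positivity)

theorem A5_iteratedDeriv_scale (φ : ℝ → ℝ) (c : ℝ) (l : ℕ) :
    iteratedDeriv l (fun t => φ (c * t)) = fun x => c ^ l * iteratedDeriv l φ (c * x) := by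
  induction l with
  | zero => funext x; simp
  | succ l ih =>
    rw [iteratedDeriv_succ, ih]
    funext x
    rw [deriv_const_mul_field]
    have h1 : deriv (fun x => iteratedDeriv l φ (c * x)) x = c • deriv (iteratedDeriv l φ) (c * x) :=
      deriv_comp_mul_left c (iteratedDeriv l φ) x
    rw [h1, ← iteratedDeriv_succ, smul_eq_mul]
    ring

theorem A5_log_deriv (n : ℕ) (x : ℝ) (hx : 1 / 2 ≤ x) :
    |iteratedDeriv (n + 1) Real.log x| ≤ n.factorial * 2 ^ (n + 1) := by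
  have hx0 : 0 < x := by linarith
  have h1 : iteratedDeriv (n + 1) Real.log = iteratedDeriv n (fun t : ℝ => t⁻¹) := by
    rw [iteratedDeriv_succ', Real.deriv_log']
  have h : iteratedDeriv n (fun t : ℝ => t⁻¹) x = (-1) ^ n * (n.factorial : ℝ) * x ^ (-1 - (n : ℤ)) := by
    rw [iteratedDeriv_eq_iterate]
    exact iter_deriv_inv n x
  have h2 : x ^ (-1 - (n : ℤ)) = (x⁻¹) ^ (n + 1) := by
    rw [zpow_sub₀ hx0.ne', zpow_neg_one, zpow_natCast, pow_succ, inv_pow, div_eq_mul_inv]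
    ring
  rw [h1, h, abs_mul, abs_mul, abs_pow, abs_neg, abs_one, one_pow, one_mul,
    abs_of_nonneg (by positivity : (0 : ℝ) ≤ (n.factorial : ℝ)), h2,
    abs_of_nonneg (pow_nonneg (inv_pos.2 hx0).le _)]
  refine mul_le_mul_of_nonneg_left ?_ (by positivity)
  refine pow_le_pow_left₀ (inv_pos.2 hx0).le ?_ _
  rw [inv_le_comm₀ hx0 two_pos]
  linarith

theorem A5_log_zero (x : ℝ) (hx : |x| ≤ 1 / 2) : |Real.log (1 + x)| ≤ 2 * |x| := by
  have h1 := abs_le.1 hx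
  have hpos : 0 < 1 + x := by linarith
  have h2 : Real.log (1 + x) ≤ x := by
    have := Real.log_le_sub_one_of_pos hpos
    linarith
  have h3 := Real.one_sub_inv_le_log_of_pos hpos
  have h4 : 1 - (1 + x)⁻¹ = x / (1 + x) := by field_simp; ring
  have h5 : -(2 * |x|) ≤ x / (1 + x) := by
    rw [le_div_iff₀ hpos]
    rcases abs_cases x with ⟨ha, hb⟩ | ⟨ha, hb⟩ <;> rw [ha] <;> nlinarith
  rw [abs_le]
  constructor
  · rw [h4] at h3; linarith
  · have := le_abs_self x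
    have := abs_nonneg x
    linarith

theorem Tn.log1p {U : ι → Set E} {Λ : ι → E → ℝ} {t : ι → E → ℝ} (ht : Tn U Λ t)
    (hU : Co U Λ) (hb : ∀ j, ∀ z ∈ U j, |t j z| ≤ 1 / 2) :
    Tn U Λ (fun j z => Real.log (1 + t j z)) := by
  have hpos : ∀ j, ∀ z ∈ U j, 0 < 1 + t j z := fun j z hz => by
    have := abs_le.1 (hb j z hz); linarith
  refine ⟨fun j z hz => ?_, fun i k => ?_⟩
  · have h1 : ContDiffAt ℝ ((⊤ : ℕ∞) : WithTop ℕ∞) (fun z => 1 + t j z) z :=
      contDiffAt_const.add (ht.smooth j z hz)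
    exact h1.log (hpos j z hz).ne'
  have hT0 : ∀ l, ∃ C : ℝ, ∀ j, ∀ z ∈ U j, ‖iteratedFDeriv ℝ l (t j) z‖ * Λ j z ^ k ≤ C :=
    fun l => ht.bound l k
  choose A hA using hT0
  set T : ℝ := 1 + ∑ l ∈ Finset.range (i + 1), |A l| with hT
  have hT1 : 1 ≤ T := by
    have : 0 ≤ ∑ l ∈ Finset.range (i + 1), |A l| := Finset.sum_nonneg fun _ _ => abs_nonneg _
    rw [hT]; linarith
  have hTpos : 0 < T := by linarith
  set B : ℝ := 2 + i.factorial * 2 ^ i * T ^ i with hB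
  refine ⟨i.factorial * B * T, fun j z hz => ?_⟩
  have hL : 1 ≤ Λ j z := hU.one_le j z hz
  have hL0 : 0 < Λ j z := lt_of_lt_of_le zero_lt_one hL
  have hLk : 0 < Λ j z ^ k := pow_pos hL0 k
  have hLk1 : 1 ≤ Λ j z ^ k := one_le_pow₀ hL
  obtain ⟨δ, hδ⟩ : ∃ δ : ℝ, δ = T / Λ j z ^ k := ⟨_, rfl⟩
  have hδpos : 0 < δ := by rw [hδ]; exact div_pos hTpos hLk
  have hδT : δ ≤ T := by rw [hδ]; exact div_le_self hTpos.le hLk1
  have hD : ∀ l, l ≤ i → ‖iteratedFDeriv ℝ l (t j) z‖ ≤ δ := by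
    intro l hl
    rw [hδ, le_div_iff₀ hLk]
    have hl' : l ∈ Finset.range (i + 1) := Finset.mem_range.2 (by omega)
    have : |A l| ≤ ∑ l ∈ Finset.range (i + 1), |A l| :=
      Finset.single_le_sum (f := fun l => |A l|) (fun _ _ => abs_nonneg _) hl'
    have h1 := hA l j z hz
    have h2 := le_abs_self (A l)
    rw [hT]
    linarith
  have hcz : ∀ y, δ * (δ⁻¹ * t j y) = t j y := fun y => by field_simp
  have e1 : (fun y => Real.log (1 + t j y)) =
      fun y => (fun s => Real.log (1 + δ * s)) ((fun y => δ⁻¹ * t j y) y) := by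
    funext y
    simp only [hcz]
  have hgs : ContDiffAt ℝ ((⊤ : ℕ∞) : WithTop ℕ∞) (fun s => Real.log (1 + δ * s)) (δ⁻¹ * t j z) := by
    have h1 : ContDiffAt ℝ ((⊤ : ℕ∞) : WithTop ℕ∞) (fun s : ℝ => 1 + δ * s) (δ⁻¹ * t j z) :=
      contDiffAt_const.add (contDiffAt_const.mul contDiffAt_id)
    exact h1.log (by rw [hcz]; exact (hpos j z hz).ne')
  have hFs : ContDiffAt ℝ ((⊤ : ℕ∞) : WithTop ℕ∞) (fun y => δ⁻¹ * t j y) z :=
    contDiffAt_const.mul (ht.smooth j z hz)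
  have hsc : ∀ l, iteratedDeriv l (fun s => Real.log (1 + δ * s)) (δ⁻¹ * t j z) =
      δ ^ l * iteratedDeriv l Real.log (1 + t j z) := by
    intro l
    have h1 := A5_iteratedDeriv_scale (fun y => Real.log (1 + y)) δ l
    have h2 := iteratedDeriv_comp_const_add l Real.log 1
    have h3 := congrFun h1 (δ⁻¹ * t j z)
    rw [h3]
    simp only [h2, hcz]
  have hlogb : ∀ l, l ≤ i → ‖iteratedFDeriv ℝ l (fun s => Real.log (1 + δ * s)) (δ⁻¹ * t j z)‖ ≤
      B * δ := by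
    intro l hl
    rw [norm_iteratedFDeriv_eq_norm_iteratedDeriv, hsc, Real.norm_eq_abs, abs_mul,
      abs_of_pos (pow_pos hδpos l)]
    rcases Nat.eq_zero_or_pos l with h0 | h0
    · subst h0
      have h1 := A5_log_zero (t j z) (hb j z hz)
      have h2 : |t j z| ≤ δ := by
        have := hD 0 (Nat.zero_le _)
        rwa [norm_iteratedFDeriv_zero, Real.norm_eq_abs] at this
      have h3 : 2 * δ ≤ B * δ := mul_le_mul_of_nonneg_right (by
        rw [hB]; have : 0 ≤ (i.factorial : ℝ) * 2 ^ i * T ^ i := by positivity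
        linarith) hδpos.le
      simp only [pow_zero, one_mul, iteratedDeriv_zero]
      linarith
    · obtain ⟨n, rfl⟩ : ∃ n, l = n + 1 := ⟨l - 1, by omega⟩
      have hx : 1 / 2 ≤ 1 + t j z := by
        have := abs_le.1 (hb j z hz); linarith
      have h1 := A5_log_deriv n _ hx
      have h2 : δ ^ (n + 1) ≤ T ^ i * δ := by
        rw [pow_succ]
        refine mul_le_mul_of_nonneg_right ?_ hδpos.le
        calc δ ^ n ≤ T ^ n := pow_le_pow_left₀ hδpos.le hδT n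
          _ ≤ T ^ i := pow_le_pow_right₀ hT1 (by omega)
      have h3 : (n.factorial : ℝ) ≤ i.factorial := by exact_mod_cast Nat.factorial_le (by omega)
      have h4 : (2 : ℝ) ^ (n + 1) ≤ 2 ^ i := pow_le_pow_right₀ (by norm_num) hl
      calc δ ^ (n + 1) * |iteratedDeriv (n + 1) Real.log (1 + t j z)|
          ≤ (T ^ i * δ) * (n.factorial * 2 ^ (n + 1)) :=
            mul_le_mul h2 h1 (abs_nonneg _) (by positivity)
        _ ≤ (T ^ i * δ) * (i.factorial * 2 ^ i) := by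
            refine mul_le_mul_of_nonneg_left ?_ (by positivity)
            exact mul_le_mul h3 h4 (by positivity) (by positivity)
        _ = (i.factorial * 2 ^ i * T ^ i) * δ := by ring
        _ ≤ B * δ := mul_le_mul_of_nonneg_right (by rw [hB]; linarith) hδpos.le
  have key := norm_comp_le_at (g := fun s => Real.log (1 + δ * s)) (f := fun y => δ⁻¹ * t j y)
    (n := i) (x := z) (hgs.of_le (A5_smooth_le i)) (hFs.of_le (A5_smooth_le i))
    (C := B * δ) (D := 1) hlogb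
    (fun l _ hl => by
      have b3 : ‖iteratedFDeriv ℝ l (fun y => δ⁻¹ * t j y) z‖ = δ⁻¹ * ‖iteratedFDeriv ℝ l (t j) z‖ := by
        have h1 : (fun y => δ⁻¹ * t j y) = δ⁻¹ • (t j) := by
          funext y; simp
        rw [h1, iteratedFDeriv_const_smul_apply ((ht.smooth j z hz).of_le (A5_smooth_le l)), norm_smul,
          Real.norm_eq_abs, abs_of_pos (inv_pos.2 hδpos)]
      rw [b3, one_pow]
      calc δ⁻¹ * ‖iteratedFDeriv ℝ l (t j) z‖ ≤ δ⁻¹ * δ :=
            mul_le_mul_of_nonneg_left (hD l hl) (inv_pos.2 hδpos).le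
        _ = 1 := inv_mul_cancel₀ hδpos.ne')
  have e2 : iteratedFDeriv ℝ i (fun y => Real.log (1 + t j y)) z = iteratedFDeriv ℝ i
      (fun y => (fun s => Real.log (1 + δ * s)) ((fun y => δ⁻¹ * t j y) y)) z := by
    rw [← e1]
  rw [e2]
  calc _ ≤ (i.factorial * (B * δ) * 1 ^ i) * Λ j z ^ k := mul_le_mul_of_nonneg_right key hLk.le
    _ = i.factorial * B * T := by
      rw [hδ, one_pow, mul_one]
      field_simp

end CI
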