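import Pool.Agent.LibCI87.Cls

/-! ROW A6 (STRONG, only Mathlib, ~120 lines).  Smoothness of a parametric integral, with bounds.

`f : E → ℝ → F` is `C^∞` on `N × ℝ` (`N` open).  Claim: for `z ∈ N` and every `i`,
`iteratedFDeriv ℝ i (fun z => ∫ s in 0..1, f z s) z = ∫ s in 0..1, iteratedFDeriv ℝ i (fun z => f z s) z`,
and the left function is differentiable at `z`; by induction on `i` (for all `z ∈ N`):
`iteratedFDeriv_succ_eq_comp_left`: `iteratedFDeriv (i+1) g = curryLeft-isometry ∘ fderiv (iteratedFDeriv i g)`,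
the isometry commutes with the integral (`ContinuousLinearMap.intervalIntegral_comp_comm` /
`LinearIsometryEquiv`), and `fderiv (∫ G z s) = ∫ fderiv_z G z s` for `G z s = iteratedFDeriv i (f · s) z`, which is jointly
continuous together with its `z`-derivative on `N × ℝ`:
`intervalIntegral.hasFDerivAt_integral_of_dominated_of_fderiv_le` with the constant bound from
compactness (a neighbourhood of `z` times `[0,1]`: tube lemma, `IsCompact.exists_bound..`, or: the function
`(z, s) ↦ ‖..‖` is continuous, so each `s ∈ [0,1]` has a product neighbourhood on which it is `≤ C_s`,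
`isCompact_Icc` finite subcover).  [Joint continuity of `(z, s) ↦ iteratedFDeriv i (f · s) z`: it is the
restriction of the `i`-th derivative of `uncurry f` to the first factor:
`iteratedFDeriv i (fun z => F (z, s)) z = (iteratedFDeriv i F (z, s)).compContinuousLinearMap (inl)`
(`ContinuousLinearMap.iteratedFDeriv_comp_right` after a translation), or use induction with
`ContDiffOn` of `(z, s) ↦ fderiv (f · s) z` (`ContDiff.fderiv`, `ContDiffOn.fderivWithin`..).]
It may be more convenient to prove by induction on `i` the statement: for all complete `F` and all `f`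
smooth on `N × ℝ`, the parametric integral is `C^i` on `N`, with `fderiv` = the parametric integral of
`fderiv`; then the bound by induction through `norm_iteratedFDeriv_fderiv`-like equality, at the level of
the formula `iteratedFDeriv i (∫ f) = ∫ iteratedFDeriv i f`.  `norm_integral_le_of_norm_le_const`
gives the bound. -/

set_option autoImplicit false

namespace CI

open Set Function Filter Topology

variable {E F : Type*} [NormedAddCommGroup E] [NormedSpace ℝ E] [NormedAddCommGroup F]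
  [NormedSpace ℝ F] [CompleteSpace F]

private theorem A6_formula {f : E → ℝ → F} {N : Set E} (hN : IsOpen N)
    (hf : ContDiffOn ℝ ((⊤ : ℕ∞) : WithTop ℕ∞) (fun q : E × ℝ => f q.1 q.2) (N ×ˢ univ)) (i : ℕ)
    {z : E} (hz : z ∈ N) (s : ℝ) :
    iteratedFDeriv ℝ i (fun z => f z s) z =
      ContinuousMultilinearMap.compContinuousLinearMapL
        (fun _ : Fin i => ContinuousLinearMap.inl ℝ E ℝ)
        (iteratedFDeriv ℝ i (fun q : E × ℝ => f q.1 q.2) (z, s)) := by
  set Fu : E × ℝ → F := fun q => f q.1 q.2 with hFu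
  have hfun : (fun z => f z s) =
      (fun q : E × ℝ => Fu (q + ((0 : E), s))) ∘ (ContinuousLinearMap.inl ℝ E ℝ) := by
    ext z
    simp [hFu]
  set U' : Set (E × ℝ) := (fun q : E × ℝ => q + ((0 : E), s)) ⁻¹' (N ×ˢ univ) with hU'
  have hUo : IsOpen U' := (hN.prod isOpen_univ).preimage (continuous_id.add continuous_const)
  have hFc : ContDiffOn ℝ ((⊤ : ℕ∞) : WithTop ℕ∞) (fun q : E × ℝ => Fu (q + ((0 : E), s))) U' :=
    hf.comp (contDiff_id.add contDiff_const).contDiffOn (fun q hq => hq)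
  have hx : (ContinuousLinearMap.inl ℝ E ℝ) z ∈ U' := by
    simp [hU', hz]
  have hVo : IsOpen ((ContinuousLinearMap.inl ℝ E ℝ) ⁻¹' U') :=
    hUo.preimage (ContinuousLinearMap.inl ℝ E ℝ).continuous
  have h1 := (ContinuousLinearMap.inl ℝ E ℝ).iteratedFDerivWithin_comp_right hFc hUo.uniqueDiffOn
    hVo.uniqueDiffOn (x := z) hx (i := i) (by exact_mod_cast le_top)
  rw [iteratedFDerivWithin_of_isOpen i hVo hx, iteratedFDerivWithin_of_isOpen i hUo hx,
    iteratedFDeriv_comp_add_right] at h1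
  rw [hfun, h1]
  have h2 : (ContinuousLinearMap.inl ℝ E ℝ) z + ((0 : E), s) = (z, s) := by simp
  rw [h2]
  rfl

private theorem A6_cont {f : E → ℝ → F} {N : Set E} (hN : IsOpen N)
    (hf : ContDiffOn ℝ ((⊤ : ℕ∞) : WithTop ℕ∞) (fun q : E × ℝ => f q.1 q.2) (N ×ˢ univ)) (i : ℕ) :
    ContinuousOn (fun q : E × ℝ => iteratedFDeriv ℝ i (fun z => f z q.2) q.1) (N ×ˢ univ) := by
  have hU : IsOpen (N ×ˢ (univ : Set ℝ)) := hN.prod isOpen_univ
  have h1 : ContinuousOn (iteratedFDeriv ℝ i (fun q : E × ℝ => f q.1 q.2)) (N ×ˢ univ) :=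
    (hf.continuousOn_iteratedFDerivWithin (m := i) (by exact_mod_cast le_top)
      hU.uniqueDiffOn).congr fun q hq => (iteratedFDerivWithin_of_isOpen i hU hq).symm
  refine (((ContinuousMultilinearMap.compContinuousLinearMapL
        (fun _ : Fin i => ContinuousLinearMap.inl ℝ E ℝ)).continuous).comp_continuousOn h1).congr ?_
  rintro ⟨z, s⟩ hq
  exact A6_formula hN hf i hq.1 s

private theorem A6_diff {f : E → ℝ → F} {N : Set E} (hN : IsOpen N)
    (hf : ContDiffOn ℝ ((⊤ : ℕ∞) : WithTop ℕ∞) (fun q : E × ℝ => f q.1 q.2) (N ×ˢ univ)) (i : ℕ)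
    {z : E} (hz : z ∈ N) (s : ℝ) :
    HasFDerivAt (iteratedFDeriv ℝ i (fun z => f z s))
      (continuousMultilinearCurryLeftEquiv ℝ (fun _ : Fin (i + 1) => E) F
        (iteratedFDeriv ℝ (i + 1) (fun z => f z s) z)) z := by
  have hU : IsOpen (N ×ˢ (univ : Set ℝ)) := hN.prod isOpen_univ
  have h1 : ContDiffAt ℝ ((⊤ : ℕ∞) : WithTop ℕ∞) (fun q : E × ℝ => f q.1 q.2) (z, s) :=
    hf.contDiffAt (hU.mem_nhds ⟨hz, mem_univ _⟩)
  have h2 : ContDiffAt ℝ ((⊤ : ℕ∞) : WithTop ℕ∞) (fun z : E => f z s) z :=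
    h1.comp z (contDiffAt_id.prodMk contDiffAt_const)
  exact (h2.differentiableAt_iteratedFDeriv (by exact_mod_cast ENat.coe_lt_top i)).hasFDerivAt

private theorem A6_step {f : E → ℝ → F} {N : Set E} (hN : IsOpen N)
    (hf : ContDiffOn ℝ ((⊤ : ℕ∞) : WithTop ℕ∞) (fun q : E × ℝ => f q.1 q.2) (N ×ˢ univ)) (i : ℕ)
    {z₀ : E} (hz₀ : z₀ ∈ N) :
    HasFDerivAt (fun z => ∫ s in (0:ℝ)..1, iteratedFDeriv ℝ i (fun z => f z s) z)
      (∫ s in (0:ℝ)..1, continuousMultilinearCurryLeftEquiv ℝ (fun _ : Fin (i + 1) => E) F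
        (iteratedFDeriv ℝ (i + 1) (fun z => f z s) z₀)) z₀ := by
  have hU : IsOpen (N ×ˢ (univ : Set ℝ)) := hN.prod isOpen_univ
  have hc : ∀ (j : ℕ) (z : E), z ∈ N →
      Continuous fun s : ℝ => iteratedFDeriv ℝ j (fun z => f z s) z := by
    intro j z hz
    have h1 : ContinuousOn (fun s : ℝ => ((z, s) : E × ℝ)) univ := by fun_prop
    have h2 := (A6_cont hN hf j).comp h1 (fun s _ => ⟨hz, mem_univ _⟩)
    exact continuousOn_univ.1 h2
  -- the local bound
  obtain ⟨C, hC⟩ : ∃ C : ℝ, ∀ s ∈ Icc (0:ℝ) 1,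
      ‖iteratedFDeriv ℝ (i + 1) (fun z => f z s) z₀‖ ≤ C := by
    exact isCompact_Icc.exists_bound_of_continuousOn (hc (i + 1) z₀ hz₀).continuousOn
  have hVo : IsOpen ((N ×ˢ (univ : Set ℝ)) ∩
      (fun q : E × ℝ => ‖iteratedFDeriv ℝ (i + 1) (fun z => f z q.2) q.1‖) ⁻¹' Iio (C + 1)) :=
    (A6_cont hN hf (i + 1)).norm.isOpen_inter_preimage hU isOpen_Iio
  obtain ⟨u, v, hu, -, hzu, hv, huv⟩ := generalized_tube_lemma (isCompact_singleton (x := z₀))
    (isCompact_Icc (a := (0:ℝ)) (b := 1)) hVo (by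
      rintro ⟨z, s⟩ ⟨hz, hs⟩
      rw [mem_singleton_iff] at hz
      simp only at hz hs
      subst hz
      exact ⟨⟨hz₀, mem_univ _⟩, lt_of_le_of_lt (hC s hs) (lt_add_one C)⟩)
  have hun : u ∈ 𝓝 z₀ := hu.mem_nhds (hzu rfl)
  have hIoc : uIoc (0:ℝ) 1 ⊆ Icc 0 1 := by
    rw [uIoc_of_le zero_le_one]
    exact Ioc_subset_Icc_self
  have huN : ∀ z ∈ u, z ∈ N := fun z hz =>
    (huv (mk_mem_prod hz (hv ⟨le_rfl, zero_le_one⟩))).1.1
  refine intervalIntegral.hasFDerivAt_integral_of_dominated_of_fderiv_le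
    (F' := fun z s => continuousMultilinearCurryLeftEquiv ℝ (fun _ : Fin (i + 1) => E) F
        (iteratedFDeriv ℝ (i + 1) (fun z => f z s) z))
    (bound := fun _ => C + 1) hun ?_ ?_ ?_ ?_ ?_ ?_
  · filter_upwards [hun] with z hz
    exact (hc i z (huN z hz)).aestronglyMeasurable
  · exact (hc i z₀ hz₀).intervalIntegrable _ _
  · exact ((continuousMultilinearCurryLeftEquiv ℝ (fun _ : Fin (i + 1) => E) F).continuous.comp
      (hc (i + 1) z₀ hz₀)).aestronglyMeasurable
  · refine Filter.Eventually.of_forall fun s hs z hz => ?_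
    rw [LinearIsometryEquiv.norm_map]
    exact (huv (mk_mem_prod hz (hv (hIoc hs)))).2.le
  · exact intervalIntegrable_const
  · refine Filter.Eventually.of_forall fun s _ z hz => ?_
    exact A6_diff hN hf i (huN z hz) s

private theorem A6_main {f : E → ℝ → F} {N : Set E} (hN : IsOpen N)
    (hf : ContDiffOn ℝ ((⊤ : ℕ∞) : WithTop ℕ∞) (fun q : E × ℝ => f q.1 q.2) (N ×ˢ univ)) (i : ℕ) :
    ∀ z ∈ N, iteratedFDeriv ℝ i (fun z => ∫ s in (0:ℝ)..1, f z s) z =
      ∫ s in (0:ℝ)..1, iteratedFDeriv ℝ i (fun z => f z s) z := by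
  induction i with
  | zero =>
    intro z _
    have h1 := ((continuousMultilinearCurryFin0 ℝ E F).symm.toLinearIsometry).intervalIntegral_comp_comm
      (a := 0) (b := 1) (μ := MeasureTheory.volume) (fun s => f z s)
    exact h1.symm
  | succ i ih =>
    intro z hz
    have h1 : (iteratedFDeriv ℝ i (fun z => ∫ s in (0:ℝ)..1, f z s)) =ᶠ[𝓝 z]
        fun z => ∫ s in (0:ℝ)..1, iteratedFDeriv ℝ i (fun z => f z s) z := by
      filter_upwards [hN.mem_nhds hz] with y hy
      exact ih y hy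
    have h2 := (A6_step hN hf i hz).congr_of_eventuallyEq h1
    have h3 : iteratedFDeriv ℝ (i + 1) (fun z => ∫ s in (0:ℝ)..1, f z s) z =
        (continuousMultilinearCurryLeftEquiv ℝ (fun _ : Fin (i + 1) => E) F).symm
          (fderiv ℝ (iteratedFDeriv ℝ i (fun z => ∫ s in (0:ℝ)..1, f z s)) z) := rfl
    rw [h3, h2.fderiv]
    have h4 := LinearIsometry.intervalIntegral_comp_comm (𝕜 := ℝ)
      (E := ContinuousMultilinearMap ℝ (fun _ : Fin (i + 1) => E) F)
      (F := E →L[ℝ] ContinuousMultilinearMap ℝ (fun _ : Fin i => E) F)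
      (a := 0) (b := 1) (μ := MeasureTheory.volume)
      (continuousMultilinearCurryLeftEquiv ℝ (fun _ : Fin (i + 1) => E) F).toLinearIsometry
      (fun s => iteratedFDeriv ℝ (i + 1) (fun z => f z s) z)
    rw [LinearIsometryEquiv.symm_apply_eq]
    exact h4

theorem integral_param {f : E → ℝ → F} {N : Set E} (hN : IsOpen N)
    (hf : ContDiffOn ℝ ((⊤ : ℕ∞) : WithTop ℕ∞) (fun q : E × ℝ => f q.1 q.2) (N ×ˢ univ)) :
    ∀ z ∈ N, ContDiffAt ℝ ((⊤ : ℕ∞) : WithTop ℕ∞) (fun z => ∫ s in (0:ℝ)..1, f z s) z ∧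
      ∀ (i : ℕ) (C : ℝ), (∀ s ∈ Icc (0:ℝ) 1, ‖iteratedFDeriv ℝ i (fun z => f z s) z‖ ≤ C) →
        ‖iteratedFDeriv ℝ i (fun z => ∫ s in (0:ℝ)..1, f z s) z‖ ≤ C := by
  intro z hz
  refine ⟨?_, ?_⟩
  · have h1 : ContDiffOn ℝ ((⊤ : ℕ∞) : WithTop ℕ∞) (fun z => ∫ s in (0:ℝ)..1, f z s) N := by
      refine contDiffOn_of_differentiableOn fun m _ y hy => ?_
      have h2 : (iteratedFDerivWithin ℝ m (fun z => ∫ s in (0:ℝ)..1, f z s) N) =ᶠ[𝓝 y]
          fun z => ∫ s in (0:ℝ)..1, iteratedFDeriv ℝ m (fun z => f z s) z := by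
        filter_upwards [hN.mem_nhds hy] with x hx
        rw [iteratedFDerivWithin_of_isOpen m hN hx]
        exact A6_main hN hf m x hx
      exact ((A6_step hN hf m hy).congr_of_eventuallyEq h2).differentiableAt.differentiableWithinAt
    exact h1.contDiffAt (hN.mem_nhds hz)
  · intro i C hC
    rw [A6_main hN hf i z hz]
    have h1 : ‖∫ s in (0:ℝ)..1, iteratedFDeriv ℝ i (fun z => f z s) z‖ ≤ C * |1 - 0| := by
      refine intervalIntegral.norm_integral_le_of_norm_le_const fun s hs => hC s ?_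
      rw [uIoc_of_le zero_le_one] at hs
      exact Ioc_subset_Icc_self hs
    simpa using h1

end CI
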