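import Pool.Agent.LibCI87.A2
import Pool.Agent.LibCI87.A3
import Pool.Agent.LibCI87.A5
import Pool.Agent.LibCI87.A6

/-! ROW A7 (~120 lines).  Differences `ξ (p + q) - ξ p`.  Use A2, A3, A5, A6 (stated).

`diff_R`: `ξ (p + q) - ξ p = q * R`, `R j z = ∫ s in 0..1, deriv ξ (p j z + s * q j z)` (fundamental
theorem of calculus for `s ↦ ξ (p + s q)`, derivative `q * deriv ξ (p + s q)`).  `R ∈ Cl U w Λ`: by A6 (with
`f z s = deriv ξ (p j z + s * q j z)`, `N = U j`) it is enough to bound the `z`-derivatives of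
`deriv ξ (p j z + s q j z)` for fixed `s ∈ [0,1]` by `C w Λ^m`, uniformly in `s`: this is `Cl.comp` (A3) with
the index set `ι × Icc 0 1`, the function `p + s q` (`Sl`: the derivatives of order `≥ 1` are bounded by the
sum of those of `p` and `q`) and `φ = deriv ξ` (`iteratedFDeriv i (deriv ξ)` has norm
`|iteratedDeriv (i+1) ξ|`: `norm_iteratedFDeriv_eq_norm_iteratedDeriv`, `iteratedDeriv_succ'`).
`Cl.diff`: `diff_R` and `Cl.mul` (A2).  `Tn.diff`: `diff_R` with `w = 1`, `Tn.mul_cl` (A5)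
(`Tn` implies `Sl`). -/

set_option autoImplicit false

namespace CI

open Set Function Filter Topology

variable {ι E : Type*} [NormedAddCommGroup E] [NormedSpace ℝ E]

theorem A7_le (l : ℕ) : (l : WithTop ℕ∞) ≤ ((⊤ : ℕ∞) : WithTop ℕ∞) := by
  exact_mod_cast le_top

theorem A7_sl {U : ι → Set E} {Λ : ι → E → ℝ} {p q : ι → E → ℝ} (hU : Co U Λ)
    (hp : Sl U Λ p) (hq : Sl U Λ q) :
    Sl (fun a : ι × Icc (0:ℝ) 1 => U a.1) (fun a => Λ a.1)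
      (fun a z => p a.1 z + (a.2 : ℝ) * q a.1 z) := by
  refine ⟨fun a z hz => (hp.smooth a.1 z hz).add (contDiffAt_const.mul (hq.smooth a.1 z hz)),
    fun i hi => ?_⟩
  obtain ⟨C, m, hC⟩ := hp.bound i hi
  obtain ⟨C', m', hC'⟩ := hq.bound i hi
  refine ⟨|C| + |C'|, m + m', fun a z hz => ?_⟩
  have hL : 1 ≤ Λ a.1 z := hU.one_le a.1 z hz
  have hL0 : 0 ≤ Λ a.1 z := zero_le_one.trans hL
  have hps := (hp.smooth a.1 z hz).of_le (A7_le i)
  have hqs := (hq.smooth a.1 z hz).of_le (A7_le i)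
  have h1 : (fun z => p a.1 z + (a.2 : ℝ) * q a.1 z) = p a.1 + (a.2 : ℝ) • q a.1 := by
    funext y; simp
  have hqs' : ContDiffAt ℝ i ((a.2 : ℝ) • q a.1) z := hqs.const_smul (a.2 : ℝ)
  rw [h1, iteratedFDeriv_add_apply hps hqs', iteratedFDeriv_const_smul_apply hqs]
  have b1 : ‖iteratedFDeriv ℝ i (p a.1) z‖ ≤ |C| * Λ a.1 z ^ (m + m') :=
    (hC a.1 z hz).trans (mul_le_mul (le_abs_self _) (pow_le_pow_right₀ hL (by omega))
      (pow_nonneg hL0 _) (abs_nonneg _))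
  have b2 : ‖iteratedFDeriv ℝ i (q a.1) z‖ ≤ |C'| * Λ a.1 z ^ (m + m') :=
    (hC' a.1 z hz).trans (mul_le_mul (le_abs_self _) (pow_le_pow_right₀ hL (by omega))
      (pow_nonneg hL0 _) (abs_nonneg _))
  have hs0 : 0 ≤ (a.2 : ℝ) := a.2.2.1
  have hs1 : (a.2 : ℝ) ≤ 1 := a.2.2.2
  calc ‖iteratedFDeriv ℝ i (p a.1) z + (a.2 : ℝ) • iteratedFDeriv ℝ i (q a.1) z‖
      ≤ ‖iteratedFDeriv ℝ i (p a.1) z‖ + ‖(a.2 : ℝ) • iteratedFDeriv ℝ i (q a.1) z‖ :=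
        norm_add_le _ _
    _ ≤ ‖iteratedFDeriv ℝ i (p a.1) z‖ + 1 * ‖iteratedFDeriv ℝ i (q a.1) z‖ := by
        rw [norm_smul, Real.norm_eq_abs, abs_of_nonneg hs0]
        exact add_le_add_right (mul_le_mul_of_nonneg_right hs1 (norm_nonneg _)) _
    _ ≤ (|C| + |C'|) * Λ a.1 z ^ (m + m') := by rw [one_mul, add_mul]; exact add_le_add b1 b2

theorem diff_R {U : ι → Set E} {w Λ : ι → E → ℝ} {p q : ι → E → ℝ} {ξ : ℝ → ℝ}
    (hξ : Sm ξ) (hU : Co U Λ) (hw : ∀ j, ∀ z ∈ U j, 0 ≤ w j z)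
    (hp : Sl U Λ p) (hq : Sl U Λ q)
    (hb : ∀ i : ℕ, 1 ≤ i → ∃ C : ℝ, ∃ m : ℕ, ∀ j, ∀ z ∈ U j, ∀ s ∈ Icc (0:ℝ) 1,
      |iteratedDeriv i ξ (p j z + s * q j z)| ≤ C * (w j z * Λ j z ^ m)) :
    ∃ R : ι → E → ℝ, Cl U w Λ R ∧ ∀ j z, ξ (p j z + q j z) - ξ (p j z) = q j z * R j z := by
  have hξd : ContDiff ℝ ((⊤ : ℕ∞) : WithTop ℕ∞) (deriv ξ) := (contDiff_infty_iff_deriv.1 hξ).2
  have hξdiff : Differentiable ℝ ξ := (contDiff_infty_iff_deriv.1 hξ).1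
  refine ⟨fun j z => ∫ s in (0:ℝ)..1, deriv ξ (p j z + s * q j z), ?_, ?_⟩
  · -- the class
    have hsm : ∀ j, ContDiffOn ℝ ((⊤ : ℕ∞) : WithTop ℕ∞)
        (fun a : E × ℝ => deriv ξ (p j a.1 + a.2 * q j a.1)) (U j ×ˢ univ) := by
      intro j a ha
      have hz : a.1 ∈ U j := ha.1
      have h1 : ContDiffAt ℝ ((⊤ : ℕ∞) : WithTop ℕ∞) (fun a : E × ℝ => p j a.1) a :=
        ContDiffAt.comp a (hp.smooth j a.1 hz) contDiffAt_fst
      have h2 : ContDiffAt ℝ ((⊤ : ℕ∞) : WithTop ℕ∞) (fun a : E × ℝ => q j a.1) a :=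
        ContDiffAt.comp a (hq.smooth j a.1 hz) contDiffAt_fst
      have h3 : ContDiffAt ℝ ((⊤ : ℕ∞) : WithTop ℕ∞) (fun a : E × ℝ => p j a.1 + a.2 * q j a.1) a :=
        h1.add (contDiffAt_snd.mul h2)
      exact (ContDiffAt.comp a (hξd.contDiffAt) h3).contDiffWithinAt
    have hcomp : Cl (fun a : ι × Icc (0:ℝ) 1 => U a.1) (fun a => w a.1) (fun a => Λ a.1)
        (fun a z => deriv ξ (p a.1 z + (a.2 : ℝ) * q a.1 z)) := by
      refine Cl.comp (φ := fun _ => deriv ξ) (A7_sl hU hp hq)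
        ⟨fun a => hU.isOpen a.1, fun a => hU.one_le a.1⟩ (fun a => hw a.1)
        (fun a z _ => hξd.contDiffAt) (fun i => ?_)
      obtain ⟨C, m, hC⟩ := hb (i + 1) (by omega)
      refine ⟨C, m, fun a z hz => ?_⟩
      rw [norm_iteratedFDeriv_eq_norm_iteratedDeriv, Real.norm_eq_abs, ← iteratedDeriv_succ']
      exact hC a.1 z hz a.2 a.2.2
    refine ⟨fun j z hz => (integral_param (hU.isOpen j) (hsm j) z hz).1, fun i => ?_⟩
    obtain ⟨C, m, hC⟩ := hcomp.bound i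
    refine ⟨C, m, fun j z hz => ?_⟩
    exact (integral_param (hU.isOpen j) (hsm j) z hz).2 i _ (fun s hs => hC (j, ⟨s, hs⟩) z hz)
  · intro j z
    have h1 : ∀ s ∈ uIcc (0:ℝ) 1, HasDerivAt (fun s => ξ (p j z + s * q j z))
        (deriv ξ (p j z + s * q j z) * q j z) s := by
      intro s _
      have h2 : HasDerivAt (fun s => p j z + s * q j z) (q j z) s := by
        have := ((hasDerivAt_id s).mul_const (q j z)).const_add (p j z)
        simpa using this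
      exact (hξdiff (p j z + s * q j z)).hasDerivAt.comp s h2
    have hcont : Continuous (fun s : ℝ => deriv ξ (p j z + s * q j z) * q j z) := by
      have := hξd.continuous
      fun_prop
    have h3 := intervalIntegral.integral_eq_sub_of_hasDerivAt h1 (hcont.intervalIntegrable 0 1)
    rw [intervalIntegral.integral_mul_const] at h3
    simp only [one_mul, zero_mul, add_zero] at h3
    rw [← h3]
    ring

theorem Cl.diff {U : ι → Set E} {w w' Λ : ι → E → ℝ} {p q : ι → E → ℝ} {ξ : ℝ → ℝ}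
    (hξ : Sm ξ) (hU : Co U Λ) (hw : ∀ j, ∀ z ∈ U j, 0 ≤ w j z) (hw' : ∀ j, ∀ z ∈ U j, 0 ≤ w' j z)
    (hp : Sl U Λ p) (hq : Cl U w' Λ q) (hq' : Sl U Λ q)
    (hb : ∀ i : ℕ, 1 ≤ i → ∃ C : ℝ, ∃ m : ℕ, ∀ j, ∀ z ∈ U j, ∀ s ∈ Icc (0:ℝ) 1,
      |iteratedDeriv i ξ (p j z + s * q j z)| ≤ C * (w j z * Λ j z ^ m)) :
    Cl U (fun j z => w j z * w' j z) Λ (fun j z => ξ (p j z + q j z) - ξ (p j z)) := by
  obtain ⟨R, hR, hR'⟩ := diff_R hξ hU hw hp hq' hb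
  have h1 := Cl.mul hR hq hU hw hw'
  have h2 : (fun j z => ξ (p j z + q j z) - ξ (p j z)) = fun j z => R j z * q j z := by
    funext j z
    rw [hR', mul_comm]
  rw [h2]
  exact h1

theorem Tn.diff {U : ι → Set E} {Λ : ι → E → ℝ} {p q : ι → E → ℝ} {ξ : ℝ → ℝ}
    (hξ : Sm ξ) (hU : Co U Λ) (hp : Sl U Λ p) (hq : Tn U Λ q)
    (hb : ∀ i : ℕ, 1 ≤ i → ∃ C : ℝ, ∃ m : ℕ, ∀ j, ∀ z ∈ U j, ∀ s ∈ Icc (0:ℝ) 1,
      |iteratedDeriv i ξ (p j z + s * q j z)| ≤ C * Λ j z ^ m) :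
    Tn U Λ (fun j z => ξ (p j z + q j z) - ξ (p j z)) := by
  have hq' : Sl U Λ q := by
    refine ⟨hq.smooth, fun i _ => ?_⟩
    obtain ⟨C, hC⟩ := hq.bound i 0
    refine ⟨C, 0, fun j z hz => ?_⟩
    simpa using hC j z hz
  obtain ⟨R, hR, hR'⟩ := diff_R (w := fun _ _ => 1) hξ hU (fun _ _ _ => zero_le_one) hp hq'
    (fun i hi => by
      obtain ⟨C, m, hC⟩ := hb i hi
      exact ⟨C, m, fun j z hz s hs => by rw [one_mul]; exact hC j z hz s hs⟩)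
  have h1 := Tn.mul_cl hq hR hU
  have h2 : (fun j z => ξ (p j z + q j z) - ξ (p j z)) = fun j z => q j z * R j z := by
    funext j z
    rw [hR']
  rw [h2]
  exact h1

end CI
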