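import Pool.Agent.LibCI87.Cls

/-! ROW A8 (only Mathlib, ~90 lines).  Flat extension.

`f = 0` on the closed set `S`, `C^∞` off `S`, all derivatives tend to `0` at the points of `S`.
Define `g i z = if z ∈ S then 0 else iteratedFDeriv ℝ i f z`.  Claim: `g i` has derivative
(`HasFDerivAt`) `h i z` at every `z`, where `h i z = 0` on `S` and `h i z = fderiv (iteratedFDeriv i f) z` off `S`
(so `‖h i z‖ = ‖g (i+1) z‖`, `norm_fderiv_iteratedFDeriv`).  Off `S` clear (open set).  At `z₀ ∈ S`: given `δ`,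
let `r` be such that `‖iteratedFDeriv (i+1) f z‖ ≤ δ` for `z ∉ S`, `dist z z₀ < r`.  Let `z ∉ S`,
`dist z z₀ < r`; on the segment from `z₀` to `z` let `t₁ = sSup {t ∈ [0,1] | z₀ + t (z - z₀) ∈ S}`, `z₁` that point
(`∈ S`, closed); for `t > t₁` the points are off `S`.  `t ↦ g i (z₀ + t (z - z₀))` is continuous on `[t₁, 1]`
(at `t₁` because all `iteratedFDeriv i f → 0` at `z₁ ∈ S`) with derivative bounded by `δ ‖z - z₀‖` on
`(t₁, 1]`, so `‖g i z‖ ≤ δ ‖z - z₀‖` (`norm_image_sub_le_of_norm_deriv_le_segment'` or `Convex.norm_image_sub_le..`).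
Hence by induction `iteratedFDeriv i f = g i` everywhere (`i = 0`: `f = 0` on `S`; step: `fderiv (iteratedFDeriv i f) = h i`)
and `f` is `C^∞` (`contDiff_of_differentiable_iteratedFDeriv`). -/

set_option autoImplicit false

namespace CI

open Set Function Filter Topology

variable {E F : Type*} [NormedAddCommGroup E] [NormedSpace ℝ E] [NormedAddCommGroup F]
  [NormedSpace ℝ F]

/-- one step: the derivative of a flat extension -/
private theorem A8_step {g : E → F} {S : Set E} (hS : IsClosed S) (h0 : ∀ z ∈ S, g z = 0)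
    (hd : ∀ z, z ∉ S → DifferentiableAt ℝ g z)
    (hl : ∀ z₀ ∈ S, ∀ δ : ℝ, 0 < δ → ∃ r : ℝ, 0 < r ∧ ∀ z, z ∉ S → dist z z₀ < r → ‖g z‖ ≤ δ)
    (hl' : ∀ z₀ ∈ S, ∀ δ : ℝ, 0 < δ → ∃ r : ℝ, 0 < r ∧ ∀ z, z ∉ S → dist z z₀ < r →
      ‖fderiv ℝ g z‖ ≤ δ) {z₀ : E} (hz₀ : z₀ ∈ S) : HasFDerivAt g (0 : E →L[ℝ] F) z₀ := by
  rw [hasFDerivAt_iff_isLittleO, Asymptotics.isLittleO_iff]
  intro δ hδ
  obtain ⟨r, hr, hr'⟩ := hl' z₀ hz₀ δ hδ
  filter_upwards [Metric.ball_mem_nhds z₀ hr] with z hz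
  rw [Metric.mem_ball] at hz
  rw [h0 z₀ hz₀, sub_zero, ContinuousLinearMap.zero_apply, sub_zero]
  by_cases hzS : z ∈ S
  · rw [h0 z hzS, norm_zero]
    positivity
  -- the segment
  set γ : ℝ →ᵃ[ℝ] E := AffineMap.lineMap z₀ z with hγ
  have hγ0 : γ 0 = z₀ := AffineMap.lineMap_apply_zero _ _
  have hγ1 : γ 1 = z := AffineMap.lineMap_apply_one _ _
  have hγc : Continuous γ := AffineMap.lineMap_continuous
  set T : Set ℝ := Icc (0 : ℝ) 1 ∩ γ ⁻¹' S with hT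
  have hTc : IsCompact T := isCompact_Icc.inter_right (hS.preimage hγc)
  have hTn : T.Nonempty := ⟨0, ⟨le_rfl, zero_le_one⟩, by rw [mem_preimage, hγ0]; exact hz₀⟩
  have ht1 := hTc.sSup_mem hTn
  set t₁ := sSup T with ht₁
  have h1S : γ t₁ ∈ S := ht1.2
  have ht1lt : t₁ < 1 := by
    rcases lt_or_eq_of_le ht1.1.2 with h | h
    · exact h
    · rw [h, hγ1] at h1S
      exact absurd h1S hzS
  have hout : ∀ t, t₁ < t → t ≤ 1 → γ t ∉ S := by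
    intro t h1 h2 h3
    have : t ∈ T := ⟨⟨ht1.1.1.trans h1.le, h2⟩, h3⟩
    exact absurd (le_csSup hTc.bddAbove this) (not_le.2 h1)
  refine le_of_forall_pos_le_add fun η hη => ?_
  obtain ⟨r', hr1, hr2⟩ := hl (γ t₁) h1S η hη
  -- choose `t₂`
  obtain ⟨t₂, h12, h21, hdist⟩ : ∃ t₂, t₁ < t₂ ∧ t₂ < 1 ∧ dist (γ t₂) (γ t₁) < r' := by
    have hc : Tendsto (fun t => dist (γ t) (γ t₁)) (𝓝[>] t₁) (𝓝 0) := by
      have h3 : Tendsto (fun t => dist (γ t) (γ t₁)) (𝓝 t₁) (𝓝 (dist (γ t₁) (γ t₁))) :=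
        (hγc.dist continuous_const).tendsto t₁
      rw [dist_self] at h3
      exact h3.mono_left nhdsWithin_le_nhds
    have h4 : ∀ᶠ t in 𝓝[>] t₁, dist (γ t) (γ t₁) < r' := hc.eventually (gt_mem_nhds hr1)
    have h5 : ∀ᶠ t in 𝓝[>] t₁, t ∈ Ioo t₁ 1 := Ioo_mem_nhdsGT ht1lt
    obtain ⟨t, h6, h7⟩ := (h4.and h5).exists
    exact ⟨t, h7.1, h7.2, h6⟩
  have h2 : ‖g (γ t₂)‖ ≤ η := hr2 _ (hout t₂ h12 h21.le) hdist
  have hconv : Convex ℝ (γ '' Icc t₂ 1) := (convex_Icc t₂ 1).affine_image γ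
  have hin : ∀ x ∈ γ '' Icc t₂ 1, x ∉ S ∧ dist x z₀ < r := by
    rintro x ⟨t, ⟨h3, h4⟩, rfl⟩
    refine ⟨hout t (h12.trans_le h3) h4, ?_⟩
    have h5 : dist (γ t) z₀ = ‖t‖ * dist z₀ z := dist_lineMap_left z₀ z t
    have h6 : 0 ≤ t := (ht1.1.1.trans h12.le).trans h3
    rw [h5, Real.norm_of_nonneg h6, dist_comm z₀ z]
    calc t * dist z z₀ ≤ 1 * dist z z₀ := mul_le_mul_of_nonneg_right h4 dist_nonneg
      _ < r := by rw [one_mul]; exact hz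
  have h3 : ‖g z - g (γ t₂)‖ ≤ δ * ‖z - γ t₂‖ := by
    have h31 : γ t₂ ∈ γ '' Icc t₂ 1 := ⟨t₂, ⟨le_rfl, h21.le⟩, rfl⟩
    have h32 : z ∈ γ '' Icc t₂ 1 := ⟨1, ⟨h21.le, le_rfl⟩, hγ1⟩
    exact hconv.norm_image_sub_le_of_norm_fderiv_le (fun x hx => hd x (hin x hx).1)
      (fun x hx => hr' x (hin x hx).1 (hin x hx).2) h31 h32
  have h4 : ‖z - γ t₂‖ ≤ ‖z - z₀‖ := by
    have h41 : dist (γ 1) (γ t₂) = dist (1 : ℝ) t₂ * dist z₀ z := dist_lineMap_lineMap z₀ z 1 t₂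
    rw [hγ1] at h41
    rw [← dist_eq_norm, ← dist_eq_norm, h41, Real.dist_eq, dist_comm z₀ z]
    have h42 : |1 - t₂| ≤ 1 := by
      rw [abs_of_nonneg (by linarith)]
      linarith [ht1.1.1]
    calc |1 - t₂| * dist z z₀ ≤ 1 * dist z z₀ := mul_le_mul_of_nonneg_right h42 dist_nonneg
      _ = dist z z₀ := one_mul _
  calc ‖g z‖ = ‖(g z - g (γ t₂)) + g (γ t₂)‖ := by rw [sub_add_cancel]
    _ ≤ ‖g z - g (γ t₂)‖ + ‖g (γ t₂)‖ := norm_add_le _ _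
    _ ≤ δ * ‖z - γ t₂‖ + η := add_le_add h3 h2
    _ ≤ δ * ‖z - z₀‖ + η := by
      have := mul_le_mul_of_nonneg_left h4 hδ.le
      linarith

theorem flat_ext {f : E → F} {S : Set E} (hS : IsClosed S) (h0 : ∀ z ∈ S, f z = 0)
    (hs : ∀ z, z ∉ S → ContDiffAt ℝ ((⊤ : ℕ∞) : WithTop ℕ∞) f z)
    (hl : ∀ i : ℕ, ∀ z₀ ∈ S, ∀ δ : ℝ, 0 < δ → ∃ r : ℝ, 0 < r ∧ ∀ z, z ∉ S → dist z z₀ < r →
      ‖iteratedFDeriv ℝ i f z‖ ≤ δ) :
    Sm f ∧ ∀ i : ℕ, ∀ z ∈ S, iteratedFDeriv ℝ i f z = 0 := by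
  have hdiff : ∀ (i : ℕ) (z : E), z ∉ S → DifferentiableAt ℝ (iteratedFDeriv ℝ i f) z := by
    intro i z hz
    exact (hs z hz).differentiableAt_iteratedFDeriv (by exact_mod_cast ENat.coe_lt_top i)
  have hnorm : ∀ (i : ℕ) (z : E), ‖fderiv ℝ (iteratedFDeriv ℝ i f) z‖ =
      ‖iteratedFDeriv ℝ (i + 1) f z‖ := fun i z => norm_fderiv_iteratedFDeriv
  have main : ∀ i : ℕ, (∀ z ∈ S, iteratedFDeriv ℝ i f z = 0) := by
    intro i
    induction i with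
    | zero =>
      intro z hz
      rw [← norm_eq_zero, norm_iteratedFDeriv_zero, h0 z hz, norm_zero]
    | succ i ih =>
      intro z hz
      have h1 := A8_step hS ih (hdiff i) (hl i)
        (fun z₀ hz₀ δ hδ => by
          obtain ⟨r, h2, h3⟩ := hl (i + 1) z₀ hz₀ δ hδ
          exact ⟨r, h2, fun z hz hd => by rw [hnorm]; exact h3 z hz hd⟩) hz
      rw [← norm_eq_zero, ← hnorm, h1.fderiv]
      exact ContinuousLinearMap.opNorm_zero
  refine ⟨?_, main⟩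
  refine contDiff_of_differentiable_iteratedFDeriv fun i _ z => ?_
  by_cases hz : z ∈ S
  · exact (A8_step hS (main i) (hdiff i) (hl i)
      (fun z₀ hz₀ δ hδ => by
        obtain ⟨r, h2, h3⟩ := hl (i + 1) z₀ hz₀ δ hδ
        exact ⟨r, h2, fun z hz hd => by rw [hnorm]; exact h3 z hz hd⟩) hz).differentiableAt
  · exact hdiff i z hz

end CI
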