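import Pool.Agent.LibCI87.Defs

/-! ROW B0 (easy, only Mathlib, ~50 lines).  Powers of the logarithm.

`log_mono`: if `s = 0` the left side is `0`.  Otherwise `s = W r`, `0 < r ≤ 1`,
`1 + |log s| ≤ (1 + |log W|) (1 + |log r|)`, so the left side is at most
`W (1 + |log W|)^m * (r (1 + |log r|)^m)` and `r (1 + |log r|)^m ≤ C` for `r ∈ (0, 1]`
(put `r = exp (-x)`, `x ≥ 0`: `exp (-x) (1 + x)^m ≤ m! * e`: `Real.pow_div_factorial_le_exp` for `1 + x`).
`log_sqrt_bdd`: same with `s = exp (-2 x)`. -/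

set_option autoImplicit false

namespace CI

open Set Function Filter Topology

theorem B0_core (m : ℕ) (r : ℝ) (hr : 0 < r) (hr1 : r ≤ 1) :
    r * (1 + |Real.log r|) ^ m ≤ (m.factorial : ℝ) * Real.exp 1 := by
  have hl : Real.log r ≤ 0 := Real.log_nonpos hr.le hr1
  have habs : |Real.log r| = -Real.log r := abs_of_nonpos hl
  rw [habs]
  have hx : 0 ≤ 1 + -Real.log r := by linarith
  have h := Real.pow_div_factorial_le_exp (1 + -Real.log r) hx m
  have hf : (0 : ℝ) < m.factorial := by exact_mod_cast Nat.factorial_pos m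
  rw [div_le_iff₀ hf] at h
  have he : Real.exp (1 + -Real.log r) = Real.exp 1 / r := by
    rw [Real.exp_add, Real.exp_neg, Real.exp_log hr, div_eq_mul_inv]
  rw [he] at h
  calc r * (1 + -Real.log r) ^ m ≤ r * (Real.exp 1 / r * m.factorial) :=
        mul_le_mul_of_nonneg_left h hr.le
    _ = (m.factorial : ℝ) * Real.exp 1 := by field_simp

theorem B0_core' (m : ℕ) (r : ℝ) (hr : 0 ≤ r) (hr1 : r ≤ 1) :
    r * (1 + |Real.log r|) ^ m ≤ (m.factorial : ℝ) * Real.exp 1 := by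
  rcases hr.eq_or_lt with h | h
  · rw [← h, zero_mul]; positivity
  · exact B0_core m r h hr1

theorem log_bdd (m : ℕ) : ∃ C : ℝ, ∀ s : ℝ, 0 ≤ s → s ≤ 1 → s * (1 + |Real.log s|) ^ m ≤ C :=
  ⟨(m.factorial : ℝ) * Real.exp 1, fun s hs hs1 => B0_core' m s hs hs1⟩

theorem log_sqrt_bdd (m : ℕ) : ∃ C : ℝ, ∀ s : ℝ, 0 ≤ s → s ≤ 1 →
    Real.sqrt s * (1 + |Real.log s|) ^ m ≤ C := by
  refine ⟨2 ^ m * ((m.factorial : ℝ) * Real.exp 1), fun s hs hs1 => ?_⟩
  have hu0 : 0 ≤ Real.sqrt s := Real.sqrt_nonneg s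
  have hu1 : Real.sqrt s ≤ 1 := by
    exact Real.sqrt_le_one.2 hs1
  have hlog : Real.log (Real.sqrt s) = Real.log s / 2 := Real.log_sqrt hs
  have h := B0_core' m (Real.sqrt s) hu0 hu1
  have h2 : 1 + |Real.log s| ≤ 2 * (1 + |Real.log (Real.sqrt s)|) := by
    rw [hlog, abs_div, abs_of_pos (by norm_num : (0 : ℝ) < 2)]
    linarith [abs_nonneg (Real.log s)]
  calc Real.sqrt s * (1 + |Real.log s|) ^ m
      ≤ Real.sqrt s * (2 * (1 + |Real.log (Real.sqrt s)|)) ^ m :=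
        mul_le_mul_of_nonneg_left (pow_le_pow_left₀ (by positivity) h2 m) hu0
    _ = 2 ^ m * (Real.sqrt s * (1 + |Real.log (Real.sqrt s)|) ^ m) := by
        rw [mul_pow]; ring
    _ ≤ 2 ^ m * ((m.factorial : ℝ) * Real.exp 1) := mul_le_mul_of_nonneg_left h (by positivity)

theorem log_mono (m : ℕ) : ∃ C : ℝ, 0 ≤ C ∧ ∀ s W : ℝ, 0 ≤ s → s ≤ W → W ≤ 1 →
    s * (1 + |Real.log s|) ^ m ≤ C * (W * (1 + |Real.log W|) ^ m) := by
  refine ⟨(m.factorial : ℝ) * Real.exp 1, by positivity, fun s W hs hsW hW1 => ?_⟩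
  rcases hs.eq_or_lt with h0 | hs0
  · rw [← h0, zero_mul]
    have : 0 ≤ W := hs.trans hsW
    positivity
  have hW0 : 0 < W := lt_of_lt_of_le hs0 hsW
  have hr0 : 0 < s / W := div_pos hs0 hW0
  have hr1 : s / W ≤ 1 := (div_le_one hW0).2 hsW
  have h := B0_core m (s / W) hr0 hr1
  have hlog : Real.log s = Real.log W + Real.log (s / W) := by
    rw [Real.log_div hs0.ne' hW0.ne']; ring
  have h2 : 1 + |Real.log s| ≤ (1 + |Real.log W|) * (1 + |Real.log (s / W)|) := by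
    have h3 : |Real.log s| ≤ |Real.log W| + |Real.log (s / W)| := by
      rw [hlog]; exact abs_add_le _ _
    have h4 : 0 ≤ |Real.log W| * |Real.log (s / W)| := by positivity
    nlinarith
  calc s * (1 + |Real.log s|) ^ m
      ≤ s * ((1 + |Real.log W|) * (1 + |Real.log (s / W)|)) ^ m :=
        mul_le_mul_of_nonneg_left (pow_le_pow_left₀ (by positivity) h2 m) hs
    _ = (s / W * (1 + |Real.log (s / W)|) ^ m) * (W * (1 + |Real.log W|) ^ m) := by
        rw [mul_pow]; field_simp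
    _ ≤ (m.factorial : ℝ) * Real.exp 1 * (W * (1 + |Real.log W|) ^ m) :=
        mul_le_mul_of_nonneg_right h (by positivity)

/-- version for `|n| ≤ √W` -/
theorem log_mono_sqrt (m : ℕ) : ∃ C : ℝ, 0 ≤ C ∧ ∀ n W : ℝ, 0 ≤ W → W ≤ 1 → n ^ 2 ≤ W →
    |n| * (1 + |Real.log (|n|)|) ^ m ≤ C * (Real.sqrt W * (1 + |Real.log W|) ^ m) := by
  obtain ⟨C, hC, h⟩ := log_mono m
  refine ⟨C, hC, fun n W hW hW1 hn => ?_⟩
  have hu1 : Real.sqrt W ≤ 1 := by
    exact Real.sqrt_le_one.2 hW1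
  have hnW : |n| ≤ Real.sqrt W := Real.abs_le_sqrt hn
  have hlog : Real.log (Real.sqrt W) = Real.log W / 2 := Real.log_sqrt hW
  have h2 : 1 + |Real.log (Real.sqrt W)| ≤ 1 + |Real.log W| := by
    rw [hlog, abs_div, abs_of_pos (by norm_num : (0 : ℝ) < 2)]
    linarith [abs_nonneg (Real.log W)]
  refine (h (|n|) (Real.sqrt W) (abs_nonneg n) hnW hu1).trans ?_
  refine mul_le_mul_of_nonneg_left ?_ hC
  refine mul_le_mul_of_nonneg_left ?_ (Real.sqrt_nonneg W)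
  exact pow_le_pow_left₀ (by positivity) h2 m

end CI
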