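import Pool.Agent.LibCI87.Defs

/-! ROW B1.  The function `EE = expNegInvGlue` and `e1 t = EE (t^2)`. -/

set_option autoImplicit false

namespace CI

open Set Function Filter Topology

theorem EE_sm : Sm EE := by
  have h : EE = expNegInvGlue := funext fun _ => rfl
  rw [h]
  exact expNegInvGlue.contDiff

theorem EE_zero {t : ℝ} (h : t ≤ 0) : EE t = 0 := expNegInvGlue.zero_of_nonpos h

theorem EE_pos {t : ℝ} (h : 0 < t) : 0 < EE t := expNegInvGlue.pos_of_pos h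

theorem EE_nonneg (t : ℝ) : 0 ≤ EE t := expNegInvGlue.nonneg t

private theorem b1_EE {t : ℝ} (h : 0 < t) : EE t = Real.exp (-t⁻¹) := by
  unfold EE expNegInvGlue
  rw [if_neg (not_le.2 h)]

theorem EE_lt_one (t : ℝ) : EE t < 1 := by
  rcases le_or_gt t 0 with h | h
  · rw [EE_zero h]
    norm_num
  · rw [b1_EE h, Real.exp_lt_one_iff]
    exact neg_lt_zero.2 (inv_pos.2 h)

theorem EE_mono : Monotone EE := expNegInvGlue.monotone

theorem EE_strict {s t : ℝ} (hs : s < t) (ht : 0 < t) : EE s < EE t := by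
  rcases le_or_gt s 0 with h | h
  · rw [EE_zero h]
    exact EE_pos ht
  · rw [b1_EE h, b1_EE ht]
    apply Real.exp_lt_exp.2
    exact neg_lt_neg (inv_strictAnti₀ h hs)

theorem EE_lt_id {t : ℝ} (h : 0 < t) : EE t < t := by
  rw [b1_EE h, Real.exp_neg]
  have h1 : t⁻¹ < Real.exp t⁻¹ := by
    have := Real.add_one_le_exp t⁻¹
    linarith
  calc (Real.exp t⁻¹)⁻¹ < (t⁻¹)⁻¹ := inv_strictAnti₀ (inv_pos.2 h) h1
    _ = t := inv_inv t

private theorem b1_poly (p : Polynomial ℝ) : ∃ C : ℝ, ∃ m : ℕ, 0 ≤ C ∧ ∀ x : ℝ,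
    |p.eval x| ≤ C * (1 + |x|) ^ m := by
  refine ⟨∑ i ∈ Finset.range (p.natDegree + 1), |p.coeff i|, p.natDegree,
    Finset.sum_nonneg fun i _ => abs_nonneg _, fun x => ?_⟩
  rw [Polynomial.eval_eq_sum_range, Finset.sum_mul]
  refine (Finset.abs_sum_le_sum_abs _ _).trans (Finset.sum_le_sum fun i hi => ?_)
  rw [abs_mul, abs_pow]
  apply mul_le_mul_of_nonneg_left _ (abs_nonneg _)
  have h1 : |x| ^ i ≤ (1 + |x|) ^ i := pow_le_pow_left₀ (abs_nonneg _) (by linarith) i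
  refine h1.trans (pow_le_pow_right₀ (by linarith [abs_nonneg x]) ?_)
  have := Finset.mem_range.1 hi
  omega

private theorem b1_iter (i : ℕ) : ∃ p : Polynomial ℝ,
    iteratedDeriv i EE = fun t => p.eval t⁻¹ * expNegInvGlue t := by
  induction i with
  | zero =>
    refine ⟨1, ?_⟩
    rw [iteratedDeriv_zero]
    funext t
    simp [EE]
  | succ i ih =>
    obtain ⟨p, hp⟩ := ih
    refine ⟨Polynomial.X ^ 2 * (p - Polynomial.derivative p), ?_⟩
    rw [iteratedDeriv_succ, hp]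
    funext t
    exact (expNegInvGlue.hasDerivAt_polynomial_eval_inv_mul p t).deriv

theorem EE_flat (i : ℕ) : ∃ C : ℝ, ∃ m : ℕ, 0 ≤ C ∧ ∀ t : ℝ,
    |iteratedDeriv i EE t| ≤ C * (EE t * (1 + |Real.log (EE t)|) ^ m) := by
  obtain ⟨p, hp⟩ := b1_iter i
  obtain ⟨C, m, hC, hCm⟩ := b1_poly p
  refine ⟨C, m, hC, fun t => ?_⟩
  rw [hp]
  rcases le_or_gt t 0 with h | h
  · rw [EE_zero h]
    simp only [expNegInvGlue.zero_of_nonpos h, mul_zero, abs_zero, zero_mul, le_refl]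
  · have h1 : |Real.log (EE t)| = |t⁻¹| := by
      rw [b1_EE h, Real.log_exp, abs_neg]
    rw [h1]
    change |p.eval t⁻¹ * EE t| ≤ _
    rw [abs_mul, abs_of_nonneg (EE_nonneg t)]
    calc |p.eval t⁻¹| * EE t ≤ C * (1 + |t⁻¹|) ^ m * EE t :=
          mul_le_mul_of_nonneg_right (hCm t⁻¹) (EE_nonneg t)
      _ = C * (EE t * (1 + |t⁻¹|) ^ m) := by ring

theorem e1_sm : Sm e1 := by
  have h : e1 = fun t => expNegInvGlue (t ^ 2) := funext fun _ => rfl
  rw [h]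
  exact (expNegInvGlue.contDiff (n := (⊤ : ℕ∞))).comp (contDiff_id.pow 2)

theorem e1_nonneg (t : ℝ) : 0 ≤ e1 t := EE_nonneg _

theorem e1_lt_one (t : ℝ) : e1 t < 1 := EE_lt_one _

theorem e1_zero_iff (t : ℝ) : e1 t = 0 ↔ t = 0 := by
  unfold e1
  rw [expNegInvGlue.zero_iff_nonpos]
  constructor
  · intro h
    exact pow_eq_zero_iff (two_ne_zero) |>.1 (le_antisymm h (sq_nonneg t))
  · rintro rfl
    norm_num

theorem e1_neg (t : ℝ) : e1 (-t) = e1 t := by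
  unfold e1
  rw [neg_sq]

theorem e1_mono {s t : ℝ} (h : |s| ≤ |t|) : e1 s ≤ e1 t := EE_mono (sq_le_sq.2 h)

theorem e1_small (δ : ℝ) (hδ : 0 < δ) : ∃ ε : ℝ, 0 < ε ∧ ∀ t : ℝ, e1 t < ε → |t| < δ := by
  refine ⟨e1 δ, ?_, fun t ht => ?_⟩
  · exact EE_pos (by positivity)
  · by_contra h
    push Not at h
    exact absurd (e1_mono (by rwa [abs_of_pos hδ])) (not_le.2 ht)

private theorem b1_inv_le (t : ℝ) : |t⁻¹| ≤ 1 + (t ^ 2)⁻¹ := by
  rw [← inv_pow, ← sq_abs]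
  nlinarith [sq_nonneg (|t⁻¹| - 1), abs_nonneg t⁻¹]

private theorem b1_tend (p : Polynomial ℝ) :
    Tendsto (fun t : ℝ => p.eval t⁻¹ * e1 t) (𝓝 0) (𝓝 0) := by
  obtain ⟨C, m, hC, hCm⟩ := b1_poly p
  have h1 : Tendsto (fun t : ℝ => C * ((((Polynomial.C 2 + Polynomial.X) ^ m : Polynomial ℝ)).eval
      (t ^ 2)⁻¹ * expNegInvGlue (t ^ 2))) (𝓝 0) (𝓝 0) := by
    have h2 : Tendsto (fun t : ℝ => t ^ 2) (𝓝 0) (𝓝 0) := by
      have : Continuous fun t : ℝ => t ^ 2 := continuous_pow 2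
      have h3 := this.tendsto 0
      simpa using h3
    have h4 := ((expNegInvGlue.tendsto_polynomial_inv_mul_zero
      ((Polynomial.C 2 + Polynomial.X) ^ m : Polynomial ℝ)).comp h2).const_mul C
    simpa using h4
  refine squeeze_zero_norm (fun t => ?_) h1
  rw [Real.norm_eq_abs, abs_mul, abs_of_nonneg (e1_nonneg t)]
  simp only [Polynomial.eval_pow, Polynomial.eval_add, Polynomial.eval_C, Polynomial.eval_X]
  have h3 : |p.eval t⁻¹| ≤ C * (2 + (t ^ 2)⁻¹) ^ m := by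
    refine (hCm t⁻¹).trans (mul_le_mul_of_nonneg_left ?_ hC)
    apply pow_le_pow_left₀ (by positivity)
    linarith [b1_inv_le t]
  calc |p.eval t⁻¹| * e1 t ≤ C * (2 + (t ^ 2)⁻¹) ^ m * e1 t :=
        mul_le_mul_of_nonneg_right h3 (e1_nonneg t)
    _ = C * ((2 + (t ^ 2)⁻¹) ^ m * expNegInvGlue (t ^ 2)) := by
        change C * (2 + (t ^ 2)⁻¹) ^ m * expNegInvGlue (t ^ 2) = _
        ring

private theorem b1_e1_zero : e1 0 = 0 := (e1_zero_iff 0).2 rfl

private theorem b1_e1_deriv (p : Polynomial ℝ) (t : ℝ) :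
    HasDerivAt (fun t => p.eval t⁻¹ * e1 t)
      ((Polynomial.C 2 * Polynomial.X ^ 3 * p - Polynomial.X ^ 2 * Polynomial.derivative p).eval t⁻¹ *
        e1 t) t := by
  by_cases ht : t = 0
  · subst ht
    rw [b1_e1_zero, mul_zero, hasDerivAt_iff_tendsto_slope]
    refine ((b1_tend (p * Polynomial.X)).mono_left inf_le_left).congr fun x => ?_
    simp [slope_def_field, div_eq_mul_inv, b1_e1_zero, mul_right_comm]
  · have h1 : HasDerivAt expNegInvGlue ((t ^ 2)⁻¹ ^ 2 * expNegInvGlue (t ^ 2)) (t ^ 2) := by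
      have := expNegInvGlue.hasDerivAt_polynomial_eval_inv_mul 1 (t ^ 2)
      simpa using this
    have h2 : HasDerivAt (fun t : ℝ => t ^ 2) (2 * t) t := by
      have := hasDerivAt_pow 2 t
      simpa using this
    have h3 : HasDerivAt e1 ((t ^ 2)⁻¹ ^ 2 * expNegInvGlue (t ^ 2) * (2 * t)) t :=
      HasDerivAt.comp (h := fun t : ℝ => t ^ 2) t h1 h2
    have h4 : HasDerivAt (fun t : ℝ => p.eval t⁻¹) ((Polynomial.derivative p).eval t⁻¹ * (-(t ^ 2)⁻¹)) t :=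
      (p.hasDerivAt t⁻¹).comp t (hasDerivAt_inv ht)
    have h5 := h4.mul h3
    refine h5.congr_deriv ?_
    simp only [Polynomial.eval_sub, Polynomial.eval_mul, Polynomial.eval_C, Polynomial.eval_pow,
      Polynomial.eval_X]
    unfold e1
    field_simp
    ring

private theorem b1_e1_iter (i : ℕ) : ∃ p : Polynomial ℝ,
    iteratedDeriv i e1 = fun t => p.eval t⁻¹ * e1 t := by
  induction i with
  | zero =>
    refine ⟨1, ?_⟩
    rw [iteratedDeriv_zero]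
    funext t
    simp
  | succ i ih =>
    obtain ⟨p, hp⟩ := ih
    refine ⟨Polynomial.C 2 * Polynomial.X ^ 3 * p - Polynomial.X ^ 2 * Polynomial.derivative p, ?_⟩
    rw [iteratedDeriv_succ, hp]
    funext t
    exact (b1_e1_deriv p t).deriv

theorem e1_flat (i : ℕ) : ∃ C : ℝ, ∃ m : ℕ, 0 ≤ C ∧ ∀ t : ℝ,
    |iteratedDeriv i e1 t| ≤ C * (e1 t * (1 + |Real.log (e1 t)|) ^ m) := by
  obtain ⟨p, hp⟩ := b1_e1_iter i
  obtain ⟨C, m, hC, hCm⟩ := b1_poly p
  refine ⟨C * 2 ^ m, m, by positivity, fun t => ?_⟩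
  rw [hp]
  by_cases ht : t = 0
  · subst ht
    simp only [b1_e1_zero, mul_zero, abs_zero, zero_mul, le_refl]
  · have ht2 : 0 < t ^ 2 := by positivity
    have h1 : |Real.log (e1 t)| = (t ^ 2)⁻¹ := by
      have h2 : e1 t = Real.exp (-(t ^ 2)⁻¹) := b1_EE ht2
      rw [h2, Real.log_exp, abs_neg, abs_of_pos (inv_pos.2 ht2)]
    have h3 : |p.eval t⁻¹| ≤ C * (2 * (1 + (t ^ 2)⁻¹)) ^ m := by
      refine (hCm t⁻¹).trans (mul_le_mul_of_nonneg_left ?_ hC)
      apply pow_le_pow_left₀ (by positivity)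
      linarith [b1_inv_le t, inv_pos.2 ht2]
    rw [h1]
    simp only [abs_mul, abs_of_nonneg (e1_nonneg t)]
    calc |p.eval t⁻¹| * e1 t ≤ C * (2 * (1 + (t ^ 2)⁻¹)) ^ m * e1 t :=
          mul_le_mul_of_nonneg_right h3 (e1_nonneg t)
      _ = C * 2 ^ m * (e1 t * (1 + (t ^ 2)⁻¹) ^ m) := by
        rw [mul_pow]
        ring

end CI
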