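import Pool.Agent.LibCI87.B1

/-! ROW B10 (~80 lines).  The function `hh`, elementary facts.  Use B1 (stated).

`Gh t = EE (EE t)`: `0` for `t ≤ 0`, positive and strictly increasing for `t ≥ 0`.  `Gh t + Gh (1 - t) > 0` always.
`hl` is `C^∞`, `0` for `t ≤ 0`, `1` for `t ≥ 1`, `hl (1 - t) = 1 - hl t`, strictly increasing on `[0,1]`.
For `|y - i| < 1`: `hh y = i + hl (y - i) - hl (i - y)` (two cases), so `hh` is `C^∞`.
`hh_le`: for `0 < t ≤ 1/4`: `hl t ≤ Gh t / Gh (3/4)`, `Gh t = exp (- exp (1/t))`, `Gh (3/4) = exp (-exp (4/3))`,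
so `hl t ≤ exp (exp (4/3) - exp (1/t))`, and `exp (1/t) ≥ 1/t + exp (4/3)` for `t ≤ 1/4` (`exp s - s` is increasing for
`s ≥ 0`, and `exp 4 - 4 ≥ exp (4/3)`), so `hl t ≤ exp (-1/t) ≤ t`. -/

set_option autoImplicit false

namespace CI

open Set Function Filter Topology

private theorem b10_Gh_zero {t : ℝ} (h : t ≤ 0) : Gh t = 0 := by
  rw [Gh, EE_zero h, EE_zero le_rfl]

private theorem b10_Gh_pos {t : ℝ} (h : 0 < t) : 0 < Gh t := EE_pos (EE_pos h)

private theorem b10_Gh_nonneg (t : ℝ) : 0 ≤ Gh t := EE_nonneg _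

private theorem b10_Gh_strict {s t : ℝ} (hs : s < t) (ht : 0 < t) : Gh s < Gh t :=
  EE_strict (EE_strict hs ht) (EE_pos ht)

private theorem b10_Gh_mono {s t : ℝ} (hs : s ≤ t) : Gh s ≤ Gh t := EE_mono (EE_mono hs)

private theorem b10_den (t : ℝ) : 0 < Gh t + Gh (1 - t) := by
  rcases lt_or_ge 0 t with h | h
  · exact add_pos_of_pos_of_nonneg (b10_Gh_pos h) (b10_Gh_nonneg _)
  · exact add_pos_of_nonneg_of_pos (b10_Gh_nonneg _) (b10_Gh_pos (by linarith))

private theorem b10_Gh_sm : Sm Gh := EE_sm.comp EE_sm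

theorem hl_sm : Sm hl := by
  refine ContDiff.div b10_Gh_sm ?_ fun t => (b10_den t).ne'
  exact b10_Gh_sm.add (b10_Gh_sm.comp (contDiff_const.sub contDiff_id))

theorem hl_zero {t : ℝ} (h : t ≤ 0) : hl t = 0 := by
  rw [hl, b10_Gh_zero h, zero_div]

private theorem b10_hl_symm (t : ℝ) : hl (1 - t) = 1 - hl t := by
  have h := b10_den t
  rw [hl, hl, sub_sub_cancel, add_comm (Gh (1 - t)) (Gh t)]
  field_simp
  ring

private theorem b10_hl_nonneg (t : ℝ) : 0 ≤ hl t :=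
  div_nonneg (b10_Gh_nonneg _) (b10_den t).le

private theorem b10_hl_lt_one {t : ℝ} (h : t < 1) : hl t < 1 := by
  rw [hl, div_lt_one (b10_den t)]
  have := b10_Gh_pos (sub_pos.2 h)
  linarith

private theorem b10_hl_strict {s t : ℝ} (hst : s < t) (ht : 0 < t) (hs : s < 1) : hl s < hl t := by
  rw [hl, hl, div_lt_div_iff₀ (b10_den s) (b10_den t)]
  have h1 := b10_Gh_strict hst ht
  have h2 : Gh (1 - t) < Gh (1 - s) := b10_Gh_strict (by linarith) (by linarith)
  have h3 := b10_Gh_pos ht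
  have h4 := b10_Gh_nonneg (1 - t)
  have h5 : Gh s * Gh (1 - t) ≤ Gh t * Gh (1 - t) := mul_le_mul_of_nonneg_right h1.le h4
  have h6 : Gh t * Gh (1 - t) < Gh t * Gh (1 - s) := mul_lt_mul_of_pos_left h2 h3
  linarith

theorem hh_loc {y : ℝ} (i : ℤ) (h : |y - i| < 1) : hh y = i + hl (y - i) - hl (i - y) := by
  rw [abs_lt] at h
  rcases le_or_gt (i : ℝ) y with h1 | h1
  · have hf : ⌊y⌋ = i := Int.floor_eq_iff.2 ⟨h1, by linarith⟩
    have hr : Int.fract y = y - i := by rw [← Int.self_sub_floor, hf]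
    rw [hh, hf, hr, hl_zero (by linarith : (i : ℝ) - y ≤ 0), sub_zero]
  · have hf : ⌊y⌋ = i - 1 := Int.floor_eq_iff.2 ⟨by push_cast; linarith, by push_cast; linarith⟩
    have hr : Int.fract y = 1 - (i - y) := by
      rw [← Int.self_sub_floor, hf]
      push_cast
      ring
    rw [hh, hf, hr, b10_hl_symm, hl_zero (by linarith : y - (i : ℝ) ≤ 0)]
    push_cast
    ring

theorem hh_sm : Sm hh := by
  rw [Sm, contDiff_iff_contDiffAt]
  intro y
  have h0 : |y - ⌊y⌋| < 1 := by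
    rw [Int.self_sub_floor, Int.abs_fract]
    exact Int.fract_lt_one y
  have h1 : hh =ᶠ[𝓝 y] fun z : ℝ => (⌊y⌋ : ℝ) + hl (z - ⌊y⌋) - hl (⌊y⌋ - z) := by
    have h2 : ∀ᶠ z : ℝ in 𝓝 y, |z - ⌊y⌋| < 1 := by
      have hc : Continuous fun z : ℝ => |z - ⌊y⌋| := (continuous_id.sub continuous_const).abs
      exact hc.continuousAt.eventually_lt_const h0
    filter_upwards [h2] with z hz
    exact hh_loc _ hz
  refine ContDiffAt.congr_of_eventuallyEq ?_ h1
  refine ContDiff.contDiffAt ?_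
  exact (contDiff_const.add (hl_sm.comp (contDiff_id.sub contDiff_const))).sub
    (hl_sm.comp (contDiff_const.sub contDiff_id))

theorem hh_add (y : ℝ) (i : ℤ) : hh (y + i) = hh y + i := by
  rw [hh, hh, Int.floor_add_intCast, Int.fract_add_intCast]
  push_cast
  ring

theorem hh_odd (y : ℝ) : hh (-y) = -hh y := by
  have h0 : |y - ⌊y⌋| < 1 := by
    rw [Int.self_sub_floor, Int.abs_fract]
    exact Int.fract_lt_one y
  have h1 : |-y - ((-⌊y⌋ : ℤ) : ℝ)| < 1 := by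
    have : -y - ((-⌊y⌋ : ℤ) : ℝ) = -(y - ⌊y⌋) := by
      push_cast
      ring
    rw [this, abs_neg]
    exact h0
  rw [hh_loc _ h0, hh_loc _ h1]
  have e1 : -y - ((-⌊y⌋ : ℤ) : ℝ) = ⌊y⌋ - y := by
    push_cast
    ring
  have e2 : ((-⌊y⌋ : ℤ) : ℝ) - -y = y - ⌊y⌋ := by
    push_cast
    ring
  rw [e1, e2]
  push_cast
  ring

theorem hh_strictMono : StrictMono hh := by
  intro s t hst
  have hs := Int.fract_lt_one s
  have ht0 := Int.fract_nonneg t
  have e1 := Int.floor_add_fract s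
  have e2 := Int.floor_add_fract t
  rcases (Int.floor_le_floor hst.le).lt_or_eq with h | h
  · have h1 : (⌊s⌋ : ℝ) + 1 ≤ ⌊t⌋ := by exact_mod_cast h
    have h2 := b10_hl_lt_one hs
    have h3 := b10_hl_nonneg (Int.fract t)
    rw [hh, hh]
    linarith
  · have h1 : Int.fract s < Int.fract t := by
      have h2 : (⌊s⌋ : ℝ) = ⌊t⌋ := by exact_mod_cast h
      linarith
    have h2 := b10_hl_strict h1 (lt_of_le_of_lt (Int.fract_nonneg s) h1) hs
    rw [hh, hh, h]
    linarith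

theorem hh_zero : hh 0 = 0 := by
  have := hh_loc (y := 0) 0 (by norm_num)
  rw [this]
  norm_num

private theorem b10_EE {t : ℝ} (h : 0 < t) : EE t = Real.exp (-t⁻¹) := by
  rw [EE, expNegInvGlue, if_neg (not_le.2 h)]

private theorem b10_Gh {t : ℝ} (h : 0 < t) : Gh t = Real.exp (-Real.exp t⁻¹) := by
  rw [Gh, b10_EE (EE_pos h), b10_EE h, ← Real.exp_neg, neg_neg]

private theorem b10_hl_le {t : ℝ} (h0 : 0 ≤ t) (h : t ≤ 1 / 4) : hl t ≤ t := by
  rcases h0.eq_or_lt with h1 | h1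
  · rw [← h1, hl_zero le_rfl]
  · have h2 : hl t ≤ Gh t / Gh (3 / 4) := by
      refine div_le_div_of_nonneg_left (b10_Gh_nonneg t) (b10_Gh_pos (by norm_num)) ?_
      have h3 : Gh (3 / 4) ≤ Gh (1 - t) := b10_Gh_mono (by linarith)
      have h4 := b10_Gh_nonneg t
      linarith
    have hu : 4 ≤ t⁻¹ := by
      rw [le_inv_comm₀ (by norm_num) h1]
      linarith
    have h5 : Gh t / Gh (3 / 4) = Real.exp (Real.exp (4 / 3) - Real.exp t⁻¹) := by
      rw [b10_Gh h1, b10_Gh (by norm_num : (0 : ℝ) < 3 / 4), ← Real.exp_sub]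
      congr 1
      have : ((3 / 4 : ℝ))⁻¹ = 4 / 3 := by norm_num
      rw [this]
      ring
    have h6 : t⁻¹ + Real.exp (4 / 3) ≤ Real.exp t⁻¹ := by
      have h7 : Real.exp t⁻¹ = Real.exp (4 / 3) * Real.exp (t⁻¹ - 4 / 3) := by
        rw [← Real.exp_add]
        congr 1
        ring
      have h8 := Real.add_one_le_exp (t⁻¹ - 4 / 3)
      have h9 := Real.add_one_le_exp (4 / 3 : ℝ)
      rw [h7]
      have h10 : 0 ≤ t⁻¹ - 4 / 3 := by linarith
      have h11 : Real.exp (4 / 3) * (t⁻¹ - 4 / 3 + 1) ≤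
          Real.exp (4 / 3) * Real.exp (t⁻¹ - 4 / 3) :=
        mul_le_mul_of_nonneg_left h8 (Real.exp_pos _).le
      have h12 : (4 / 3 + 1) * (t⁻¹ - 4 / 3) ≤ Real.exp (4 / 3) * (t⁻¹ - 4 / 3) :=
        mul_le_mul_of_nonneg_right h9 h10
      linarith
    have h13 : Real.exp (-t⁻¹) ≤ t := by
      rw [Real.exp_neg, inv_le_comm₀ (Real.exp_pos _) h1]
      have := Real.add_one_le_exp t⁻¹
      linarith
    calc hl t ≤ Gh t / Gh (3 / 4) := h2
      _ = Real.exp (Real.exp (4 / 3) - Real.exp t⁻¹) := h5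
      _ ≤ Real.exp (-t⁻¹) := Real.exp_le_exp.2 (by linarith)
      _ ≤ t := h13

theorem hh_le {t : ℝ} (h : |t| ≤ 1 / 4) : |hh t| ≤ |t| := by
  have h1 : |t - ((0 : ℤ) : ℝ)| < 1 := by
    rw [Int.cast_zero, sub_zero]
    linarith
  rw [hh_loc 0 h1]
  simp only [Int.cast_zero, sub_zero, zero_sub, zero_add]
  rcases le_total 0 t with h0 | h0
  · rw [hl_zero (by linarith : -t ≤ 0), sub_zero, abs_of_nonneg (b10_hl_nonneg t), abs_of_nonneg h0]
    rw [abs_of_nonneg h0] at h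
    exact b10_hl_le h0 h
  · rw [hl_zero h0, zero_sub, abs_neg, abs_of_nonneg (b10_hl_nonneg _), abs_of_nonpos h0]
    rw [abs_of_nonpos h0] at h
    exact b10_hl_le (by linarith) h

end CI
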