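import Pool.Agent.LibCI87.B10
import Pool.Agent.LibCI87.B0

/-! ROW B11 (~110 lines).  `hh` is very flat at `0`.  Use B0, B1, B10 (stated).

(1) For every `i` there are `C, m` with `|iteratedDeriv i Gh t| ≤ C (Gh t (1 + |log (Gh t)|)^m)` for all `t ≤ 1`:
`Gh = EE ∘ EE`, `norm_iteratedFDeriv_comp_le`: the derivatives of `EE` at `EE t` are bounded by `EE_flat`, those of the inner
`EE` are bounded by a constant (`EE_flat` and `log_bdd`).
(2) `x (1 + |log x|)^m ≤ C_m √x` for `x ∈ [0,1]` (B0 `log_sqrt_bdd`), and `√(Gh t) ≤ C_k e1 t ^ k` for `t > 0`: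
`exp (- exp (1/t) / 2) ≤ C_k exp (- k / t^2)` because `exp s ≥ s^4/24`, so
`k s^2 - exp s / 2 ≤ k s^2 - s^4/48 ≤ 12 k^2` with `s = 1/t`.
(3) For `t ∈ [0, 1/2]`: `hl = Gh * (Gh + Gh (1 - ·))⁻¹`, the second factor is `C^∞` with bounded derivatives on the compact
interval, Leibniz (`norm_iteratedFDeriv_mul_le`).  `iteratedDeriv i hl t = 0` for `t ≤ 0`.
(4) near `t`, `|t| ≤ 1/2`: `hh t = hl t - hl (-t)` (B10 `hh_loc` with `i = 0`), `e1` is even. -/

set_option autoImplicit false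

namespace CI

open Set Function Filter Topology

private theorem b11_Gh_sm : Sm Gh := by
  have h : Gh = EE ∘ EE := rfl
  rw [h]
  exact EE_sm.comp EE_sm

private theorem b11_EE_bdd (i : ℕ) : ∃ C : ℝ, 0 ≤ C ∧ ∀ t : ℝ, |iteratedDeriv i EE t| ≤ C := by
  obtain ⟨C, m, hC, h⟩ := EE_flat i
  obtain ⟨D, hD⟩ := log_bdd m
  refine ⟨C * |D|, by positivity, fun t => (h t).trans ?_⟩
  exact mul_le_mul_of_nonneg_left ((hD _ (EE_nonneg t) (EE_lt_one t).le).trans (le_abs_self D)) hC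

private theorem b11_Gh_flat (i : ℕ) : ∃ C : ℝ, ∃ m : ℕ, 0 ≤ C ∧ ∀ t : ℝ,
    |iteratedDeriv i Gh t| ≤ C * (Gh t * (1 + |Real.log (Gh t)|) ^ m) := by
  choose C m hC hflat using EE_flat
  choose D hD hbdd using b11_EE_bdd
  obtain ⟨A, hA⟩ : ∃ A, A = ∑ j ∈ Finset.range (i + 1), C j := ⟨_, rfl⟩
  obtain ⟨M, hM⟩ : ∃ M, M = ∑ j ∈ Finset.range (i + 1), m j := ⟨_, rfl⟩
  obtain ⟨B, hB⟩ : ∃ B, B = 1 + ∑ j ∈ Finset.range (i + 1), D j := ⟨_, rfl⟩
  have hA0 : 0 ≤ A := by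
    rw [hA]
    exact Finset.sum_nonneg fun j _ => hC j
  have hB1 : 1 ≤ B := by
    rw [hB]
    have := Finset.sum_nonneg (s := Finset.range (i + 1)) fun j _ => hD j
    linarith
  refine ⟨i.factorial * A * B ^ i, M, by positivity, fun t => ?_⟩
  have hG0 : 0 ≤ Gh t := EE_nonneg _
  have hX0 : 0 ≤ Gh t * (1 + |Real.log (Gh t)|) ^ M := by positivity
  have h1 := norm_iteratedFDeriv_comp_le (𝕜 := ℝ) (g := EE) (f := EE) (n := i)
    (N := ((⊤ : ℕ∞) : WithTop ℕ∞)) EE_sm EE_sm (by exact_mod_cast le_top) t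
    (C := A * (Gh t * (1 + |Real.log (Gh t)|) ^ M)) (D := B) (by
      intro j hj
      rw [norm_iteratedFDeriv_eq_norm_iteratedDeriv, Real.norm_eq_abs]
      refine (hflat j (EE t)).trans ?_
      have hj' : j ∈ Finset.range (i + 1) := Finset.mem_range.2 (by omega)
      have h2 : C j ≤ A := by
        rw [hA]
        exact Finset.single_le_sum (f := C) (fun j _ => hC j) hj'
      have h3 : m j ≤ M := by
        rw [hM]
        exact Finset.single_le_sum (f := m) (fun j _ => Nat.zero_le _) hj'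
      have h4 : (1 + |Real.log (Gh t)|) ^ m j ≤ (1 + |Real.log (Gh t)|) ^ M :=
        pow_le_pow_right₀ (by linarith [abs_nonneg (Real.log (Gh t))]) h3
      have h5 : EE (EE t) = Gh t := rfl
      rw [h5]
      exact mul_le_mul h2 (mul_le_mul_of_nonneg_left h4 hG0) (by positivity) hA0) (by
      intro j hj1 hj
      rw [norm_iteratedFDeriv_eq_norm_iteratedDeriv, Real.norm_eq_abs]
      refine (hbdd j t).trans ?_
      have hj' : j ∈ Finset.range (i + 1) := Finset.mem_range.2 (by omega)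
      have h2 : D j ≤ B := by
        rw [hB]
        have := Finset.single_le_sum (f := D) (fun j _ => hD j) hj'
        linarith
      exact h2.trans (le_self_pow₀ hB1 (by omega)))
  rw [norm_iteratedFDeriv_eq_norm_iteratedDeriv, Real.norm_eq_abs] at h1
  have h6 : Gh = EE ∘ EE := rfl
  rw [h6]
  refine h1.trans (le_of_eq ?_)
  rw [← h6]
  ring

private theorem b11_exp (k : ℕ) (s : ℝ) (hs : 0 < s) :
    Real.exp (-(Real.exp s) / 2) ≤ Real.exp (12 * k ^ 2) * Real.exp (-(s ^ 2)) ^ k := by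
  rw [← Real.exp_nat_mul, ← Real.exp_add, Real.exp_le_exp]
  have h1 : s ^ 4 / 24 ≤ Real.exp s := by
    have h := Real.pow_div_factorial_le_exp s hs.le 4
    norm_num [Nat.factorial] at h ⊢
    exact h
  nlinarith [sq_nonneg (s ^ 2 - 24 * k)]

private theorem b11_sqrt (k : ℕ) (t : ℝ) :
    Real.sqrt (Gh t) ≤ Real.exp (12 * k ^ 2) * e1 t ^ k := by
  rcases le_or_gt t 0 with ht | ht
  · have h1 : Gh t = 0 := by
      show EE (EE t) = 0
      rw [EE_zero ht, EE_zero le_rfl]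
    rw [h1, Real.sqrt_zero]
    have := e1_nonneg t
    positivity
  · have h1 : EE t = Real.exp (-t⁻¹) := by
      show expNegInvGlue t = _
      rw [expNegInvGlue, if_neg (not_le.2 ht)]
    have h2 : 0 < EE t := EE_pos ht
    have h3 : Gh t = Real.exp (-(Real.exp t⁻¹)) := by
      show expNegInvGlue (EE t) = _
      rw [expNegInvGlue, if_neg (not_le.2 h2), h1, ← Real.exp_neg, neg_neg]
    have h4 : e1 t = Real.exp (-(t⁻¹ ^ 2)) := by
      show expNegInvGlue (t ^ 2) = _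
      rw [expNegInvGlue, if_neg (not_le.2 (by positivity)), inv_pow]
    have h5 : Real.sqrt (Gh t) = Real.exp (-(Real.exp t⁻¹) / 2) := by
      rw [h3, Real.exp_half]
    rw [h5, h4]
    exact b11_exp k t⁻¹ (by positivity)

private theorem b11_Gh (i k : ℕ) : ∃ C : ℝ, 0 ≤ C ∧ ∀ t : ℝ,
    |iteratedDeriv i Gh t| ≤ C * e1 t ^ k := by
  obtain ⟨C, m, hC, h⟩ := b11_Gh_flat i
  obtain ⟨D, hD⟩ := log_sqrt_bdd m
  refine ⟨C * (|D| * Real.exp (12 * k ^ 2)), by positivity, fun t => (h t).trans ?_⟩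
  have hG0 : 0 ≤ Gh t := EE_nonneg _
  have hG1 : Gh t ≤ 1 := (EE_lt_one _).le
  have h1 := hD (Gh t) hG0 hG1
  have h2 : Gh t * (1 + |Real.log (Gh t)|) ^ m =
      (Real.sqrt (Gh t) * (1 + |Real.log (Gh t)|) ^ m) * Real.sqrt (Gh t) := by
    nth_rewrite 1 [← Real.mul_self_sqrt hG0]
    ring
  rw [h2, mul_assoc C]
  refine mul_le_mul_of_nonneg_left ?_ hC
  rw [mul_assoc |D|]
  exact mul_le_mul (h1.trans (le_abs_self D)) (b11_sqrt k t) (Real.sqrt_nonneg _) (abs_nonneg D)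

private noncomputable def b11R (t : ℝ) : ℝ := (Gh t + Gh (1 - t))⁻¹

private theorem b11_den (t : ℝ) : 0 < Gh t + Gh (1 - t) := by
  have h1 : ∀ s, 0 < s → 0 < Gh s := fun s hs => EE_pos (EE_pos hs)
  have h2 : ∀ s, 0 ≤ Gh s := fun s => EE_nonneg _
  rcases lt_or_ge 0 t with ht | ht
  · linarith [h1 t ht, h2 (1 - t)]
  · linarith [h1 (1 - t) (by linarith), h2 t]

private theorem b11R_sm : Sm b11R := by
  have h1 : Sm (fun t : ℝ => Gh t + Gh (1 - t)) :=
    b11_Gh_sm.add (b11_Gh_sm.comp (contDiff_const.sub contDiff_id))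
  exact h1.inv fun t => (b11_den t).ne'

private theorem b11R_bdd (i : ℕ) : ∃ C : ℝ, 0 ≤ C ∧ ∀ t ∈ Icc (0:ℝ) (1 / 2),
    |iteratedDeriv i b11R t| ≤ C := by
  have hc : Continuous (iteratedDeriv i b11R) :=
    b11R_sm.continuous_iteratedDeriv i (by exact_mod_cast le_top)
  obtain ⟨C, hC⟩ := isCompact_Icc.exists_bound_of_continuousOn
    (s := Icc (0:ℝ) (1 / 2)) hc.continuousOn
  refine ⟨|C|, abs_nonneg _, fun t ht => ?_⟩
  have h1 := hC t ht
  rw [Real.norm_eq_abs] at h1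
  exact h1.trans (le_abs_self C)

private theorem b11_hl (i k : ℕ) : ∃ C : ℝ, 0 ≤ C ∧ ∀ t : ℝ, t ≤ 1 / 2 →
    |iteratedDeriv i hl t| ≤ C * e1 t ^ k := by
  choose A hA hGh using fun j => b11_Gh j k
  choose B hB hR using b11R_bdd
  refine ⟨∑ j ∈ Finset.range (i + 1), (i.choose j : ℝ) * A j * B (i - j),
    Finset.sum_nonneg fun j _ => mul_nonneg (mul_nonneg (Nat.cast_nonneg _) (hA j)) (hB _),
    fun t ht => ?_⟩
  have hS : 0 ≤ ∑ j ∈ Finset.range (i + 1), (i.choose j : ℝ) * A j * B (i - j) :=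
    Finset.sum_nonneg fun j _ => mul_nonneg (mul_nonneg (Nat.cast_nonneg _) (hA j)) (hB _)
  have he : 0 ≤ e1 t := e1_nonneg t
  rcases lt_or_ge t 0 with h0 | h0
  · have h1 : hl =ᶠ[𝓝 t] fun _ => (0 : ℝ) := by
      filter_upwards [Iio_mem_nhds h0] with s hs
      exact hl_zero (le_of_lt hs)
    rw [h1.iteratedDeriv_eq i]
    have h2 : iteratedDeriv i (fun _ : ℝ => (0 : ℝ)) t = 0 := by
      rw [iteratedDeriv_const]
      split_ifs <;> rfl
    rw [h2, abs_zero]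
    positivity
  · have h1 : hl = fun s => Gh s * b11R s := by
      funext s
      show Gh s / (Gh s + Gh (1 - s)) = Gh s * (Gh s + Gh (1 - s))⁻¹
      rw [div_eq_mul_inv]
    have h2 := norm_iteratedFDeriv_mul_le (𝕜 := ℝ) (f := Gh) (g := b11R)
      (N := ((⊤ : ℕ∞) : WithTop ℕ∞)) b11_Gh_sm b11R_sm t (n := i) (by exact_mod_cast le_top)
    rw [← h1, norm_iteratedFDeriv_eq_norm_iteratedDeriv, Real.norm_eq_abs] at h2
    refine h2.trans ?_
    rw [Finset.sum_mul]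
    refine Finset.sum_le_sum fun j _ => ?_
    rw [norm_iteratedFDeriv_eq_norm_iteratedDeriv, norm_iteratedFDeriv_eq_norm_iteratedDeriv,
      Real.norm_eq_abs, Real.norm_eq_abs]
    have h3 := hGh j t
    have h4 := hR (i - j) t ⟨h0, ht⟩
    calc (i.choose j : ℝ) * |iteratedDeriv j Gh t| * |iteratedDeriv (i - j) b11R t|
        ≤ (i.choose j : ℝ) * (A j * e1 t ^ k) * B (i - j) := by
          refine mul_le_mul (mul_le_mul_of_nonneg_left h3 (Nat.cast_nonneg _)) h4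
            (abs_nonneg _) ?_
          have := hA j
          positivity
      _ = (i.choose j : ℝ) * A j * B (i - j) * e1 t ^ k := by ring

theorem hh_flat (i k : ℕ) : ∃ C : ℝ, 0 ≤ C ∧ ∀ t : ℝ, |t| ≤ 1 / 2 →
    |iteratedDeriv i hh t| ≤ C * e1 t ^ k := by
  obtain ⟨C, hC, h⟩ := b11_hl i k
  refine ⟨2 * C, by positivity, fun t ht => ?_⟩
  obtain ⟨ht1, ht2⟩ := abs_le.1 ht
  have h1 : hh =ᶠ[𝓝 t] (hl - fun s => hl (-s)) := by
    filter_upwards [isOpen_Ioo.mem_nhds (show t ∈ Ioo (-1:ℝ) 1 from ⟨by linarith, by linarith⟩)]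
      with s hs
    have h2 := hh_loc (y := s) 0 (by
      rw [Int.cast_zero, sub_zero, abs_lt]
      exact hs)
    rw [h2]
    simp
  have h6 : ContDiffAt ℝ i (fun s => hl (-s)) t :=
    (hl_sm.comp contDiff_neg).contDiffAt.of_le (by exact_mod_cast le_top)
  rw [h1.iteratedDeriv_eq i,
    iteratedDeriv_sub (hl_sm.contDiffAt.of_le (by exact_mod_cast le_top)) h6,
    iteratedDeriv_comp_neg]
  have h3 := h t ht2
  have h4 := h (-t) (by linarith)
  rw [e1_neg] at h4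
  have h5 : |(-1 : ℝ) ^ i • iteratedDeriv i hl (-t)| = |iteratedDeriv i hl (-t)| := by
    rw [smul_eq_mul, abs_mul, abs_pow, abs_neg, abs_one, one_pow, one_mul]
  calc |iteratedDeriv i hl t - (-1 : ℝ) ^ i • iteratedDeriv i hl (-t)|
      ≤ |iteratedDeriv i hl t| + |(-1 : ℝ) ^ i • iteratedDeriv i hl (-t)| := abs_sub _ _
    _ ≤ C * e1 t ^ k + C * e1 t ^ k := by
        rw [h5]
        exact add_le_add h3 h4
    _ = 2 * C * e1 t ^ k := by ring

end CI
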