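import Pool.Agent.LibCI87.Defs

/-!
# Further definitions (analytic half)
-/

set_option autoImplicit false

namespace CI

open Set Function Filter Topology

/-- the point where `aa` takes the value `nn P i`: critical point number `i` of `vloc P` -/
noncomputable def tt (P : Par) (i : ℕ) : ℝ := invFun aa (nn P i)

/-- local transversal variable in the strip of the stop number `i` -/
noncomputable def wl (P : Par) (i : ℕ) (c : ℝ × ℝ) : ℝ := c.2 - P.al * (c.1 - P.J i) - P.q i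

/-- `x`-coordinate of the section point -/
noncomputable def xs (P : Par) (l : ℕ) (z : E5) : ℝ := (phi P (aL l - eta P z.1) z.1.1).1

/-- `x`-coordinate of the image of the section point -/
noncomputable def xs' (P : Par) (l : ℕ) (z : E5) : ℝ := (phi P (aL l - eta P z.1 + 1) z.1.1).1

/-- the left tip -/
def regA (P : Par) (l : ℕ) (δ : ℝ) : Set E5 :=
  {z | |eta P z.1 - aL l| < 1 / 2 ∧ |z.1.1.1 - Ak P (kk l)| < 3 / 32 ∧
    |wl P (2 * kk l + 1) z.1.1 - tt P (2 * kk l + 1)| < δ ∧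
    Ak P (kk l) - z.1.1.1 - (aL l - eta P z.1) * VV P z.1.1 < δ ∧
    |z.2.1| < δ ∧ |z.2.2 - jL l| < δ ∧ 0 < rb P l z}

/-- the right tip -/
def regB (P : Par) (l : ℕ) (δ : ℝ) : Set E5 :=
  {z | |eta P z.1 - aL l| < 1 / 2 ∧ |z.1.1.1 - Bk P (kk l)| < 3 / 32 ∧
    |wl P (2 * kk l + 2) z.1.1 - tt P (2 * kk l + 2)| < δ ∧
    z.1.1.1 + (aL l - eta P z.1 + 1) * VV P z.1.1 - Bk P (kk l) < δ ∧
    |z.2.1| < δ ∧ |z.2.2 - jL l| < δ ∧ 0 < rb P l z}

/-- the middle -/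
def regM (P : Par) (l : ℕ) (δ : ℝ) : Set E5 :=
  {z | |eta P z.1 - aL l| < 1 / 2 ∧ Ak P (kk l) + 1 / 32 < xs P l z ∧
    xs P l z < Bk P (kk l) - 1 / 32 ∧ |NN P z.1.1| < δ ∧
    |z.2.1| < δ ∧ |z.2.2 - jL l| < δ ∧ 0 < rb P l z}

end CI
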