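import Pool.Agent.LibCI87.B3
import Pool.Agent.LibCI87.Defs2

/-! ROW B12 (~120 lines).  The function `tau0`.  Use B3 (`uu`, `gg`; stated).

The intervals `[n_i - n_i/8, n_i + n_i/8]` (`n_i = nn P i`, `i ≥ 1`) are pairwise disjoint: `n_j ≤ n_i / 2` for `i < j`, and
`(9/8) (n_i / 2) < (7/8) n_i`.  So at each `h` at most one term of the sum is nonzero (`gg_zero`): `tsum_eq_single`.
Locally finite on `h > 0`: for `h₀ > 0` only finitely many intervals meet `(h₀/2, ∞)` (`n_i → 0`), so near `h₀` the sum is a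
finite sum of `C^∞` functions.
`tau0_symbol`: let `h > 0`.  If `h` is not in any of the closed intervals then `tau0 = 0` near `h`.  Otherwise
`|h - n_i| ≤ et_i`, near `h` `tau0` is the `i`-th term (the other intervals are at a positive distance), and
`|iteratedDeriv j tau0 h| = et_i^(1-j) |iteratedDeriv j gg (..)| ≤ C et_i / et_i^j`, with `h ≤ 9 et_i` and `et_i ≤ h`
(as `7 et_i ≤ h ≤ 9 et_i`), so times `h^j` it is at most `C 9^j h`.
`tau0_deriv`: `1 + tau0' h = uu' ((h - n_i)/et_i)` in the interval number `i`, `= 1` off the intervals. -/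

set_option autoImplicit false

namespace CI

open Set Function Filter Topology

theorem nn_zero (P : Par) : nn P 0 = 0 := by
  unfold nn
  rw [P.J0, P.q0]
  simp
theorem nn_pos (P : Par) (i : ℕ) : 0 < nn P (i + 1) := P.n_pos i
theorem nn_le (P : Par) (i : ℕ) : nn P (i + 1) ≤ 1 / 16 * (1 / 2) ^ i := by
  induction i with
  | zero => simpa [nn] using P.n_le
  | succ i ih =>
    have h1 : nn P (i + 1 + 1) ≤ nn P (i + 1) / 2 := P.n_step i
    rw [pow_succ]
    linarith
theorem nn_half (P : Par) {i j : ℕ} (h : i < j) : nn P (j + 1) ≤ nn P (i + 1) / 2 := by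
  induction j, h using Nat.le_induction with
  | base => exact P.n_step i
  | succ j hj ih =>
    have h1 : nn P (j + 1 + 1) ≤ nn P (j + 1) / 2 := P.n_step j
    have h2 := nn_pos P j
    linarith

private noncomputable def b12_T (P : Par) (i : ℕ) (h : ℝ) : ℝ :=
  et P (i + 1) * gg ((h - nn P (i + 1)) / et P (i + 1))

private theorem b12_et (P : Par) (i : ℕ) : et P (i + 1) = nn P (i + 1) / 8 := rfl

private theorem b12_et_pos (P : Par) (i : ℕ) : 0 < et P (i + 1) := by
  have := nn_pos P i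
  rw [b12_et]
  positivity

private theorem b12_tau (P : Par) (h : ℝ) : tau0 P h = ∑' i, b12_T P i h := rfl

private theorem b12_T_zero (P : Par) (i : ℕ) {h : ℝ} (hh : et P (i + 1) ≤ |h - nn P (i + 1)|) :
    b12_T P i h = 0 := by
  unfold b12_T
  have h1 := b12_et_pos P i
  rw [gg_zero, mul_zero]
  rw [abs_div, abs_of_pos h1, le_div_iff₀ h1, one_mul]
  exact hh

/-- the intervals are disjoint -/
private theorem b12_disj (P : Par) {i k : ℕ} (hik : k ≠ i) {h : ℝ}
    (hh : |h - nn P (i + 1)| ≤ et P (i + 1)) : et P (k + 1) < |h - nn P (k + 1)| := by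
  have hi := nn_pos P i
  have hk := nn_pos P k
  rw [b12_et] at hh ⊢
  rw [abs_le] at hh
  rcases lt_or_gt_of_ne hik with h1 | h1
  · have h2 := nn_half P h1
    rw [lt_abs]
    right
    linarith [hh.1, hh.2]
  · have h2 := nn_half P h1
    rw [lt_abs]
    left
    linarith [hh.1, hh.2]

theorem tau0_off (P : Par) {h : ℝ} (hh : ∀ i, et P (i + 1) ≤ |h - nn P (i + 1)|) :
    tau0 P h = 0 := by
  rw [b12_tau]
  have h1 : ∀ i, b12_T P i h = 0 := fun i => b12_T_zero P i (hh i)
  simp only [h1, tsum_zero]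

theorem tau0_zero (P : Par) {h : ℝ} (hh : h ≤ 0 ∨ 1 / 8 ≤ h) : tau0 P h = 0 := by
  refine tau0_off P fun i => ?_
  have hi := nn_pos P i
  have hi' : nn P (i + 1) ≤ 1 / 16 := by
    have h1 := nn_le P i
    have h2 : ((1:ℝ) / 2) ^ i ≤ 1 := pow_le_one₀ (by norm_num) (by norm_num)
    linarith
  rw [b12_et]
  rcases hh with h1 | h1
  · rw [le_abs]
    right
    linarith
  · rw [le_abs]
    left
    linarith

theorem tau0_loc (P : Par) (i : ℕ) {h : ℝ} (hh : |h - nn P (i + 1)| ≤ et P (i + 1)) :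
    tau0 P h = et P (i + 1) * gg ((h - nn P (i + 1)) / et P (i + 1)) := by
  rw [b12_tau, tsum_eq_single i fun k hk => b12_T_zero P k (b12_disj P hk hh).le]
  rfl

/-- locally finite -/
private theorem b12_fin (P : Par) {h : ℝ} (hh : 0 < h) :
    ∃ N : ℕ, ∀ᶠ x in 𝓝 h, ∀ i, N ≤ i → et P (i + 1) ≤ |x - nn P (i + 1)| := by
  obtain ⟨N, hN⟩ : ∃ N : ℕ, ∀ i, N ≤ i → nn P (i + 1) < h / 4 := by
    have h1 : Tendsto (fun i : ℕ => 1 / 16 * ((1:ℝ) / 2) ^ i) atTop (𝓝 0) := by
      have := (tendsto_pow_atTop_nhds_zero_of_lt_one (r := (1:ℝ)/2) (by norm_num)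
        (by norm_num)).const_mul (1 / 16 : ℝ)
      simpa using this
    obtain ⟨N, hN⟩ := eventually_atTop.1 (h1.eventually_lt_const (by positivity : 0 < h / 4))
    exact ⟨N, fun i hi => (nn_le P i).trans_lt (hN i hi)⟩
  refine ⟨N, ?_⟩
  have h2 : ∀ᶠ x in 𝓝 h, h / 2 < x := eventually_gt_nhds (by linarith)
  filter_upwards [h2] with x hx i hi
  have h3 := hN i hi
  have h4 := nn_pos P i
  rw [b12_et, le_abs]
  left
  linarith

/-- near `h` only the term number `i` is present -/
private theorem b12_near (P : Par) {h : ℝ} (hh : 0 < h) (i : ℕ)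
    (hi : ∀ k, k ≠ i → et P (k + 1) < |h - nn P (k + 1)|) :
    tau0 P =ᶠ[𝓝 h] b12_T P i := by
  obtain ⟨N, hN⟩ := b12_fin P hh
  have h1 : ∀ᶠ x in 𝓝 h, ∀ k ∈ Finset.range N, k ≠ i → et P (k + 1) < |x - nn P (k + 1)| := by
    rw [Finset.eventually_all]
    intro k _
    by_cases hk : k = i
    · exact Eventually.of_forall fun x hx => absurd hk hx
    · have h2 : Continuous fun x : ℝ => |x - nn P (k + 1)| := by fun_prop
      filter_upwards [h2.continuousAt.eventually_const_lt (hi k hk)] with x hx _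
      exact hx
  filter_upwards [hN, h1] with x hx1 hx2
  rw [b12_tau, tsum_eq_single i fun k hk => ?_]
  rcases lt_or_ge k N with h3 | h3
  · exact b12_T_zero P k (hx2 k (Finset.mem_range.2 h3) hk).le
  · exact b12_T_zero P k (hx1 k h3)

/-- the index -/
private theorem b12_idx (P : Par) (h : ℝ) : ∃ i : ℕ,
    (∀ k, k ≠ i → et P (k + 1) < |h - nn P (k + 1)|) ∧
    (|h - nn P (i + 1)| ≤ et P (i + 1) ∨ ∀ k, et P (k + 1) < |h - nn P (k + 1)|) := by
  by_cases hex : ∃ i, |h - nn P (i + 1)| ≤ et P (i + 1)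
  · obtain ⟨i, hi⟩ := hex
    exact ⟨i, fun k hk => b12_disj P hk hi, Or.inl hi⟩
  · push Not at hex
    exact ⟨0, fun k _ => hex k, Or.inr hex⟩

private theorem b12_T_sm (P : Par) (i : ℕ) : Sm (b12_T P i) := by
  unfold b12_T
  exact contDiff_const.mul (gg_sm.comp ((contDiff_id.sub contDiff_const).div_const _))

private theorem b12_T_iter (P : Par) (i j : ℕ) (h : ℝ) : iteratedDeriv j (b12_T P i) h =
    et P (i + 1) * ((1 / et P (i + 1)) ^ j *
      iteratedDeriv j gg ((h - nn P (i + 1)) / et P (i + 1))) := by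
  have h1 : b12_T P i = fun h => et P (i + 1) *
      (fun u => gg (1 / et P (i + 1) * u)) (h - nn P (i + 1)) := by
    funext h
    unfold b12_T
    simp only
    congr 2
    ring
  have h3 := congrFun (iteratedDeriv_comp_sub_const j (fun u => gg (1 / et P (i + 1) * u))
    (nn P (i + 1))) h
  rw [h1, iteratedDeriv_const_mul_field]
  refine congrArg _ (h3.trans ?_)
  have h2 : ContDiff ℝ (j : WithTop ℕ∞) gg := gg_sm.of_le (by exact_mod_cast le_top)
  rw [iteratedDeriv_comp_const_mul h2]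
  simp only
  congr 2
  ring

theorem tau0_smAt (P : Par) {h : ℝ} (hh : 0 < h) :
    ContDiffAt ℝ ((⊤ : ℕ∞) : WithTop ℕ∞) (tau0 P) h := by
  obtain ⟨i, hi, -⟩ := b12_idx P h
  exact (b12_T_sm P i).contDiffAt.congr_of_eventuallyEq (b12_near P hh i hi)

theorem tau0_symbol (P : Par) (j : ℕ) : ∃ C : ℝ, 0 ≤ C ∧ ∀ h : ℝ, 0 < h →
    |iteratedDeriv j (tau0 P) h| * h ^ j ≤ C * h := by
  obtain ⟨C, hC0, hC⟩ := gg_bdd j
  refine ⟨C * 9 ^ j, by positivity, fun h hh => ?_⟩
  obtain ⟨i, hi, hcase⟩ := b12_idx P h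
  have hn := nn_pos P i
  have he := b12_et_pos P i
  rcases hcase with h1 | h1
  · rw [(b12_near P hh i hi).iteratedDeriv_eq, b12_T_iter, abs_mul, abs_mul, abs_of_pos he,
      abs_of_pos (by positivity : 0 < (1 / et P (i + 1)) ^ j)]
    rw [abs_le] at h1
    have h2 : h ≤ 9 * et P (i + 1) := by rw [b12_et] at h1 ⊢; linarith [h1.2]
    have h3 : et P (i + 1) ≤ h := by rw [b12_et] at h1 ⊢; linarith [h1.1]
    have h4 := hC ((h - nn P (i + 1)) / et P (i + 1))
    calc et P (i + 1) * ((1 / et P (i + 1)) ^ j *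
          |iteratedDeriv j gg ((h - nn P (i + 1)) / et P (i + 1))|) * h ^ j
        ≤ et P (i + 1) * ((1 / et P (i + 1)) ^ j * C) * (9 * et P (i + 1)) ^ j := by
          gcongr
      _ = et P (i + 1) * (C * 9 ^ j) := by
          rw [mul_pow, div_pow, one_pow]
          field_simp
      _ ≤ h * (C * 9 ^ j) := mul_le_mul_of_nonneg_right h3 (by positivity)
      _ = _ := by ring
  · have h2 : tau0 P =ᶠ[𝓝 h] fun _ => (0:ℝ) := by
      refine (b12_near P hh i hi).trans ?_
      have h3 : Continuous fun x : ℝ => |x - nn P (i + 1)| := by fun_prop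
      filter_upwards [h3.continuousAt.eventually_const_lt (h1 i)] with x hx
      exact b12_T_zero P i hx.le
    have h4 : iteratedDeriv j (tau0 P) h = 0 := by
      rw [h2.iteratedDeriv_eq]
      simp
    rw [h4, abs_zero, zero_mul]
    positivity

private theorem b12_deriv (P : Par) {h : ℝ} (hh : 0 < h) (i : ℕ)
    (hi : ∀ k, k ≠ i → et P (k + 1) < |h - nn P (k + 1)|) :
    1 + deriv (tau0 P) h = deriv uu ((h - nn P (i + 1)) / et P (i + 1)) := by
  have he := b12_et_pos P i
  rw [(b12_near P hh i hi).deriv_eq]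
  have h1 := b12_T_iter P i 1 h
  rw [iteratedDeriv_one, iteratedDeriv_one, pow_one] at h1
  rw [h1]
  have h2 : ∀ x, deriv gg x = deriv uu x - 1 := by
    intro x
    have h3 : DifferentiableAt ℝ uu x := uu_sm.differentiable (by simp) x
    exact (h3.hasDerivAt.sub (hasDerivAt_id x)).deriv
  rw [h2]
  field_simp
  ring

theorem tau0_deriv_nonneg (P : Par) {h : ℝ} (hh : 0 < h) : 0 ≤ 1 + deriv (tau0 P) h := by
  obtain ⟨i, hi, -⟩ := b12_idx P h
  rw [b12_deriv P hh i hi]
  by_cases h1 : (h - nn P (i + 1)) / et P (i + 1) = 0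
  · rw [h1, uu_deriv_zero]
  · exact (uu_deriv_pos h1).le

theorem tau0_deriv_zero_iff (P : Par) {h : ℝ} (hh : 0 < h) :
    1 + deriv (tau0 P) h = 0 ↔ ∃ i, h = nn P (i + 1) := by
  obtain ⟨i, hi, -⟩ := b12_idx P h
  have he := b12_et_pos P i
  rw [b12_deriv P hh i hi]
  constructor
  · intro h1
    refine ⟨i, ?_⟩
    by_contra hne
    have h2 : (h - nn P (i + 1)) / et P (i + 1) ≠ 0 := div_ne_zero (sub_ne_zero.2 hne) he.ne'
    exact (uu_deriv_pos h2).ne' h1
  · rintro ⟨k, hk⟩
    have h1 : k = i := by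
      by_contra hne
      have h2 := hi k hne
      rw [hk, sub_self, abs_zero] at h2
      exact absurd h2 (not_lt.2 (b12_et_pos P k).le)
    rw [← h1, hk, sub_self, zero_div, uu_deriv_zero]

end CI
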