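import Pool.Agent.LibCI87.B12
import Pool.Agent.LibCI87.A4
import Pool.Agent.LibCI87.A8

/-! ROW B13 (~120 lines).  The function `vloc`.  Use B0, B3, B12, A4, A8 (stated).

`g t = tau0 (aa t)`: `0` for `t ≤ 0` (`aa t ≤ 0`), `C^∞` at every `t > 0` (`aa t > 0`).  Smoothness of `g` at `0`: `flat_ext` (A8)
with `S = Iic 0`: at points `z₀ < 0` trivial; at `0`: for `0 < t < 1/8`, `|iteratedDeriv i g t| ≤ C aa t (1 + |log (aa t)|)^m` by
`Cl.comp_scaled` (A4) with `U = Ioo 0 (1/8)` (index `Unit`), `f = w = aa`, `Λ = 1 + |log (aa t)|`, `φ = tau0`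
(`aa ∈ Cl aa Λ` is `aa_flat`, `tau0_symbol` gives the hypothesis on `φ`), and `x (1 + |log x|)^m → 0` as `x → 0+`.
`vloc_deriv`: for `t > 0` chain rule `vloc' t = aa' t (1 + tau0' (aa t))`, `aa' t > 0`; for `t < 0` `vloc = aa` near `t`; at `0`
the derivative of `vloc` is `0` (`vloc = aa` on `t ≤ 0`, derivative from the left).
`vloc_deriv_zero_iff`: zeros are `0 = tt P 0` and the `t > 0` with `aa t = nn P (i+1)`, i.e. `t = tt P (i+1)`
(`aa` is a bijection, so `aa (invFun aa x) = x`).  `tt_mem`: `aa (1/4) = 1/4 > nn`.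
`vloc_strictMono`: monotone (derivative `≥ 0`), and `vloc' > 0` off a countable set, so strictly monotone (if
`vloc s = vloc t`, `s < t`, then `vloc` is constant on `[s,t]` and `vloc' = 0` on the uncountable `(s,t)`); or: `aa` is strictly
monotone and `h ↦ h + tau0 h` is strictly monotone. -/

set_option autoImplicit false

namespace CI

open Set Function Filter Topology

/-- the composed function -/
noncomputable def B13_g (P : Par) (t : ℝ) : ℝ := tau0 P (aa t)

theorem B13_aa_pos {t : ℝ} (h : 0 < t) : 0 < aa t := by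
  have := aa_strictMono h
  rwa [aa_zero] at this

theorem B13_aa_nonpos {t : ℝ} (h : t ≤ 0) : aa t ≤ 0 := by
  have := aa_strictMono.monotone h
  rwa [aa_zero] at this

theorem B13_aa_quarter : aa (1 / 4) = 1 / 4 :=
  aa_id (by rw [abs_of_pos (by norm_num : (0:ℝ) < 1 / 4)])

theorem B13_g_zero (P : Par) {t : ℝ} (h : t ≤ 0) : B13_g P t = 0 :=
  tau0_zero P (Or.inl (B13_aa_nonpos h))

theorem B13_g_smAt (P : Par) {t : ℝ} (h : 0 < t) :
    ContDiffAt ℝ ((⊤ : ℕ∞) : WithTop ℕ∞) (B13_g P) t :=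
  (tau0_smAt P (B13_aa_pos h)).comp t aa_sm.contDiffAt

theorem B13_bound (P : Par) (i : ℕ) : ∃ C : ℝ, ∃ m : ℕ, ∀ z : ℝ, 0 < z → z < 1 / 8 →
    ‖iteratedFDeriv ℝ i (B13_g P) z‖ ≤ C * (aa z * (1 + |Real.log (aa z)|) ^ m) := by
  have hU : Co (fun _ : Unit => Ioo (0:ℝ) (1 / 8)) (fun _ t => 1 + |Real.log (aa t)|) :=
    ⟨fun _ => isOpen_Ioo, fun _ z _ => by linarith [abs_nonneg (Real.log (aa z))]⟩
  have hf : Cl (fun _ : Unit => Ioo (0:ℝ) (1 / 8)) (fun _ t => aa t)
      (fun _ t => 1 + |Real.log (aa t)|) (fun _ t => aa t) := by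
    refine ⟨fun _ z _ => aa_sm.contDiffAt, fun i => ?_⟩
    obtain ⟨C, m, hC, h⟩ := aa_flat i
    refine ⟨C, m, fun _ z hz => ?_⟩
    have hz' : |z| < 1 / 8 := by rw [abs_of_pos hz.1]; exact hz.2
    have h1 := h z hz'
    rw [abs_of_pos (B13_aa_pos hz.1)] at h1
    change ‖iteratedFDeriv ℝ i aa z‖ ≤ _
    rw [norm_iteratedFDeriv_eq_norm_iteratedDeriv, Real.norm_eq_abs]
    exact h1
  have hcl := Cl.comp_scaled (φ := fun _ : Unit => tau0 P) (w := fun _ t => aa t) hf hU
    (fun _ z hz => (B13_aa_pos hz.1).le) (fun _ z hz => B13_aa_pos hz.1)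
    (fun _ z hz => tau0_smAt P (B13_aa_pos hz.1)) (fun i => by
      obtain ⟨C, hC, h⟩ := tau0_symbol P i
      refine ⟨C, 0, fun _ z hz => ?_⟩
      rw [pow_zero, mul_one]
      exact h (aa z) (B13_aa_pos hz.1))
  obtain ⟨C, m, h⟩ := hcl.bound i
  exact ⟨C, m, fun z h0 h1 => h () z ⟨h0, h1⟩⟩

theorem B13_flat (P : Par) : Sm (B13_g P) ∧
    ∀ i : ℕ, ∀ z ∈ Iic (0:ℝ), iteratedFDeriv ℝ i (B13_g P) z = 0 := by
  refine flat_ext isClosed_Iic (fun z hz => B13_g_zero P hz)
    (fun z hz => B13_g_smAt P (not_le.1 hz)) ?_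
  intro i z₀ hz₀ δ hδ
  rcases (show z₀ ≤ 0 from hz₀).lt_or_eq with h | h
  · refine ⟨-z₀, by linarith, fun z hz hd => ?_⟩
    exfalso
    apply hz
    rw [Real.dist_eq] at hd
    have := (abs_lt.1 hd).2
    show z ≤ 0
    linarith
  · obtain ⟨C, m, hb⟩ := B13_bound P i
    obtain ⟨C', hs⟩ := log_sqrt_bdd m
    have hcont : ContinuousAt (fun z : ℝ => |C| * (|C'| * Real.sqrt (aa z))) 0 := by
      have h1 : Continuous (fun z : ℝ => |C| * (|C'| * Real.sqrt (aa z))) :=
        continuous_const.mul (continuous_const.mul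
          (Real.continuous_sqrt.comp aa_sm.continuous))
      exact h1.continuousAt
    have hev : ∀ᶠ z in 𝓝 (0:ℝ), |C| * (|C'| * Real.sqrt (aa z)) < δ := by
      have h2 : (fun z : ℝ => |C| * (|C'| * Real.sqrt (aa z))) 0 < δ := by
        show |C| * (|C'| * Real.sqrt (aa 0)) < δ
        rw [aa_zero, Real.sqrt_zero, mul_zero, mul_zero]
        exact hδ
      exact hcont.eventually (gt_mem_nhds h2)
    obtain ⟨r, hr, hr2⟩ := Metric.eventually_nhds_iff.1 hev
    refine ⟨min r (1 / 8), lt_min hr (by norm_num), fun z hz hd => ?_⟩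
    have hz0 : 0 < z := not_le.1 hz
    rw [h] at hd
    have hd1 : dist z 0 < r := lt_of_lt_of_le hd (min_le_left _ _)
    have hd2 : dist z 0 < 1 / 8 := lt_of_lt_of_le hd (min_le_right _ _)
    rw [Real.dist_eq, sub_zero, abs_of_pos hz0] at hd2
    have h3 := hb z hz0 hd2
    have h4 := hr2 hd1
    have ha0 : 0 < aa z := B13_aa_pos hz0
    have ha1 : aa z ≤ 1 := by
      have h5 : aa z < aa (1 / 4) := aa_strictMono (by linarith)
      rw [B13_aa_quarter] at h5
      linarith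
    have h6 := hs (aa z) ha0.le ha1
    have hsq : aa z = Real.sqrt (aa z) * Real.sqrt (aa z) := (Real.mul_self_sqrt ha0.le).symm
    have hL : 0 ≤ (1 + |Real.log (aa z)|) ^ m := by positivity
    calc ‖iteratedFDeriv ℝ i (B13_g P) z‖ ≤ C * (aa z * (1 + |Real.log (aa z)|) ^ m) := h3
      _ ≤ |C| * (aa z * (1 + |Real.log (aa z)|) ^ m) :=
          mul_le_mul_of_nonneg_right (le_abs_self C) (mul_nonneg ha0.le hL)
      _ = |C| * ((Real.sqrt (aa z) * (1 + |Real.log (aa z)|) ^ m) * Real.sqrt (aa z)) := by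
          nth_rewrite 1 [hsq]
          ring
      _ ≤ |C| * (|C'| * Real.sqrt (aa z)) := by
          refine mul_le_mul_of_nonneg_left ?_ (abs_nonneg C)
          exact mul_le_mul_of_nonneg_right (h6.trans (le_abs_self C')) (Real.sqrt_nonneg _)
      _ ≤ δ := h4.le

theorem vloc_sm (P : Par) : Sm (vloc P) := aa_sm.add (B13_flat P).1

theorem vloc_id (P : Par) {t : ℝ} (h : 1 / 4 ≤ |t|) : vloc P t = t := by
  unfold vloc
  rw [aa_id h, tau0_zero P, add_zero]
  rcases abs_cases t with ⟨h1, _⟩ | ⟨h1, _⟩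
  · right; rw [h1] at h; linarith
  · left; rw [h1] at h; linarith

theorem vloc_zero (P : Par) : vloc P 0 = 0 := by
  unfold vloc
  rw [aa_zero, tau0_zero P (Or.inl le_rfl), add_zero]

theorem B13_deriv_add (P : Par) (t : ℝ) :
    deriv (vloc P) t = deriv aa t + deriv (B13_g P) t := by
  have h1 : DifferentiableAt ℝ aa t := (aa_sm.differentiable (by norm_num)) t
  have h2 : DifferentiableAt ℝ (B13_g P) t := ((B13_flat P).1.differentiable (by norm_num)) t
  have h3 : vloc P = fun t => aa t + B13_g P t := rfl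
  rw [h3]
  exact deriv_fun_add h1 h2

theorem B13_deriv_nonpos (P : Par) {t : ℝ} (h : t ≤ 0) : deriv (vloc P) t = deriv aa t := by
  have h1 := (B13_flat P).2 1 t h
  have h2 : ‖iteratedFDeriv ℝ 1 (B13_g P) t‖ = 0 := by rw [h1, norm_zero]
  rw [norm_iteratedFDeriv_eq_norm_iteratedDeriv, iteratedDeriv_one, norm_eq_zero] at h2
  rw [B13_deriv_add, h2, add_zero]

theorem B13_deriv_pos (P : Par) {t : ℝ} (h : 0 < t) :
    deriv (vloc P) t = deriv aa t * (1 + deriv (tau0 P) (aa t)) := by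
  have h1 : HasDerivAt aa (deriv aa t) t := ((aa_sm.differentiable (by norm_num)) t).hasDerivAt
  have h2 : HasDerivAt (tau0 P) (deriv (tau0 P) (aa t)) (aa t) :=
    ((tau0_smAt P (B13_aa_pos h)).differentiableAt (by norm_num)).hasDerivAt
  have h3 : HasDerivAt (B13_g P) (deriv (tau0 P) (aa t) * deriv aa t) t := h2.comp t h1
  rw [B13_deriv_add, h3.deriv]
  ring

theorem vloc_deriv_nonneg (P : Par) (t : ℝ) : 0 ≤ deriv (vloc P) t := by
  rcases le_or_gt t 0 with h | h
  · rw [B13_deriv_nonpos P h]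
    rcases h.lt_or_eq with h' | h'
    · exact (aa_deriv_pos h'.ne).le
    · rw [h', aa_deriv_zero]
  · rw [B13_deriv_pos P h]
    exact mul_nonneg (aa_deriv_pos h.ne').le (tau0_deriv_nonneg P (B13_aa_pos h))

theorem aa_tt (P : Par) (i : ℕ) : aa (tt P i) = nn P i :=
  Function.rightInverse_invFun aa_surj (nn P i)

theorem tt_zero (P : Par) : tt P 0 = 0 := by
  apply aa_strictMono.injective
  rw [aa_tt, nn_zero, aa_zero]

theorem B13_nn_mem (P : Par) (i : ℕ) : 0 ≤ nn P i ∧ nn P i ≤ 1 / 16 := by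
  cases i with
  | zero => rw [nn_zero]; norm_num
  | succ i =>
    refine ⟨(nn_pos P i).le, (nn_le P i).trans ?_⟩
    have : (1 / 2 : ℝ) ^ i ≤ 1 := pow_le_one₀ (by norm_num) (by norm_num)
    linarith

theorem tt_mem (P : Par) (i : ℕ) : tt P i ∈ Ico (0:ℝ) (1 / 4) := by
  obtain ⟨h1, h2⟩ := B13_nn_mem P i
  constructor
  · rw [← aa_strictMono.le_iff_le, aa_tt, aa_zero]
    exact h1
  · rw [← aa_strictMono.lt_iff_lt, aa_tt, B13_aa_quarter]
    linarith

theorem vloc_deriv_zero_iff (P : Par) (t : ℝ) : deriv (vloc P) t = 0 ↔ ∃ i, t = tt P i := by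
  rcases lt_trichotomy t 0 with h | h | h
  · rw [B13_deriv_nonpos P h.le]
    constructor
    · intro h1
      exact absurd h1 (aa_deriv_pos h.ne).ne'
    · rintro ⟨i, hi⟩
      have := (tt_mem P i).1
      rw [← hi] at this
      linarith
  · rw [B13_deriv_nonpos P h.le, h, aa_deriv_zero]
    exact ⟨fun _ => ⟨0, (tt_zero P).symm⟩, fun _ => rfl⟩
  · rw [B13_deriv_pos P h, mul_eq_zero]
    constructor
    · rintro (h1 | h1)
      · exact absurd h1 (aa_deriv_pos h.ne').ne'
      · obtain ⟨i, hi⟩ := (tau0_deriv_zero_iff P (B13_aa_pos h)).1 h1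
        refine ⟨i + 1, ?_⟩
        apply aa_strictMono.injective
        rw [aa_tt, hi]
    · rintro ⟨i, hi⟩
      right
      cases i with
      | zero => rw [tt_zero] at hi; linarith
      | succ i =>
        refine (tau0_deriv_zero_iff P (B13_aa_pos h)).2 ⟨i, ?_⟩
        rw [hi, aa_tt]

theorem vloc_strictMono (P : Par) : StrictMono (vloc P) := by
  have hd : Differentiable ℝ (vloc P) := (vloc_sm P).differentiable (by norm_num)
  have hm : Monotone (vloc P) := monotone_of_deriv_nonneg hd (vloc_deriv_nonneg P)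
  intro s t hst
  rcases (hm hst.le).lt_or_eq with h | h
  · exact h
  · exfalso
    have hcst : ∀ u ∈ Icc s t, vloc P u = vloc P s := fun u hu =>
      le_antisymm ((hm hu.2).trans h.symm.le) (hm hu.1)
    have hsub : Ioo s t ⊆ Set.range (tt P) := by
      intro u hu
      have h1 : vloc P =ᶠ[𝓝 u] fun _ => vloc P s := by
        filter_upwards [Ioo_mem_nhds hu.1 hu.2] with v hv
        exact hcst v ⟨hv.1.le, hv.2.le⟩
      have h2 : deriv (vloc P) u = 0 := by
        rw [h1.deriv_eq, deriv_const]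
      obtain ⟨i, hi⟩ := (vloc_deriv_zero_iff P u).1 h2
      exact ⟨i, hi.symm⟩
    have h3 : (Ioo s t).Countable := (Set.countable_range (tt P)).mono hsub
    exact absurd (Cardinal.Real.Ioo_countable_iff.1 h3) (not_le.2 hst)

theorem vloc_tt (P : Par) (i : ℕ) : vloc P (tt P i) = nn P i := by
  unfold vloc
  rw [aa_tt]
  cases i with
  | zero => rw [nn_zero, tau0_zero P (Or.inl le_rfl), add_zero]
  | succ i =>
    have he : 0 ≤ et P (i + 1) := by
      unfold et
      linarith [nn_pos P i]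
    rw [tau0_loc P i (by rw [sub_self, abs_zero]; exact he), sub_self, zero_div]
    have : gg 0 = 0 := by
      unfold gg
      rw [uu_zero, sub_zero]
    rw [this, mul_zero, add_zero]

theorem vloc_deriv_bdd (P : Par) : ∃ C : ℝ, 0 ≤ C ∧ ∀ t, |deriv (vloc P) t| ≤ C := by
  have hc : Continuous (deriv (vloc P)) := (vloc_sm P).continuous_deriv (by norm_num)
  obtain ⟨C, hC⟩ := (isCompact_Icc (a := (-1:ℝ)) (b := 1)).exists_bound_of_continuousOn
    hc.continuousOn
  refine ⟨max C 1, le_max_of_le_right zero_le_one, fun t => ?_⟩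
  rcases le_or_gt |t| 1 with h | h
  · have h1 := hC t (abs_le.1 h)
    rw [Real.norm_eq_abs] at h1
    exact h1.trans (le_max_left _ _)
  · have h1 : vloc P =ᶠ[𝓝 t] id := by
      have : {s : ℝ | 1 < |s|} ∈ 𝓝 t := (isOpen_lt continuous_const continuous_abs).mem_nhds h
      filter_upwards [this] with s hs
      have hs' : 1 < |s| := hs
      exact vloc_id P (by linarith)
    rw [h1.deriv_eq, deriv_id, abs_one]
    exact le_max_right _ _

end CI
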