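import Pool.Agent.LibCI87.B13
import Pool.Agent.LibCI87.A3
import Pool.Agent.LibCI87.A1

/-! ROW B14 (~70 lines).  Flat type of `vloc` at the critical points of positive number.
Use B3, B12, B13, A3 (stated).

`n = nn P (i+1)`, `e = et P (i+1) > 0`, `t₁ = tt P (i+1)`, `aa t₁ = n`.  Let `δ > 0` be such that `|aa t - n| < e / 2` for
`|t - t₁| < δ`.  There `tau0 (aa t) = e gg ((aa t - n)/e)` (B12 `tau0_loc`), so
`vloc t - n = e * uu ((aa t - n)/e)` (`gg h = uu h - h`).  `Cl.comp` (A3) with `U = Ioo (t₁ - δ) (t₁ + δ)` (index `Unit`),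
`f t = (aa t - n)/e` (derivatives bounded on the compact interval, `Sl`), `φ = uu`, `w = |uu (f t)|`, `Λ = 1 + |log |uu (f t)||`
(`uu_flat`); finally replace `|uu (f t)| = |vloc t - n| / e`: `1 + |log (x / e)| ≤ (1 + |log e|) (1 + |log x|)` for `x > 0`,
and both sides vanish (or use `uu_flat` directly) if `vloc t = n`. -/

set_option autoImplicit false

namespace CI

open Set Function Filter Topology

theorem B14_eq (P : Par) (i : ℕ) (t : ℝ)
    (h : |aa t - nn P (i + 1)| ≤ et P (i + 1)) :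
    vloc P t - nn P (i + 1) =
      et P (i + 1) * uu ((aa t - nn P (i + 1)) / et P (i + 1)) := by
  have he : et P (i + 1) ≠ 0 := by
    unfold et
    have := nn_pos P i
    positivity
  unfold vloc
  rw [tau0_loc P i h]
  unfold gg
  rw [mul_sub, mul_div_cancel₀ _ he]
  ring

theorem B14_log {e y : ℝ} (he : 0 < e) (hy : 0 ≤ y) (m : ℕ) :
    e * (y / e * (1 + |Real.log (y / e)|) ^ m) ≤
      (1 + |Real.log e|) ^ m * (y * (1 + |Real.log y|) ^ m) := by
  rcases hy.eq_or_lt with h0 | h0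
  · rw [← h0]; simp
  · have h1 : |Real.log (y / e)| ≤ |Real.log y| + |Real.log e| := by
      rw [Real.log_div h0.ne' he.ne']
      exact abs_sub _ _
    have h2 : 1 + |Real.log (y / e)| ≤ (1 + |Real.log e|) * (1 + |Real.log y|) := by
      have h3 := mul_nonneg (abs_nonneg (Real.log e)) (abs_nonneg (Real.log y))
      nlinarith
    have h4 : (1 + |Real.log (y / e)|) ^ m ≤ ((1 + |Real.log e|) * (1 + |Real.log y|)) ^ m :=
      pow_le_pow_left₀ (by positivity) h2 m
    rw [mul_pow] at h4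
    calc e * (y / e * (1 + |Real.log (y / e)|) ^ m)
        = y * (1 + |Real.log (y / e)|) ^ m := by field_simp
      _ ≤ y * ((1 + |Real.log e|) ^ m * (1 + |Real.log y|) ^ m) :=
          mul_le_mul_of_nonneg_left h4 h0.le
      _ = (1 + |Real.log e|) ^ m * (y * (1 + |Real.log y|) ^ m) := by ring

theorem vloc_flat (P : Par) (i : ℕ) : ∃ δ : ℝ, 0 < δ ∧ ∀ j : ℕ, ∃ C : ℝ, ∃ m : ℕ, 0 ≤ C ∧
    ∀ t : ℝ, |t - tt P (i + 1)| < δ →
      |iteratedDeriv j (fun t => vloc P t - nn P (i + 1)) t| ≤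
        C * (|vloc P t - nn P (i + 1)| *
          (1 + |Real.log (|vloc P t - nn P (i + 1)|)|) ^ m) := by
  have hn := nn_pos P i
  have he : 0 < et P (i + 1) := by unfold et; positivity
  have hcont : Continuous aa := aa_sm.continuous
  obtain ⟨δ, hδ, hδ2⟩ := Metric.continuous_iff.1 hcont (tt P (i + 1)) (et P (i + 1) / 2)
    (by positivity)
  rw [aa_tt] at hδ2
  have hclose : ∀ t : ℝ, |t - tt P (i + 1)| < δ → |aa t - nn P (i + 1)| < et P (i + 1) / 2 := by
    intro t ht
    have := hδ2 t (by rwa [Real.dist_eq])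
    rwa [Real.dist_eq] at this
  refine ⟨δ, hδ, fun j => ?_⟩
  let U : Unit → Set ℝ := fun _ => Metric.ball (tt P (i + 1)) δ
  let f : ℝ → ℝ := fun t => (aa t - nn P (i + 1)) / et P (i + 1)
  let w : Unit → ℝ → ℝ := fun _ t => |uu (f t)|
  let Λ : Unit → ℝ → ℝ := fun _ t => 1 + |Real.log (|uu (f t)|)|
  have hmemU : ∀ t, t ∈ Metric.ball (tt P (i + 1)) δ ↔ |t - tt P (i + 1)| < δ := by
    intro t
    rw [Metric.mem_ball, Real.dist_eq]
  have hCo : Co U Λ := ⟨fun _ => Metric.isOpen_ball, fun _ z _ => by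
    show 1 ≤ 1 + |Real.log (|uu (f z)|)|
    have := abs_nonneg (Real.log (|uu (f z)|))
    linarith⟩
  have hfs : Sm f := (aa_sm.sub contDiff_const).div_const _
  have hSl : Sl U Λ (fun _ => f) := by
    refine Sl.of_bounded hCo f hfs fun l _ => ?_
    have hc : Continuous (fun z => iteratedFDeriv ℝ l f z) :=
      hfs.continuous_iteratedFDeriv (by exact_mod_cast le_top)
    obtain ⟨C, hC⟩ := (isCompact_closedBall (tt P (i + 1)) δ).exists_bound_of_continuousOn
      hc.continuousOn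
    exact ⟨C, fun _ z hz => hC z (Metric.ball_subset_closedBall hz)⟩
  have hfsmall : ∀ t : ℝ, |t - tt P (i + 1)| < δ → |f t| < 1 / 2 := by
    intro t ht
    show |(aa t - nn P (i + 1)) / et P (i + 1)| < 1 / 2
    rw [abs_div, abs_of_pos he, div_lt_iff₀ he]
    have := hclose t ht
    linarith
  have hcomp : Cl U w Λ (fun _ z => uu (f z)) := by
    refine Cl.comp (φ := fun _ => uu) hSl hCo (fun _ z _ => abs_nonneg _)
      (fun _ z _ => uu_sm.contDiffAt) fun l => ?_
    obtain ⟨C, m, hC0, hC⟩ := uu_flat l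
    refine ⟨C, m, fun _ z hz => ?_⟩
    rw [norm_iteratedFDeriv_eq_norm_iteratedDeriv, Real.norm_eq_abs]
    exact hC _ (hfsmall z ((hmemU z).1 hz))
  obtain ⟨C, m, hC⟩ := hcomp.bound j
  refine ⟨|C| * (1 + |Real.log (et P (i + 1))|) ^ m, m, by positivity, fun t ht => ?_⟩
  have htU : t ∈ Metric.ball (tt P (i + 1)) δ := (hmemU t).2 ht
  have h1 := hC () t htU
  rw [norm_iteratedFDeriv_eq_norm_iteratedDeriv, Real.norm_eq_abs] at h1
  have heq : (fun t => vloc P t - nn P (i + 1)) =ᶠ[𝓝 t] fun t => et P (i + 1) * uu (f t) := by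
    filter_upwards [Metric.isOpen_ball.mem_nhds htU] with s hs
    exact B14_eq P i s (by
      have := hclose s ((hmemU s).1 hs)
      linarith)
  rw [heq.iteratedDeriv_eq j, iteratedDeriv_const_mul_field, abs_mul, abs_of_pos he]
  have hval : |uu (f t)| = |vloc P t - nn P (i + 1)| / et P (i + 1) := by
    rw [B14_eq P i t (by have := hclose t ht; linarith), abs_mul, abs_of_pos he]
    field_simp
    rfl
  have h2 : w () t * Λ () t ^ m = |vloc P t - nn P (i + 1)| / et P (i + 1) *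
      (1 + |Real.log (|vloc P t - nn P (i + 1)| / et P (i + 1))|) ^ m := by
    show |uu (f t)| * (1 + |Real.log (|uu (f t)|)|) ^ m = _
    rw [hval]
  rw [h2] at h1
  have h3 := B14_log he (abs_nonneg (vloc P t - nn P (i + 1))) m
  have h4 : |iteratedDeriv j (fun z => uu (f z)) t| ≤ |C| *
      (|vloc P t - nn P (i + 1)| / et P (i + 1) *
      (1 + |Real.log (|vloc P t - nn P (i + 1)| / et P (i + 1))|) ^ m) :=
    h1.trans (mul_le_mul_of_nonneg_right (le_abs_self C) (by positivity))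
  calc et P (i + 1) * |iteratedDeriv j (fun z => uu (f z)) t|
      ≤ et P (i + 1) * (|C| * (|vloc P t - nn P (i + 1)| / et P (i + 1) *
        (1 + |Real.log (|vloc P t - nn P (i + 1)| / et P (i + 1))|) ^ m)) :=
        mul_le_mul_of_nonneg_left h4 he.le
    _ = |C| * (et P (i + 1) * (|vloc P t - nn P (i + 1)| / et P (i + 1) *
        (1 + |Real.log (|vloc P t - nn P (i + 1)| / et P (i + 1))|) ^ m)) := by ring
    _ ≤ |C| * ((1 + |Real.log (et P (i + 1))|) ^ m * (|vloc P t - nn P (i + 1)| *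
        (1 + |Real.log (|vloc P t - nn P (i + 1)|)|) ^ m)) :=
        mul_le_mul_of_nonneg_left h3 (abs_nonneg C)
    _ = |C| * (1 + |Real.log (et P (i + 1))|) ^ m * (|vloc P t - nn P (i + 1)| *
          (1 + |Real.log (|vloc P t - nn P (i + 1)|)|) ^ m) := by ring

end CI
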