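import Pool.Agent.LibCI87.B13

/-! ROW B15 (~100 lines).  The periodic versions `bb`, `v0`.  Use B13 (stated).

`bloc t = t - vloc t` vanishes for `|t| ≥ 1/4`.  `bb_loc`: for `|w - i| ≤ 3/4` either `round w = i`, or `w - round w` and
`w - i` both have absolute value `≥ 1/4` and both sides are `0`.  The open sets `|w - i| < 3/4` cover `ℝ`, so `bb` is `C^∞`,
and `db_eq` (derivative).  `v0_eq`.  `v0_strictMono`: on each `[i - 1/2, i + 1/2]` `v0 w = i + vloc (w - i)` is strictly
increasing; or `v0` is `C^1` with `deriv ≥ 0` with countably many zeros.  `v0_surj`: continuous, `v0 w - w` bounded.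
`lam_mul`: `range (|deriv vloc|)` is bounded (`vloc_deriv_bdd`), so `|deriv vloc t| ≤ sSup`, `lam = 1/(1 + sSup)`,
`lam * (1 - κ db w)` with `0 ≤ κ ≤ 1`: `1 - κ db = (1 - κ) + κ v0' ≤ 1 + v0'`. -/

set_option autoImplicit false

namespace CI

open Set Function Filter Topology

theorem bloc_sm (P : Par) : Sm (bloc P) := contDiff_id.sub (vloc_sm P)
theorem bloc_zero (P : Par) {t : ℝ} (h : 1 / 4 ≤ |t|) : bloc P t = 0 := by
  unfold bloc
  rw [vloc_id P h, sub_self]
theorem bb_loc (P : Par) {w : ℝ} (i : ℤ) (h : |w - i| ≤ 3 / 4) : bb P w = bloc P (w - i) := by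
  unfold bb
  have h1 := abs_sub_round w
  by_cases hr : round w = i
  · rw [hr]
  · have h2 : (1 : ℝ) ≤ |((round w : ℤ) : ℝ) - i| := by
      have h3 : (1 : ℤ) ≤ |round w - i| := Int.one_le_abs (sub_ne_zero.2 hr)
      exact_mod_cast h3
    have h4 : |((round w : ℤ) : ℝ) - i| ≤ |w - round w| + |w - i| := by
      have h5 : ((round w : ℤ) : ℝ) - i = -(w - round w) + (w - i) := by ring
      rw [h5]
      exact (abs_add_le _ _).trans (by rw [abs_neg])
    rw [bloc_zero P (by linarith), bloc_zero P (by linarith)]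

private theorem b15_ev (P : Par) (w₀ : ℝ) :
    bb P =ᶠ[𝓝 w₀] fun w => bloc P (w - ((round w₀ : ℤ) : ℝ)) := by
  have h1 := abs_sub_round w₀
  have h2 : ∀ᶠ w in 𝓝 w₀, |w - ((round w₀ : ℤ) : ℝ)| < 3 / 4 := by
    have h3 : Continuous fun w : ℝ => |w - ((round w₀ : ℤ) : ℝ)| := by fun_prop
    exact h3.continuousAt.eventually_lt_const (by linarith)
  filter_upwards [h2] with w hw
  exact bb_loc P _ hw.le

theorem bb_sm (P : Par) : Sm (bb P) := by
  refine contDiff_iff_contDiffAt.2 fun w₀ => ?_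
  refine ContDiffAt.congr_of_eventuallyEq ?_ (b15_ev P w₀)
  exact ((bloc_sm P).comp (contDiff_id.sub contDiff_const)).contDiffAt
theorem bb_add (P : Par) (w : ℝ) (i : ℤ) : bb P (w + i) = bb P w := by
  unfold bb
  rw [round_add_intCast]
  congr 1
  push_cast
  ring
theorem db_eq (P : Par) (w : ℝ) : db P w = deriv (bb P) w := by
  rw [(b15_ev P w).deriv_eq, deriv_comp_sub_const]
  rfl
theorem v0_eq (P : Par) (w : ℝ) : v0 P w = w - bb P w := by
  unfold v0 bb bloc
  ring
private theorem b15_v0 (P : Par) : v0 P = fun w => w - bb P w := funext (v0_eq P)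
theorem v0_sm (P : Par) : Sm (v0 P) := by
  rw [b15_v0]
  exact contDiff_id.sub (bb_sm P)
theorem v0_add (P : Par) (w : ℝ) (i : ℤ) : v0 P (w + i) = v0 P w + i := by
  rw [v0_eq, v0_eq, bb_add]
  ring
theorem v0_loc (P : Par) {w : ℝ} (i : ℤ) (h : |w - i| ≤ 3 / 4) :
    v0 P w = i + vloc P (w - i) := by
  rw [v0_eq, bb_loc P i h]
  unfold bloc
  ring

private theorem b15_deriv (P : Par) (w : ℝ) : deriv (v0 P) w = 1 - db P w := by
  have h1 : DifferentiableAt ℝ (bb P) w := (bb_sm P).differentiable (by simp) w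
  rw [b15_v0, db_eq]
  have h2 := (hasDerivAt_id w).sub h1.hasDerivAt
  exact h2.deriv

private theorem b15_db (P : Par) (w : ℝ) : db P w = 1 - deriv (vloc P) (w - round w) := by
  unfold db
  have h1 : DifferentiableAt ℝ (vloc P) (w - round w) := (vloc_sm P).differentiable (by simp) _
  have h2 := (hasDerivAt_id (w - ((round w : ℤ) : ℝ))).sub h1.hasDerivAt
  exact h2.deriv

private theorem b15_deriv' (P : Par) (w : ℝ) :
    deriv (v0 P) w = deriv (vloc P) (w - round w) := by
  rw [b15_deriv, b15_db]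
  ring

theorem v0_strictMono (P : Par) : StrictMono (v0 P) := by
  have hm : Monotone (v0 P) := monotone_of_deriv_nonneg ((v0_sm P).differentiable (by simp))
    fun w => by
      rw [b15_deriv']
      exact vloc_deriv_nonneg P _
  intro w w' hww
  have h1 := abs_sub_round w
  have h2 : w < min w' (w + 1 / 4) := lt_min hww (by linarith)
  have h3 : min w' (w + 1 / 4) ≤ w + 1 / 4 := min_le_right _ _
  have h4 : |w - ((round w : ℤ) : ℝ)| ≤ 3 / 4 := by linarith
  have h5 : |min w' (w + 1 / 4) - ((round w : ℤ) : ℝ)| ≤ 3 / 4 := by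
    rw [abs_le] at h1 ⊢
    constructor <;> linarith
  have h6 : v0 P w < v0 P (min w' (w + 1 / 4)) := by
    rw [v0_loc P _ h4, v0_loc P _ h5]
    have := vloc_strictMono P (sub_lt_sub_right h2 ((round w : ℤ) : ℝ))
    linarith
  exact h6.trans_le (hm (min_le_left _ _))
theorem v0_surj (P : Par) : Surjective (v0 P) := by
  intro y
  have h1 := abs_sub_round y
  rw [abs_le] at h1
  set i : ℤ := round y with hi
  have e1 : v0 P ((i : ℝ) - 1 / 2) = i - 1 / 2 := by
    have h2 : ((i : ℝ) - 1 / 2) - i = -(1 / 2) := by ring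
    rw [v0_loc P i (by rw [h2, abs_neg, abs_of_pos] <;> norm_num), h2,
      vloc_id P (by rw [abs_neg, abs_of_pos] <;> norm_num)]
    ring
  have e2 : v0 P ((i : ℝ) + 1 / 2) = i + 1 / 2 := by
    have h2 : ((i : ℝ) + 1 / 2) - i = 1 / 2 := by ring
    rw [v0_loc P i (by rw [h2, abs_of_pos] <;> norm_num), h2,
      vloc_id P (by rw [abs_of_pos] <;> norm_num)]
  have h3 := intermediate_value_Icc (show (i : ℝ) - 1 / 2 ≤ i + 1 / 2 by linarith)
    (v0_sm P).continuous.continuousOn
  have h4 : y ∈ Icc (v0 P ((i : ℝ) - 1 / 2)) (v0 P ((i : ℝ) + 1 / 2)) := by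
    rw [e1, e2]
    constructor <;> linarith [h1.1, h1.2]
  obtain ⟨w, -, hw⟩ := h3 h4
  exact ⟨w, hw⟩
theorem v0_deriv (P : Par) (w : ℝ) : deriv (v0 P) w = 1 - db P w := b15_deriv P w
theorem v0_deriv_nonneg (P : Par) (w : ℝ) : 0 ≤ deriv (v0 P) w := by
  rw [b15_deriv']
  exact vloc_deriv_nonneg P _
theorem v0_deriv_zero_iff (P : Par) (w : ℝ) :
    deriv (v0 P) w = 0 ↔ ∃ i : ℕ, ∃ p : ℤ, w = tt P i + p := by
  rw [b15_deriv', vloc_deriv_zero_iff]
  constructor
  · rintro ⟨i, hi⟩
    exact ⟨i, round w, by rw [← hi]; ring⟩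
  · rintro ⟨i, p, rfl⟩
    refine ⟨i, ?_⟩
    have h1 := tt_mem P i
    have h2 : round (tt P i) = 0 := by
      rw [round_eq, Int.floor_eq_iff]
      push_cast
      constructor <;> linarith [h1.1, h1.2]
    rw [round_add_intCast, h2]
    push_cast
    ring
theorem v0_tt (P : Par) (i : ℕ) (p : ℤ) : v0 P (tt P i + p) = nn P i + p := by
  have h1 := tt_mem P i
  have h2 : |tt P i - ((0 : ℤ) : ℝ)| ≤ 3 / 4 := by
    rw [Int.cast_zero, sub_zero, abs_of_nonneg h1.1]
    linarith [h1.2]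
  rw [v0_add, v0_loc P 0 h2, Int.cast_zero, sub_zero, vloc_tt, zero_add]

private theorem b15_sup (P : Par) : 0 ≤ sSup (range fun t => |deriv (vloc P) t|) := by
  apply Real.sSup_nonneg
  rintro _ ⟨t, rfl⟩
  exact abs_nonneg _

theorem lam_pos' (P : Par) : 0 < lam P := by
  unfold lam
  have := b15_sup P
  positivity
theorem lam_le_one (P : Par) : lam P ≤ 1 := by
  unfold lam
  have h := b15_sup P
  rw [div_le_one (by linarith)]
  linarith
theorem lam_mul (P : Par) (κ w : ℝ) (h0 : 0 ≤ κ) (h1 : κ ≤ 1) :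
    0 ≤ lam P * (1 - κ * db P w) ∧ lam P * (1 - κ * db P w) ≤ 1 := by
  rw [b15_db]
  have h2 := vloc_deriv_nonneg P (w - round w)
  obtain ⟨C, -, hC⟩ := vloc_deriv_bdd P
  have h3 : BddAbove (range fun t => |deriv (vloc P) t|) := by
    refine ⟨C, ?_⟩
    rintro _ ⟨t, rfl⟩
    exact hC t
  have h4 : |deriv (vloc P) (w - round w)| ≤ sSup (range fun t => |deriv (vloc P) t|) :=
    le_csSup h3 (mem_range_self _)
  rw [abs_of_nonneg h2] at h4
  have h5 := b15_sup P
  have h6 := lam_pos' P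
  have h7 : lam P * (1 + sSup (range fun t => |deriv (vloc P) t|)) = 1 := by
    unfold lam
    field_simp
  generalize deriv (vloc P) (w - round w) = D at h2 h4
  generalize sSup (range fun t => |deriv (vloc P) t|) = s at h4 h5 h7
  have h8 : 1 - κ * (1 - D) = (1 - κ) + κ * D := by ring
  rw [h8]
  have h9 : 0 ≤ κ * D := mul_nonneg h0 h2
  have h10 : κ * D ≤ s := by nlinarith
  constructor
  · exact mul_nonneg h6.le (by linarith)
  · rw [← h7]
    exact mul_le_mul_of_nonneg_left (by linarith) h6.le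

end CI
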