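import Pool.Agent.LibCI87.B0
import Pool.Agent.LibCI87.B1

/-! ROW B3.  The functions `uu`, `gg`, `aa`. -/

set_option autoImplicit false

namespace CI

open Set Function Filter Topology

private theorem b3_st_mono : Monotone Real.smoothTransition := Real.smoothTransition.monotone

private theorem b3_st_sm : Sm Real.smoothTransition := Real.smoothTransition.contDiff

private theorem b3_st_diff (x : ℝ) : HasDerivAt Real.smoothTransition (deriv Real.smoothTransition x) x :=
  ((b3_st_sm.differentiable (by simp)) x).hasDerivAt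

private theorem b3_EE_diff (x : ℝ) : HasDerivAt EE (deriv EE x) x :=
  ((EE_sm.differentiable (by simp)) x).hasDerivAt

private theorem b3_EE_deriv_nonneg (x : ℝ) : 0 ≤ deriv EE x := EE_mono.deriv_nonneg

private theorem b3_EE_deriv_pos {t : ℝ} (ht : 0 < t) : 0 < deriv EE t := by
  have h1 : EE =ᶠ[𝓝 t] fun s => Real.exp (-s⁻¹) := by
    filter_upwards [lt_mem_nhds ht] with s hs
    unfold EE expNegInvGlue
    rw [if_neg (not_le.2 hs)]
  have h2 : HasDerivAt (fun s : ℝ => Real.exp (-s⁻¹)) (Real.exp (-t⁻¹) * (-(-(t ^ 2)⁻¹))) t :=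
    ((hasDerivAt_inv ht.ne').neg).exp
  rw [h1.deriv_eq, h2.deriv]
  have : 0 < (t ^ 2)⁻¹ := by positivity
  rw [neg_neg]
  positivity

private theorem b3_EE_deriv_zero : deriv EE 0 = 0 := by
  apply IsLocalMin.deriv_eq_zero
  refine Filter.Eventually.of_forall fun y => ?_
  rw [EE_zero (le_refl (0:ℝ))]
  exact EE_nonneg y

private theorem b3_chi_sm : Sm chi := by
  have h : chi = fun h => Real.smoothTransition (4 * (1 - h ^ 2) / 3) := funext fun _ => rfl
  rw [h]
  exact b3_st_sm.comp ((contDiff_const.mul (contDiff_const.sub (contDiff_id.pow 2))).div_const 3)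

private theorem b3_SS_sm : Sm SS := by
  have h : SS = fun h => EE h - EE (-h) := funext fun _ => rfl
  rw [h]
  exact EE_sm.sub (EE_sm.comp contDiff_neg)

private theorem b3_chi_neg (h : ℝ) : chi (-h) = chi h := by
  unfold chi
  rw [neg_sq]

private theorem b3_SS_neg (h : ℝ) : SS (-h) = -SS h := by
  unfold SS
  rw [neg_neg]
  ring

private theorem b3_chi_nonneg (h : ℝ) : 0 ≤ chi h := Real.smoothTransition.nonneg _

private theorem b3_chi_le_one (h : ℝ) : chi h ≤ 1 := Real.smoothTransition.le_one _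

theorem uu_sm : Sm uu := by
  have h : uu = fun h => chi h * SS h + (1 - chi h) * h := funext fun _ => rfl
  rw [h]
  exact (b3_chi_sm.mul b3_SS_sm).add ((contDiff_const.sub b3_chi_sm).mul contDiff_id)

theorem uu_odd (h : ℝ) : uu (-h) = -uu h := by
  unfold uu
  rw [b3_chi_neg, b3_SS_neg]
  ring

theorem uu_zero : uu 0 = 0 := by
  have := uu_odd 0
  rw [neg_zero] at this
  linarith

theorem uu_id {h : ℝ} (hh : 1 ≤ |h|) : uu h = h := by
  have h1 : chi h = 0 := by
    unfold chi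
    apply Real.smoothTransition.zero_of_nonpos
    have h2 : (1:ℝ) ^ 2 ≤ |h| ^ 2 := pow_le_pow_left₀ (by norm_num) hh 2
    rw [sq_abs] at h2
    linarith
  unfold uu
  rw [h1]
  ring

theorem uu_SS {h : ℝ} (hh : |h| ≤ 1 / 2) : uu h = SS h := by
  have h1 : chi h = 1 := by
    unfold chi
    apply Real.smoothTransition.one_of_one_le
    have h2 : |h| ^ 2 ≤ (1 / 2 : ℝ) ^ 2 := pow_le_pow_left₀ (abs_nonneg h) hh 2
    rw [sq_abs] at h2
    linarith
  unfold uu
  rw [h1]
  ring

private theorem b3_SS_diff (h : ℝ) : HasDerivAt SS (deriv EE h + deriv EE (-h)) h := by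
  have h1 : HasDerivAt (fun x : ℝ => EE (-x)) (deriv EE (-h) * (-1)) h :=
    HasDerivAt.comp (h := fun x : ℝ => -x) h (b3_EE_diff (-h)) (hasDerivAt_neg h)
  have h2 := (b3_EE_diff h).sub h1
  have h3 : deriv EE h - deriv EE (-h) * (-1) = deriv EE h + deriv EE (-h) := by ring
  rw [h3] at h2
  exact h2

private theorem b3_chi_diff (h : ℝ) : HasDerivAt chi
    (deriv Real.smoothTransition (4 * (1 - h ^ 2) / 3) * (4 * (-(2 * h)) / 3)) h := by
  have h1 : HasDerivAt (fun x : ℝ => 4 * (1 - x ^ 2) / 3) (4 * (-(2 * h)) / 3) h := by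
    have h2 : HasDerivAt (fun x : ℝ => x ^ 2) (2 * h) h := by
      simpa using hasDerivAt_pow 2 h
    exact ((h2.const_sub 1).const_mul 4).div_const 3
  exact HasDerivAt.comp (h := fun x : ℝ => 4 * (1 - x ^ 2) / 3) h (b3_st_diff _) h1

private theorem b3_uu_deriv_pos {h : ℝ} (hh : 0 < h) : 0 < deriv uu h := by
  have h1 := ((b3_chi_diff h).mul (b3_SS_diff h)).add
    (((b3_chi_diff h).const_sub 1).mul (hasDerivAt_id' h))
  have h2 : deriv uu h = _ := h1.deriv
  rw [h2]
  have h3 : SS h = EE h := by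
    unfold SS
    rw [EE_zero (t := -h) (by linarith), sub_zero]
  rw [h3]
  have h4 := EE_lt_id hh
  have h5 := b3_EE_deriv_pos hh
  have h6 := b3_EE_deriv_nonneg (-h)
  have h7 := b3_chi_nonneg h
  have h8 := b3_chi_le_one h
  have h9 : 0 ≤ deriv Real.smoothTransition (4 * (1 - h ^ 2) / 3) := b3_st_mono.deriv_nonneg
  set d := deriv Real.smoothTransition (4 * (1 - h ^ 2) / 3) with hd
  have h10 : d * (4 * (-(2 * h)) / 3) ≤ 0 :=
    mul_nonpos_of_nonneg_of_nonpos h9 (by linarith)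
  have h11 : 0 ≤ (d * (4 * (-(2 * h)) / 3)) * (EE h - h) :=
    mul_nonneg_of_nonpos_of_nonpos h10 (by linarith)
  have h12 : 0 < chi h * (deriv EE h + deriv EE (-h)) + (1 - chi h) := by
    rcases h7.eq_or_lt with h13 | h13
    · rw [← h13]
      norm_num
    · have : 0 < chi h * (deriv EE h + deriv EE (-h)) := mul_pos h13 (by linarith)
      linarith
  nlinarith [h11, h12]

private theorem b3_uu_deriv_neg (h : ℝ) : deriv uu (-h) = deriv uu h := by
  have h1 : (fun x => uu (-x)) = fun x => -uu x := funext uu_odd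
  have h2 : deriv (fun x => uu (-x)) h = -deriv uu (-h) := deriv_comp_neg uu h
  rw [h1] at h2
  have h3 : deriv (fun x => -uu x) h = -deriv uu h := deriv.fun_neg
  rw [h3] at h2
  linarith

theorem uu_deriv_pos {h : ℝ} (hh : h ≠ 0) : 0 < deriv uu h := by
  rcases lt_or_gt_of_ne hh with h0 | h0
  · rw [← b3_uu_deriv_neg]
    exact b3_uu_deriv_pos (by linarith)
  · exact b3_uu_deriv_pos h0

private theorem b3_uu_eq {h : ℝ} (hh : |h| < 1 / 2) : uu =ᶠ[𝓝 h] SS := by
  have h2 : ∀ᶠ v in 𝓝 h, |v| < 1 / 2 := (isOpen_lt continuous_abs continuous_const).mem_nhds hh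
  filter_upwards [h2] with v hv
  exact uu_SS hv.le

theorem uu_deriv_zero : deriv uu 0 = 0 := by
  rw [(b3_uu_eq (h := 0) (by norm_num)).deriv_eq, (b3_SS_diff 0).deriv, neg_zero, b3_EE_deriv_zero]
  norm_num

theorem uu_strictMono : StrictMono uu := by
  have hc : Continuous uu := uu_sm.continuous
  apply StrictMonoOn.Iic_union_Ici (a := 0)
  · apply strictMonoOn_of_deriv_pos (convex_Iic 0) hc.continuousOn
    intro x hx
    rw [interior_Iic] at hx
    exact uu_deriv_pos (ne_of_lt hx)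
  · apply strictMonoOn_of_deriv_pos (convex_Ici 0) hc.continuousOn
    intro x hx
    rw [interior_Ici] at hx
    exact uu_deriv_pos (ne_of_gt hx)

theorem uu_flat (i : ℕ) : ∃ C : ℝ, ∃ m : ℕ, 0 ≤ C ∧ ∀ h : ℝ, |h| < 1 / 2 →
    |iteratedDeriv i uu h| ≤ C * (|uu h| * (1 + |Real.log (|uu h|)|) ^ m) := by
  obtain ⟨C, m, hC, hCm⟩ := EE_flat i
  refine ⟨C, m, hC, fun h hh => ?_⟩
  have hi : ((i : ℕ) : WithTop ℕ∞) ≤ ((⊤ : ℕ∞) : WithTop ℕ∞) := by
    exact_mod_cast (le_top : ((i : ℕ∞)) ≤ ⊤)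
  have hz : ∀ t : ℝ, t ≤ 0 → iteratedDeriv i EE t = 0 := fun t ht => by
    have := hCm t
    rw [EE_zero ht, zero_mul, mul_zero] at this
    exact abs_eq_zero.1 (le_antisymm this (abs_nonneg _))
  have h1 : iteratedDeriv i uu h = iteratedDeriv i EE h - (-1) ^ i * iteratedDeriv i EE (-h) := by
    rw [(b3_uu_eq hh).iteratedDeriv_eq i]
    have h2 : SS = EE - fun x => EE (-x) := funext fun _ => rfl
    have h3 : Sm fun x => EE (-x) := EE_sm.comp contDiff_neg
    rw [h2, iteratedDeriv_sub ((EE_sm.of_le hi).contDiffAt) ((h3.of_le hi).contDiffAt),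
      iteratedDeriv_comp_neg]
    rfl
  rw [h1, uu_SS hh.le]
  rcases le_total h 0 with h0 | h0
  · have h4 : |SS h| = EE (-h) := by
      unfold SS
      rw [EE_zero h0, zero_sub, abs_neg, abs_of_nonneg (EE_nonneg _)]
    rw [hz h h0, zero_sub, abs_neg, abs_mul, abs_pow, abs_neg, abs_one, one_pow, one_mul, h4]
    exact hCm (-h)
  · have h4 : |SS h| = EE h := by
      unfold SS
      rw [EE_zero (t := -h) (by linarith), sub_zero, abs_of_nonneg (EE_nonneg _)]
    rw [hz (-h) (by linarith), mul_zero, sub_zero, h4]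
    exact hCm h

theorem gg_sm : Sm gg := by
  have h : gg = fun h => uu h - h := funext fun _ => rfl
  rw [h]
  exact uu_sm.sub contDiff_id

theorem gg_zero {h : ℝ} (hh : 1 ≤ |h|) : gg h = 0 := by
  unfold gg
  rw [uu_id hh, sub_self]

private theorem b3_bdd {f : ℝ → ℝ} (hf : Sm f) (R : ℝ) (h0 : ∀ w, R < |w| → f w = 0) (i : ℕ) :
    ∃ C : ℝ, 0 ≤ C ∧ ∀ w : ℝ, |iteratedDeriv i f w| ≤ C := by
  have hc : Continuous (iteratedDeriv i f) :=
    hf.continuous_iteratedDeriv i (by exact_mod_cast (le_top : ((i : ℕ∞)) ≤ ⊤))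
  obtain ⟨C, hC⟩ := (isCompact_Icc (a := -R) (b := R)).exists_bound_of_continuousOn hc.continuousOn
  refine ⟨max C 0, le_max_right _ _, fun w => ?_⟩
  rcases le_or_gt |w| R with h | h
  · have := hC w (abs_le.1 h)
    rw [Real.norm_eq_abs] at this
    exact this.trans (le_max_left _ _)
  · have h1 : f =ᶠ[𝓝 w] fun _ => (0 : ℝ) := by
      have h2 : ∀ᶠ v in 𝓝 w, R < |v| := (isOpen_lt continuous_const continuous_abs).mem_nhds h
      filter_upwards [h2] with v hv
      exact h0 v hv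
    have h3 : iteratedDeriv i f w = 0 := by
      rw [h1.iteratedDeriv_eq i]
      rw [iteratedDeriv_const]
      split_ifs <;> rfl
    rw [h3, abs_zero]
    exact le_max_right _ _

theorem gg_bdd (i : ℕ) : ∃ C : ℝ, 0 ≤ C ∧ ∀ h : ℝ, |iteratedDeriv i gg h| ≤ C :=
  b3_bdd gg_sm 1 (fun _ hw => gg_zero hw.le) i

private theorem b3_aa_eq : aa = fun t => uu (4 * t) / 4 := funext fun _ => rfl

theorem aa_sm : Sm aa := by
  rw [b3_aa_eq]
  exact (uu_sm.comp (contDiff_const.mul contDiff_id)).div_const 4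

theorem aa_zero : aa 0 = 0 := by
  unfold aa
  rw [mul_zero, uu_zero, zero_div]

theorem aa_id {t : ℝ} (h : 1 / 4 ≤ |t|) : aa t = t := by
  unfold aa
  rw [uu_id]
  · ring
  · rw [abs_mul, abs_of_pos (by norm_num : (0:ℝ) < 4)]
    linarith

theorem aa_strictMono : StrictMono aa := by
  intro s t hst
  unfold aa
  have := uu_strictMono (show 4 * s < 4 * t by linarith)
  linarith

theorem aa_surj : Surjective aa := by
  apply aa_sm.continuous.surjective
  · have h1 : aa =ᶠ[atTop] id := by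
      filter_upwards [eventually_ge_atTop (1 / 4 : ℝ)] with t ht
      exact aa_id (ht.trans (le_abs_self t))
    exact (tendsto_congr' h1).2 tendsto_id
  · have h1 : aa =ᶠ[atBot] id := by
      filter_upwards [eventually_le_atBot (-(1 / 4) : ℝ)] with t ht
      exact aa_id ((by linarith : (1 / 4 : ℝ) ≤ -t).trans (neg_le_abs t))
    exact (tendsto_congr' h1).2 tendsto_id

private theorem b3_aa_diff (t : ℝ) : HasDerivAt aa (deriv uu (4 * t)) t := by
  have h1 : HasDerivAt uu (deriv uu (4 * t)) (4 * t) :=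
    ((uu_sm.differentiable (by simp)) (4 * t)).hasDerivAt
  have h2 : HasDerivAt (fun t : ℝ => 4 * t) (4 * 1) t := (hasDerivAt_id' t).const_mul 4
  have h3 := (HasDerivAt.comp (h := fun t : ℝ => 4 * t) t h1 h2).div_const 4
  have h4 : deriv uu (4 * t) * (4 * 1) / 4 = deriv uu (4 * t) := by ring
  rw [h4] at h3
  exact h3

theorem aa_deriv_pos {t : ℝ} (h : t ≠ 0) : 0 < deriv aa t := by
  rw [(b3_aa_diff t).deriv]
  exact uu_deriv_pos (mul_ne_zero (by norm_num) h)

theorem aa_deriv_zero : deriv aa 0 = 0 := by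
  rw [(b3_aa_diff 0).deriv, mul_zero, uu_deriv_zero]

private theorem b3_log {u : ℝ} (hu : 0 < u) (m : ℕ) :
    u * (1 + |Real.log u|) ^ m ≤ 4 * 3 ^ m * (u / 4 * (1 + |Real.log (u / 4)|) ^ m) := by
  have h4 : Real.log 4 < 2 := by
    have h5 : Real.log 4 = 2 * Real.log 2 := by
      rw [show (4:ℝ) = 2 ^ 2 by norm_num, Real.log_pow]
      norm_num
    rw [h5]
    linarith [Real.log_two_lt_d9]
  have h4' : 0 < Real.log 4 := Real.log_pos (by norm_num)
  have h1 : Real.log u = Real.log (u / 4) + Real.log 4 := by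
    rw [Real.log_div hu.ne' (by norm_num)]
    ring
  have h2 : 1 + |Real.log u| ≤ 3 * (1 + |Real.log (u / 4)|) := by
    rw [h1]
    have := abs_add_le (Real.log (u / 4)) (Real.log 4)
    rw [abs_of_pos h4'] at this
    linarith [abs_nonneg (Real.log (u / 4))]
  have h3 : (1 + |Real.log u|) ^ m ≤ (3 * (1 + |Real.log (u / 4)|)) ^ m :=
    pow_le_pow_left₀ (by positivity) h2 m
  calc u * (1 + |Real.log u|) ^ m ≤ u * (3 * (1 + |Real.log (u / 4)|)) ^ m :=
        mul_le_mul_of_nonneg_left h3 hu.le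
    _ = 4 * 3 ^ m * (u / 4 * (1 + |Real.log (u / 4)|) ^ m) := by
        rw [mul_pow]
        ring

theorem aa_flat (i : ℕ) : ∃ C : ℝ, ∃ m : ℕ, 0 ≤ C ∧ ∀ t : ℝ, |t| < 1 / 8 →
    |iteratedDeriv i aa t| ≤ C * (|aa t| * (1 + |Real.log (|aa t|)|) ^ m) := by
  obtain ⟨C, m, hC, hCm⟩ := uu_flat i
  refine ⟨C * 4 ^ i * 3 ^ m, m, by positivity, fun t ht => ?_⟩
  have hi : ((i : ℕ) : WithTop ℕ∞) ≤ ((⊤ : ℕ∞) : WithTop ℕ∞) := by
    exact_mod_cast (le_top : ((i : ℕ∞)) ≤ ⊤)
  have h1 : iteratedDeriv i aa t = 4 ^ i * iteratedDeriv i uu (4 * t) / 4 := by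
    rw [b3_aa_eq]
    have h2 : iteratedDeriv i (fun t => uu (4 * t)) t = 4 ^ i * iteratedDeriv i uu (4 * t) := by
      rw [iteratedDeriv_comp_const_mul (uu_sm.of_le hi) 4]
    rw [iteratedDeriv_div_const, h2]
  have h3 : |aa t| = |uu (4 * t)| / 4 := by
    unfold aa
    rw [abs_div, abs_of_pos (by norm_num : (0:ℝ) < 4)]
  have h4 := hCm (4 * t) (by
    rw [abs_mul, abs_of_pos (by norm_num : (0:ℝ) < 4)]
    linarith)
  have h5 : |iteratedDeriv i aa t| = 4 ^ i * |iteratedDeriv i uu (4 * t)| / 4 := by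
    rw [h1, abs_div, abs_mul, abs_pow, abs_of_pos (by norm_num : (0:ℝ) < 4)]
  rw [h5, h3]
  rcases (abs_nonneg (uu (4 * t))).eq_or_lt with h0 | h0
  · rw [← h0] at h4 ⊢
    rw [zero_mul, mul_zero] at h4
    rw [zero_div, zero_mul, mul_zero]
    have h6 : |iteratedDeriv i uu (4 * t)| = 0 := le_antisymm h4 (abs_nonneg _)
    rw [h6]
    norm_num
  · have h6 := b3_log h0 m
    calc 4 ^ i * |iteratedDeriv i uu (4 * t)| / 4
        ≤ 4 ^ i * (C * (|uu (4 * t)| * (1 + |Real.log (|uu (4 * t)|)|) ^ m)) / 4 := by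
          apply div_le_div_of_nonneg_right _ (by norm_num)
          exact mul_le_mul_of_nonneg_left h4 (by positivity)
      _ ≤ 4 ^ i * (C * (4 * 3 ^ m * (|uu (4 * t)| / 4 * (1 + |Real.log (|uu (4 * t)| / 4)|) ^ m))) / 4 := by
          apply div_le_div_of_nonneg_right _ (by norm_num)
          apply mul_le_mul_of_nonneg_left _ (by positivity)
          exact mul_le_mul_of_nonneg_left h6 hC
      _ = C * 4 ^ i * 3 ^ m * (|uu (4 * t)| / 4 * (1 + |Real.log (|uu (4 * t)| / 4)|) ^ m) := by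
          ring

end CI
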