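import Pool.Agent.LibCI87.Defs

/-! ROW B4.  The functions `kap`, `BB`. -/

set_option autoImplicit false

namespace CI

open Set Function Filter Topology

theorem st_monotone : Monotone Real.smoothTransition := Real.smoothTransition.monotone

private theorem b4_st_sm : Sm Real.smoothTransition := Real.smoothTransition.contDiff

private theorem b4_st_diff (x : ℝ) : HasDerivAt Real.smoothTransition (deriv Real.smoothTransition x) x :=
  ((b4_st_sm.differentiable (by simp)) x).hasDerivAt

private theorem b4_bdd {f : ℝ → ℝ} (hf : Sm f) (R : ℝ) (h0 : ∀ w, R < |w| → f w = 0) (i : ℕ) :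
    ∃ C : ℝ, 0 ≤ C ∧ ∀ w : ℝ, |iteratedDeriv i f w| ≤ C := by
  have hc : Continuous (iteratedDeriv i f) :=
    hf.continuous_iteratedDeriv i (by exact_mod_cast (le_top : ((i : ℕ∞)) ≤ ⊤))
  obtain ⟨C, hC⟩ := (isCompact_Icc (a := -R) (b := R)).exists_bound_of_continuousOn hc.continuousOn
  refine ⟨max C 0, le_max_right _ _, fun w => ?_⟩
  rcases le_or_gt |w| R with h | h
  · have := hC w (abs_le.1 h)
    rw [Real.norm_eq_abs] at this
    exact this.trans (le_max_left _ _)
  · have h1 : f =ᶠ[𝓝 w] fun _ => (0 : ℝ) := by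
      have h2 : ∀ᶠ v in 𝓝 w, R < |v| := (isOpen_lt continuous_const continuous_abs).mem_nhds h
      filter_upwards [h2] with v hv
      exact h0 v hv
    have h3 : iteratedDeriv i f w = 0 := by
      rw [h1.iteratedDeriv_eq i]
      rw [iteratedDeriv_const]
      split_ifs <;> rfl
    rw [h3, abs_zero]
    exact le_max_right _ _

theorem kap_sm : Sm kap := by
  have h : kap = fun x => 1 - Real.smoothTransition ((x ^ 2 - 1 / 64) * (64 / 3)) :=
    funext fun _ => rfl
  rw [h]
  exact contDiff_const.sub (b4_st_sm.comp (((contDiff_id.pow 2).sub contDiff_const).mul contDiff_const))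

theorem kap_nonneg (x : ℝ) : 0 ≤ kap x := by
  unfold kap
  linarith [Real.smoothTransition.le_one ((x ^ 2 - 1 / 64) * (64 / 3))]

theorem kap_le_one (x : ℝ) : kap x ≤ 1 := by
  unfold kap
  linarith [Real.smoothTransition.nonneg ((x ^ 2 - 1 / 64) * (64 / 3))]

theorem kap_eq_one_iff (x : ℝ) : kap x = 1 ↔ |x| ≤ 1 / 8 := by
  unfold kap
  rw [sub_eq_self, Real.smoothTransition.zero_iff_nonpos, ← abs_of_pos (show (0 : ℝ) < 1 / 8 by norm_num),
    ← sq_le_sq]
  constructor
  · intro h
    norm_num
    linarith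
  · intro h
    norm_num at h
    linarith

theorem kap_zero {x : ℝ} (h : 1 / 4 ≤ |x|) : kap x = 0 := by
  unfold kap
  rw [Real.smoothTransition.one_of_one_le, sub_self]
  have h1 : (1 / 4 : ℝ) ^ 2 ≤ |x| ^ 2 := pow_le_pow_left₀ (by norm_num) h 2
  rw [sq_abs] at h1
  linarith

theorem kap_deriv {x : ℝ} (h : |x| ≤ 1 / 8) : deriv kap x = 0 := by
  apply IsLocalMax.deriv_eq_zero
  refine Filter.Eventually.of_forall fun y => ?_
  rw [(kap_eq_one_iff x).2 h]
  exact kap_le_one y

theorem BB_sm : Sm BB := by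
  have h : BB = fun w => w * (Real.smoothTransition (w + 1) * Real.smoothTransition (2 - w)) :=
    funext fun _ => rfl
  rw [h]
  exact contDiff_id.mul ((b4_st_sm.comp (contDiff_id.add contDiff_const)).mul
    (b4_st_sm.comp (contDiff_const.sub contDiff_id)))

theorem BB_eq {w : ℝ} (h : w ∈ Icc (0:ℝ) 1) : BB w = w := by
  unfold BB
  rw [Real.smoothTransition.one_of_one_le (by linarith [h.1]),
    Real.smoothTransition.one_of_one_le (by linarith [h.2]), mul_one, mul_one]

theorem BB_left {w : ℝ} (h : w ≤ -1) : BB w = 0 := by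
  unfold BB
  rw [Real.smoothTransition.zero_of_nonpos (by linarith), zero_mul, mul_zero]

theorem BB_right {w : ℝ} (h : 2 ≤ w) : BB w = 0 := by
  unfold BB
  rw [Real.smoothTransition.zero_of_nonpos (x := 2 - w) (by linarith), mul_zero, mul_zero]

private theorem b4_prod (w : ℝ) :
    0 ≤ Real.smoothTransition (w + 1) * Real.smoothTransition (2 - w) ∧
      Real.smoothTransition (w + 1) * Real.smoothTransition (2 - w) ≤ 1 :=
  ⟨mul_nonneg (Real.smoothTransition.nonneg _) (Real.smoothTransition.nonneg _),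
    mul_le_one₀ (Real.smoothTransition.le_one _) (Real.smoothTransition.nonneg _)
      (Real.smoothTransition.le_one _)⟩

theorem BB_neg {w : ℝ} (h : w ≤ 0) : BB w ≤ 0 :=
  mul_nonpos_of_nonpos_of_nonneg h (b4_prod w).1

theorem BB_pos {w : ℝ} (h : 0 ≤ w) : 0 ≤ BB w := mul_nonneg h (b4_prod w).1

theorem BB_abs (w : ℝ) : |BB w| ≤ 2 := by
  rcases le_or_gt w (-1) with h | h
  · rw [BB_left h]
    norm_num
  · rcases le_or_gt 2 w with h' | h'
    · rw [BB_right h']
      norm_num
    · unfold BB
      rw [abs_mul, abs_of_nonneg (b4_prod w).1]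
      have h1 : |w| ≤ 2 := by
        rw [abs_le]
        constructor <;> linarith
      calc |w| * (Real.smoothTransition (w + 1) * Real.smoothTransition (2 - w)) ≤ 2 * 1 :=
            mul_le_mul h1 (b4_prod w).2 (b4_prod w).1 (by norm_num)
        _ = 2 := by norm_num

private theorem b4_deriv_Icc {w : ℝ} (h : w ∈ Icc (0:ℝ) 1) : deriv BB w = 1 := by
  have h1 : HasDerivWithinAt BB (deriv BB w) (Icc 0 1) w :=
    (((BB_sm.differentiable (by simp)) w).hasDerivAt).hasDerivWithinAt
  have h2 : HasDerivWithinAt BB 1 (Icc 0 1) w :=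
    (hasDerivWithinAt_id w (Icc 0 1)).congr (fun x hx => BB_eq hx) (BB_eq h)
  exact (uniqueDiffOn_Icc (by norm_num : (0 : ℝ) < 1) w h).eq_deriv _ h1 h2

theorem BB_deriv_lt {w : ℝ} (h : w ∉ Icc (0:ℝ) 1) : deriv BB w < 1 := by
  have hst : ∀ x, 0 ≤ deriv Real.smoothTransition x := fun x => st_monotone.deriv_nonneg
  rcases lt_or_ge w 0 with h0 | h0
  · have h1 : BB =ᶠ[𝓝 w] fun w => w * Real.smoothTransition (w + 1) := by
      filter_upwards [gt_mem_nhds h0] with v hv
      unfold BB
      rw [Real.smoothTransition.one_of_one_le (x := 2 - v) (by linarith), mul_one]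
    have h2 : HasDerivAt (fun w : ℝ => Real.smoothTransition (w + 1))
        (deriv Real.smoothTransition (w + 1)) w := by
      have h' : HasDerivAt (fun w : ℝ => w + 1) 1 w := by
        simpa using (hasDerivAt_id' w).add_const (1:ℝ)
      have := HasDerivAt.comp (h := fun w : ℝ => w + 1) w (b4_st_diff (w + 1)) h'
      rw [mul_one] at this
      exact this
    have h3 := (hasDerivAt_id w).mul h2
    have h4 : deriv BB w = 1 * Real.smoothTransition (w + 1) + w * deriv Real.smoothTransition (w + 1) := by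
      rw [h1.deriv_eq]
      exact h3.deriv
    rw [h4]
    have h5 := Real.smoothTransition.lt_one_of_lt_one (x := w + 1) (by linarith)
    have h6 : w * deriv Real.smoothTransition (w + 1) ≤ 0 :=
      mul_nonpos_of_nonpos_of_nonneg h0.le (hst _)
    linarith
  · have h0' : 1 < w := by
      by_contra h1
      push Not at h1
      exact h ⟨h0, h1⟩
    have h1 : BB =ᶠ[𝓝 w] fun w => w * Real.smoothTransition (2 - w) := by
      filter_upwards [lt_mem_nhds h0'] with v hv
      unfold BB
      rw [Real.smoothTransition.one_of_one_le (x := v + 1) (by linarith), one_mul]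
    have h2 : HasDerivAt (fun w : ℝ => Real.smoothTransition (2 - w))
        (-deriv Real.smoothTransition (2 - w)) w := by
      have h' : HasDerivAt (fun w : ℝ => 2 - w) (-1) w := by
        simpa using (hasDerivAt_id' w).const_sub (2:ℝ)
      have := HasDerivAt.comp (h := fun w : ℝ => 2 - w) w (b4_st_diff (2 - w)) h'
      rw [mul_neg, mul_one] at this
      exact this
    have h3 := (hasDerivAt_id w).mul h2
    have h4 : deriv BB w = 1 * Real.smoothTransition (2 - w) + w * -deriv Real.smoothTransition (2 - w) := by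
      rw [h1.deriv_eq]
      exact h3.deriv
    rw [h4]
    have h5 := Real.smoothTransition.lt_one_of_lt_one (x := 2 - w) (by linarith)
    have h6 : 0 ≤ w * deriv Real.smoothTransition (2 - w) := mul_nonneg (by linarith) (hst _)
    linarith

theorem BB_deriv_le (w : ℝ) : deriv BB w ≤ 1 := by
  by_cases h : w ∈ Icc (0:ℝ) 1
  · exact (b4_deriv_Icc h).le
  · exact (BB_deriv_lt h).le

theorem BB_bdd (i : ℕ) : ∃ C : ℝ, 0 ≤ C ∧ ∀ w : ℝ, |iteratedDeriv i BB w| ≤ C := by
  refine b4_bdd BB_sm 2 (fun w hw => ?_) i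
  rcases lt_abs.1 hw with h | h
  · exact BB_right h.le
  · exact BB_left (by linarith)

end CI
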