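import Pool.Agent.LibCI87.B4

/-! ROW B5.  The functions `psi`, `nu`, `mm`. -/

set_option autoImplicit false

namespace CI

open Set Function Filter Topology

private theorem b5_psi_sm : Sm psi := by
  have h : psi = fun s => s * Real.smoothTransition s := funext fun _ => rfl
  have h1 : Sm Real.smoothTransition := Real.smoothTransition.contDiff
  rw [h]
  exact contDiff_id.mul h1

private theorem b5_psi_zero {s : ℝ} (h : s ≤ 0) : psi s = 0 := by
  unfold psi
  rw [Real.smoothTransition.zero_of_nonpos h, mul_zero]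

private theorem b5_psi_id {s : ℝ} (h : 1 ≤ s) : psi s = s := by
  unfold psi
  rw [Real.smoothTransition.one_of_one_le h, mul_one]

private theorem b5_psi_pos {s : ℝ} (h : 0 < s) : 0 < psi s :=
  mul_pos h (Real.smoothTransition.pos_of_pos h)

private theorem b5_psi_nonneg (s : ℝ) : 0 ≤ psi s := by
  rcases le_or_gt s 0 with h | h
  · rw [b5_psi_zero h]
  · exact (b5_psi_pos h).le

private theorem b5_psi_le {s : ℝ} : psi s ≤ |s| := by
  rcases le_or_gt s 0 with h | h
  · rw [b5_psi_zero h]
    exact abs_nonneg _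
  · rw [abs_of_pos h]
    unfold psi
    exact mul_le_of_le_one_right h.le (Real.smoothTransition.le_one s)

private theorem b5_psi_mono : Monotone psi := by
  intro s t hst
  rcases le_or_gt s 0 with h | h
  · rw [b5_psi_zero h]
    exact b5_psi_nonneg t
  · unfold psi
    exact mul_le_mul hst (st_monotone hst) (Real.smoothTransition.nonneg s) (by linarith)

private theorem b5_den (l : ℝ) : 0 < 1 + psi (-l) := by
  linarith [b5_psi_nonneg (-l)]

theorem nu_sm : Sm nu := by
  have h : nu = fun l => 1 / (1 + psi (-l)) := funext fun _ => rfl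
  rw [h]
  have h1 : Sm fun l : ℝ => 1 + psi (-l) := contDiff_const.add (b5_psi_sm.comp contDiff_neg)
  exact contDiff_const.div h1 fun l => (b5_den l).ne'

theorem nu_pos (l : ℝ) : 0 < nu l := one_div_pos.2 (b5_den l)

theorem nu_le_one (l : ℝ) : nu l ≤ 1 := by
  unfold nu
  rw [div_le_one (b5_den l)]
  linarith [b5_psi_nonneg (-l)]

theorem nu_one {l : ℝ} (h : 0 ≤ l) : nu l = 1 := by
  unfold nu
  rw [b5_psi_zero (s := -l) (by linarith)]
  norm_num

theorem nu_lt_one {l : ℝ} (h : l < 0) : nu l < 1 := by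
  unfold nu
  rw [div_lt_one (b5_den l)]
  linarith [b5_psi_pos (s := -l) (by linarith)]

theorem nu_mono : Monotone nu := by
  intro s t hst
  unfold nu
  apply one_div_le_one_div_of_le (b5_den t)
  linarith [b5_psi_mono (show -t ≤ -s by linarith)]

theorem nu_inv_le (l : ℝ) : (nu l)⁻¹ ≤ 1 + |l| := by
  unfold nu
  rw [one_div, inv_inv]
  have := b5_psi_le (s := -l)
  rw [abs_neg] at this
  linarith

private theorem b5_nu_left {l : ℝ} (h : l ≤ -1) : nu l = (1 - l)⁻¹ := by
  unfold nu
  rw [b5_psi_id (s := -l) (by linarith), one_div, sub_eq_add_neg]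

theorem nu_bdd (i : ℕ) : ∃ C : ℝ, 0 ≤ C ∧ ∀ l : ℝ, |iteratedDeriv i nu l| ≤ C := by
  have hc : Continuous (iteratedDeriv i nu) :=
    nu_sm.continuous_iteratedDeriv i (by exact_mod_cast (le_top : ((i : ℕ∞)) ≤ ⊤))
  obtain ⟨C, hC⟩ := (isCompact_Icc (a := (-2 : ℝ)) (b := 1)).exists_bound_of_continuousOn hc.continuousOn
  have hf1 : (1:ℝ) ≤ (i.factorial : ℝ) := by exact_mod_cast Nat.one_le_iff_ne_zero.2 (Nat.factorial_ne_zero i)
  refine ⟨max C (i.factorial : ℝ), le_trans (by linarith) (le_max_right _ _), fun w => ?_⟩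
  rcases lt_or_ge w (-2) with h | h
  · refine le_trans ?_ (le_max_right _ _)
    have h1 : nu =ᶠ[𝓝 w] fun l => (1 - l)⁻¹ := by
      filter_upwards [gt_mem_nhds h] with v hv
      exact b5_nu_left (by linarith)
    rw [h1.iteratedDeriv_eq i]
    have h2 := iteratedDeriv_comp_const_sub i (fun x : ℝ => x⁻¹) 1
    rw [h2]
    simp only [smul_eq_mul]
    rw [abs_mul, abs_pow, abs_neg, abs_one, one_pow, one_mul, iteratedDeriv_eq_iterate]
    have h3 : deriv^[i] (fun x : ℝ => x⁻¹) (1 - w) = (-1) ^ i * (i.factorial : ℝ) * (1 - w) ^ (-1 - i : ℤ) :=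
      iter_deriv_inv i (1 - w)
    rw [h3, abs_mul, abs_mul, abs_pow, abs_neg, abs_one, one_pow, one_mul, Nat.abs_cast]
    apply mul_le_of_le_one_right (by positivity)
    rw [abs_of_pos (zpow_pos (by linarith) _)]
    apply zpow_le_one_of_nonpos₀ (by linarith)
    omega
  · rcases le_or_gt w 1 with h' | h'
    · have := hC w ⟨h, h'⟩
      rw [Real.norm_eq_abs] at this
      exact this.trans (le_max_left _ _)
    · refine le_trans ?_ (le_max_right _ _)
      have h1 : nu =ᶠ[𝓝 w] fun _ => (1 : ℝ) := by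
        filter_upwards [lt_mem_nhds h'] with v hv
        exact nu_one (by linarith)
      rw [h1.iteratedDeriv_eq i, iteratedDeriv_const]
      split_ifs
      · rw [abs_one]
        exact hf1
      · rw [abs_zero]
        linarith

theorem mm_pos_eq {t : ℝ} (h : 0 < t) : mm t = nu (Real.log t) := by
  unfold mm
  rw [if_neg (not_le.2 h)]

theorem mm_zero {t : ℝ} (h : t ≤ 0) : mm t = 0 := by
  unfold mm
  rw [if_pos h]

theorem mm_zero_iff (t : ℝ) : mm t = 0 ↔ t ≤ 0 := by
  constructor
  · intro h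
    by_contra h1
    rw [mm_pos_eq (not_le.1 h1)] at h
    exact (nu_pos _).ne' h
  · exact mm_zero

theorem mm_one {t : ℝ} (h : 1 ≤ t) : mm t = 1 := by
  rw [mm_pos_eq (by linarith)]
  exact nu_one (Real.log_nonneg h)

theorem mm_lt_one {t : ℝ} (h : t < 1) : mm t < 1 := by
  rcases le_or_gt t 0 with h0 | h0
  · rw [mm_zero h0]
    norm_num
  · rw [mm_pos_eq h0]
    exact nu_lt_one (Real.log_neg h0 h)

theorem mm_nonneg (t : ℝ) : 0 ≤ mm t := by
  rcases le_or_gt t 0 with h0 | h0
  · rw [mm_zero h0]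
  · rw [mm_pos_eq h0]
    exact (nu_pos _).le

theorem mm_le_one (t : ℝ) : mm t ≤ 1 := by
  rcases le_or_gt t 0 with h0 | h0
  · rw [mm_zero h0]
    norm_num
  · rw [mm_pos_eq h0]
    exact nu_le_one _

private theorem b5_nu_tendsto : Tendsto nu atBot (𝓝 0) := by
  have h1 : nu =ᶠ[atBot] fun l => (1 - l)⁻¹ := by
    filter_upwards [eventually_le_atBot (-1 : ℝ)] with l hl
    exact b5_nu_left hl
  rw [tendsto_congr' h1]
  apply tendsto_inv_atTop_zero.comp
  have h2 : Tendsto (fun l : ℝ => -l) atBot atTop := tendsto_neg_atBot_atTop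
  have h3 := tendsto_atTop_add_const_left atBot (1:ℝ) h2
  exact h3

theorem mm_cont : Continuous mm := by
  rw [continuous_iff_continuousAt]
  intro t
  rcases lt_trichotomy t 0 with h | h | h
  · have h1 : mm =ᶠ[𝓝 t] fun _ => (0 : ℝ) := by
      filter_upwards [gt_mem_nhds h] with v hv
      exact mm_zero (le_of_lt hv)
    exact (continuousAt_congr h1).2 continuousAt_const
  · rw [h]
    unfold ContinuousAt
    rw [mm_zero (le_refl (0:ℝ)), ← nhdsLE_sup_nhdsGT]
    apply Tendsto.sup
    · have h1 : mm =ᶠ[𝓝[≤] (0:ℝ)] fun _ => (0 : ℝ) := by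
        filter_upwards [self_mem_nhdsWithin] with v hv
        exact mm_zero hv
      rw [tendsto_congr' h1, nhdsLE_sup_nhdsGT]
      exact tendsto_const_nhds
    · have h1 : mm =ᶠ[𝓝[>] (0:ℝ)] fun v => nu (Real.log v) := by
        filter_upwards [self_mem_nhdsWithin] with v hv
        exact mm_pos_eq hv
      rw [tendsto_congr' h1, nhdsLE_sup_nhdsGT]
      exact b5_nu_tendsto.comp Real.tendsto_log_nhdsGT_zero
  · have h1 : mm =ᶠ[𝓝 t] fun v => nu (Real.log v) := by
      filter_upwards [lt_mem_nhds h] with v hv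
      exact mm_pos_eq hv
    exact (continuousAt_congr h1).2
      (ContinuousAt.comp (g := nu) nu_sm.continuous.continuousAt (Real.continuousAt_log h.ne'))

end CI
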