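import Pool.Agent.LibCI87.B4
import Pool.Agent.LibCI87.B5

/-! ROW B6 (~90 lines).  The maps `piM M` and their inverses `PI l`.  Use B4, B5 (stated).

`deriv (piM M) w = 1 - (1 - M) deriv BB w ≥ M ≥ 0`, and `> 0` if `M > 0` or `w ∉ [0,1]`.
`piM_key`: `piM M` is monotone, so the hypothesis means that it is constant on `[u, v]`, so its derivative is `0` on
`(u, v)`, hence `M = 0` (if `M > 0` strictly monotone) and `(u, v) ⊆ [0, 1]`.
`piM_Ioo`: for `-1 < w < 0`: `w ≤ piM M w` (`BB w ≤ 0`) and `piM M w ≤ piM M 0 = 0`; for `0 ≤ w < 2`: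
`0 = piM M 0 ≤ piM M w ≤ w` (`BB w ≥ 0`).
`piM (nu l)` is strictly monotone, continuous, and equal to the identity off `[-1,2]`, so bijective;
`PI l = invFun (piM (nu l))` is its inverse. -/

set_option autoImplicit false

namespace CI

open Set Function Filter Topology

private theorem B6_deriv (M w : ℝ) : HasDerivAt (piM M) (1 - (1 - M) * deriv BB w) w := by
  have h1 : Differentiable ℝ BB := BB_sm.differentiable (by simp)
  have h2 : HasDerivAt BB (deriv BB w) w := (h1 w).hasDerivAt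
  exact (hasDerivAt_id w).sub (h2.const_mul (1 - M))

private theorem B6_diff (M : ℝ) : Differentiable ℝ (piM M) :=
  fun w => (B6_deriv M w).differentiableAt

private theorem B6_deriv_ge {M : ℝ} (h1 : M ≤ 1) (w : ℝ) : M ≤ deriv (piM M) w := by
  rw [(B6_deriv M w).deriv]
  have h2 := BB_deriv_le w
  nlinarith

theorem piM_mono {M : ℝ} (h0 : 0 ≤ M) (h1 : M ≤ 1) : Monotone (piM M) :=
  monotone_of_deriv_nonneg (B6_diff M) fun w => h0.trans (B6_deriv_ge h1 w)

theorem piM_strictMono {M : ℝ} (h0 : 0 < M) (h1 : M ≤ 1) : StrictMono (piM M) :=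
  strictMono_of_deriv_pos fun w => h0.trans_le (B6_deriv_ge h1 w)

theorem piM_key {M u v : ℝ} (h0 : 0 ≤ M) (h1 : M ≤ 1) (h : u < v) (he : piM M v ≤ piM M u) :
    M = 0 ∧ u ∈ Icc (0:ℝ) 1 ∧ v ∈ Icc (0:ℝ) 1 := by
  have hM : M = 0 := by
    rcases h0.lt_or_eq with h2 | h2
    · exact absurd (piM_strictMono h2 h1 h) (not_lt.2 he)
    · exact h2.symm
  have hmono := piM_mono h0 h1
  have hconst : ∀ w ∈ Icc u v, piM M w = piM M u := fun w hw =>
    le_antisymm ((hmono hw.2).trans he) (hmono hw.1)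
  have key : ∀ w ∈ Icc u v, w ∈ Icc (0 : ℝ) 1 := by
    intro w hw
    by_contra hcon
    have h3 := BB_deriv_lt hcon
    have h4 : HasDerivWithinAt (piM M) (1 - (1 - M) * deriv BB w) (Icc u v) w :=
      (B6_deriv M w).hasDerivWithinAt
    have h5 : HasDerivWithinAt (piM M) 0 (Icc u v) w :=
      (hasDerivWithinAt_const w (Icc u v) (piM M u)).congr hconst (hconst w hw)
    have h6 := (uniqueDiffOn_Icc h w hw).eq_deriv _ h4 h5
    rw [hM] at h6
    linarith
  exact ⟨hM, key u ⟨le_rfl, h.le⟩, key v ⟨h.le, le_rfl⟩⟩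

theorem piM_id {M w : ℝ} (h : w ≤ -1 ∨ 2 ≤ w) : piM M w = w := by
  unfold piM
  rcases h with h | h
  · rw [BB_left h, mul_zero, sub_zero]
  · rw [BB_right h, mul_zero, sub_zero]

theorem piM_Ioo {M w : ℝ} (h0 : 0 ≤ M) (h1 : M ≤ 1) (h : w ∈ Ioo (-1:ℝ) 2) :
    piM M w ∈ Ioo (-1:ℝ) 2 := by
  have hmono := piM_mono h0 h1
  have hz : piM M 0 = 0 := by
    unfold piM
    rw [BB_eq ⟨le_rfl, zero_le_one⟩, mul_zero, sub_zero]
  have hM : 0 ≤ 1 - M := sub_nonneg.2 h1
  have he : piM M w = w - (1 - M) * BB w := rfl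
  rcases le_total w 0 with h2 | h2
  · have h3 := mul_nonneg hM (neg_nonneg.2 (BB_neg h2))
    have h4 := hmono h2
    rw [hz] at h4
    constructor
    · rw [he]
      linarith [h.1]
    · linarith
  · have h3 := mul_nonneg hM (BB_pos h2)
    have h4 := hmono h2
    rw [hz] at h4
    constructor
    · linarith
    · rw [he]
      linarith [h.2]

theorem piM_bij (l : ℝ) : Bijective (piM (nu l)) := by
  refine ⟨(piM_strictMono (nu_pos l) (nu_le_one l)).injective, fun v => ?_⟩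
  by_cases h : v ≤ -1 ∨ 2 ≤ v
  · exact ⟨v, piM_id h⟩
  · push Not at h
    have h1 : ContinuousOn (piM (nu l)) (Icc (-1) 2) := (B6_diff (nu l)).continuous.continuousOn
    have h2 := intermediate_value_Icc (by norm_num : (-1 : ℝ) ≤ 2) h1
    rw [piM_id (Or.inl le_rfl), piM_id (Or.inr le_rfl)] at h2
    obtain ⟨w, -, hw⟩ := h2 ⟨h.1.le, h.2.le⟩
    exact ⟨w, hw⟩

theorem PI_piM (l w : ℝ) : PI l (piM (nu l) w) = w :=
  leftInverse_invFun (piM_bij l).1 w

theorem piM_PI (l v : ℝ) : piM (nu l) (PI l v) = v :=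
  rightInverse_invFun (piM_bij l).2 v

theorem PI_id {l v : ℝ} (h : v ≤ -1 ∨ 2 ≤ v) : PI l v = v := by
  have h1 := PI_piM l v
  rwa [piM_id h] at h1

end CI
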