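import Pool.Agent.LibCI87.B6

/-! ROW B7 (~80 lines).  `PI` is `C^∞` in both variables, with derivative.  Use B4, B5, B6 (stated).

Let `H (l, w) = (l, piM (nu l) w)` on `ℝ × ℝ`: `C^∞`, bijective with inverse `(l, v) ↦ (l, PI l v)`, derivative
`(dl, dw) ↦ (dl, nu' BB dl + (1 - (1 - nu) BB') dw)`, invertible since `1 - (1 - nu l) deriv BB w ≥ nu l > 0`
(`BB_deriv_le`).  The inverse is continuous (e.g. `H` is a local homeomorphism by the inverse function theorem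
`ContDiffAt.toOpenPartialHomeomorph` and injective; or directly), then `ContDiffAt.to_localInverse` or
`OpenPartialHomeomorph.contDiffAt_symm` gives the smoothness: the local inverse agrees with the global inverse near
`H (l, w)` because `H` is injective and the local inverse is a right inverse near the point.
`PI_fderiv`: differentiate `PI l v - (1 - nu l) BB (PI l v) = v` or use the derivative of the local inverse. -/

set_option autoImplicit false

namespace CI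

open Set Function Filter Topology

private noncomputable def B7_H (q : ℝ × ℝ) : ℝ × ℝ := (q.1, q.2 - (1 - nu q.1) * BB q.2)

private theorem B7_H_sm : Sm B7_H := by
  unfold B7_H
  exact contDiff_fst.prodMk (contDiff_snd.sub
    ((contDiff_const.sub (nu_sm.comp contDiff_fst)).mul (BB_sm.comp contDiff_snd)))

private theorem B7_pos (l w : ℝ) : 0 < 1 - (1 - nu l) * deriv BB w := by
  have h1 := nu_pos l
  have h2 := nu_le_one l
  have h3 := BB_deriv_le w
  nlinarith [mul_nonneg (sub_nonneg.2 h2) (sub_nonneg.2 h3)]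

/-- the derivative of `B7_H` -/
private noncomputable def B7_A (D c : ℝ) (hD : D ≠ 0) : (ℝ × ℝ) ≃L[ℝ] (ℝ × ℝ) :=
  ContinuousLinearEquiv.equivOfInverse
    ((ContinuousLinearMap.fst ℝ ℝ ℝ).prod
      (D • ContinuousLinearMap.snd ℝ ℝ ℝ + c • ContinuousLinearMap.fst ℝ ℝ ℝ))
    ((ContinuousLinearMap.fst ℝ ℝ ℝ).prod
      (D⁻¹ • (ContinuousLinearMap.snd ℝ ℝ ℝ - c • ContinuousLinearMap.fst ℝ ℝ ℝ)))
    (by
      rintro ⟨a, b⟩
      refine Prod.ext rfl ?_
      show D⁻¹ * ((D * b + c * a) - c * a) = b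
      field_simp
      ring)
    (by
      rintro ⟨a, b⟩
      refine Prod.ext rfl ?_
      show D * (D⁻¹ * (b - c * a)) + c * a = b
      field_simp
      ring)

private theorem B7_H_deriv (q : ℝ × ℝ) :
    HasFDerivAt B7_H (B7_A (1 - (1 - nu q.1) * deriv BB q.2) (deriv nu q.1 * BB q.2)
      (B7_pos q.1 q.2).ne' : (ℝ × ℝ) →L[ℝ] (ℝ × ℝ)) q := by
  have hnu : HasDerivAt nu (deriv nu q.1) q.1 :=
    (nu_sm.differentiable (by simp)).differentiableAt.hasDerivAt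
  have hBB : HasDerivAt BB (deriv BB q.2) q.2 :=
    (BB_sm.differentiable (by simp)).differentiableAt.hasDerivAt
  have h1 : HasFDerivAt (fun q : ℝ × ℝ => q.1) (ContinuousLinearMap.fst ℝ ℝ ℝ) q := hasFDerivAt_fst
  have h2 : HasFDerivAt (fun q : ℝ × ℝ => q.2) (ContinuousLinearMap.snd ℝ ℝ ℝ) q := hasFDerivAt_snd
  have h3 : HasFDerivAt (fun q : ℝ × ℝ => nu q.1) (deriv nu q.1 • ContinuousLinearMap.fst ℝ ℝ ℝ) q :=
    hnu.comp_hasFDerivAt q h1
  have h4 : HasFDerivAt (fun q : ℝ × ℝ => BB q.2) (deriv BB q.2 • ContinuousLinearMap.snd ℝ ℝ ℝ) q :=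
    hBB.comp_hasFDerivAt q h2
  have h5 := h1.prodMk (h2.sub ((h3.const_sub 1).mul h4))
  refine h5.congr_fderiv (ContinuousLinearMap.ext fun z => Prod.ext rfl ?_)
  show z.2 - ((1 - nu q.1) * (deriv BB q.2 * z.2) + BB q.2 * -(deriv nu q.1 * z.1)) =
    (1 - (1 - nu q.1) * deriv BB q.2) * z.2 + (deriv nu q.1 * BB q.2) * z.1
  ring

private theorem B7_left (q : ℝ × ℝ) : ((B7_H q).1, PI (B7_H q).1 (B7_H q).2) = q :=
  Prod.ext rfl (PI_piM q.1 q.2)

private theorem B7_right (q : ℝ × ℝ) : B7_H (q.1, PI q.1 q.2) = q :=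
  Prod.ext rfl (piM_PI q.1 q.2)

theorem PI_sm : Sm (fun q : ℝ × ℝ => PI q.1 q.2) := by
  refine contDiff_iff_contDiffAt.2 fun q => ?_
  have hn : ((⊤ : ℕ∞) : WithTop ℕ∞) ≠ 0 := by simp
  have hf : ContDiffAt ℝ ((⊤ : ℕ∞) : WithTop ℕ∞) B7_H (q.1, PI q.1 q.2) := B7_H_sm.contDiffAt
  have hd := B7_H_deriv (q.1, PI q.1 q.2)
  have h1 := hf.to_localInverse hd hn
  have h2 : ∀ᶠ y in 𝓝 (B7_H (q.1, PI q.1 q.2)), ((y.1, PI y.1 y.2) : ℝ × ℝ) =
      hf.localInverse hd hn y :=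
    (hf.hasStrictFDerivAt' hd hn).localInverse_unique
      (g := fun y : ℝ × ℝ => ((y.1, PI y.1 y.2) : ℝ × ℝ)) (Eventually.of_forall B7_left)
  have h3 := h1.congr_of_eventuallyEq h2
  rw [B7_right] at h3
  exact contDiffAt_snd.comp q h3

theorem PI_fderiv (q : ℝ × ℝ) : HasFDerivAt (fun q : ℝ × ℝ => PI q.1 q.2)
    ((1 - (1 - nu q.1) * deriv BB (PI q.1 q.2))⁻¹ • (ContinuousLinearMap.snd ℝ ℝ ℝ -
      (deriv nu q.1 * BB (PI q.1 q.2)) • ContinuousLinearMap.fst ℝ ℝ ℝ)) q := by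
  have hn : ((⊤ : ℕ∞) : WithTop ℕ∞) ≠ 0 := by simp
  have hf : ContDiffAt ℝ ((⊤ : ℕ∞) : WithTop ℕ∞) B7_H (q.1, PI q.1 q.2) := B7_H_sm.contDiffAt
  have hd := B7_H_deriv (q.1, PI q.1 q.2)
  have h1 := ((hf.hasStrictFDerivAt' hd hn).to_local_left_inverse
      (g := fun y : ℝ × ℝ => ((y.1, PI y.1 y.2) : ℝ × ℝ))
      (Eventually.of_forall B7_left)).hasFDerivAt
  rw [B7_right] at h1
  have h2 := ((ContinuousLinearMap.snd ℝ ℝ ℝ).hasFDerivAt
    (x := ((q.1, PI q.1 q.2) : ℝ × ℝ))).comp q h1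
  exact h2.congr_fderiv (ContinuousLinearMap.ext fun z => rfl)

end CI
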