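import Pool.Agent.LibCI87.B7
import Pool.Agent.LibCI87.A1
import Pool.Agent.LibCI87.A2
import Pool.Agent.LibCI87.A3
import Pool.Agent.LibCI87.A4

/-! ROW B8 (~110 lines).  Polynomial growth of the derivatives of `BB (PI l v)` in `l`.  Use A1-A4, B4-B7.

Work with the classes on `U = univ` (index set `Unit`), `Λ (l, v) = 1 + |l|`, `w = 1`.
(1) `Ψ₁ (l, w) = (1 - (1 - nu l) deriv BB w)⁻¹` and `Ψ₂ (l, w) = deriv nu l * BB w * Ψ₁ (l, w)` have all derivatives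
bounded by `C Λ^m` on `ℝ × ℝ`: the function `g (l, w) = 1 - (1 - nu l) deriv BB w` has bounded derivatives (B4 `BB_bdd`, B5
`nu_bdd`, `Cl.mul`) and `g ≥ nu l ≥ Λ⁻¹`, so `g ∈ Cl g Λ` (`|D^i g| ≤ C = C g g⁻¹ ≤ C g Λ`) and `Cl.inv` gives
`g⁻¹ ∈ Cl (g⁻¹) Λ ⊆ Cl 1 Λ`.
(2) `h (l, v) = (l, PI l v)`.  By `PI_fderiv`, `fderiv PI q = Ψ₁ (h q) • snd - Ψ₂ (h q) • fst`.  Induction on `n`: for
`1 ≤ i ≤ n` the `i`-th derivatives of `PI` are bounded by `C Λ^m`.  Step: `‖D^(n+1) PI q‖ = ‖D^n (fderiv PI) q‖`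
(`norm_iteratedFDeriv_fderiv`), and `D^n` of `Ψ ∘ h`, `Ψ = Ψ₁ • snd - Ψ₂ • fst`, is bounded by
`norm_iteratedFDeriv_comp_le` from the derivatives of `Ψ` at `h q` (the first coordinate of `h q` is `l`, so `Λ` is the same)
and the derivatives of order `1..n` of `h`.
(3) `BB ∘ PI`: `Cl.comp` (A3) with `BB_bdd`. -/

set_option autoImplicit false

namespace CI

open Set Function Filter Topology

section B8
variable {F : Type*} [NormedAddCommGroup F] [NormedSpace ℝ F]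

private theorem B8_co : Co (fun _ : Unit => (univ : Set (ℝ × ℝ))) (fun _ q => 1 + |q.1|) :=
  ⟨fun _ => isOpen_univ, fun _ _ _ => le_add_of_nonneg_right (abs_nonneg _)⟩

private theorem B8_one_le (q : ℝ × ℝ) : 1 ≤ 1 + |q.1| := le_add_of_nonneg_right (abs_nonneg _)

/-- the class of functions on the plane with derivatives of polynomial growth -/
private abbrev B8_C (f : ℝ × ℝ → F) : Prop :=
  Cl (fun _ : Unit => (univ : Set (ℝ × ℝ))) (fun _ _ => 1) (fun _ q => 1 + |q.1|) (fun _ => f)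

private theorem B8_lin (L : (ℝ × ℝ) →L[ℝ] F) (i : ℕ) (hi : 1 ≤ i) (q : ℝ × ℝ) :
    ‖iteratedFDeriv ℝ i L q‖ ≤ ‖L‖ := by
  obtain ⟨n, rfl⟩ : ∃ n, i = n + 1 := ⟨i - 1, by omega⟩
  rw [← norm_iteratedFDeriv_fderiv]
  have h : fderiv ℝ L = fun _ => L := by
    funext x
    exact L.fderiv
  rw [h]
  rcases Nat.eq_zero_or_pos n with rfl | hn
  · rw [norm_iteratedFDeriv_zero]
  · rw [iteratedFDeriv_const_of_ne hn.ne']
    simp

private theorem B8_comp (φ : ℝ → ℝ) (hφ : Sm φ)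
    (hb : ∀ i : ℕ, ∃ C : ℝ, 0 ≤ C ∧ ∀ w : ℝ, |iteratedDeriv i φ w| ≤ C)
    (L : (ℝ × ℝ) →L[ℝ] ℝ) : B8_C (fun q => φ (L q)) := by
  have h1 : Sl (fun _ : Unit => (univ : Set (ℝ × ℝ))) (fun _ q => 1 + |q.1|)
      (fun _ => (L : ℝ × ℝ → ℝ)) :=
    Sl.of_bounded B8_co _ L.contDiff (fun i hi => ⟨‖L‖, fun _ z _ => B8_lin L i hi z⟩)
  refine Cl.comp (φ := fun _ => φ) h1 B8_co (fun _ _ _ => zero_le_one)
    (fun _ _ _ => hφ.contDiffAt) ?_
  intro i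
  obtain ⟨C, _, hC⟩ := hb i
  refine ⟨C, 0, fun _ z _ => ?_⟩
  rw [norm_iteratedFDeriv_eq_norm_iteratedDeriv, pow_zero, mul_one, mul_one]
  exact hC _

private theorem B8_mul {f g : ℝ × ℝ → ℝ} (hf : B8_C f) (hg : B8_C g) :
    B8_C (fun q => f q * g q) := by
  have h := Cl.mul hf hg B8_co (fun _ _ _ => zero_le_one) (fun _ _ _ => zero_le_one)
  simpa only [mul_one] using h

private theorem B8_sub {f g : ℝ × ℝ → F} (hf : B8_C f) (hg : B8_C g) :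
    B8_C (fun q => f q - g q) :=
  Cl.sub hf hg B8_co (fun _ _ _ => zero_le_one)

private theorem B8_smul {f : ℝ × ℝ → ℝ} (hf : B8_C f) (v : F) : B8_C (fun q => f q • v) := by
  set L : ℝ →L[ℝ] F := ContinuousLinearMap.toSpanSingleton ℝ v with hL
  have hs : ∀ q, ContDiffAt ℝ ((⊤ : ℕ∞) : WithTop ℕ∞) f q := fun q => hf.smooth () q (mem_univ _)
  have he : (fun q => f q • v) = L ∘ f := by
    funext q
    simp [hL]
  rw [he]
  refine ⟨fun _ z _ => L.contDiff.contDiffAt.comp z (hs z), fun i => ?_⟩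
  obtain ⟨C, m, hC⟩ := hf.bound i
  refine ⟨‖L‖ * C, m, fun _ z _ => ?_⟩
  have h1 := L.norm_iteratedFDeriv_comp_left (n := i) (hs z) (by exact_mod_cast le_top)
  have h2 := hC () z (mem_univ _)
  calc ‖iteratedFDeriv ℝ i (L ∘ f) z‖ ≤ ‖L‖ * ‖iteratedFDeriv ℝ i f z‖ := h1
    _ ≤ ‖L‖ * (C * (1 * (1 + |z.1|) ^ m)) := mul_le_mul_of_nonneg_left h2 (norm_nonneg _)
    _ = ‖L‖ * C * (1 * (1 + |z.1|) ^ m) := by ring

private theorem B8_unif {f : ℝ × ℝ → F} (hf : B8_C f) (n : ℕ) : ∃ C : ℝ, ∃ m : ℕ, 0 ≤ C ∧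
    ∀ i ≤ n, ∀ q : ℝ × ℝ, ‖iteratedFDeriv ℝ i f q‖ ≤ C * (1 + |q.1|) ^ m := by
  induction n with
  | zero =>
    obtain ⟨C, m, hC⟩ := hf.bound 0
    refine ⟨|C|, m, abs_nonneg _, fun i hi q => ?_⟩
    obtain rfl : i = 0 := by omega
    refine (hC () q (mem_univ _)).trans ?_
    rw [one_mul]
    exact mul_le_mul_of_nonneg_right (le_abs_self _) (by positivity)
  | succ n ih =>
    obtain ⟨C, m, hC0, hC⟩ := ih
    obtain ⟨C', m', hC'⟩ := hf.bound (n + 1)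
    refine ⟨C + |C'|, max m m', by positivity, fun i hi q => ?_⟩
    have h1 := B8_one_le q
    have e1 : (1 + |q.1|) ^ m ≤ (1 + |q.1|) ^ max m m' := pow_le_pow_right₀ h1 (le_max_left _ _)
    have e2 : (1 + |q.1|) ^ m' ≤ (1 + |q.1|) ^ max m m' := pow_le_pow_right₀ h1 (le_max_right _ _)
    have p1 : 0 ≤ (1 + |q.1|) ^ m := by positivity
    have p2 : 0 ≤ (1 + |q.1|) ^ m' := by positivity
    rcases Nat.lt_or_ge n i with h | h
    · obtain rfl : i = n + 1 := by omega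
      refine (hC' () q (mem_univ _)).trans ?_
      rw [one_mul]
      calc C' * (1 + |q.1|) ^ m' ≤ |C'| * (1 + |q.1|) ^ m' :=
            mul_le_mul_of_nonneg_right (le_abs_self _) p2
        _ ≤ |C'| * (1 + |q.1|) ^ max m m' := mul_le_mul_of_nonneg_left e2 (abs_nonneg _)
        _ ≤ (C + |C'|) * (1 + |q.1|) ^ max m m' :=
            mul_le_mul_of_nonneg_right (by linarith) (by positivity)
    · refine (hC i h q).trans ?_
      calc C * (1 + |q.1|) ^ m ≤ C * (1 + |q.1|) ^ max m m' := mul_le_mul_of_nonneg_left e1 hC0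
        _ ≤ (C + |C'|) * (1 + |q.1|) ^ max m m' :=
            mul_le_mul_of_nonneg_right (by linarith [abs_nonneg C']) (by positivity)

private theorem B8_deriv_bdd {φ : ℝ → ℝ}
    (hb : ∀ i : ℕ, ∃ C : ℝ, 0 ≤ C ∧ ∀ w : ℝ, |iteratedDeriv i φ w| ≤ C) (i : ℕ) :
    ∃ C : ℝ, 0 ≤ C ∧ ∀ w : ℝ, |iteratedDeriv i (deriv φ) w| ≤ C := by
  obtain ⟨C, h0, hC⟩ := hb (i + 1)
  refine ⟨C, h0, fun w => ?_⟩
  rw [← iteratedDeriv_succ']
  exact hC w

private theorem B8_deriv_sm {φ : ℝ → ℝ} (hφ : Sm φ) : Sm (deriv φ) := by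
  have h : ContDiff ℝ (((⊤ : ℕ∞) : WithTop ℕ∞) + 1) φ := hφ
  exact (contDiff_succ_iff_deriv.1 h).2.2

private noncomputable def B8_g (q : ℝ × ℝ) : ℝ := 1 - (1 - nu q.1) * deriv BB q.2

private theorem B8_g_nu (q : ℝ × ℝ) : nu q.1 ≤ B8_g q := by
  have h2 := nu_le_one q.1
  have h3 := BB_deriv_le q.2
  unfold B8_g
  nlinarith [mul_nonneg (sub_nonneg.2 h2) (sub_nonneg.2 h3)]

private theorem B8_g_pos (q : ℝ × ℝ) : 0 < B8_g q := (nu_pos q.1).trans_le (B8_g_nu q)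

private theorem B8_g_inv (q : ℝ × ℝ) : (B8_g q)⁻¹ ≤ 1 + |q.1| :=
  (inv_anti₀ (nu_pos q.1) (B8_g_nu q)).trans (nu_inv_le q.1)

private theorem B8_g_cl : B8_C B8_g := by
  have h1 : B8_C (fun q => nu q.1) :=
    B8_comp nu nu_sm nu_bdd (ContinuousLinearMap.fst ℝ ℝ ℝ)
  have h2 : B8_C (fun q => deriv BB q.2) :=
    B8_comp (deriv BB) (B8_deriv_sm BB_sm) (B8_deriv_bdd BB_bdd) (ContinuousLinearMap.snd ℝ ℝ ℝ)
  have hc : B8_C (fun _ => (1 : ℝ)) := Cl.const 1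
  exact B8_sub hc (B8_mul (B8_sub hc h1) h2)

private theorem B8_ginv_cl : B8_C (fun q => (B8_g q)⁻¹) := by
  have h1 : Cl (fun _ : Unit => (univ : Set (ℝ × ℝ))) (fun _ q => B8_g q) (fun _ q => 1 + |q.1|)
      (fun _ q => B8_g q) := by
    refine B8_g_cl.mono B8_co (fun _ _ _ => zero_le_one) 1 1 (fun _ q _ => ?_)
    rw [one_mul, pow_one]
    have := B8_g_inv q
    rwa [inv_le_iff_one_le_mul₀' (B8_g_pos q)] at this
  have h2 := h1.inv B8_co (fun _ q _ => B8_g_pos q)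
  refine h2.mono B8_co (fun _ q _ => (inv_pos.2 (B8_g_pos q)).le) 1 1 (fun _ q _ => ?_)
  rw [one_mul, one_mul, pow_one]
  exact B8_g_inv q

private noncomputable def B8_Phi (p : ℝ × ℝ) : (ℝ × ℝ) →L[ℝ] ℝ :=
  (B8_g p)⁻¹ • ContinuousLinearMap.snd ℝ ℝ ℝ -
    ((B8_g p)⁻¹ * (deriv nu p.1 * BB p.2)) • ContinuousLinearMap.fst ℝ ℝ ℝ

private theorem B8_Phi_cl : B8_C B8_Phi := by
  have h1 : B8_C (fun q => deriv nu q.1) :=
    B8_comp (deriv nu) (B8_deriv_sm nu_sm) (B8_deriv_bdd nu_bdd) (ContinuousLinearMap.fst ℝ ℝ ℝ)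
  have h2 : B8_C (fun q => BB q.2) :=
    B8_comp BB BB_sm BB_bdd (ContinuousLinearMap.snd ℝ ℝ ℝ)
  exact B8_sub (B8_smul B8_ginv_cl _) (B8_smul (B8_mul B8_ginv_cl (B8_mul h1 h2)) _)

private theorem B8_fderiv : fderiv ℝ (fun q : ℝ × ℝ => PI q.1 q.2) =
    B8_Phi ∘ (fun q : ℝ × ℝ => (q.1, PI q.1 q.2)) := by
  funext q
  rw [(PI_fderiv q).fderiv]
  simp only [B8_Phi, B8_g, comp_apply, smul_sub, smul_smul]

private theorem B8_PI (n : ℕ) : ∃ C : ℝ, ∃ m : ℕ, 0 ≤ C ∧ ∀ i, 1 ≤ i → i ≤ n → ∀ q : ℝ × ℝ,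
    ‖iteratedFDeriv ℝ i (fun q : ℝ × ℝ => PI q.1 q.2) q‖ ≤ C * (1 + |q.1|) ^ m := by
  induction n with
  | zero => exact ⟨0, 0, le_refl _, fun i h1 h2 => absurd h1 (by omega)⟩
  | succ n ih =>
    obtain ⟨C, m, hC0, hC⟩ := ih
    obtain ⟨K, M, hK0, hK⟩ := B8_unif B8_Phi_cl n
    set h : ℝ × ℝ → ℝ × ℝ := fun q => (q.1, PI q.1 q.2) with hh
    have hsm : Sm h := contDiff_fst.prodMk PI_sm
    have hΦ : Sm B8_Phi := contDiff_iff_contDiffAt.2 fun q => B8_Phi_cl.smooth () q (mem_univ _)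
    have hD : ∀ q : ℝ × ℝ, ∀ i, 1 ≤ i → i ≤ n →
        ‖iteratedFDeriv ℝ i h q‖ ≤ ((1 + C) * (1 + |q.1|) ^ m) ^ i := by
      intro q i h1 h2
      have hone : 1 ≤ (1 + |q.1|) ^ m := one_le_pow₀ (B8_one_le q)
      have e1 : iteratedFDeriv ℝ i h q = (iteratedFDeriv ℝ i (fun q : ℝ × ℝ => q.1) q).prod
          (iteratedFDeriv ℝ i (fun q : ℝ × ℝ => PI q.1 q.2) q) :=
        iteratedFDeriv_prodMk (n := ((⊤ : ℕ∞) : WithTop ℕ∞)) contDiff_fst.contDiffAt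
          PI_sm.contDiffAt (by exact_mod_cast le_top)
      have e2 : ‖iteratedFDeriv ℝ i (fun q : ℝ × ℝ => q.1) q‖ ≤ 1 :=
        (B8_lin (ContinuousLinearMap.fst ℝ ℝ ℝ) i h1 q).trans (ContinuousLinearMap.norm_fst_le _ _ _)
      have e3 : ‖iteratedFDeriv ℝ i h q‖ ≤ (1 + C) * (1 + |q.1|) ^ m := by
        rw [e1, ContinuousMultilinearMap.opNorm_prod]
        refine max_le ?_ ?_
        · calc _ ≤ (1 : ℝ) := e2
            _ ≤ (1 + C) * (1 + |q.1|) ^ m := by nlinarith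
        · refine (hC i h1 h2 q).trans ?_
          nlinarith
      refine e3.trans (le_self_pow₀ ?_ (by omega))
      nlinarith
    refine ⟨C + n.factorial * K * (1 + C) ^ n, m + (M + m * n), by positivity,
      fun i h1 h2 q => ?_⟩
    have hone := B8_one_le q
    have p1 : (1 + |q.1|) ^ m ≤ (1 + |q.1|) ^ (m + (M + m * n)) :=
      pow_le_pow_right₀ hone (by omega)
    have p2 : (1 + |q.1|) ^ (M + m * n) ≤ (1 + |q.1|) ^ (m + (M + m * n)) :=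
      pow_le_pow_right₀ hone (by omega)
    have p3 : 0 ≤ (1 + |q.1|) ^ (m + (M + m * n)) := by positivity
    rw [add_mul]
    rcases Nat.lt_or_ge n i with hi | hi
    · obtain rfl : i = n + 1 := by omega
      rw [← norm_iteratedFDeriv_fderiv, B8_fderiv]
      have h3 := norm_iteratedFDeriv_comp_le (n := n) hΦ hsm (by exact_mod_cast le_top) q
        (fun j hj => hK j hj (h q)) (hD q)
      refine h3.trans ?_
      have e4 : (n.factorial : ℝ) * (K * (1 + |(h q).1|) ^ M) *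
          ((1 + C) * (1 + |q.1|) ^ m) ^ n =
          n.factorial * K * (1 + C) ^ n * (1 + |q.1|) ^ (M + m * n) := by
        rw [mul_pow, ← pow_mul, pow_add]
        ring
      rw [e4]
      have := mul_le_mul_of_nonneg_left p2
        (by positivity : 0 ≤ (n.factorial : ℝ) * K * (1 + C) ^ n)
      have := mul_nonneg hC0 p3
      linarith
    · refine (hC i h1 hi q).trans ?_
      have := mul_le_mul_of_nonneg_left p1 hC0
      have := mul_nonneg (by positivity : 0 ≤ (n.factorial : ℝ) * K * (1 + C) ^ n) p3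
      linarith

end B8

theorem BBPI_growth (i : ℕ) : ∃ C : ℝ, ∃ m : ℕ, 0 ≤ C ∧ ∀ q : ℝ × ℝ,
    ‖iteratedFDeriv ℝ i (fun q : ℝ × ℝ => BB (PI q.1 q.2)) q‖ ≤ C * (1 + |q.1|) ^ m := by
  obtain ⟨C, m, hC0, hC⟩ := B8_PI i
  have hB : ∃ K : ℝ, 0 ≤ K ∧ ∀ j ≤ i, ∀ w : ℝ, |iteratedDeriv j BB w| ≤ K := by
    choose K hK0 hK using BB_bdd
    refine ⟨∑ j ∈ Finset.range (i + 1), K j, Finset.sum_nonneg fun j _ => hK0 j,
      fun j hj w => (hK j w).trans ?_⟩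
    exact Finset.single_le_sum (f := K) (fun j _ => hK0 j) (Finset.mem_range.2 (by omega))
  obtain ⟨K, hK0, hK⟩ := hB
  refine ⟨i.factorial * K * (1 + C) ^ i, m * i, by positivity, fun q => ?_⟩
  have h := norm_iteratedFDeriv_comp_le (n := i) (C := K) (D := (1 + C) * (1 + |q.1|) ^ m)
    BB_sm PI_sm (by exact_mod_cast le_top) q ?_ ?_
  · refine h.trans (le_of_eq ?_)
    rw [mul_pow, ← pow_mul]
    ring
  · intro j hj
    rw [norm_iteratedFDeriv_eq_norm_iteratedDeriv]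
    exact hK j hj _
  · intro j h1 h2
    have hone : 1 ≤ (1 + |q.1|) ^ m := one_le_pow₀ (B8_one_le q)
    have e3 : ‖iteratedFDeriv ℝ j (fun q : ℝ × ℝ => PI q.1 q.2) q‖ ≤
        (1 + C) * (1 + |q.1|) ^ m := by
      refine (hC j h1 h2 q).trans ?_
      nlinarith
    refine e3.trans (le_self_pow₀ ?_ (by omega))
    nlinarith

end CI
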