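import Pool.Agent.LibCI87.B4

/-! ROW B9 (~80 lines).  The function `ff`.  Use `st_monotone` of B4.

`st x = E x / (E x + E (1-x))`, so `st (1 - x) = 1 - st x`, and `st` is strictly increasing on `[0,1]` (`E` is strictly
increasing on `[0, ∞)`).  For `y` in `(i - 7/8, i + 7/8)`, `i` an integer:
`ff y = i + st ((y - i - 1/8) * (4/3)) - st ((i - y - 1/8) * (4/3))` (check the two cases `y ≥ i`, `y < i`), which is
`C^∞`; these intervals cover `ℝ`.  `ff_odd`: `fract (-y) = 1 - fract y` if `y` is not an integer. -/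

set_option autoImplicit false

namespace CI

open Set Function Filter Topology

/-- strict monotonicity of `expNegInvGlue` -/
theorem B9_E_lt {u v : ℝ} (hu : 0 < u) (huv : u < v) : expNegInvGlue u < expNegInvGlue v := by
  have hv : 0 < v := hu.trans huv
  rw [expNegInvGlue, expNegInvGlue, if_neg (not_le.2 hu), if_neg (not_le.2 hv)]
  rw [Real.exp_lt_exp]
  exact neg_lt_neg ((inv_lt_inv₀ hv hu).2 huv)

theorem B9_st_lt {u v : ℝ} (huv : u < v) (hu : u < 1) (hv : 0 < v) :
    Real.smoothTransition u < Real.smoothTransition v := by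
  unfold Real.smoothTransition
  rw [div_lt_div_iff₀ (Real.smoothTransition.pos_denom u) (Real.smoothTransition.pos_denom v)]
  have hEv : 0 < expNegInvGlue v := expNegInvGlue.pos_of_pos hv
  have hE1u : 0 < expNegInvGlue (1 - u) := expNegInvGlue.pos_of_pos (by linarith)
  have hm1 : expNegInvGlue (1 - v) ≤ expNegInvGlue (1 - u) :=
    expNegInvGlue.monotone (by linarith)
  have key : expNegInvGlue u * expNegInvGlue (1 - v) < expNegInvGlue v * expNegInvGlue (1 - u) := by
    rcases le_or_gt u 0 with h | h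
    · rw [expNegInvGlue.zero_of_nonpos h, zero_mul]
      exact mul_pos hEv hE1u
    · calc expNegInvGlue u * expNegInvGlue (1 - v)
          ≤ expNegInvGlue u * expNegInvGlue (1 - u) :=
            mul_le_mul_of_nonneg_left hm1 (expNegInvGlue.nonneg u)
        _ < expNegInvGlue v * expNegInvGlue (1 - u) :=
            mul_lt_mul_of_pos_right (B9_E_lt h huv) hE1u
  nlinarith

theorem B9_st_symm (u : ℝ) : Real.smoothTransition (1 - u) = 1 - Real.smoothTransition u := by
  unfold Real.smoothTransition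
  have h1 := Real.smoothTransition.pos_denom u
  have h2 : 0 < expNegInvGlue (1 - u) + expNegInvGlue (1 - (1 - u)) :=
    Real.smoothTransition.pos_denom (1 - u)
  rw [sub_sub_cancel] at h2 ⊢
  rw [div_eq_iff h2.ne']
  have h3 : expNegInvGlue u / (expNegInvGlue u + expNegInvGlue (1 - u)) *
      (expNegInvGlue (1 - u) + expNegInvGlue u) = expNegInvGlue u := by
    rw [add_comm (expNegInvGlue (1 - u))]
    exact div_mul_cancel₀ _ h1.ne'
  rw [sub_mul, h3, one_mul]
  ring

/-- local expression -/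
noncomputable def B9_g (i : ℤ) (y : ℝ) : ℝ :=
  i + Real.smoothTransition ((y - i - 1 / 8) * (4 / 3)) -
    Real.smoothTransition ((i - y - 1 / 8) * (4 / 3))

theorem B9_ff_eq (i : ℤ) (y : ℝ) (h1 : (i : ℝ) - 1 < y) (h2 : y < i + 1) : ff y = B9_g i y := by
  unfold ff B9_g
  rcases le_or_gt (i : ℝ) y with h | h
  · have hfl : ⌊y⌋ = i := Int.floor_eq_iff.2 ⟨h, h2⟩
    have hfr : Int.fract y = y - i := by rw [Int.fract, hfl]
    rw [hfr, hfl, Real.smoothTransition.zero_of_nonpos (x := (i - y - 1 / 8) * (4 / 3))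
      (by linarith)]
    ring
  · have hfl : ⌊y⌋ = i - 1 := Int.floor_eq_iff.2 ⟨by push_cast; linarith, by push_cast; linarith⟩
    have hfr : Int.fract y = y - i + 1 := by rw [Int.fract, hfl]; push_cast; ring
    rw [hfr, hfl, Real.smoothTransition.zero_of_nonpos (x := (y - i - 1 / 8) * (4 / 3))
      (by linarith)]
    have : (i - y - 1 / 8) * (4 / 3) = 1 - (y - i + 1 - 1 / 8) * (4 / 3) := by ring
    rw [this, B9_st_symm]
    push_cast
    ring

theorem B9_g_sm (i : ℤ) : Sm (B9_g i) := by
  unfold B9_g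
  have h1 : Sm (fun y : ℝ => (y - i - 1 / 8) * (4 / 3)) :=
    ((contDiff_id.sub contDiff_const).sub contDiff_const).mul contDiff_const
  have h2 : Sm (fun y : ℝ => (i - y - 1 / 8) * (4 / 3)) :=
    ((contDiff_const.sub contDiff_id).sub contDiff_const).mul contDiff_const
  exact (contDiff_const.add (Real.smoothTransition.contDiff.comp h1)).sub
    (Real.smoothTransition.contDiff.comp h2)

theorem B9_round (y : ℝ) : ((round y : ℤ) : ℝ) - 1 < y ∧ y < ((round y : ℤ) : ℝ) + 1 := by
  have h := abs_sub_round y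
  rw [abs_le] at h
  constructor <;> linarith [h.1, h.2]

theorem B9_le_floor_add_one (y : ℝ) : (⌊y⌋ : ℝ) ≤ ff y ∧ ff y ≤ ⌊y⌋ + 1 := by
  unfold ff
  constructor
  · linarith [Real.smoothTransition.nonneg ((Int.fract y - 1 / 8) * (4 / 3))]
  · linarith [Real.smoothTransition.le_one ((Int.fract y - 1 / 8) * (4 / 3))]

theorem ff_sm : Sm ff := by
  rw [Sm, contDiff_iff_contDiffAt]
  intro y
  obtain ⟨h1, h2⟩ := B9_round y
  refine (B9_g_sm (round y)).contDiffAt.congr_of_eventuallyEq ?_
  have hmem : Ioo (((round y : ℤ) : ℝ) - 1) (((round y : ℤ) : ℝ) + 1) ∈ 𝓝 y :=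
    Ioo_mem_nhds h1 h2
  filter_upwards [hmem] with z hz
  exact B9_ff_eq (round y) z hz.1 hz.2

theorem ff_add (y : ℝ) (i : ℤ) : ff (y + i) = ff y + i := by
  unfold ff
  rw [Int.floor_add_intCast, Int.fract_add_intCast]
  push_cast
  ring

theorem ff_odd (y : ℝ) : ff (-y) = -ff y := by
  obtain ⟨h1, h2⟩ := B9_round y
  rw [B9_ff_eq (round y) y h1 h2, B9_ff_eq (-round y) (-y) (by push_cast; linarith)
    (by push_cast; linarith)]
  unfold B9_g
  push_cast
  have e1 : (-y - -((round y : ℤ) : ℝ) - 1 / 8) * (4 / 3) =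
      (((round y : ℤ) : ℝ) - y - 1 / 8) * (4 / 3) := by ring
  have e2 : (-((round y : ℤ) : ℝ) - -y - 1 / 8) * (4 / 3) =
      (y - ((round y : ℤ) : ℝ) - 1 / 8) * (4 / 3) := by ring
  rw [e1, e2]
  ring

theorem ff_mono : Monotone ff := by
  intro x y hxy
  have hfl : ⌊x⌋ ≤ ⌊y⌋ := Int.floor_mono hxy
  rcases hfl.eq_or_lt with h | h
  · unfold ff
    rw [h]
    have hf : Int.fract x ≤ Int.fract y := by
      rw [Int.fract, Int.fract, h]; linarith
    have := Real.smoothTransition.monotone
      (show (Int.fract x - 1 / 8) * (4 / 3) ≤ (Int.fract y - 1 / 8) * (4 / 3) by linarith)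
    linarith
  · have h' : (⌊x⌋ : ℝ) + 1 ≤ ⌊y⌋ := by exact_mod_cast h
    linarith [(B9_le_floor_add_one x).2, (B9_le_floor_add_one y).1]

theorem ff_strict (x y : ℝ) (h : x < y) (he : ff x = ff y) :
    ∃ i : ℤ, (i : ℝ) - 1 / 8 ≤ x ∧ y ≤ i + 1 / 8 ∧ ff x = i := by
  have hfl : ⌊x⌋ ≤ ⌊y⌋ := Int.floor_mono h.le
  have hx0 := Int.fract_nonneg x
  have hx1 := Int.fract_lt_one x
  have hy0 := Int.fract_nonneg y
  have hy1 := Int.fract_lt_one y
  have hxe : x = ⌊x⌋ + Int.fract x := (Int.floor_add_fract x).symm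
  have hye : y = ⌊y⌋ + Int.fract y := (Int.floor_add_fract y).symm
  rcases hfl.eq_or_lt with h' | h'
  · have hfr : Int.fract x < Int.fract y := by
      rw [Int.fract, Int.fract, h']; linarith
    have hst : Real.smoothTransition ((Int.fract x - 1 / 8) * (4 / 3)) =
        Real.smoothTransition ((Int.fract y - 1 / 8) * (4 / 3)) := by
      unfold ff at he
      rw [h'] at he
      linarith
    rcases le_or_gt (Int.fract y) (1 / 8) with hc | hc
    · refine ⟨⌊x⌋, by linarith, ?_, ?_⟩
      · rw [h']; linarith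
      · unfold ff
        rw [Real.smoothTransition.zero_of_nonpos (by linarith)]
        ring
    · rcases le_or_gt (7 / 8) (Int.fract x) with hd | hd
      · refine ⟨⌊x⌋ + 1, ?_, ?_, ?_⟩
        · push_cast; linarith
        · push_cast; rw [h']; linarith
        · unfold ff
          rw [Real.smoothTransition.one_of_one_le (by linarith)]
          push_cast
          ring
      · exfalso
        exact absurd hst (B9_st_lt (by linarith) (by linarith) (by linarith)).ne
  · have h'' : (⌊x⌋ : ℝ) + 1 ≤ ⌊y⌋ := by exact_mod_cast h'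
    have b1 := (B9_le_floor_add_one x).2
    have b2 := (B9_le_floor_add_one y).1
    have e1 : ff x = ⌊x⌋ + 1 := by linarith
    have e2 : ff y = ⌊y⌋ := by linarith
    have e3 : (⌊y⌋ : ℝ) = ⌊x⌋ + 1 := by linarith
    have hsx : Real.smoothTransition ((Int.fract x - 1 / 8) * (4 / 3)) = 1 := by
      unfold ff at e1; linarith
    have hsy : Real.smoothTransition ((Int.fract y - 1 / 8) * (4 / 3)) = 0 := by
      unfold ff at e2; linarith
    have c1 := Real.smoothTransition.eq_one_iff_one_le.1 hsx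
    have c2 := Real.smoothTransition.zero_iff_nonpos.1 hsy
    refine ⟨⌊x⌋ + 1, ?_, ?_, ?_⟩
    · push_cast; linarith
    · push_cast; linarith
    · push_cast; exact e1

theorem ff_zero {y : ℝ} (h : |y| ≤ 1 / 8) : ff y = 0 := by
  rw [abs_le] at h
  rw [B9_ff_eq 0 y (by push_cast; linarith [h.1]) (by push_cast; linarith [h.2])]
  unfold B9_g
  rw [Real.smoothTransition.zero_of_nonpos (by push_cast; linarith [h.2]),
    Real.smoothTransition.zero_of_nonpos (by push_cast; linarith [h.1])]
  norm_num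

end CI
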