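import Pool.Agent.LibCI87.Defs

/-! ROW C0.  Periodic functions and irrationality. -/

set_option autoImplicit false

namespace CI

open Set Function Filter Topology

theorem per2_bdd {F : Type*} [NormedAddCommGroup F] (g : ℝ × ℝ → F) (hg : Continuous g)
    (hp : ∀ (c : ℝ × ℝ) (i j : ℤ), g (c.1 + i, c.2 + j) = g c) :
    ∃ C : ℝ, 0 ≤ C ∧ ∀ c, ‖g c‖ ≤ C := by
  obtain ⟨C, hC⟩ := ((isCompact_Icc (a := (0:ℝ)) (b := 1)).prod
    (isCompact_Icc (a := (0:ℝ)) (b := 1))).exists_bound_of_continuousOn hg.continuousOn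
  refine ⟨max C 0, le_max_right _ _, fun c => le_trans ?_ (le_max_left _ _)⟩
  have h1 := hp (Int.fract c.1, Int.fract c.2) ⌊c.1⌋ ⌊c.2⌋
  simp only [Int.fract_add_floor] at h1
  have h2 : g c = g (Int.fract c.1, Int.fract c.2) := h1
  rw [h2]
  exact hC _ ⟨⟨Int.fract_nonneg _, (Int.fract_lt_one _).le⟩,
    ⟨Int.fract_nonneg _, (Int.fract_lt_one _).le⟩⟩

theorem per2_iter {F : Type*} [NormedAddCommGroup F] [NormedSpace ℝ F] (g : ℝ × ℝ → F) (hg : Sm g)
    (hp : ∀ (c : ℝ × ℝ) (i j : ℤ), g (c.1 + i, c.2 + j) = g c) (n : ℕ) :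
    ∃ C : ℝ, 0 ≤ C ∧ ∀ c, ‖iteratedFDeriv ℝ n g c‖ ≤ C := by
  apply per2_bdd
  · apply ContDiff.continuous_iteratedFDeriv (n := ((⊤ : ℕ∞) : WithTop ℕ∞)) _ hg
    exact_mod_cast le_top
  · intro c i j
    have h := iteratedFDeriv_comp_add_right (𝕜 := ℝ) (f := g) n ((i:ℝ), (j:ℝ)) c
    have h2 : (fun z : ℝ × ℝ => g (z + ((i:ℝ), (j:ℝ)))) = g := by
      funext z
      exact hp z i j
    rw [h2] at h
    exact h.symm

theorem Par.irr (P : Par) (i j : ℤ) (h : P.al * i = j) : i = 0 ∧ j = 0 := by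
  by_cases hi : i = 0
  · subst hi
    refine ⟨rfl, ?_⟩
    have : (j:ℝ) = 0 := by rw [← h]; simp
    exact_mod_cast this
  exfalso
  have key : ∀ i j : ℤ, 0 < i → P.al * i = j → False := by
    intro i j hi h
    have hiR : (0:ℝ) < i := by exact_mod_cast hi
    have hj0 : (0:ℝ) ≤ |(j:ℝ)| := abs_nonneg _
    set δ : ℝ := 1 / (4 * (i + |(j:ℝ)| + 1)) with hδ
    have hδ0 : 0 < δ := by positivity
    obtain ⟨M, -, hM⟩ := P.dense δ hδ0
    obtain ⟨u, -, a, b, c, ha, hb, -⟩ := hM 0 (1 / (2 * i)) 0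
    have e1 : (j:ℝ) * u - 1 / 2 - i * b = i * (P.al * u - 1 / (2 * i) - b) := by
      rw [← h]; field_simp
    have h1 : |(j:ℝ) * u - 1 / 2 - i * b| ≤ i * δ := by
      rw [e1, abs_mul, abs_of_pos hiR]
      exact mul_le_mul_of_nonneg_left hb.le hiR.le
    have h2 : |(j:ℝ) * (u - a)| ≤ |(j:ℝ)| * δ := by
      rw [abs_mul]
      apply mul_le_mul_of_nonneg_left _ hj0
      have : u - a = u - 0 - a := by ring
      rw [this]; exact ha.le
    have h3 : (i + |(j:ℝ)|) * δ < 1 / 4 := by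
      rw [hδ, mul_one_div, div_lt_iff₀ (by positivity)]
      linarith
    have h4 : |(1:ℝ) / 2 - (j * a - i * b)| < 1 / 4 := by
      have e2 : (1:ℝ) / 2 - (j * a - i * b) = (j:ℝ) * (u - a) - ((j:ℝ) * u - 1 / 2 - i * b) := by
        ring
      rw [e2]
      calc |(j:ℝ) * (u - a) - ((j:ℝ) * u - 1 / 2 - i * b)|
          ≤ |(j:ℝ) * (u - a)| + |(j:ℝ) * u - 1 / 2 - i * b| := abs_sub _ _
        _ ≤ |(j:ℝ)| * δ + i * δ := add_le_add h2 h1
        _ < 1 / 4 := by linarith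
    have h5 : (j:ℝ) * a - i * b = ((j * a - i * b : ℤ) : ℝ) := by push_cast; ring
    rw [h5, abs_lt] at h4
    obtain ⟨h6, h7⟩ := h4
    have h8 : (0:ℝ) < ((j * a - i * b : ℤ) : ℝ) := by linarith
    have h9 : ((j * a - i * b : ℤ) : ℝ) < 1 := by linarith
    have h10 : (0:ℤ) < j * a - i * b := by exact_mod_cast h8
    have h11 : j * a - i * b < (1:ℤ) := by exact_mod_cast h9
    omega
  rcases lt_or_gt_of_ne hi with h' | h'
  · apply key (-i) (-j) (by omega)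
    push_cast; linarith
  · exact key i j h' h

end CI
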