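import Pool.Agent.LibCI87.C0
import Pool.Agent.LibCI87.B4
import Pool.Agent.LibCI87.B15

/-! ROW C1.  The functions `KK`, `NN`, `VV`, `ZZ`: smoothness, periodicity. -/

set_option autoImplicit false

namespace CI

open Set Function Filter Topology

private theorem c1_round {x : ℝ} (i : ℤ) (h : |x - i| ≤ 3 / 4) :
    round x = i ∨ (1 / 4 ≤ |x - round x| ∧ 1 / 4 ≤ |x - i|) := by
  by_cases hr : round x = i
  · exact Or.inl hr
  right
  have h1 := abs_sub_round x
  have h2 : (1 : ℝ) ≤ |((round x : ℤ) : ℝ) - i| := by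
    have h3 : (1 : ℤ) ≤ |round x - i| := Int.one_le_abs (sub_ne_zero.2 hr)
    exact_mod_cast h3
  have h4 : |((round x : ℤ) : ℝ) - i| ≤ |x - round x| + |x - i| := by
    have h5 : ((round x : ℤ) : ℝ) - i = -(x - round x) + (x - i) := by ring
    rw [h5]
    exact (abs_add_le _ _).trans (by rw [abs_neg])
  constructor <;> linarith

private theorem c1_kapd {x : ℝ} (h : 1 / 4 ≤ |x|) : deriv kap x = 0 := by
  have h1 : IsLocalMin kap x := by
    apply Filter.Eventually.of_forall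
    intro t
    rw [kap_zero h]
    exact kap_nonneg t
  exact h1.deriv_eq_zero

theorem KK_loc (P : Par) {x : ℝ} (i : ℤ) (h : |x - i| ≤ 3 / 4) (y : ℝ) :
    KK P (x, y) = kap (x - i) * bb P (y - P.al * (x - i)) := by
  unfold KK
  rcases c1_round i h with h1 | ⟨h1, h2⟩
  · simp only [h1]
  · simp only [kap_zero h1, kap_zero h2, zero_mul]

theorem VV_loc (P : Par) {x : ℝ} (i : ℤ) (h : |x - i| ≤ 3 / 4) (y : ℝ) :
    VV P (x, y) = lam P * (1 - kap (x - i) * deriv (bb P) (y - P.al * (x - i))) := by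
  unfold VV
  rcases c1_round i h with h1 | ⟨h1, h2⟩
  · simp only [h1, db_eq]
  · simp only [kap_zero h1, kap_zero h2, zero_mul]

theorem ZZ2_loc (P : Par) {x : ℝ} (i : ℤ) (h : |x - i| ≤ 3 / 4) (y : ℝ) :
    (ZZ P (x, y)).2 = lam P * (P.al + deriv kap (x - i) * bb P (y - P.al * (x - i))
      - P.al * (kap (x - i) * deriv (bb P) (y - P.al * (x - i)))) := by
  unfold ZZ
  rcases c1_round i h with h1 | ⟨h1, h2⟩
  · simp only [h1, db_eq]
  · simp only [kap_zero h1, kap_zero h2, c1_kapd h1, c1_kapd h2, zero_mul]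

private theorem c1_cover {F : Type*} [NormedAddCommGroup F] [NormedSpace ℝ F] (g : ℝ × ℝ → F)
    (G : ℤ → ℝ × ℝ → F) (hG : ∀ i, Sm (G i))
    (hg : ∀ (i : ℤ) (x y : ℝ), |x - i| ≤ 3 / 4 → g (x, y) = G i (x, y)) : Sm g := by
  refine contDiff_iff_contDiffAt.2 fun c => ?_
  have h1 := abs_sub_round c.1
  have h2 : ∀ᶠ z : ℝ × ℝ in 𝓝 c, |z.1 - ((round c.1 : ℤ) : ℝ)| < 3 / 4 := by
    have h3 : Continuous fun z : ℝ × ℝ => |z.1 - ((round c.1 : ℤ) : ℝ)| := by fun_prop
    exact h3.continuousAt.eventually_lt_const (by linarith)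
  refine ContDiffAt.congr_of_eventuallyEq (hG (round c.1)).contDiffAt ?_
  filter_upwards [h2] with z hz
  exact hg _ z.1 z.2 hz.le

private theorem c1_dbb (P : Par) : Sm (deriv (bb P)) := by
  have h := bb_sm P
  rw [Sm, contDiff_infty_iff_deriv] at h
  exact h.2

private theorem c1_dkap : Sm (deriv kap) := by
  have h := kap_sm
  rw [Sm, contDiff_infty_iff_deriv] at h
  exact h.2

private theorem c1_f1 (i : ℤ) : Sm (fun z : ℝ × ℝ => z.1 - (i:ℝ)) :=
  contDiff_fst.sub contDiff_const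

private theorem c1_f2 (P : Par) (i : ℤ) : Sm (fun z : ℝ × ℝ => z.2 - P.al * (z.1 - (i:ℝ))) :=
  contDiff_snd.sub (contDiff_const.mul (c1_f1 i))

theorem KK_sm (P : Par) : Sm (KK P) := by
  apply c1_cover (KK P) (fun i z => kap (z.1 - i) * bb P (z.2 - P.al * (z.1 - i)))
  · intro i
    exact (kap_sm.comp (c1_f1 i)).mul ((bb_sm P).comp (c1_f2 P i))
  · intro i x y h
    exact KK_loc P i h y

theorem KK_cont (P : Par) : Continuous (KK P) := (KK_sm P).continuous

private theorem c1_shift1 (x : ℝ) (i : ℤ) :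
    x + (i:ℝ) - ((round (x + (i:ℝ)) : ℤ) : ℝ) = x - ((round x : ℤ) : ℝ) := by
  rw [round_add_intCast]
  push_cast
  ring

private theorem c1_bb (P : Par) (y a : ℝ) (j : ℤ) : bb P (y + (j:ℝ) - a) = bb P (y - a) := by
  rw [add_sub_right_comm, bb_add]

private theorem c1_db_add (P : Par) (w : ℝ) (i : ℤ) : db P (w + i) = db P w := by
  unfold db
  rw [c1_shift1]

private theorem c1_db (P : Par) (y a : ℝ) (j : ℤ) : db P (y + (j:ℝ) - a) = db P (y - a) := by
  rw [add_sub_right_comm, c1_db_add]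

theorem KK_shift (P : Par) (c : ℝ × ℝ) (i j : ℤ) : KK P (c.1 + i, c.2 + j) = KK P c := by
  unfold KK
  simp only [c1_shift1, c1_bb]

theorem KK_abs (P : Par) (c : ℝ × ℝ) : |KK P c| ≤ 1 := by
  have hb : ∀ t : ℝ, |bloc P t| ≤ 1 := by
    intro t
    by_cases ht : 1 / 4 ≤ |t|
    · rw [bloc_zero P ht]; simp
    · rw [not_le, abs_lt] at ht
      have h1 : vloc P t ≤ 1 / 4 := by
        have h := (vloc_strictMono P).monotone ht.2.le
        rwa [vloc_id P (t := 1 / 4) (by rw [abs_of_pos (by norm_num : (0:ℝ) < 1 / 4)])] at h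
      have h2 : -(1 / 4) ≤ vloc P t := by
        have h := (vloc_strictMono P).monotone ht.1.le
        rwa [vloc_id P (t := -(1 / 4))
          (by rw [abs_neg, abs_of_pos (by norm_num : (0:ℝ) < 1 / 4)])] at h
      unfold bloc
      rw [abs_le]
      constructor <;> linarith [ht.1, ht.2]
  unfold KK bb
  rw [abs_mul, abs_of_nonneg (kap_nonneg _)]
  calc kap _ * |bloc P _| ≤ 1 * 1 :=
        mul_le_mul (kap_le_one _) (hb _) (abs_nonneg _) zero_le_one
    _ = 1 := one_mul 1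

theorem NN_sm (P : Par) : Sm (NN P) := by
  have h : NN P = fun c : ℝ × ℝ => c.2 - P.al * c.1 - KK P c := rfl
  rw [h]
  exact (contDiff_snd.sub (contDiff_const.mul contDiff_fst)).sub (KK_sm P)

theorem NN_shift (P : Par) (c : ℝ × ℝ) (i j : ℤ) :
    NN P (c.1 + i, c.2 + j) = NN P c + j - P.al * i := by
  unfold NN
  rw [KK_shift]
  ring

theorem NN_iter_bdd (P : Par) (n : ℕ) (hn : 1 ≤ n) :
    ∃ C : ℝ, 0 ≤ C ∧ ∀ c, ‖iteratedFDeriv ℝ n (NN P) c‖ ≤ C := by
  -- `NN` is a linear function minus a periodic function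
  obtain ⟨m, rfl⟩ : ∃ m, n = m + 1 := ⟨n - 1, by omega⟩
  have hd : Sm (fderiv ℝ (NN P)) := by
    have h := NN_sm P
    rw [Sm, contDiff_infty_iff_fderiv] at h
    exact h.2
  have hp : ∀ (c : ℝ × ℝ) (i j : ℤ), fderiv ℝ (NN P) (c.1 + i, c.2 + j) = fderiv ℝ (NN P) c := by
    intro c i j
    have h1 : fderiv ℝ (fun z => NN P (z + ((i:ℝ), (j:ℝ)))) c =
        fderiv ℝ (NN P) (c + ((i:ℝ), (j:ℝ))) := fderiv_comp_add_right _
    have h2 : (fun z : ℝ × ℝ => NN P (z + ((i:ℝ), (j:ℝ)))) =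
        fun z => NN P z + ((j:ℝ) - P.al * i) := by
      funext z
      have := NN_shift P z i j
      rw [show z + ((i:ℝ), (j:ℝ)) = (z.1 + (i:ℝ), z.2 + (j:ℝ)) from rfl, this]
      ring
    rw [h2, fderiv_add_const] at h1
    exact h1.symm
  obtain ⟨C, hC0, hC⟩ := per2_iter (fderiv ℝ (NN P)) hd hp m
  refine ⟨C, hC0, fun c => ?_⟩
  rw [← norm_iteratedFDeriv_fderiv]
  exact hC c

theorem VV_sm (P : Par) : Sm (VV P) := by
  apply c1_cover (VV P)
    (fun i z => lam P * (1 - kap (z.1 - i) * deriv (bb P) (z.2 - P.al * (z.1 - i))))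
  · intro i
    exact contDiff_const.mul (contDiff_const.sub
      ((kap_sm.comp (c1_f1 i)).mul ((c1_dbb P).comp (c1_f2 P i))))
  · intro i x y h
    exact VV_loc P i h y

theorem VV_cont (P : Par) : Continuous (VV P) := (VV_sm P).continuous

theorem VV_shift (P : Par) (c : ℝ × ℝ) (i j : ℤ) : VV P (c.1 + i, c.2 + j) = VV P c := by
  unfold VV
  simp only [c1_shift1, c1_db]

theorem ZZ_sm (P : Par) : Sm (ZZ P) := by
  have h2 : Sm (fun c => (ZZ P c).2) := by
    apply c1_cover _ (fun i z => lam P * (P.al + deriv kap (z.1 - i) *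
      bb P (z.2 - P.al * (z.1 - i))
      - P.al * (kap (z.1 - i) * deriv (bb P) (z.2 - P.al * (z.1 - i)))))
    · intro i
      exact contDiff_const.mul ((contDiff_const.add
        ((c1_dkap.comp (c1_f1 i)).mul ((bb_sm P).comp (c1_f2 P i)))).sub
        (contDiff_const.mul ((kap_sm.comp (c1_f1 i)).mul ((c1_dbb P).comp (c1_f2 P i)))))
    · intro i x y h
      exact ZZ2_loc P i h y
  have h3 : ZZ P = fun c => (VV P c, (ZZ P c).2) := rfl
  rw [h3]
  exact (VV_sm P).prodMk h2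

theorem ZZ_shift (P : Par) (c : ℝ × ℝ) (i j : ℤ) : ZZ P (c.1 + i, c.2 + j) = ZZ P c := by
  unfold ZZ
  simp only [c1_shift1, c1_db, c1_bb]
  rw [VV_shift]

theorem ZZ_bdd (P : Par) : ∃ B : ℝ, ∀ c, ‖ZZ P c‖ ≤ B := by
  obtain ⟨C, -, hC⟩ := per2_bdd (ZZ P) (ZZ_sm P).continuous (ZZ_shift P)
  exact ⟨C, hC⟩

theorem ZZ_lip (P : Par) : ∃ L : NNReal, LipschitzWith L (ZZ P) := by
  obtain ⟨C, hC0, hC⟩ := per2_iter (ZZ P) (ZZ_sm P) (ZZ_shift P) 1
  refine ⟨⟨C, hC0⟩, ?_⟩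
  have hd : Differentiable ℝ (ZZ P) := (ZZ_sm P).differentiable (by simp)
  apply lipschitzWith_of_nnnorm_fderiv_le hd
  intro c
  rw [← NNReal.coe_le_coe, coe_nnnorm]
  have h1 := hC c
  rw [show (1:ℕ) = 0 + 1 from rfl, ← norm_iteratedFDeriv_fderiv, norm_iteratedFDeriv_zero] at h1
  exact h1

end CI
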