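import Pool.Agent.LibCI87.C1

/-! ROW C2.  The derivative of `NN`; the zeros of `VV`. -/

set_option autoImplicit false

namespace CI

open Set Function Filter Topology

theorem lam_pos (P : Par) : 0 < lam P := lam_pos' P

private theorem c2_near (c : ℝ × ℝ) :
    ∀ᶠ z : ℝ × ℝ in 𝓝 c, |z.1 - ((round c.1 : ℤ) : ℝ)| < 3 / 4 := by
  have h1 := abs_sub_round c.1
  have h3 : Continuous fun z : ℝ × ℝ => |z.1 - ((round c.1 : ℤ) : ℝ)| := by fun_prop
  exact h3.continuousAt.eventually_lt_const (by linarith)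

private theorem c2_bb (P : Par) (w : ℝ) : HasDerivAt (bb P) (deriv (bb P) w) w :=
  ((bb_sm P).differentiable (by simp) w).hasDerivAt

private theorem c2_kap (w : ℝ) : HasDerivAt kap (deriv kap w) w :=
  (kap_sm.differentiable (by simp) w).hasDerivAt

theorem NN_fderiv (P : Par) (c : ℝ × ℝ) : HasFDerivAt (NN P)
    ((VV P c / lam P) • ContinuousLinearMap.snd ℝ ℝ ℝ -
      ((ZZ P c).2 / lam P) • ContinuousLinearMap.fst ℝ ℝ ℝ) c := by
  set i : ℤ := round c.1 with hi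
  have hc : |c.1 - (i:ℝ)| ≤ 3 / 4 := (abs_sub_round c.1).trans (by norm_num)
  have hl := lam_pos P
  have e1 : NN P =ᶠ[𝓝 c] fun z : ℝ × ℝ => z.2 - P.al * z.1 -
      kap (z.1 - i) * bb P (z.2 - P.al * (z.1 - i)) := by
    filter_upwards [c2_near c] with z hz
    have := KK_loc P i hz.le z.2
    unfold NN
    rw [show KK P z = KK P (z.1, z.2) from rfl, this]
  refine HasFDerivAt.congr_of_eventuallyEq ?_ e1
  have f1 : HasFDerivAt (fun z : ℝ × ℝ => z.1) (ContinuousLinearMap.fst ℝ ℝ ℝ) c := hasFDerivAt_fst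
  have f2 : HasFDerivAt (fun z : ℝ × ℝ => z.2) (ContinuousLinearMap.snd ℝ ℝ ℝ) c := hasFDerivAt_snd
  have g1 : HasFDerivAt (fun z : ℝ × ℝ => z.1 - (i:ℝ)) (ContinuousLinearMap.fst ℝ ℝ ℝ) c :=
    f1.sub_const _
  have g2 : HasFDerivAt (fun z : ℝ × ℝ => z.2 - P.al * (z.1 - (i:ℝ)))
      (ContinuousLinearMap.snd ℝ ℝ ℝ - P.al • ContinuousLinearMap.fst ℝ ℝ ℝ) c :=
    f2.sub (g1.const_mul P.al)
  have k1 : HasFDerivAt (fun z : ℝ × ℝ => kap (z.1 - (i:ℝ)))
      (deriv kap (c.1 - i) • ContinuousLinearMap.fst ℝ ℝ ℝ) c := by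
    have k := HasDerivAt.comp_hasFDerivAt (h₂ := kap) c (c2_kap (c.1 - i)) g1
    exact k
  have k2 : HasFDerivAt (fun z : ℝ × ℝ => bb P (z.2 - P.al * (z.1 - (i:ℝ))))
      (deriv (bb P) (c.2 - P.al * (c.1 - i)) •
        (ContinuousLinearMap.snd ℝ ℝ ℝ - P.al • ContinuousLinearMap.fst ℝ ℝ ℝ)) c := by
    have k := HasDerivAt.comp_hasFDerivAt (h₂ := bb P) c (c2_bb P (c.2 - P.al * (c.1 - i))) g2
    exact k
  have h := (f2.sub (f1.const_mul P.al)).sub (k1.mul k2)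
  refine h.congr_fderiv ?_
  have v1 := VV_loc P i hc c.2
  have v2 := ZZ2_loc P i hc c.2
  have v1' : VV P c = lam P * (1 - kap (c.1 - i) * deriv (bb P) (c.2 - P.al * (c.1 - i))) := v1
  have v2' : (ZZ P c).2 = lam P * (P.al + deriv kap (c.1 - i) * bb P (c.2 - P.al * (c.1 - i))
      - P.al * (kap (c.1 - i) * deriv (bb P) (c.2 - P.al * (c.1 - i)))) := v2
  rw [v1', v2']
  ext <;> simp <;> field_simp <;> ring

theorem NN_deriv (P : Par) (x y : ℝ) :
    HasDerivAt (fun y => NN P (x, y)) (VV P (x, y) / lam P) y := by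
  have h1 : HasDerivAt (fun y : ℝ => ((x, y) : ℝ × ℝ)) ((0, 1) : ℝ × ℝ) y :=
    (hasDerivAt_const y x).prodMk (hasDerivAt_id y)
  have h := (NN_fderiv P (x, y)).comp_hasDerivAt y h1
  have e : ((VV P (x, y) / lam P) • ContinuousLinearMap.snd ℝ ℝ ℝ -
      ((ZZ P (x, y)).2 / lam P) • ContinuousLinearMap.fst ℝ ℝ ℝ) ((0, 1) : ℝ × ℝ) =
      VV P (x, y) / lam P := by simp
  rw [e] at h
  exact h

private theorem c2_form (P : Par) (x y : ℝ) : NN P (x, y) =
    (1 - kap (x - round x)) * (y - P.al * (x - round x)) +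
      kap (x - round x) * v0 P (y - P.al * (x - round x)) - P.al * round x := by
  have hc : |x - ((round x : ℤ) : ℝ)| ≤ 3 / 4 := (abs_sub_round x).trans (by norm_num)
  unfold NN
  rw [KK_loc P (round x) hc y, v0_eq]
  ring

theorem NN_strictMono (P : Par) (x : ℝ) : StrictMono (fun y => NN P (x, y)) := by
  intro y y' h
  simp only [c2_form]
  set κ := kap (x - round x) with hκ
  have h0 : 0 ≤ κ := kap_nonneg _
  have h1 : κ ≤ 1 := kap_le_one _
  have hw : y - P.al * (x - round x) < y' - P.al * (x - round x) := by linarith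
  have hv := v0_strictMono P hw
  rcases eq_or_lt_of_le h0 with h2 | h2
  · rw [← h2]; linarith
  · have a1 : κ * v0 P (y - P.al * (x - round x)) < κ * v0 P (y' - P.al * (x - round x)) :=
      mul_lt_mul_of_pos_left hv h2
    have a2 : (1 - κ) * (y - P.al * (x - round x)) ≤ (1 - κ) * (y' - P.al * (x - round x)) :=
      mul_le_mul_of_nonneg_left hw.le (by linarith)
    linarith

theorem NN_surj (P : Par) (x n : ℝ) : ∃ y, NN P (x, y) = n := by
  have hc : Continuous (fun y => NN P (x, y)) :=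
    (NN_sm P).continuous.comp (continuous_const.prodMk continuous_id)
  have h1 : NN P (x, n + P.al * x - 1) ≤ n := by
    have := abs_le.1 (KK_abs P (x, n + P.al * x - 1))
    unfold NN; simp only; linarith [this.1]
  have h2 : n ≤ NN P (x, n + P.al * x + 1) := by
    have := abs_le.1 (KK_abs P (x, n + P.al * x + 1))
    unfold NN; simp only; linarith [this.2]
  have h3 := intermediate_value_Icc (show n + P.al * x - 1 ≤ n + P.al * x + 1 by linarith)
    hc.continuousOn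
  obtain ⟨y, -, hy⟩ := h3 ⟨h1, h2⟩
  exact ⟨y, hy⟩

private theorem c2_VV (P : Par) (c : ℝ × ℝ) : VV P c = lam P *
    (1 - kap (c.1 - round c.1) * db P (c.2 - P.al * (c.1 - round c.1))) := rfl

theorem VV_nonneg (P : Par) (c : ℝ × ℝ) : 0 ≤ VV P c := by
  rw [c2_VV]
  exact (lam_mul P _ _ (kap_nonneg _) (kap_le_one _)).1

theorem VV_le_one (P : Par) (c : ℝ × ℝ) : VV P c ≤ 1 := by
  rw [c2_VV]
  exact (lam_mul P _ _ (kap_nonneg _) (kap_le_one _)).2

private theorem c2_zero (P : Par) (c : ℝ × ℝ) (h : VV P c = 0) :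
    kap (c.1 - round c.1) = 1 ∧ db P (c.2 - P.al * (c.1 - round c.1)) = 1 := by
  rw [c2_VV] at h
  have hl := lam_pos P
  set κ := kap (c.1 - round c.1)
  set b := db P (c.2 - P.al * (c.1 - round c.1)) with hb
  have h0 : 0 ≤ κ := kap_nonneg _
  have h1 : κ ≤ 1 := kap_le_one _
  have h2 : b ≤ 1 := by
    have := v0_deriv_nonneg P (c.2 - P.al * (c.1 - round c.1))
    rw [v0_deriv] at this
    linarith
  have h3 : κ * b = 1 := by
    rcases mul_eq_zero.1 h with h4 | h4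
    · exact absurd h4 hl.ne'
    · linarith
  have h4 : κ = 1 := by nlinarith
  refine ⟨h4, ?_⟩
  rw [h4, one_mul] at h3
  exact h3

theorem VV_zero_char (P : Par) (c : ℝ × ℝ) : VV P c = 0 ↔
    ∃ i : ℤ, |c.1 - i| ≤ 1 / 8 ∧ ∃ m : ℕ, ∃ p : ℤ, c.2 - P.al * (c.1 - i) = tt P m + p := by
  constructor
  · intro h
    obtain ⟨h1, h2⟩ := c2_zero P c h
    refine ⟨round c.1, (kap_eq_one_iff _).1 h1, ?_⟩
    apply (v0_deriv_zero_iff P _).1
    rw [v0_deriv, h2, sub_self]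
  · rintro ⟨i, h1, h2⟩
    have h3 := VV_loc P i (h1.trans (by norm_num)) c.2
    have h4 := (v0_deriv_zero_iff P _).2 h2
    rw [v0_deriv, db_eq] at h4
    rw [show VV P c = VV P (c.1, c.2) from rfl, h3, (kap_eq_one_iff _).2 h1, one_mul]
    rw [h4, mul_zero]

private theorem c2_strip (P : Par) (c : ℝ × ℝ) (i : ℤ) (h : |c.1 - i| ≤ 1 / 8) :
    NN P c = v0 P (c.2 - P.al * (c.1 - i)) - P.al * i := by
  have h3 := KK_loc P i (h.trans (by norm_num)) c.2
  unfold NN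
  rw [show KK P c = KK P (c.1, c.2) from rfl, h3, (kap_eq_one_iff _).2 h, v0_eq]
  ring

private theorem c2_NN (P : Par) (c : ℝ × ℝ) (i : ℤ) (h : |c.1 - i| ≤ 1 / 8) (m : ℕ) (p : ℤ)
    (hw : c.2 - P.al * (c.1 - i) = tt P m + p) :
    NN P c = (p - P.q m : ℤ) - P.al * (i - P.J m : ℤ) := by
  rw [c2_strip P c i h, hw, v0_tt]
  unfold nn
  push_cast
  ring

theorem VV_zero (P : Par) (c : ℝ × ℝ) (h : VV P c = 0) : ∃ i j : ℤ, NN P c = j - P.al * i := by
  obtain ⟨i, h1, m, p, h2⟩ := (VV_zero_char P c).1 h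
  exact ⟨i - P.J m, p - P.q m, c2_NN P c i h1 m p h2⟩

theorem VV_zero_iff (P : Par) (c : ℝ × ℝ) (h : NN P c = 0) :
    VV P c = 0 ↔ ∃ i : ℕ, |c.1 - P.J i| ≤ 1 / 8 := by
  rw [VV_zero_char]
  constructor
  · rintro ⟨i, h1, m, p, h2⟩
    have h3 := c2_NN P c i h1 m p h2
    rw [h] at h3
    have h4 : P.al * ((i - P.J m : ℤ) : ℝ) = ((p - P.q m : ℤ) : ℝ) := by linarith
    obtain ⟨h5, -⟩ := P.irr _ _ h4
    refine ⟨m, ?_⟩
    have h6 : i = (P.J m : ℤ) := by omega
    rw [h6] at h1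
    exact_mod_cast h1
  · rintro ⟨m, h1⟩
    have h1' : |c.1 - ((P.J m : ℤ) : ℝ)| ≤ 1 / 8 := by exact_mod_cast h1
    refine ⟨P.J m, h1', m, P.q m, ?_⟩
    have h2 := c2_strip P c _ h1'
    rw [h] at h2
    apply (v0_strictMono P).injective
    rw [v0_tt]
    unfold nn
    push_cast at h2 ⊢
    linarith

theorem ZZ_zero (P : Par) (c : ℝ × ℝ) (h : VV P c = 0) : ZZ P c = 0 := by
  obtain ⟨h1, h2⟩ := c2_zero P c h
  have h3 := kap_deriv ((kap_eq_one_iff _).1 h1)
  apply Prod.ext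
  · exact h
  · change lam P * (P.al + deriv kap (c.1 - round c.1) * bb P (c.2 - P.al * (c.1 - round c.1))
      - P.al * (kap (c.1 - round c.1) * db P (c.2 - P.al * (c.1 - round c.1)))) = 0
    rw [h1, h2, h3]
    ring

end CI
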