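import Pool.Agent.LibCI87.O1

/-! ROW O3 (STRONG, ~150 lines).  Short time smoothness of the flow.  Use O1 (stated) and
`Mathlib.Analysis.Calculus.ImplicitContDiff`.

Let `I = Icc (0:ℝ) 1`, `W = C(I, E)` (complete).  Let `(a₀, c₀)` with `|a₀| * L < 1`.
Put `S : W →L[ℝ] W`, `(S v) t = ∫ τ in 0..t, v (projIcc τ)` (norm `≤ 1`; `v (projIcc ..)` is `IccExtend`), and
`G : (ℝ × E) × W → W`, `G ((a, c), γ) = γ - const c - a • S (Z ∘ γ)`.  `G` is `C^∞`: `const : E →L W`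
(`ContinuousMap.const` is continuous linear), `γ ↦ Z ∘ γ` by O1, `smul` bilinear.
`γ₀ t = Φ (t a₀) c₀`, `G ((a₀, c₀), γ₀) = 0` (integral form of the ODE, substitution `τ ↦ τ a₀`, or FTC for
`t ↦ Φ (t a) c` with derivative `a • Z (Φ (t a) c)`).  The partial derivative in `γ` is
`v ↦ v - a₀ • S (t ↦ Z'(γ₀ t) (v t)) = (1 - T) v` with `‖T‖ ≤ |a₀| L < 1` (`‖fderiv Z x‖ ≤ L`:
`LipschitzWith` ⇒ `norm_fderiv_le_of_lipschitz`): invertible (`isUnit_one_sub_of_norm_lt_one` in the complete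
algebra `W →L[ℝ] W`; `ContinuousLinearMap.IsInvertible`).  [You need only know that the partial derivative
exists (as `fderiv G u ∘L inr`) and equals `1 - T` with `‖T‖ < 1`; e.g. `G (u, ·)` is `id - (const + T')` where
`T' γ = a • S (Z ∘ γ)` is Lipschitz with constant `|a| L < 1`, so its derivative has norm `≤ |a| L`.]
`ContDiffAt.implicitFunction` gives `ψ : ℝ × E → W`, `C^∞` at `(a₀, c₀)`, with `G (x, ψ x) = 0` near
`(a₀, c₀)`.  For `(a, c)` near `(a₀, c₀)` we have `|a| L < 1` and `ψ (a, c) = (t ↦ Φ (t a) c)` by uniqueness of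
the fixed point of the contraction `γ ↦ const c + a • S (Z ∘ γ)` (difference `δ` of two fixed points:
`‖δ‖ ≤ |a| L ‖δ‖`).  Evaluate at `t = 1` (continuous linear): `Φ a c = ψ (a, c) 1`. -/

set_option autoImplicit false

namespace CI

open Set Function Filter Topology

section

variable {E : Type} [NormedAddCommGroup E] [NormedSpace ℝ E]

omit [NormedSpace ℝ E] in
private theorem o3_ct (v : C(Icc (0:ℝ) 1, E)) :
    Continuous (fun τ : ℝ => v (projIcc 0 1 zero_le_one τ)) :=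
  v.continuous.comp continuous_projIcc

/-- primitive vanishing at `0` -/
private noncomputable def o3S : C(Icc (0:ℝ) 1, E) →L[ℝ] C(Icc (0:ℝ) 1, E) :=
  LinearMap.mkContinuous
    { toFun := fun v => ⟨fun t => ∫ τ in (0:ℝ)..t, v (projIcc 0 1 zero_le_one τ),
        (intervalIntegral.continuous_primitive
          (fun a b => (o3_ct v).intervalIntegrable a b) 0).comp continuous_subtype_val⟩
      map_add' := fun v w => by
        ext t
        exact intervalIntegral.integral_add ((o3_ct v).intervalIntegrable _ _)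
          ((o3_ct w).intervalIntegrable _ _)
      map_smul' := fun r v => by
        ext t
        exact intervalIntegral.integral_smul r _ }
    1 (fun v => by
      have hv : 0 ≤ ‖v‖ := norm_nonneg v
      rw [one_mul, ContinuousMap.norm_le _ hv]
      intro t
      have h1 := intervalIntegral.norm_integral_le_of_norm_le_const (a := 0) (b := (t : ℝ))
        (f := fun τ : ℝ => v (projIcc 0 1 zero_le_one τ)) (C := ‖v‖)
        (fun x _ => v.norm_coe_le_norm _)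
      refine le_trans h1 ?_
      rw [sub_zero, abs_of_nonneg t.2.1]
      exact mul_le_of_le_one_right hv t.2.2)

private theorem o3S_norm (v : C(Icc (0:ℝ) 1, E)) : ‖o3S v‖ ≤ ‖v‖ := by
  have h1 := (o3S (E := E)).le_of_opNorm_le (LinearMap.mkContinuous_norm_le _ zero_le_one _) v
  rwa [one_mul] at h1

/-- constant functions -/
private noncomputable def o3C : E →L[ℝ] C(Icc (0:ℝ) 1, E) :=
  LinearMap.mkContinuous
    { toFun := fun c => ContinuousMap.const _ c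
      map_add' := fun _ _ => rfl
      map_smul' := fun _ _ => rfl }
    1 (fun c => by
      rw [one_mul, ContinuousMap.norm_le _ (norm_nonneg _)]
      intro t
      exact le_refl _)

/-- superposition -/
private def o3N (Z : E → E) (hZ : Sm Z) (γ : C(Icc (0:ℝ) 1, E)) : C(Icc (0:ℝ) 1, E) :=
  ⟨fun t => Z (γ t), hZ.continuous.comp γ.continuous⟩

private theorem o3N_sm (Z : E → E) (hZ : Sm Z) : Sm (o3N Z hZ) := nemytskii_sm Z hZ

private theorem o3N_lip {Z : E → E} (hZ : Sm Z) {L : NNReal} (hL : LipschitzWith L Z)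
    (γ γ' : C(Icc (0:ℝ) 1, E)) : ‖o3N Z hZ γ - o3N Z hZ γ'‖ ≤ L * ‖γ - γ'‖ := by
  rw [ContinuousMap.norm_le _ (by positivity)]
  intro t
  have h1 := hL.norm_sub_le (γ t) (γ' t)
  exact le_trans h1 (mul_le_mul_of_nonneg_left ((γ - γ').norm_coe_le_norm t) L.2)

/-- the equation -/
private noncomputable def o3G (Z : E → E) (hZ : Sm Z) (q : (ℝ × E) × C(Icc (0:ℝ) 1, E)) :
    C(Icc (0:ℝ) 1, E) :=
  q.2 - o3C q.1.2 - q.1.1 • o3S (o3N Z hZ q.2)

private theorem o3G_sm (Z : E → E) (hZ : Sm Z) : Sm (o3G Z hZ) := by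
  have h1 : Sm (fun q : (ℝ × E) × C(Icc (0:ℝ) 1, E) => o3S (o3N Z hZ q.2)) :=
    o3S.contDiff.comp ((o3N_sm Z hZ).comp contDiff_snd)
  have h3 : Sm (fun q : (ℝ × E) × C(Icc (0:ℝ) 1, E) => q.1.2) := contDiff_snd.comp contDiff_fst
  have h4 : Sm (fun q : (ℝ × E) × C(Icc (0:ℝ) 1, E) => q.1.1) := contDiff_fst.comp contDiff_fst
  have h2 : Sm (fun q : (ℝ × E) × C(Icc (0:ℝ) 1, E) => o3C q.1.2) :=
    (ContinuousLinearMap.contDiff (o3C (E := E))).comp h3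
  exact (contDiff_snd.sub h2).sub (h4.smul h1)

/-- the curve -/
private def o3g (Φ : ℝ → E → E) (hc : Continuous (fun q : ℝ × E => Φ q.1 q.2)) (q : ℝ × E) :
    C(Icc (0:ℝ) 1, E) :=
  ⟨fun t => Φ (t * q.1) q.2, hc.comp ((continuous_subtype_val.mul continuous_const).prodMk
    continuous_const)⟩

private theorem o3G_zero [CompleteSpace E] (Z : E → E) (hZ : Sm Z) (Φ : ℝ → E → E)
    (hc : Continuous (fun q : ℝ × E => Φ q.1 q.2)) (h0 : ∀ c, Φ 0 c = c)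
    (hd : ∀ t c, HasDerivAt (fun t => Φ t c) (Z (Φ t c)) t) (q : ℝ × E) :
    o3G Z hZ (q, o3g Φ hc q) = 0 := by
  ext t
  change Φ (t * q.1) q.2 - q.2 -
    q.1 • (∫ τ in (0:ℝ)..t, Z (Φ ((projIcc 0 1 zero_le_one τ : ℝ) * q.1) q.2)) = 0
  have hcont : Continuous fun τ : ℝ => q.1 • Z (Φ (τ * q.1) q.2) :=
    continuous_const.smul (hZ.continuous.comp (hc.comp ((continuous_id.mul
      continuous_const).prodMk continuous_const)))
  have h1 : ∫ τ in (0:ℝ)..t, q.1 • Z (Φ (τ * q.1) q.2) = Φ (t * q.1) q.2 - Φ (0 * q.1) q.2 := by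
    refine intervalIntegral.integral_eq_sub_of_hasDerivAt (f := fun τ : ℝ => Φ (τ * q.1) q.2)
      (fun τ _ => ?_) (hcont.intervalIntegrable _ _)
    have h2 : HasDerivAt (fun τ : ℝ => τ * q.1) q.1 τ := by
      simpa using (hasDerivAt_id τ).mul_const q.1
    exact (hd (τ * q.1) q.2).scomp τ h2
  have h2 : ∫ τ in (0:ℝ)..t, Z (Φ ((projIcc 0 1 zero_le_one τ : ℝ) * q.1) q.2) =
      ∫ τ in (0:ℝ)..t, Z (Φ (τ * q.1) q.2) := by
    refine intervalIntegral.integral_congr fun τ hτ => ?_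
    rw [uIcc_of_le t.2.1] at hτ
    have h3 : (projIcc (0:ℝ) 1 zero_le_one τ : ℝ) = τ := by
      rw [projIcc_of_mem zero_le_one (⟨hτ.1, le_trans hτ.2 t.2.2⟩ : τ ∈ Icc (0:ℝ) 1)]
    change Z (Φ ((projIcc (0:ℝ) 1 zero_le_one τ : ℝ) * q.1) q.2) = _
    rw [h3]
  rw [intervalIntegral.integral_smul] at h1
  rw [h2, h1, zero_mul, h0, sub_self]

private theorem o3_uniq {Z : E → E} (hZ : Sm Z) {L : NNReal} (hL : LipschitzWith L Z)
    {q : ℝ × E} (hq : |q.1| * L < 1) {γ γ' : C(Icc (0:ℝ) 1, E)} (h : o3G Z hZ (q, γ) = 0)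
    (h' : o3G Z hZ (q, γ') = 0) : γ = γ' := by
  have h1 : γ - γ' = q.1 • o3S (o3N Z hZ γ - o3N Z hZ γ') := by
    rw [map_sub, smul_sub]
    have h2 : γ = o3C q.2 + q.1 • o3S (o3N Z hZ γ) := by
      have h3 : γ - o3C q.2 - q.1 • o3S (o3N Z hZ γ) = 0 := h
      rw [sub_sub, sub_eq_zero] at h3
      exact h3
    have h2' : γ' = o3C q.2 + q.1 • o3S (o3N Z hZ γ') := by
      have h3 : γ' - o3C q.2 - q.1 • o3S (o3N Z hZ γ') = 0 := h'
      rw [sub_sub, sub_eq_zero] at h3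
      exact h3
    calc γ - γ' = (o3C q.2 + q.1 • o3S (o3N Z hZ γ)) - (o3C q.2 + q.1 • o3S (o3N Z hZ γ')) := by
          rw [← h2, ← h2']
      _ = _ := by abel
  have h4 : ‖γ - γ'‖ ≤ |q.1| * L * ‖γ - γ'‖ := by
    calc ‖γ - γ'‖ = ‖q.1 • o3S (o3N Z hZ γ - o3N Z hZ γ')‖ := by rw [← h1]
      _ = |q.1| * ‖o3S (o3N Z hZ γ - o3N Z hZ γ')‖ := by rw [norm_smul, Real.norm_eq_abs]
      _ ≤ |q.1| * (L * ‖γ - γ'‖) := mul_le_mul_of_nonneg_left
          (le_trans (o3S_norm _) (o3N_lip hZ hL γ γ')) (abs_nonneg _)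
      _ = _ := by ring
  have h5 : ‖γ - γ'‖ ≤ 0 := by nlinarith [norm_nonneg (γ - γ')]
  exact sub_eq_zero.1 (norm_le_zero_iff.1 h5)

private theorem o3_inv [CompleteSpace E] {Z : E → E} (hZ : Sm Z) {L : NNReal}
    (hL : LipschitzWith L Z) {q : ℝ × E} (hq : |q.1| * L < 1) (γ : C(Icc (0:ℝ) 1, E)) :
    (fderiv ℝ (o3G Z hZ) (q, γ) ∘L .inr ℝ (ℝ × E) C(Icc (0:ℝ) 1, E)).IsInvertible := by
  have h1 : HasFDerivAt (fun γ => o3G Z hZ (q, γ))
      (fderiv ℝ (o3G Z hZ) (q, γ) ∘L .inr ℝ (ℝ × E) C(Icc (0:ℝ) 1, E)) γ :=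
    HasFDerivAt.comp γ ((o3G_sm Z hZ).differentiable (by norm_num) (q, γ)).hasFDerivAt
      (hasFDerivAt_prodMk_right q γ)
  obtain ⟨P, hP⟩ : ∃ P : C(Icc (0:ℝ) 1, E) → C(Icc (0:ℝ) 1, E),
      P = fun γ => q.1 • o3S (o3N Z hZ γ) := ⟨_, rfl⟩
  have hPs : Sm P := by
    rw [hP]
    exact ContDiff.const_smul q.1 ((ContinuousLinearMap.contDiff (o3S (E := E))).comp
      (o3N_sm Z hZ))
  have hPl : LipschitzWith (‖q.1‖₊ * L) P := by
    refine LipschitzWith.of_dist_le_mul fun γ γ' => ?_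
    rw [dist_eq_norm, dist_eq_norm, hP]
    change ‖q.1 • o3S (o3N Z hZ γ) - q.1 • o3S (o3N Z hZ γ')‖ ≤ _
    rw [← smul_sub, ← map_sub, norm_smul, NNReal.coe_mul, coe_nnnorm, mul_assoc]
    exact mul_le_mul_of_nonneg_left (le_trans (o3S_norm _) (o3N_lip hZ hL γ γ')) (norm_nonneg _)
  have h2 : HasFDerivAt (fun γ => o3G Z hZ (q, γ))
      ((ContinuousLinearMap.id ℝ C(Icc (0:ℝ) 1, E)) - fderiv ℝ P γ) γ := by
    have h3 := ((hasFDerivAt_id (𝕜 := ℝ) γ).sub_const (o3C q.2)).sub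
      (hPs.differentiable (by norm_num) γ).hasFDerivAt
    refine h3.congr_of_eventuallyEq (Filter.Eventually.of_forall fun γ' => ?_)
    rw [hP]
    rfl
  rw [h1.unique h2]
  have h4 : ‖fderiv ℝ P γ‖ < 1 := by
    refine lt_of_le_of_lt (norm_fderiv_le_of_lipschitz ℝ hPl) ?_
    rw [NNReal.coe_mul, coe_nnnorm, Real.norm_eq_abs]
    exact hq
  have h5 : IsUnit ((1 : C(Icc (0:ℝ) 1, E) →L[ℝ] C(Icc (0:ℝ) 1, E)) - fderiv ℝ P γ) :=
    isUnit_one_sub_of_norm_lt_one (R := C(Icc (0:ℝ) 1, E) →L[ℝ] C(Icc (0:ℝ) 1, E)) h4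
  exact ⟨ContinuousLinearEquiv.ofUnit h5.unit, by ext v; rfl⟩

end

theorem flow_short {E : Type} [NormedAddCommGroup E] [NormedSpace ℝ E] [CompleteSpace E]
    (Z : E → E) (hZ : Sm Z) (L : NNReal) (hL : LipschitzWith L Z)
    (Φ : ℝ → E → E) (hc : Continuous (fun q : ℝ × E => Φ q.1 q.2)) (h0 : ∀ c, Φ 0 c = c)
    (hd : ∀ t c, HasDerivAt (fun t => Φ t c) (Z (Φ t c)) t) (a : ℝ) (c : E)
    (ha : |a| * L < 1) :
    ContDiffAt ℝ ((⊤ : ℕ∞) : WithTop ℕ∞) (fun q : ℝ × E => Φ q.1 q.2) (a, c) := by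
  have h1 : ContDiffAt ℝ ((⊤ : ℕ∞) : WithTop ℕ∞) (o3G Z hZ) ((a, c), o3g Φ hc (a, c)) :=
    (o3G_sm Z hZ).contDiffAt
  have hinv := o3_inv hZ hL (q := (a, c)) ha (o3g Φ hc (a, c))
  have hne : ((⊤ : ℕ∞) : WithTop ℕ∞) ≠ 0 := by norm_num
  have h2 := h1.contDiffAt_implicitFunction hne hinv
  have h3 := h1.eventually_apply_implicitFunction hne hinv
  obtain ⟨ψ, hψ⟩ : ∃ ψ, ψ = h1.implicitFunction hne hinv := ⟨_, rfl⟩
  rw [← hψ] at h2 h3
  have h4 : ∀ᶠ q : ℝ × E in 𝓝 (a, c), |q.1| * L < 1 := by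
    have h5 : ContinuousAt (fun q : ℝ × E => |q.1| * (L : ℝ)) (a, c) :=
      (continuous_fst.abs.mul continuous_const).continuousAt
    exact h5.eventually (gt_mem_nhds ha)
  have h6 : ContDiffAt ℝ ((⊤ : ℕ∞) : WithTop ℕ∞)
      (fun q : ℝ × E => ContinuousMap.evalCLM ℝ (⟨1, by norm_num⟩ : Icc (0:ℝ) 1) (ψ q)) (a, c) :=
    (ContinuousLinearMap.contDiff _).contDiffAt.comp _ h2
  refine h6.congr_of_eventuallyEq ?_
  filter_upwards [h3, h4] with q hq1 hq2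
  rw [o3G_zero Z hZ Φ hc h0 hd (a, c)] at hq1
  have h7 := o3_uniq hZ hL hq2 hq1 (o3G_zero Z hZ Φ hc h0 hd q)
  change Φ q.1 q.2 = ψ q (⟨1, by norm_num⟩ : Icc (0:ℝ) 1)
  rw [h7]
  change Φ q.1 q.2 = Φ (1 * q.1) q.2
  rw [one_mul]

end CI
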