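import Pool.Agent.LibCI87.O2
import Pool.Agent.LibCI87.O3

/-! ROW O4 (~50 lines).  Smooth flow.  Use O2, O3 (stated).

`Φ` from O2.  Given `(t, c)`, choose `n ≥ 1` with `|t| * L / n < 1`; near `(t, c)`,
`Φ t c = (Φ (t / n))^[n] c` (group law, induction), and by induction on `m`,
`(t, c) ↦ (Φ (t/n))^[m] c` is `C^∞` at `(t, c)`: composition of `(t, c) ↦ (t / n, (Φ (t/n))^[m] c)` with
`uncurry Φ`, which is `C^∞` at `(t / n, c')` for every `c'` (O3). -/

set_option autoImplicit false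

namespace CI

open Set Function Filter Topology

theorem exists_isFl {E : Type} [NormedAddCommGroup E] [NormedSpace ℝ E] [CompleteSpace E]
    (Z : E → E) (hZ : Sm Z) (L : NNReal) (hL : LipschitzWith L Z) (B : ℝ) (hB : ∀ c, ‖Z c‖ ≤ B) :
    ∃ φ, IsFl Z φ := by
  obtain ⟨Φ, hc, h0, hadd, hd⟩ := exists_flow Z L hL B hB
  refine ⟨Φ, ⟨?_, h0, hadd, hd⟩⟩
  have hit : ∀ (m : ℕ) (a : ℝ) (c : E), (Φ a)^[m] c = Φ (m * a) c := by
    intro m a c
    induction m with
    | zero => simp [h0]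
    | succ m ih =>
      rw [Function.iterate_succ_apply', ih, ← hadd]
      congr 1
      push_cast
      ring
  have hiter : ∀ (n : ℕ) (t : ℝ) (c : E), |t / n| * L < 1 → ∀ m : ℕ,
      ContDiffAt ℝ ((⊤ : ℕ∞) : WithTop ℕ∞) (fun q : ℝ × E => (Φ (q.1 / n))^[m] q.2) (t, c) := by
    intro n t c hn m
    induction m with
    | zero =>
      have e : (fun q : ℝ × E => (Φ (q.1 / n))^[0] q.2) = fun q => q.2 := rfl
      rw [e]
      exact contDiffAt_snd
    | succ m ih =>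
      have e : (fun q : ℝ × E => (Φ (q.1 / n))^[m + 1] q.2) =
          (fun q : ℝ × E => Φ q.1 q.2) ∘ fun q : ℝ × E => (q.1 / n, (Φ (q.1 / n))^[m] q.2) := by
        funext q
        show (Φ (q.1 / n))^[m + 1] q.2 = Φ (q.1 / n) ((Φ (q.1 / n))^[m] q.2)
        rw [Function.iterate_succ_apply']
      rw [e]
      refine ContDiffAt.comp (t, c) ?_ ?_
      · exact flow_short Z hZ L hL Φ hc h0 hd (t / n) _ hn
      · exact (contDiffAt_fst.div_const _).prodMk ih
  show ContDiff ℝ ((⊤ : ℕ∞) : WithTop ℕ∞) (fun q : ℝ × E => Φ q.1 q.2)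
  rw [contDiff_iff_contDiffAt]
  rintro ⟨t, c⟩
  obtain ⟨n, hn⟩ := exists_nat_gt (|t| * L)
  have hn0 : (0 : ℝ) < n := lt_of_le_of_lt (by positivity) hn
  have hn1 : |t / n| * L < 1 := by
    rw [abs_div, abs_of_pos hn0, div_mul_eq_mul_div, div_lt_one hn0]
    exact hn
  have e : (fun q : ℝ × E => Φ q.1 q.2) = fun q : ℝ × E => (Φ (q.1 / n))^[n] q.2 := by
    funext q
    rw [hit, mul_div_cancel₀ _ hn0.ne']
  rw [e]
  exact hiter n t c hn1 n

end CI
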