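import Pool.Agent.LibCI87.C2
import Pool.Agent.LibCI87.O4

/-! ROW C3 (~120 lines).  The flow `phi`.  Use C1, C2, O4 (stated).

`phi_isFl`: `exists_isFl` (O4) with `ZZ_sm`, `ZZ_lip`, `ZZ_bdd`, and `Classical.choose_spec`.
`phi_uniq`: uniqueness of solutions (`ZZ` Lipschitz): `ODE_solution_unique_of_mem_Icc` or
`ODE_solution_unique_of_mem_Icc_right` on `[0, b]`, and time reversal for `[a, 0]`.
`phi_shift`: uniqueness, `ZZ_shift`.  `phi_stop`: `ZZ_zero`, the constant is a solution.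
`NN_phi`: the derivative of `t ↦ NN P (phi P t c)` is `fderiv NN (ZZ) = (V/lam) ZZ.2 - (ZZ.2/lam) V = 0` (`NN_fderiv`,
`(ZZ P c).1 = VV P c`), `is_const_of_deriv_eq_zero`.
`phi_x_mono`, `phi_x_lip`: the derivative of `t ↦ (phi P t c).1` is `VV ∈ [0, 1]`.
`Phi_*`: definitions of `Phi`, `eta`, `sh`; `Phi_sm`: `phi_isFl.smooth`. -/

set_option autoImplicit false

namespace CI

open Set Function Filter Topology

theorem phi_isFl (P : Par) : IsFl (ZZ P) (phi P) := by
  obtain ⟨L, hL⟩ := ZZ_lip P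
  obtain ⟨B, hB⟩ := ZZ_bdd P
  have h : ∃ φ, IsFl (ZZ P) φ := exists_isFl (ZZ P) (ZZ_sm P) L hL B hB
  rw [phi, dif_pos h]
  exact h.choose_spec

theorem phi_uniq (P : Par) {γ : ℝ → ℝ × ℝ} {a b : ℝ} (ha : a ≤ 0) (hb : 0 ≤ b)
    (h : ∀ t ∈ Icc a b, HasDerivAt γ (ZZ P (γ t)) t) : ∀ t ∈ Icc a b, γ t = phi P t (γ 0) := by
  obtain ⟨L, hL⟩ := ZZ_lip P
  have hg : ∀ t, HasDerivAt (fun t => phi P t (γ 0)) (ZZ P (phi P t (γ 0))) t :=
    fun t => (phi_isFl P).deriv t (γ 0)
  have h0 : γ 0 = phi P 0 (γ 0) := ((phi_isFl P).zero _).symm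
  have hr : EqOn γ (fun t => phi P t (γ 0)) (Icc 0 b) := by
    refine ODE_solution_unique_of_mem_Icc_right (v := fun _ => ZZ P) (s := fun _ => univ) (K := L)
      (fun t _ => hL.lipschitzOnWith) ?_ ?_ (fun _ _ => mem_univ _) ?_ ?_ (fun _ _ => mem_univ _) h0
    · exact fun t ht => (h t ⟨ha.trans ht.1, ht.2⟩).continuousAt.continuousWithinAt
    · exact fun t ht => (h t ⟨ha.trans ht.1, ht.2.le⟩).hasDerivWithinAt
    · exact fun t _ => (hg t).continuousAt.continuousWithinAt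
    · exact fun t _ => (hg t).hasDerivWithinAt
  have hl : EqOn γ (fun t => phi P t (γ 0)) (Icc a 0) := by
    refine ODE_solution_unique_of_mem_Icc_left (v := fun _ => ZZ P) (s := fun _ => univ) (K := L)
      (fun t _ => hL.lipschitzOnWith) ?_ ?_ (fun _ _ => mem_univ _) ?_ ?_ (fun _ _ => mem_univ _) h0
    · exact fun t ht => (h t ⟨ht.1, ht.2.trans hb⟩).continuousAt.continuousWithinAt
    · exact fun t ht => (h t ⟨ht.1.le, ht.2.trans hb⟩).hasDerivWithinAt
    · exact fun t _ => (hg t).continuousAt.continuousWithinAt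
    · exact fun t _ => (hg t).hasDerivWithinAt
  intro t ht
  rcases le_total 0 t with h1 | h1
  · exact hr ⟨h1, ht.2⟩
  · exact hl ⟨ht.1, h1⟩

private theorem c3_uniq (P : Par) {γ : ℝ → ℝ × ℝ} (h : ∀ t, HasDerivAt γ (ZZ P (γ t)) t) (t : ℝ) :
    γ t = phi P t (γ 0) :=
  phi_uniq P (a := -|t|) (b := |t|) (neg_nonpos.2 (abs_nonneg t)) (abs_nonneg t)
    (fun s _ => h s) t ⟨neg_abs_le t, le_abs_self t⟩

theorem phi_shift (P : Par) (t : ℝ) (c : ℝ × ℝ) (i j : ℤ) :
    phi P t (c.1 + i, c.2 + j) = ((phi P t c).1 + i, (phi P t c).2 + j) := by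
  have h := c3_uniq P (γ := fun t => phi P t c + ((i : ℝ), (j : ℝ))) (fun s => by
    have h1 := ((phi_isFl P).deriv s c).add_const ((i : ℝ), (j : ℝ))
    have h2 : ZZ P (phi P s c + ((i : ℝ), (j : ℝ))) = ZZ P (phi P s c) := ZZ_shift P _ i j
    rw [h2]
    exact h1) t
  rw [(phi_isFl P).zero] at h
  exact h.symm

theorem phi_stop (P : Par) (t : ℝ) (c : ℝ × ℝ) (h : VV P c = 0) : phi P t c = c := by
  have h1 := c3_uniq P (γ := fun _ => c) (fun s => by
    rw [ZZ_zero P c h]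
    exact hasDerivAt_const s c) t
  exact h1.symm

theorem NN_phi (P : Par) (t : ℝ) (c : ℝ × ℝ) : NN P (phi P t c) = NN P c := by
  have hd : ∀ s, HasDerivAt (fun s => NN P (phi P s c)) 0 s := by
    intro s
    have h1 := (NN_fderiv P (phi P s c)).comp_hasDerivAt s ((phi_isFl P).deriv s c)
    have h2 : ((VV P (phi P s c) / lam P) • ContinuousLinearMap.snd ℝ ℝ ℝ -
      ((ZZ P (phi P s c)).2 / lam P) • ContinuousLinearMap.fst ℝ ℝ ℝ) (ZZ P (phi P s c)) = 0 := by
      have h3 : (ZZ P (phi P s c)).1 = VV P (phi P s c) := rfl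
      simp only [sub_apply, smul_apply,
        ContinuousLinearMap.coe_snd', ContinuousLinearMap.coe_fst', smul_eq_mul, h3]
      ring
    rw [h2] at h1
    exact h1
  have h1 : NN P (phi P t c) = NN P (phi P 0 c) :=
    is_const_of_deriv_eq_zero (fun s => (hd s).differentiableAt) (fun s => (hd s).deriv) t 0
  rw [h1, (phi_isFl P).zero]

private theorem c3_deriv (P : Par) (c : ℝ × ℝ) (t : ℝ) :
    HasDerivAt (fun t => (phi P t c).1) (VV P (phi P t c)) t :=
  ((phi_isFl P).deriv t c).fst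

theorem phi_x_mono (P : Par) (c : ℝ × ℝ) : Monotone (fun t => (phi P t c).1) := by
  refine monotone_of_deriv_nonneg (fun t => (c3_deriv P c t).differentiableAt) fun t => ?_
  rw [(c3_deriv P c t).deriv]
  exact VV_nonneg P _

theorem phi_x_lip (P : Par) (c : ℝ × ℝ) {s t : ℝ} (h : s ≤ t) :
    (phi P t c).1 - (phi P s c).1 ≤ t - s := by
  have hd : ∀ t, HasDerivAt (fun t => t - (phi P t c).1) (1 - VV P (phi P t c)) t := fun t =>
    (hasDerivAt_id t).sub (c3_deriv P c t)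
  have hm : Monotone (fun t => t - (phi P t c).1) := by
    refine monotone_of_deriv_nonneg (fun t => (hd t).differentiableAt) fun t => ?_
    rw [(hd t).deriv]
    exact sub_nonneg.2 (VV_le_one P _)
  have := hm h
  simp only at this
  linarith

theorem phi_x_abs (P : Par) (c : ℝ × ℝ) (t : ℝ) : |(phi P t c).1 - c.1| ≤ |t| := by
  rcases le_total 0 t with h | h
  · have h1 := phi_x_lip P c h
    have h2 := phi_x_mono P c h
    simp only at h2
    rw [(phi_isFl P).zero] at h1 h2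
    rw [abs_of_nonneg h, abs_of_nonneg (by linarith)]
    linarith
  · have h1 := phi_x_lip P c h
    have h2 := phi_x_mono P c h
    simp only at h2
    rw [(phi_isFl P).zero] at h1 h2
    rw [abs_of_nonpos h, abs_of_nonpos (by linarith)]
    linarith

theorem Phi_sm (P : Par) : Sm (fun q : ℝ × E3 => Phi P q.1 q.2) := by
  have h1 : Sm (fun q : ℝ × E3 => phi P q.1 q.2.1) :=
    (phi_isFl P).smooth.comp (contDiff_fst.prodMk (contDiff_fst.comp contDiff_snd))
  have h2 : Sm (fun q : ℝ × E3 => q.2.2 + q.1 + P.be * ((phi P q.1 q.2.1).1 - q.2.1.1)) :=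
    ((contDiff_snd.comp contDiff_snd).add contDiff_fst).add
      (contDiff_const.mul ((contDiff_fst.comp h1).sub
        (contDiff_fst.comp (contDiff_fst.comp contDiff_snd))))
  exact h1.prodMk h2

theorem Phi_zero (P : Par) (c : E3) : Phi P 0 c = c := by
  rw [Phi, (phi_isFl P).zero]
  refine Prod.ext rfl ?_
  change c.2 + 0 + P.be * (c.1.1 - c.1.1) = c.2
  ring

theorem Phi_add (P : Par) (s t : ℝ) (c : E3) : Phi P (s + t) c = Phi P s (Phi P t c) := by
  simp only [Phi]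
  rw [(phi_isFl P).add]
  refine Prod.ext rfl ?_
  simp only
  ring

theorem Phi_shift (P : Par) (t : ℝ) (c : E3) (v : Z5) :
    Phi P t (c + (sh v).1) = Phi P t c + (sh v).1 := by
  have h1 : (c + (sh v).1).1 = (c.1.1 + (v.1.1.1 : ℝ), c.1.2 + (v.1.1.2 : ℝ)) := rfl
  have h2 : (c + (sh v).1).2 = c.2 + (v.1.2 : ℝ) := rfl
  rw [Phi, h1, h2, phi_shift]
  refine Prod.ext (Prod.ext rfl rfl) ?_
  change c.2 + (v.1.2 : ℝ) + t + P.be * ((phi P t c.1).1 + (v.1.1.1 : ℝ) - (c.1.1 + (v.1.1.1 : ℝ))) =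
    c.2 + t + P.be * ((phi P t c.1).1 - c.1.1) + (v.1.2 : ℝ)
  ring

theorem eta_Phi (P : Par) (t : ℝ) (c : E3) : eta P (Phi P t c) = eta P c + t := by
  simp only [eta, Phi]
  ring

end CI
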