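import Pool.Agent.LibCI87.C3
import Pool.Agent.LibCI87.Defs2

/-! ROW C4 (~120 lines).  The strips.  Use B4, B13, B15, C1, C2, C3 (stated).

In the strip `|x - i| ≤ 1/8`: `kap (x - i) = 1`, `deriv kap (x - i) = 0` (B4), so `KK = bb w`, `w = y - al (x - i)`, etc.
`strip_phi`: the curve `γ s = (x + s V, y + al s V)`, `V = VV P (x, y)`, stays in the strip for `s` between `0` and `t`, `w` is
constant along it, so `ZZ P (γ s) = (V, al V)`: `phi_uniq` (C3) on `[min 0 t, max 0 t]`.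
`strip_wl_*`: with `i = J n`: `w = wl P n c + q n`; `v0 (wl + q) = v0 wl + q = vloc wl + q` for `|wl| ≤ 3/4` (`v0_loc` with
`i = 0`), `nn P n = al J n - q n`; the derivative of `v0` at `wl + q` is the derivative of `vloc` at `wl` for `|wl| < 3/4`.
`small_speed`: `NN P c = v0 (wl + q) - al J n` and `v0 (tt n + q) = nn n + q = al J n`; `v0` is strictly increasing, so for
`η' > 0` the number `δ = min (v0 (s + η') - v0 s) (v0 s - v0 (s - η'))`, `s = tt n + q`, is positive and `|NN| < δ` forces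
`|wl - tt n| < η'`; the speed is `lam * deriv v0 (wl + q)`, continuous, `0` at `wl = tt n`.
`barrier`: if `(phi P t c).1 ≥ x₂`, take (intermediate values, `x(t)` monotone) times `0 ≤ s₁ < s₂ ≤ t` with
`x (s₁) = x₁`, `x (s₂) = x₂`; on `[s₁, s₂]` the point is in the strip and `NN` is unchanged, so the speed is `< 1/64` and
`x₂ - x₁ < (s₂ - s₁)/64 ≤ 1/32`. -/

set_option autoImplicit false

namespace CI

open Set Function Filter Topology

private theorem C4_34 {x : ℝ} {i : ℤ} (h : |x - i| ≤ 1 / 8) : |x - i| ≤ 3 / 4 := by linarith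

theorem strip_NN (P : Par) {x : ℝ} (y : ℝ) (i : ℤ) (h : |x - i| ≤ 1 / 8) :
    NN P (x, y) = v0 P (y - P.al * (x - i)) - P.al * i := by
  have h1 := KK_loc P i (C4_34 h) y
  rw [(kap_eq_one_iff _).2 h, one_mul] at h1
  unfold NN
  rw [h1, v0_eq]
  ring

theorem strip_VV (P : Par) {x : ℝ} (y : ℝ) (i : ℤ) (h : |x - i| ≤ 1 / 8) :
    VV P (x, y) = lam P * deriv (v0 P) (y - P.al * (x - i)) := by
  rw [VV_loc P i (C4_34 h) y, (kap_eq_one_iff _).2 h, one_mul, v0_deriv, db_eq]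

theorem strip_ZZ (P : Par) {x : ℝ} (y : ℝ) (i : ℤ) (h : |x - i| ≤ 1 / 8) :
    ZZ P (x, y) = (VV P (x, y), P.al * VV P (x, y)) := by
  refine Prod.ext rfl ?_
  show (ZZ P (x, y)).2 = P.al * VV P (x, y)
  rw [ZZ2_loc P i (C4_34 h) y, VV_loc P i (C4_34 h) y, (kap_eq_one_iff _).2 h, kap_deriv h]
  ring

theorem strip_phi (P : Par) {x y t : ℝ} (i : ℤ) (h : |x - i| ≤ 1 / 8)
    (h' : |x + t * VV P (x, y) - i| ≤ 1 / 8) :
    phi P t (x, y) = (x + t * VV P (x, y), y + P.al * (t * VV P (x, y))) := by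
  set V := VV P (x, y) with hV
  have hin : ∀ s ∈ Icc (min 0 t) (max 0 t), |x + s * V - i| ≤ 1 / 8 := by
    intro s hs
    have hV0 : 0 ≤ V := VV_nonneg P _
    rw [abs_le] at h h' ⊢
    rcases le_total 0 t with ht | ht
    · rw [min_eq_left ht, max_eq_right ht] at hs
      have e1 : 0 ≤ s * V := mul_nonneg hs.1 hV0
      have e2 : s * V ≤ t * V := mul_le_mul_of_nonneg_right hs.2 hV0
      constructor <;> linarith [h.1, h.2, h'.1, h'.2]
    · rw [min_eq_right ht, max_eq_left ht] at hs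
      have e1 : s * V ≤ 0 := mul_nonpos_of_nonpos_of_nonneg hs.2 hV0
      have e2 : t * V ≤ s * V := mul_le_mul_of_nonneg_right hs.1 hV0
      constructor <;> linarith [h.1, h.2, h'.1, h'.2]
  have hd : ∀ s ∈ Icc (min 0 t) (max 0 t),
      HasDerivAt (fun s : ℝ => ((x + s * V, y + P.al * (s * V)) : ℝ × ℝ))
        (ZZ P (x + s * V, y + P.al * (s * V))) s := by
    intro s hs
    have h1 : VV P (x + s * V, y + P.al * (s * V)) = V := by
      rw [strip_VV P _ i (hin s hs), hV, strip_VV P y i h]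
      congr 2
      ring
    rw [strip_ZZ P _ i (hin s hs), h1]
    have e1 : HasDerivAt (fun s : ℝ => x + s * V) V s := by
      simpa using ((hasDerivAt_id s).mul_const V).const_add x
    have e2 : HasDerivAt (fun s : ℝ => y + P.al * (s * V)) (P.al * V) s := by
      simpa using (((hasDerivAt_id s).mul_const V).const_mul P.al).const_add y
    exact e1.prodMk e2
  have h2 := phi_uniq P (min_le_left 0 t) (le_max_left 0 t) hd t
    ⟨min_le_right 0 t, le_max_right 0 t⟩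
  simp only [zero_mul, mul_zero, add_zero] at h2
  exact h2.symm

private theorem C4_wl (P : Par) (n : ℕ) (c : ℝ × ℝ) :
    c.2 - P.al * (c.1 - ((P.J n : ℤ) : ℝ)) = wl P n c + P.q n := by
  unfold wl
  push_cast
  ring

private theorem C4_strip {P : Par} {n : ℕ} {c : ℝ × ℝ} (h : |c.1 - P.J n| ≤ 1 / 8) :
    |c.1 - ((P.J n : ℤ) : ℝ)| ≤ 1 / 8 := by
  push_cast
  exact h

private theorem C4_NN (P : Par) (n : ℕ) {c : ℝ × ℝ} (h : |c.1 - P.J n| ≤ 1 / 8) :
    NN P c = v0 P (wl P n c + P.q n) - P.al * P.J n := by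
  have h1 := strip_NN P c.2 (P.J n : ℤ) (C4_strip h)
  rw [C4_wl] at h1
  push_cast at h1
  exact h1

private theorem C4_VV (P : Par) (n : ℕ) {c : ℝ × ℝ} (h : |c.1 - P.J n| ≤ 1 / 8) :
    VV P c = lam P * deriv (v0 P) (wl P n c + P.q n) := by
  have h1 := strip_VV P c.2 (P.J n : ℤ) (C4_strip h)
  rw [C4_wl] at h1
  exact h1

theorem strip_wl_NN (P : Par) (n : ℕ) {c : ℝ × ℝ} (h : |c.1 - P.J n| ≤ 1 / 8)
    (hw : |wl P n c| < 3 / 4) : NN P c = vloc P (wl P n c) - nn P n := by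
  have h2 := v0_loc P (w := wl P n c) 0 (by rw [Int.cast_zero, sub_zero]; exact hw.le)
  rw [Int.cast_zero, sub_zero, zero_add] at h2
  rw [C4_NN P n h, v0_add, h2]
  unfold nn
  ring

theorem strip_wl_VV (P : Par) (n : ℕ) {c : ℝ × ℝ} (h : |c.1 - P.J n| ≤ 1 / 8)
    (hw : |wl P n c| < 3 / 4) : VV P c = lam P * deriv (vloc P) (wl P n c) := by
  rw [C4_VV P n h]
  congr 1
  have h1 : v0 P =ᶠ[𝓝 (wl P n c + P.q n)] fun w => (P.q n : ℝ) + vloc P (w - P.q n) := by
    have h2 : ∀ᶠ w : ℝ in 𝓝 (wl P n c + P.q n), |w - (P.q n : ℝ)| < 3 / 4 := by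
      have h3 : ContinuousAt (fun w : ℝ => |w - P.q n|) (wl P n c + P.q n) := by fun_prop
      refine h3.eventually_lt continuousAt_const ?_
      rwa [add_sub_cancel_right]
    filter_upwards [h2] with w hw'
    exact v0_loc P (P.q n) hw'.le
  rw [h1.deriv_eq, deriv_const_add, deriv_comp_sub_const, add_sub_cancel_right]

theorem small_speed (P : Par) (n : ℕ) (η : ℝ) (hη : 0 < η) : ∃ δ : ℝ, 0 < δ ∧
    ∀ c : ℝ × ℝ, |c.1 - P.J n| ≤ 1 / 8 → |NN P c| < δ →
      |wl P n c - tt P n| < η ∧ VV P c < η := by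
  set s : ℝ := tt P n + P.q n with hs
  have hF : Continuous (deriv (v0 P)) := (v0_sm P).continuous_deriv (by simp)
  have hF0 : deriv (v0 P) s = 0 := (v0_deriv_zero_iff P s).2 ⟨n, P.q n, rfl⟩
  have h1 : ∀ᶠ w in 𝓝 s, lam P * deriv (v0 P) w < η := by
    have h2 : ContinuousAt (fun w => lam P * deriv (v0 P) w) s :=
      (continuous_const.mul hF).continuousAt
    refine h2.eventually_lt continuousAt_const ?_
    rw [hF0, mul_zero]
    exact hη
  obtain ⟨r, hr, hr'⟩ := Metric.eventually_nhds_iff.1 h1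
  set e := min r η with he
  have he0 : 0 < e := lt_min hr hη
  have hm := v0_strictMono P
  refine ⟨min (v0 P (s + e) - v0 P s) (v0 P s - v0 P (s - e)), lt_min ?_ ?_, ?_⟩
  · linarith [hm (show s < s + e by linarith)]
  · linarith [hm (show s - e < s by linarith)]
  intro c hc hN
  have hv : v0 P s = P.al * P.J n := by
    rw [hs, v0_tt]
    unfold nn
    ring
  rw [C4_NN P n hc, ← hv, abs_lt] at hN
  have e1 : v0 P (wl P n c + P.q n) < v0 P (s + e) := by
    linarith [hN.2, min_le_left (v0 P (s + e) - v0 P s) (v0 P s - v0 P (s - e))]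
  have e2 : v0 P (s - e) < v0 P (wl P n c + P.q n) := by
    linarith [hN.1, min_le_right (v0 P (s + e) - v0 P s) (v0 P s - v0 P (s - e))]
  have e3 := hm.lt_iff_lt.1 e1
  have e4 := hm.lt_iff_lt.1 e2
  have e5 : |wl P n c + P.q n - s| < e := by
    rw [abs_lt]
    constructor <;> linarith
  refine ⟨?_, ?_⟩
  · have e6 : wl P n c - tt P n = wl P n c + P.q n - s := by rw [hs]; ring
    rw [e6]
    exact e5.trans_le (min_le_right _ _)
  · rw [C4_VV P n hc]
    refine hr' ?_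
    rw [Real.dist_eq]
    exact e5.trans_le (min_le_left _ _)

theorem barrier (P : Par) (n : ℕ) {δ : ℝ}
    (hsp : ∀ c : ℝ × ℝ, |c.1 - P.J n| ≤ 1 / 8 → |NN P c| < δ → VV P c < 1 / 64)
    {c : ℝ × ℝ} (hN : |NN P c| < δ) {x₁ x₂ : ℝ} (h₁ : P.J n - 1 / 8 ≤ x₁) (h₂ : x₂ ≤ P.J n + 1 / 8)
    (h₁₂ : 1 / 32 ≤ x₂ - x₁) (hc : c.1 ≤ x₁) {t : ℝ} (ht0 : 0 ≤ t) (ht : t ≤ 2) :
    (phi P t c).1 < x₂ := by
  by_contra hcon
  rw [not_lt] at hcon
  set X : ℝ → ℝ := fun s => (phi P s c).1 with hX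
  have hXd : ∀ s, HasDerivAt X (VV P (phi P s c)) s := by
    intro s
    have h1 := (phi_isFl P).deriv s c
    exact ((ContinuousLinearMap.fst ℝ ℝ ℝ).hasFDerivAt.comp_hasDerivAt s h1)
  have hXc : Continuous X := continuous_iff_continuousAt.2 fun s => (hXd s).continuousAt
  have hXm : Monotone X := phi_x_mono P c
  have hX0 : X 0 = c.1 := by
    show (phi P 0 c).1 = c.1
    rw [(phi_isFl P).zero]
  have hlt : x₁ < x₂ := by linarith
  obtain ⟨s₁, hs₁, hXs₁⟩ : ∃ s ∈ Icc 0 t, X s = x₁ :=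
    intermediate_value_Icc ht0 hXc.continuousOn ⟨by rw [hX0]; exact hc, hlt.le.trans hcon⟩
  obtain ⟨s₂, hs₂, hXs₂⟩ : ∃ s ∈ Icc s₁ t, X s = x₂ :=
    intermediate_value_Icc hs₁.2 hXc.continuousOn ⟨by rw [hXs₁]; exact hlt.le, hcon⟩
  have hs12 : s₁ < s₂ := by
    rcases lt_or_eq_of_le hs₂.1 with h | h
    · exact h
    · exfalso
      rw [h] at hXs₁
      linarith
  obtain ⟨s, hs, hsl⟩ := exists_hasDerivAt_eq_slope X (fun s => VV P (phi P s c)) hs12
    hXc.continuousOn (fun s _ => hXd s)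
  have hin : |(phi P s c).1 - P.J n| ≤ 1 / 8 := by
    have e1 : x₁ ≤ X s := by rw [← hXs₁]; exact hXm hs.1.le
    have e2 : X s ≤ x₂ := by rw [← hXs₂]; exact hXm hs.2.le
    show |X s - P.J n| ≤ 1 / 8
    rw [abs_le]
    constructor <;> linarith
  have hv := hsp (phi P s c) hin (by rw [NN_phi]; exact hN)
  rw [hsl, hXs₁, hXs₂, div_lt_iff₀ (by linarith)] at hv
  have : s₂ - s₁ ≤ 2 := by linarith [hs₁.1, hs₂.2]
  linarith

end CI
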