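import Pool.Agent.LibCI87.C3
import Pool.Agent.LibCI87.C4
import Pool.Agent.LibCI87.Defs2
import Pool.Agent.LibCI87.B1
import Pool.Agent.LibCI87.B9
import Pool.Agent.LibCI87.B10

/-! ROW C5 (~130 lines).  Elementary facts on `DD`, `el`, `rb`, `rb'`, `us`.
Use B1, B9, B10, C1, C2, C3, C4 (stated).

`DD_eq`: `ff y.2 = 0`.  `DD_fix_iff`: if `DD y = (0, jL l)` then `y.1 + ff y.2 = 0`, so `y.2 + hh 0 = jL l`, `y.2 = jL l`,
`ff (jL l) = 0` (`jL l ≤ 1/32`), `y.1 = 0`.
`rb_cont`, `rb'_cont`, `xs_cont`: `phi_isFl.smooth`, `NN_sm`, `EE_sm`.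
`rb_Phi`: `eta (Phi t c) = eta c + t`, `(Phi t c).1 = phi t c.1`, `phi (a - eta c - t) (phi t c.1) = phi (a - eta c) c.1`.
`rb_zero_iff`: a sum of nonnegative terms; `NN_phi`; the `x`-coordinate of the section point is in `[A, B]` iff `c.1.1` is:
on `NN = 0` the speed is zero if `|x - J n| ≤ 1/8` (`VV_zero_iff`), so `phi` fixes the points with `x = A` or `x = B`
(`phi_stop`); if `x ∈ [A, B]` and `x (phi t c) < A` or `> B`, by the intermediate value theorem the orbit passes through a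
fixed point, so it is constant, contradiction; conversely apply this to the point `phi t c` and the time `-t`. -/

set_option autoImplicit false

namespace CI

open Set Function Filter Topology

theorem dL_pos (l : ℕ) : 0 < dL l := by
  unfold dL
  split_ifs <;> positivity

theorem dL_le (l : ℕ) : dL l ≤ 1 / 8 := by
  have h1 : ∀ n : ℕ, 3 ≤ n → (1 : ℝ) / 2 ^ n ≤ 1 / 8 := by
    intro n hn
    have h2 : (2 : ℝ) ^ 3 ≤ 2 ^ n := pow_le_pow_right₀ (by norm_num) hn
    have h3 : (8 : ℝ) ≤ 2 ^ n := by norm_num at h2; exact h2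
    exact one_div_le_one_div_of_le (by norm_num) h3
  have h2 : 3 ≤ lv l := by unfold lv; omega
  unfold dL
  split_ifs
  · exact h1 _ h2
  · exact h1 _ (by omega)

theorem jL_pos (l : ℕ) : 0 < jL l := by unfold jL; positivity

theorem jL_le (l : ℕ) : jL l ≤ 1 / 32 := by
  have h1 : ((1 : ℝ) / 2) ^ (l + 5) ≤ (1 / 2) ^ 5 :=
    pow_le_pow_of_le_one (by norm_num) (by norm_num) (by omega)
  have h2 : ((1 : ℝ) / 2) ^ 5 = 1 / 32 := by norm_num
  unfold jL
  rw [← h2]; exact h1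

theorem DD_sm : Sm DD := by
  have h1 : Sm (fun y : ℝ × ℝ => y.1 + ff y.2) := contDiff_fst.add (ff_sm.comp contDiff_snd)
  exact h1.prodMk (contDiff_snd.add (hh_sm.comp h1))

theorem DD_eq {y : ℝ × ℝ} (h : |y.2| ≤ 1 / 8) : DD y = (y.1, y.2 + hh y.1) := by
  unfold DD
  rw [ff_zero h, add_zero]

theorem DD_shift (y : ℝ × ℝ) (i j : ℤ) :
    DD (y.1 + i, y.2 + j) = ((DD y).1 + (i + j : ℤ), (DD y).2 + (i + 2 * j : ℤ)) := by
  unfold DD
  have h1 : y.1 + i + ff (y.2 + j) = y.1 + ff y.2 + ((i + j : ℤ) : ℝ) := by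
    rw [ff_add]; push_cast; ring
  simp only
  rw [h1, hh_add]
  ext
  · rfl
  · simp only
    push_cast; ring

theorem DD_fix_iff (l : ℕ) (y : ℝ × ℝ) : DD y = (0, jL l) ↔ y = (0, jL l) := by
  have hj : |jL l| ≤ 1 / 8 := by
    rw [abs_of_pos (jL_pos l)]
    have := jL_le l
    linarith
  constructor
  · intro h
    have h1 : y.1 + ff y.2 = 0 := congrArg Prod.fst h
    have h2 : y.2 + hh (y.1 + ff y.2) = jL l := congrArg Prod.snd h
    rw [h1, hh_zero, add_zero] at h2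
    rw [h2, ff_zero hj, add_zero] at h1
    exact Prod.ext h1 h2
  · rintro rfl
    rw [DD_eq (by exact hj)]
    simp only [hh_zero, add_zero]

theorem el_sm (l : ℕ) : Sm (el l) := by
  exact (e1_sm.comp contDiff_fst).add (e1_sm.comp (contDiff_snd.sub contDiff_const))

theorem el_nonneg (l : ℕ) (y : ℝ × ℝ) : 0 ≤ el l y := add_nonneg (e1_nonneg _) (e1_nonneg _)

theorem el_zero_iff (l : ℕ) (y : ℝ × ℝ) : el l y = 0 ↔ y = (0, jL l) := by
  unfold el
  rw [add_eq_zero_iff_of_nonneg (e1_nonneg _) (e1_nonneg _), e1_zero_iff, e1_zero_iff, sub_eq_zero]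
  constructor
  · rintro ⟨h1, h2⟩
    exact Prod.ext h1 h2
  · rintro rfl
    exact ⟨rfl, rfl⟩

theorem eta_sm (P : Par) : Sm (eta P) :=
  contDiff_snd.sub (contDiff_const.mul (contDiff_fst.comp contDiff_fst))

theorem us_sm (P : Par) (l : ℕ) : Sm (us P l) := by
  have h1 : Sm (fun z : E5 => eta P z.1 - aL l) :=
    ((eta_sm P).comp contDiff_fst).sub contDiff_const
  have h2 : us P l = fun z : E5 => (eta P z.1 - aL l) * (dL l)⁻¹ := by
    funext z; unfold us; rw [div_eq_mul_inv]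
  rw [h2]
  exact h1.mul contDiff_const

private theorem C5_phi_cont (P : Par) : Continuous (fun q : ℝ × (ℝ × ℝ) => phi P q.1 q.2) :=
  (phi_isFl P).smooth.continuous

private theorem C5_sec_cont (P : Par) (a : ℝ) :
    Continuous (fun z : E5 => phi P (a - eta P z.1) z.1.1) := by
  have h1 : Continuous (fun z : E5 => ((a - eta P z.1, z.1.1) : ℝ × (ℝ × ℝ))) :=
    (continuous_const.sub ((eta_sm P).continuous.comp continuous_fst)).prodMk
      (continuous_fst.comp continuous_fst)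
  exact (C5_phi_cont P).comp h1

private theorem C5_sec_cont' (P : Par) (a : ℝ) :
    Continuous (fun z : E5 => phi P (a - eta P z.1 + 1) z.1.1) := by
  have h1 : Continuous (fun z : E5 => ((a - eta P z.1 + 1, z.1.1) : ℝ × (ℝ × ℝ))) :=
    ((continuous_const.sub ((eta_sm P).continuous.comp continuous_fst)).add continuous_const).prodMk
      (continuous_fst.comp continuous_fst)
  exact (C5_phi_cont P).comp h1

theorem xs_cont (P : Par) (l : ℕ) : Continuous (xs P l) :=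
  continuous_fst.comp (C5_sec_cont P (aL l))

private theorem C5_rho_cont (P : Par) (l : ℕ) {f : E5 → ℝ × ℝ} {g : E5 → ℝ × ℝ}
    (hf : Continuous f) (hg : Continuous g) : Continuous (fun z => rho P l (f z) (g z)) := by
  unfold rho
  refine ((((NN_sm P).continuous.comp hf).pow 2).add ?_ |>.add ?_).add
    ((el_sm l).continuous.comp hg)
  · exact EE_sm.continuous.comp (continuous_const.sub (continuous_fst.comp hf))
  · exact EE_sm.continuous.comp ((continuous_fst.comp hf).sub continuous_const)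

theorem rb_cont (P : Par) (l : ℕ) : Continuous (rb P l) :=
  C5_rho_cont P l (C5_sec_cont P (aL l)) continuous_snd

theorem rb'_cont (P : Par) (l : ℕ) : Continuous (rb' P l) :=
  C5_rho_cont P l (C5_sec_cont' P (aL l)) (DD_sm.continuous.comp continuous_snd)

private theorem C5_rho_nonneg (P : Par) (l : ℕ) (c y : ℝ × ℝ) : 0 ≤ rho P l c y := by
  unfold rho
  have h1 := EE_nonneg (Ak P (kk l) - c.1)
  have h2 := EE_nonneg (c.1 - Bk P (kk l))
  have h3 := el_nonneg l y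
  have h4 := sq_nonneg (NN P c)
  linarith

theorem rb_nonneg (P : Par) (l : ℕ) (z : E5) : 0 ≤ rb P l z := C5_rho_nonneg _ _ _ _

theorem rb'_nonneg (P : Par) (l : ℕ) (z : E5) : 0 ≤ rb' P l z := C5_rho_nonneg _ _ _ _

theorem rb_Phi (P : Par) (l : ℕ) (t : ℝ) (c : E3) (y : ℝ × ℝ) :
    rb P l (Phi P t c, y) = rb P l (c, y) := by
  unfold rb
  simp only
  rw [eta_Phi]
  have h1 : (Phi P t c).1 = phi P t c.1 := rfl
  rw [h1, ← (phi_isFl P).add]
  congr 2
  ring

theorem rb'_Phi (P : Par) (l : ℕ) (t : ℝ) (c : E3) (y : ℝ × ℝ) :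
    rb' P l (Phi P t c, y) = rb' P l (c, y) := by
  unfold rb'
  simp only
  rw [eta_Phi]
  have h1 : (Phi P t c).1 = phi P t c.1 := rfl
  rw [h1, ← (phi_isFl P).add]
  congr 2
  ring

theorem us_Phi (P : Par) (l : ℕ) (t : ℝ) (c : E3) (y : ℝ × ℝ) :
    us P l (Phi P t c, y) = us P l (c, y) + t / dL l := by
  unfold us
  simp only
  rw [eta_Phi]
  ring

private theorem C5_stop (P : Par) (c : ℝ × ℝ) (h : NN P c = 0) (n : ℕ) (s t : ℝ)
    (hs : (phi P s c).1 = P.J n) : phi P t c = phi P s c := by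
  have h1 : VV P (phi P s c) = 0 := by
    rw [VV_zero_iff P _ (by rw [NN_phi]; exact h)]
    refine ⟨n, ?_⟩
    rw [hs, sub_self, abs_zero]
    norm_num
  have h2 := phi_stop P (t - s) _ h1
  rw [← (phi_isFl P).add, sub_add_cancel] at h2
  exact h2

private theorem C5_x_cont (P : Par) (c : ℝ × ℝ) : Continuous (fun t => (phi P t c).1) :=
  continuous_fst.comp ((C5_phi_cont P).comp (continuous_id.prodMk continuous_const))

private theorem C5_ge (P : Par) (c : ℝ × ℝ) (h : NN P c = 0) (n : ℕ) (t : ℝ)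
    (hc : (P.J n : ℝ) ≤ c.1) : (P.J n : ℝ) ≤ (phi P t c).1 := by
  by_contra hcon
  rw [not_le] at hcon
  have h0 : (P.J n : ℝ) ≤ (phi P 0 c).1 := by rw [(phi_isFl P).zero]; exact hc
  obtain ⟨s, hs⟩ := mem_range_of_exists_le_of_exists_ge (C5_x_cont P c) ⟨t, hcon.le⟩ ⟨0, h0⟩
  have hs' : (phi P s c).1 = P.J n := hs
  have h1 := C5_stop P c h n s t hs'
  rw [h1, hs'] at hcon
  exact lt_irrefl _ hcon

private theorem C5_le (P : Par) (c : ℝ × ℝ) (h : NN P c = 0) (n : ℕ) (t : ℝ)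
    (hc : c.1 ≤ P.J n) : (phi P t c).1 ≤ P.J n := by
  by_contra hcon
  rw [not_le] at hcon
  have h0 : (phi P 0 c).1 ≤ P.J n := by rw [(phi_isFl P).zero]; exact hc
  obtain ⟨s, hs⟩ := mem_range_of_exists_le_of_exists_ge (C5_x_cont P c) ⟨0, h0⟩ ⟨t, hcon.le⟩
  have hs' : (phi P s c).1 = P.J n := hs
  have h1 := C5_stop P c h n s t hs'
  rw [h1, hs'] at hcon
  exact lt_irrefl _ hcon

private theorem C5_mem_iff (P : Par) (c : ℝ × ℝ) (h : NN P c = 0) (k : ℕ) (t : ℝ) :
    (phi P t c).1 ∈ Icc (Ak P k) (Bk P k) ↔ c.1 ∈ Icc (Ak P k) (Bk P k) := by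
  have key : ∀ (c : ℝ × ℝ) (t : ℝ), NN P c = 0 → c.1 ∈ Icc (Ak P k) (Bk P k) →
      (phi P t c).1 ∈ Icc (Ak P k) (Bk P k) := fun c t h hc =>
    ⟨C5_ge P c h _ t hc.1, C5_le P c h _ t hc.2⟩
  constructor
  · intro h1
    have h2 := key (phi P t c) (-t) (by rw [NN_phi]; exact h) h1
    rwa [← (phi_isFl P).add, neg_add_cancel, (phi_isFl P).zero] at h2
  · exact key c t h

private theorem C5_rho_zero (P : Par) (l : ℕ) (c y : ℝ × ℝ) (t : ℝ) :
    rho P l (phi P t c) y = 0 ↔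
      NN P c = 0 ∧ c.1 ∈ Icc (Ak P (kk l)) (Bk P (kk l)) ∧ y = (0, jL l) := by
  have hEE : ∀ s, EE s = 0 ↔ s ≤ 0 := by
    intro s
    constructor
    · intro h1
      by_contra hcon
      exact (EE_pos (not_le.1 hcon)).ne' h1
    · exact EE_zero
  unfold rho
  constructor
  · intro h
    have h1 := EE_nonneg (Ak P (kk l) - (phi P t c).1)
    have h2 := EE_nonneg ((phi P t c).1 - Bk P (kk l))
    have h3 := el_nonneg l y
    have h4 := sq_nonneg (NN P (phi P t c))
    have h5 : NN P (phi P t c) ^ 2 = 0 := by linarith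
    have h6 : EE (Ak P (kk l) - (phi P t c).1) = 0 := by linarith
    have h7 : EE ((phi P t c).1 - Bk P (kk l)) = 0 := by linarith
    have h8 : el l y = 0 := by linarith
    have h9 : NN P c = 0 := by
      rw [← NN_phi P t c]
      exact pow_eq_zero_iff (by norm_num) |>.1 h5
    refine ⟨h9, (C5_mem_iff P c h9 (kk l) t).1 ⟨?_, ?_⟩, (el_zero_iff l y).1 h8⟩
    · have := (hEE _).1 h6; linarith
    · have := (hEE _).1 h7; linarith
  · rintro ⟨h1, h2, h3⟩
    have h4 := (C5_mem_iff P c h1 (kk l) t).2 h2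
    rw [NN_phi, h1, (hEE _).2 (by linarith [h4.1]), (hEE _).2 (by linarith [h4.2]),
      (el_zero_iff l y).2 h3]
    norm_num

theorem rb_zero_iff (P : Par) (l : ℕ) (z : E5) : rb P l z = 0 ↔
    NN P z.1.1 = 0 ∧ z.1.1.1 ∈ Icc (Ak P (kk l)) (Bk P (kk l)) ∧ z.2 = (0, jL l) :=
  C5_rho_zero P l _ _ _

theorem rb'_zero_iff (P : Par) (l : ℕ) (z : E5) : rb' P l z = 0 ↔
    NN P z.1.1 = 0 ∧ z.1.1.1 ∈ Icc (Ak P (kk l)) (Bk P (kk l)) ∧ z.2 = (0, jL l) := by
  unfold rb'
  rw [C5_rho_zero P l _ _ _, DD_fix_iff]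

end CI
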