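import Pool.Agent.LibCI87.C5

/-! ROW C6 (~130 lines).  Formulas for `rb`, `rb'` in the three regions.
Use B1, B13, C3, C4, C5 (stated).  Write `A = Ak P (kk l) = J (2k+1)`, `B = Bk P (kk l) = J (2k+2)`, `a = aL l`, `k = kk l`;
`B ≥ A + 2`.

`regA_form`: `|tt| < 1/4` (`tt_mem`), so for `δ ≤ 1/4` `|wl| < 3/4` and `V = VV = lam * deriv vloc (wl)` (`strip_wl_VV`) is
`< 1/64` if `δ` is small (continuity of `deriv vloc` at `tt`, value `0`: `vloc_deriv_zero_iff`).  The points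
`x + (a - eta) V`, `x + (a - eta + 1) V` are in the strip `|· - A| ≤ 1/8` (`3/32 + (3/2)/64 < 1/8`), so by `strip_phi` they are
the `x`-coordinates of `phi (a - eta) c`, `phi (a - eta + 1) c`; `NN_phi`; the term `EE (x - B)` vanishes.
`regB_form`: the same with `B`: the term `EE (A - x)` vanishes.
`regM_form`: `NN_phi`; `EE (A - xs) = 0`, `EE (xs - B) = 0` as `A < xs < B`; for `rb'`: `xs ≤ xs'` (`phi_x_mono`), so
`EE (A - xs') = 0`, and `xs' < B` by `barrier` with `n = 2k+2`, `x₁ = B - 1/32`, `x₂ = B`, `t = 1`, applied at the section point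
(`small_speed` with `η = 1/64` gives `δ`). -/

set_option autoImplicit false

namespace CI

open Set Function Filter Topology

theorem regA_mono (P : Par) (l : ℕ) {δ δ' : ℝ} (h : δ ≤ δ') : regA P l δ ⊆ regA P l δ' :=
  fun _ hz => ⟨hz.1, hz.2.1, hz.2.2.1.trans_le h, hz.2.2.2.1.trans_le h,
    hz.2.2.2.2.1.trans_le h, hz.2.2.2.2.2.1.trans_le h, hz.2.2.2.2.2.2⟩
theorem regB_mono (P : Par) (l : ℕ) {δ δ' : ℝ} (h : δ ≤ δ') : regB P l δ ⊆ regB P l δ' :=
  fun _ hz => ⟨hz.1, hz.2.1, hz.2.2.1.trans_le h, hz.2.2.2.1.trans_le h,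
    hz.2.2.2.2.1.trans_le h, hz.2.2.2.2.2.1.trans_le h, hz.2.2.2.2.2.2⟩
theorem regM_mono (P : Par) (l : ℕ) {δ δ' : ℝ} (h : δ ≤ δ') : regM P l δ ⊆ regM P l δ' :=
  fun _ hz => ⟨hz.1, hz.2.1, hz.2.2.1, hz.2.2.2.1.trans_le h,
    hz.2.2.2.2.1.trans_le h, hz.2.2.2.2.2.1.trans_le h, hz.2.2.2.2.2.2⟩

private theorem C6_wl (P : Par) (n : ℕ) : Continuous (fun z : E5 => wl P n z.1.1) := by
  unfold wl
  fun_prop

private theorem C6_eta (P : Par) : Continuous (fun z : E5 => eta P z.1) :=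
  (eta_sm P).continuous.comp continuous_fst

private theorem C6_VV (P : Par) : Continuous (fun z : E5 => VV P z.1.1) :=
  (VV_cont P).comp (continuous_fst.comp continuous_fst)

private theorem C6_NN (P : Par) : Continuous (fun z : E5 => NN P z.1.1) :=
  (NN_sm P).continuous.comp (continuous_fst.comp continuous_fst)

theorem regA_open (P : Par) (l : ℕ) (δ : ℝ) : IsOpen (regA P l δ) := by
  have h1 := C6_eta P
  have h2 := C6_VV P
  have h3 := C6_wl P (2 * kk l + 1)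
  have h4 := rb_cont P l
  unfold regA
  refine (isOpen_lt (by fun_prop) (by fun_prop)).and ((isOpen_lt (by fun_prop) (by fun_prop)).and
    ((isOpen_lt (by fun_prop) (by fun_prop)).and ((isOpen_lt (by fun_prop) (by fun_prop)).and
    ((isOpen_lt (by fun_prop) (by fun_prop)).and ((isOpen_lt (by fun_prop) (by fun_prop)).and
    (isOpen_lt (by fun_prop) (by fun_prop)))))))
theorem regB_open (P : Par) (l : ℕ) (δ : ℝ) : IsOpen (regB P l δ) := by
  have h1 := C6_eta P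
  have h2 := C6_VV P
  have h3 := C6_wl P (2 * kk l + 2)
  have h4 := rb_cont P l
  unfold regB
  refine (isOpen_lt (by fun_prop) (by fun_prop)).and ((isOpen_lt (by fun_prop) (by fun_prop)).and
    ((isOpen_lt (by fun_prop) (by fun_prop)).and ((isOpen_lt (by fun_prop) (by fun_prop)).and
    ((isOpen_lt (by fun_prop) (by fun_prop)).and ((isOpen_lt (by fun_prop) (by fun_prop)).and
    (isOpen_lt (by fun_prop) (by fun_prop)))))))
theorem regM_open (P : Par) (l : ℕ) (δ : ℝ) : IsOpen (regM P l δ) := by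
  have h1 := C6_eta P
  have h2 := C6_NN P
  have h3 := xs_cont P l
  have h4 := rb_cont P l
  unfold regM
  refine (isOpen_lt (by fun_prop) (by fun_prop)).and ((isOpen_lt (by fun_prop) (by fun_prop)).and
    ((isOpen_lt (by fun_prop) (by fun_prop)).and ((isOpen_lt (by fun_prop) (by fun_prop)).and
    ((isOpen_lt (by fun_prop) (by fun_prop)).and ((isOpen_lt (by fun_prop) (by fun_prop)).and
    (isOpen_lt (by fun_prop) (by fun_prop)))))))

/-- `B ≥ A + 2` -/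
private theorem C6_AB (P : Par) (k : ℕ) : Ak P k + 2 ≤ Bk P k := by
  have h := P.J_step (2 * k + 1)
  have h1 : P.J (2 * k + 1) + 2 ≤ P.J (2 * k + 2) := by
    have : 2 * k + 1 + 1 = 2 * k + 2 := rfl
    rw [this] at h
    omega
  unfold Ak Bk
  exact_mod_cast h1

private theorem C6_small (P : Par) (n : ℕ) : ∃ δ₀ : ℝ, 0 < δ₀ ∧ δ₀ ≤ 1 / 16 ∧ ∀ w : ℝ,
    |w - tt P n| < δ₀ → |w| < 3 / 4 ∧ lam P * deriv (vloc P) w < 1 / 64 := by
  have hF : Continuous (deriv (vloc P)) := (vloc_sm P).continuous_deriv (by simp)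
  have hF0 : deriv (vloc P) (tt P n) = 0 := (vloc_deriv_zero_iff P _).2 ⟨n, rfl⟩
  have h1 : ∀ᶠ w in 𝓝 (tt P n), lam P * deriv (vloc P) w < 1 / 64 := by
    have h2 : ContinuousAt (fun w => lam P * deriv (vloc P) w) (tt P n) :=
      (continuous_const.mul hF).continuousAt
    refine h2.eventually_lt continuousAt_const ?_
    rw [hF0, mul_zero]
    norm_num
  obtain ⟨r, hr, hr'⟩ := Metric.eventually_nhds_iff.1 h1
  refine ⟨min r (1 / 16), lt_min hr (by norm_num), min_le_right _ _, fun w hw => ⟨?_, ?_⟩⟩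
  · have h2 := tt_mem P n
    have h3 : |w - tt P n| < 1 / 16 := hw.trans_le (min_le_right _ _)
    rw [abs_lt] at h3 ⊢
    constructor <;> linarith [h2.1, h2.2, h3.1, h3.2]
  · refine hr' ?_
    rw [Real.dist_eq]
    exact hw.trans_le (min_le_left _ _)

/-- a point of the strip number `n` with small speed, moved by a time `t`, `|t| ≤ 3/2` -/
private theorem C6_move (P : Par) (n : ℕ) (c : ℝ × ℝ) (t : ℝ) (h : |c.1 - P.J n| < 3 / 32)
    (hV : VV P c < 1 / 64) (ht : |t| ≤ 3 / 2) :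
    |c.1 + t * VV P c - P.J n| ≤ 1 / 8 ∧ (phi P t c).1 = c.1 + t * VV P c := by
  have hV0 := VV_nonneg P c
  have h1 : |t * VV P c| ≤ 3 / 128 := by
    rw [abs_mul, abs_of_nonneg hV0]
    calc |t| * VV P c ≤ 3 / 2 * (1 / 64) := mul_le_mul ht hV.le hV0 (by norm_num)
      _ = 3 / 128 := by norm_num
  have h2 : |c.1 + t * VV P c - P.J n| ≤ 1 / 8 := by
    rw [abs_le] at h1 ⊢
    rw [abs_lt] at h
    constructor <;> linarith [h.1, h.2, h1.1, h1.2]
  refine ⟨h2, ?_⟩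
  have h3 := strip_phi P (x := c.1) (y := c.2) (t := t) (P.J n : ℤ)
    (by push_cast; linarith) (by push_cast; exact h2)
  exact congrArg Prod.fst h3

theorem regA_form (P : Par) (l : ℕ) : ∃ δ₀ : ℝ, 0 < δ₀ ∧ δ₀ ≤ 1 / 16 ∧ ∀ z ∈ regA P l δ₀,
    VV P z.1.1 < 1 / 64 ∧
    NN P z.1.1 = vloc P (wl P (2 * kk l + 1) z.1.1) - nn P (2 * kk l + 1) ∧
    VV P z.1.1 = lam P * deriv (vloc P) (wl P (2 * kk l + 1) z.1.1) ∧
    rb P l z = NN P z.1.1 ^ 2 +
      EE (Ak P (kk l) - z.1.1.1 - (aL l - eta P z.1) * VV P z.1.1) + el l z.2 ∧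
    rb' P l z = NN P z.1.1 ^ 2 +
      EE (Ak P (kk l) - z.1.1.1 - (aL l - eta P z.1) * VV P z.1.1 - VV P z.1.1) +
      el l (DD z.2) := by
  obtain ⟨δ₀, hδ0, hδ1, hδ⟩ := C6_small P (2 * kk l + 1)
  refine ⟨δ₀, hδ0, hδ1, fun z hz => ?_⟩
  obtain ⟨z1, z2, z3, -, -, -, -⟩ := hz
  obtain ⟨hw, hs⟩ := hδ _ z3
  have hst : |z.1.1.1 - P.J (2 * kk l + 1)| ≤ 1 / 8 := by
    have : |z.1.1.1 - P.J (2 * kk l + 1)| < 3 / 32 := z2
    linarith
  have eV := strip_wl_VV P (2 * kk l + 1) hst hw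
  have eN := strip_wl_NN P (2 * kk l + 1) hst hw
  have hV : VV P z.1.1 < 1 / 64 := by rw [eV]; exact hs
  have hAB := C6_AB P (kk l)
  have ht1 : |aL l - eta P z.1| ≤ 3 / 2 := by
    rw [abs_sub_comm]; linarith
  have ht2 : |aL l - eta P z.1 + 1| ≤ 3 / 2 := by
    rw [abs_lt] at z1
    rw [abs_le]
    constructor <;> linarith [z1.1, z1.2]
  obtain ⟨a1, a2⟩ := C6_move P (2 * kk l + 1) z.1.1 _ z2 hV ht1
  obtain ⟨b1, b2⟩ := C6_move P (2 * kk l + 1) z.1.1 _ z2 hV ht2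
  have hA : Ak P (kk l) = P.J (2 * kk l + 1) := rfl
  refine ⟨hV, eN, eV, ?_, ?_⟩
  · unfold rb rho
    rw [NN_phi, a2, EE_zero (t := z.1.1.1 + (aL l - eta P z.1) * VV P z.1.1 - Bk P (kk l)), add_zero]
    · congr 3
      ring
    · rw [abs_le] at a1
      linarith [a1.2]
  · unfold rb' rho
    rw [NN_phi, b2, EE_zero (t := z.1.1.1 + (aL l - eta P z.1 + 1) * VV P z.1.1 - Bk P (kk l)),
      add_zero]
    · congr 3
      ring
    · rw [abs_le] at b1
      linarith [b1.2]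

theorem regB_form (P : Par) (l : ℕ) : ∃ δ₀ : ℝ, 0 < δ₀ ∧ δ₀ ≤ 1 / 16 ∧ ∀ z ∈ regB P l δ₀,
    VV P z.1.1 < 1 / 64 ∧
    NN P z.1.1 = vloc P (wl P (2 * kk l + 2) z.1.1) - nn P (2 * kk l + 2) ∧
    VV P z.1.1 = lam P * deriv (vloc P) (wl P (2 * kk l + 2) z.1.1) ∧
    rb P l z = NN P z.1.1 ^ 2 +
      EE (z.1.1.1 + (aL l - eta P z.1 + 1) * VV P z.1.1 - Bk P (kk l) - VV P z.1.1) +
      el l z.2 ∧
    rb' P l z = NN P z.1.1 ^ 2 +
      EE (z.1.1.1 + (aL l - eta P z.1 + 1) * VV P z.1.1 - Bk P (kk l)) + el l (DD z.2) := by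
  obtain ⟨δ₀, hδ0, hδ1, hδ⟩ := C6_small P (2 * kk l + 2)
  refine ⟨δ₀, hδ0, hδ1, fun z hz => ?_⟩
  obtain ⟨z1, z2, z3, -, -, -, -⟩ := hz
  obtain ⟨hw, hs⟩ := hδ _ z3
  have hst : |z.1.1.1 - P.J (2 * kk l + 2)| ≤ 1 / 8 := by
    have : |z.1.1.1 - P.J (2 * kk l + 2)| < 3 / 32 := z2
    linarith
  have eV := strip_wl_VV P (2 * kk l + 2) hst hw
  have eN := strip_wl_NN P (2 * kk l + 2) hst hw
  have hV : VV P z.1.1 < 1 / 64 := by rw [eV]; exact hs
  have hAB := C6_AB P (kk l)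
  have ht1 : |aL l - eta P z.1| ≤ 3 / 2 := by
    rw [abs_sub_comm]; linarith
  have ht2 : |aL l - eta P z.1 + 1| ≤ 3 / 2 := by
    rw [abs_lt] at z1
    rw [abs_le]
    constructor <;> linarith [z1.1, z1.2]
  obtain ⟨a1, a2⟩ := C6_move P (2 * kk l + 2) z.1.1 _ z2 hV ht1
  obtain ⟨b1, b2⟩ := C6_move P (2 * kk l + 2) z.1.1 _ z2 hV ht2
  have hB : Bk P (kk l) = P.J (2 * kk l + 2) := rfl
  refine ⟨hV, eN, eV, ?_, ?_⟩
  · unfold rb rho
    rw [NN_phi, a2, EE_zero (t := Ak P (kk l) - (z.1.1.1 + (aL l - eta P z.1) * VV P z.1.1)),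
      add_zero]
    · congr 3
      ring
    · rw [abs_le] at a1
      linarith [a1.1]
  · unfold rb' rho
    rw [NN_phi, b2, EE_zero (t := Ak P (kk l) - (z.1.1.1 + (aL l - eta P z.1 + 1) * VV P z.1.1)),
      add_zero]
    rw [abs_le] at b1
    linarith [b1.1]

theorem regM_form (P : Par) (l : ℕ) : ∃ δ₀ : ℝ, 0 < δ₀ ∧ δ₀ ≤ 1 / 16 ∧ ∀ z ∈ regM P l δ₀,
    rb P l z = NN P z.1.1 ^ 2 + el l z.2 ∧ rb' P l z = NN P z.1.1 ^ 2 + el l (DD z.2) := by
  obtain ⟨δ', hδ0, hδ⟩ := small_speed P (2 * kk l + 2) (1 / 64) (by norm_num)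
  refine ⟨min δ' (1 / 16), lt_min hδ0 (by norm_num), min_le_right _ _, fun z hz => ?_⟩
  obtain ⟨-, z2, z3, z4, -, -, -⟩ := hz
  have hN : |NN P (phi P (aL l - eta P z.1) z.1.1)| < δ' := by
    rw [NN_phi]
    exact z4.trans_le (min_le_left _ _)
  have hB : Bk P (kk l) = P.J (2 * kk l + 2) := rfl
  have e1 : (phi P (aL l - eta P z.1 + 1) z.1.1).1 < Bk P (kk l) := by
    rw [add_comm (aL l - eta P z.1) 1, (phi_isFl P).add]
    refine barrier P (2 * kk l + 2) (δ := δ') (fun c hc hc' => (hδ c hc hc').2) hN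
      (x₁ := Bk P (kk l) - 1 / 32) (x₂ := Bk P (kk l)) ?_ ?_ ?_ ?_ zero_le_one (by norm_num)
    · rw [hB]; linarith
    · rw [hB]; linarith
    · linarith
    · exact z3.le
  have e2 : xs P l z ≤ (phi P (aL l - eta P z.1 + 1) z.1.1).1 :=
    phi_x_mono P z.1.1 (by linarith : aL l - eta P z.1 ≤ aL l - eta P z.1 + 1)
  have e3 : xs P l z = (phi P (aL l - eta P z.1) z.1.1).1 := rfl
  constructor
  · unfold rb rho
    rw [NN_phi, ← e3, EE_zero (t := Ak P (kk l) - xs P l z) (by linarith),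
      EE_zero (t := xs P l z - Bk P (kk l)) (by linarith), add_zero, add_zero]
  · unfold rb' rho
    rw [NN_phi, EE_zero (t := Ak P (kk l) - (phi P (aL l - eta P z.1 + 1) z.1.1).1) (by linarith),
      EE_zero (t := (phi P (aL l - eta P z.1 + 1) z.1.1).1 - Bk P (kk l)) (by linarith),
      add_zero, add_zero]

end CI
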