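import Pool.Agent.LibCI87.C5

/-! ROW C7 (STRONG, ~130 lines).  The three regions cover.  Use B1, C3, C4, C5 (stated).

Write `A = Ak = J (2k+1)`, `B = Bk = J (2k+2)`, `a = aL l`, `k = kk l`; `c_s = phi (a - eta) c` the section point,
`x_s = xs P l z`, `x_s' = (phi 1 c_s).1 = xs' P l z`.  W.l.o.g. `δ ≤ 1/64`.  By `small_speed` (for `2k+1` and `2k+2`) let `δ₁ > 0`
be such that `|NN| < δ₁` in the strips of `A`, `B` forces `|wl - tt| < δ/2` and `VV < δ/2`; `δ₁ ≤ δ/4`.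
Let `ε₀` be such that `NN^2 < ε₀ → |NN| < δ₁`, `EE t < ε₀ → t < δ₁`, `e1 t < ε₀ → |t| < δ₁`.
Fibre: if `rb < ε₀` then `|y₁|, |y₂ - j| < δ₁`.  If `rb' < ε₀` then `|(DD y).1| < δ₁`, `|(DD y).2 - j| < δ₁`;
`y₂ = (DD y).2 - hh ((DD y).1)` (definition of `DD`), `|hh t| ≤ |t|`, so `|y₂ - j| < 2 δ₁ ≤ 1/32`, so `|y₂| ≤ 1/8`,
`ff y₂ = 0`, `y₁ = (DD y).1`.
`x`: if `rb < ε₀`: `A - δ₁ < x_s < B + δ₁`.  If `rb' < ε₀`: `A - δ₁ < x_s' < B + δ₁`, `x_s ≤ x_s'`.
Case (i) `A + 1/32 < x_s < B - 1/32`: `z ∈ regM`.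
Case (ii) `x_s ≤ A + 1/32`.  Claim `A - x_s < δ` and `x_s > A - 1/8`: clear if `rb < ε₀`; if `rb' < ε₀`: if `x_s < A - 1/8` then
`barrier` at `c_s`, `x₁ = A - 1/8`, `x₂ = A - 1/16`, `t = 1` gives `x_s' < A - 1/16`, contradiction; so `c_s` is in the
strip; if `x_s' ≤ A + 1/8`, then by `strip_phi` `x_s' = x_s + V`, `V < δ/2` [in general: `x_s + V` is within the strip,
since `x_s ≤ A + 1/32` and `V < δ/2`, so `strip_phi` applies], `x_s > A - δ₁ - δ/2 > A - δ`.
By `strip_phi` at `c_s` with time `eta - a` (`|eta - a| ≤ 1/4`): `c = phi (eta - a) c_s` has `x = x_s + (eta - a) V`, in the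
strip, `wl` and `VV` unchanged (`strip_wl`, `strip_VV`: `y - al (x - i)` is constant), so `|x - A| < 3/32`,
`|wl - tt| < δ` (`small_speed`, `NN_phi`), `A - x - (a - eta) V = A - x_s < δ`: `z ∈ regA`.
Case (iii) `x_s ≥ B - 1/32`: `x_s < B + δ₁` in both cases (`x_s ≤ x_s'`); `c_s` in the strip of `B`; as before `x = x_s + (eta - a) V`,
`x + (a - eta + 1) V - B = x_s + V - B < δ₁ + δ/2 < δ`: `z ∈ regB`. -/

set_option autoImplicit false

namespace CI

open Set Function Filter Topology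

theorem c7_strip (P : Par) (n : ℕ) (c : ℝ × ℝ) (T : ℝ) (hT : |T| ≤ 1 / 4)
    (hs : |(phi P T c).1 - P.J n| ≤ 1 / 32) (hV : VV P (phi P T c) < 1 / 64) :
    c.1 = (phi P T c).1 - T * VV P (phi P T c) ∧ VV P (phi P T c) = VV P c := by
  have hV0 := VV_nonneg P (phi P T c)
  set p := phi P T c with hp
  have hfl := phi_isFl P
  have hc : phi P (-T) p = c := by
    rw [hp, ← hfl.add, neg_add_cancel, hfl.zero]
  have hTV : |T * VV P p| ≤ 1 / 4 * (1 / 64) := by
    rw [abs_mul, abs_of_nonneg hV0]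
    exact mul_le_mul hT hV.le hV0 (by norm_num)
  have h1 : |p.1 - (((P.J n : ℕ) : ℤ) : ℝ)| ≤ 1 / 8 := by
    rw [Int.cast_natCast]; linarith
  have h2 : |p.1 + -T * VV P (p.1, p.2) - (((P.J n : ℕ) : ℤ) : ℝ)| ≤ 1 / 8 := by
    rw [Int.cast_natCast]
    change |p.1 + -T * VV P p - P.J n| ≤ 1 / 8
    rw [abs_le] at hs hTV ⊢
    constructor <;> linarith [hs.1, hs.2, hTV.1, hTV.2]
  have h3 : c = (p.1 + -T * VV P p, p.2 + P.al * (-T * VV P p)) := by
    have := strip_phi P (((P.J n : ℕ) : ℤ)) h1 h2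
    change phi P (-T) p = (p.1 + -T * VV P p, p.2 + P.al * (-T * VV P p)) at this
    rw [← this, hc]
  have h4 : c.1 = p.1 + -T * VV P p := congrArg Prod.fst h3
  have h5 : c.2 = p.2 + P.al * (-T * VV P p) := congrArg Prod.snd h3
  refine ⟨by rw [h4]; ring, ?_⟩
  have h6 := strip_VV P p.2 ((P.J n : ℕ) : ℤ) h1
  have h7 := strip_VV P (x := p.1 + -T * VV P p) (p.2 + P.al * (-T * VV P p))
    ((P.J n : ℕ) : ℤ) h2
  rw [← h3] at h7
  change VV P p = _ at h6
  rw [h6, h7]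
  congr 2
  ring

theorem c7_small (P : Par) (l : ℕ) (δ : ℝ) (hδ : 0 < δ) (hδ2 : δ ≤ 1 / 64) :
    ∃ ε₀ : ℝ, 0 < ε₀ ∧ ∀ z : E5,
    |eta P z.1 - aL l| ≤ 1 / 4 → (rb P l z < ε₀ ∨ rb' P l z < ε₀) → 0 < rb P l z →
      z ∈ regA P l δ ∨ z ∈ regM P l δ ∨ z ∈ regB P l δ := by
  obtain ⟨dA, hdA, hA⟩ := small_speed P (2 * kk l + 1) (δ / 2) (by linarith)
  obtain ⟨dB, hdB, hB⟩ := small_speed P (2 * kk l + 2) (δ / 2) (by linarith)
  obtain ⟨δ₁, h1pos, h1A, h1B, h1δ⟩ : ∃ δ₁ : ℝ, 0 < δ₁ ∧ δ₁ ≤ dA ∧ δ₁ ≤ dB ∧ δ₁ ≤ δ / 4 :=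
    ⟨min (min dA dB) (δ / 4), lt_min (lt_min hdA hdB) (by linarith),
      (min_le_left _ _).trans (min_le_left _ _), (min_le_left _ _).trans (min_le_right _ _),
      min_le_right _ _⟩
  obtain ⟨εe, hεe, he⟩ := e1_small δ₁ h1pos
  obtain ⟨ε₀, hε, hε1, hε2, hε3⟩ : ∃ ε₀ : ℝ, 0 < ε₀ ∧ ε₀ ≤ δ₁ ^ 2 ∧ ε₀ ≤ EE δ₁ ∧ ε₀ ≤ εe :=
    ⟨min (min (δ₁ ^ 2) (EE δ₁)) εe, lt_min (lt_min (by positivity) (EE_pos h1pos)) hεe,
      (min_le_left _ _).trans (min_le_left _ _), (min_le_left _ _).trans (min_le_right _ _),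
      min_le_right _ _⟩
  have hEE : ∀ t, EE t < ε₀ → t < δ₁ := by
    intro t ht
    by_contra hc
    exact absurd (EE_mono (not_lt.1 hc)) (not_le.2 (ht.trans_le hε2))
  have hsq : ∀ t : ℝ, t ^ 2 < ε₀ → |t| < δ₁ := fun t ht =>
    abs_lt_of_sq_lt_sq (ht.trans_le hε1) h1pos.le
  refine ⟨ε₀, hε, ?_⟩
  intro z heta hor hrb
  have hfl := phi_isFl P
  set T := aL l - eta P z.1 with hTdef
  have hT : |T| ≤ 1 / 4 := by rw [hTdef, abs_sub_comm]; exact heta
  have heta2 : |eta P z.1 - aL l| < 1 / 2 := by linarith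
  set c := z.1.1 with hcdef
  set p := phi P T c with hpdef
  have hNp : NN P p = NN P c := NN_phi P T c
  have hp' : phi P (T + 1) c = phi P 1 p := by rw [add_comm, hfl.add]
  have hxx : p.1 ≤ (phi P 1 p).1 := by
    rw [← hp']
    exact phi_x_mono P c (show T ≤ T + 1 by linarith)
  have hrbe : rb P l z = NN P c ^ 2 + EE (Ak P (kk l) - p.1) + EE (p.1 - Bk P (kk l)) +
      (e1 z.2.1 + e1 (z.2.2 - jL l)) := by
    rw [← hNp]; rfl
  have hrbe' : rb' P l z = NN P c ^ 2 + EE (Ak P (kk l) - (phi P 1 p).1) +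
      EE ((phi P 1 p).1 - Bk P (kk l)) + (e1 (DD z.2).1 + e1 ((DD z.2).2 - jL l)) := by
    have h0 : rb' P l z = rho P l (phi P (T + 1) c) (DD z.2) := rfl
    rw [h0, hp', ← hNp, ← NN_phi P 1 p]
    rfl
  have hEn := EE_nonneg
  have hen := e1_nonneg
  -- the common conclusions
  have hN : |NN P c| < δ₁ := by
    apply hsq
    rcases hor with h | h
    · rw [hrbe] at h
      linarith [hEn (Ak P (kk l) - p.1), hEn (p.1 - Bk P (kk l)), hen z.2.1,
        hen (z.2.2 - jL l)]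
    · rw [hrbe'] at h
      linarith [hEn (Ak P (kk l) - (phi P 1 p).1), hEn ((phi P 1 p).1 - Bk P (kk l)),
        hen (DD z.2).1, hen ((DD z.2).2 - jL l)]
  have hx2 : p.1 < Bk P (kk l) + δ₁ := by
    rcases hor with h | h
    · rw [hrbe] at h
      have := hEE (p.1 - Bk P (kk l)) (by
        linarith [hEn (Ak P (kk l) - p.1), sq_nonneg (NN P c), hen z.2.1, hen (z.2.2 - jL l)])
      linarith
    · rw [hrbe'] at h
      have := hEE ((phi P 1 p).1 - Bk P (kk l)) (by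
        linarith [hEn (Ak P (kk l) - (phi P 1 p).1), sq_nonneg (NN P c), hen (DD z.2).1,
          hen ((DD z.2).2 - jL l)])
      linarith
  have hx1 : Ak P (kk l) - δ₁ < p.1 ∨ Ak P (kk l) - δ₁ < (phi P 1 p).1 := by
    rcases hor with h | h
    · left
      rw [hrbe] at h
      have := hEE (Ak P (kk l) - p.1) (by
        linarith [hEn (p.1 - Bk P (kk l)), sq_nonneg (NN P c), hen z.2.1, hen (z.2.2 - jL l)])
      linarith
    · right
      rw [hrbe'] at h
      have := hEE (Ak P (kk l) - (phi P 1 p).1) (by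
        linarith [hEn ((phi P 1 p).1 - Bk P (kk l)), sq_nonneg (NN P c), hen (DD z.2).1,
          hen ((DD z.2).2 - jL l)])
      linarith
  have hy : |z.2.1| < δ ∧ |z.2.2 - jL l| < δ := by
    rcases hor with h | h
    · rw [hrbe] at h
      have h1 := he z.2.1 (by
        linarith [hEn (Ak P (kk l) - p.1), hEn (p.1 - Bk P (kk l)), sq_nonneg (NN P c),
          hen (z.2.2 - jL l)])
      have h2 := he (z.2.2 - jL l) (by
        linarith [hEn (Ak P (kk l) - p.1), hEn (p.1 - Bk P (kk l)), sq_nonneg (NN P c),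
          hen z.2.1])
      exact ⟨by linarith, by linarith⟩
    · rw [hrbe'] at h
      have h1 := he (DD z.2).1 (by
        linarith [hEn (Ak P (kk l) - (phi P 1 p).1), hEn ((phi P 1 p).1 - Bk P (kk l)),
          sq_nonneg (NN P c), hen ((DD z.2).2 - jL l)])
      have h2 := he ((DD z.2).2 - jL l) (by
        linarith [hEn (Ak P (kk l) - (phi P 1 p).1), hEn ((phi P 1 p).1 - Bk P (kk l)),
          sq_nonneg (NN P c), hen (DD z.2).1])
      have h3 : (DD z.2).2 = z.2.2 + hh (DD z.2).1 := rfl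
      have h4 : |hh (DD z.2).1| ≤ |(DD z.2).1| := hh_le (by linarith)
      have h5 : |z.2.2 - jL l| < 2 * δ₁ := by
        have : z.2.2 - jL l = ((DD z.2).2 - jL l) - hh (DD z.2).1 := by rw [h3]; ring
        rw [this]
        have := abs_sub ((DD z.2).2 - jL l) (hh (DD z.2).1)
        linarith
      have h6 : |z.2.2| ≤ 1 / 8 := by
        have h7 := jL_pos l
        have h8 := jL_le l
        rw [abs_lt] at h5
        rw [abs_le]
        constructor <;> linarith [h5.1, h5.2]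
      have h9 : (DD z.2).1 = z.2.1 := by
        have : (DD z.2).1 = z.2.1 + ff z.2.2 := rfl
        rw [this, ff_zero h6, add_zero]
      rw [h9] at h1
      exact ⟨by linarith, by linarith⟩
  have hAB1 : (P.J (2 * kk l + 1) : ℝ) = Ak P (kk l) := rfl
  have hAB2 : (P.J (2 * kk l + 2) : ℝ) = Bk P (kk l) := rfl
  rw [hAB1] at hA
  rw [hAB2] at hB
  rcases le_or_gt p.1 (Ak P (kk l) + 1 / 32) with hi | hi
  · -- the left tip
    left
    have hlow : Ak P (kk l) - 3 / 4 * δ < p.1 := by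
      rcases hx1 with h | h
      · linarith
      · have hge : Ak P (kk l) - 1 / 8 ≤ p.1 := by
          by_contra hcon
          have := barrier P (2 * kk l + 1) (δ := δ₁) (fun c' h1 h2 => by
              rw [hAB1] at h1
              have := (hA c' h1 (h2.trans_le h1A)).2
              linarith) (c := p) (by rw [hNp]; exact hN) (x₁ := Ak P (kk l) - 1 / 8)
            (x₂ := Ak P (kk l) - 1 / 16) (by rw [hAB1]) (by rw [hAB1]; linarith)
            (by linarith) (by linarith) (t := 1) (by norm_num) (by norm_num)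
          linarith
        have hstrip : |p.1 - Ak P (kk l)| ≤ 1 / 8 := by
          rw [abs_le]; constructor <;> linarith
        have hV := (hA p hstrip (by rw [hNp]; exact hN.trans_le h1A)).2
        have hV0 := VV_nonneg P p
        have h1 := strip_phi P (x := p.1) (y := p.2) (t := 1) ((P.J (2 * kk l + 1) : ℕ) : ℤ)
          (by rw [Int.cast_natCast, hAB1]; exact hstrip) (by
            rw [Int.cast_natCast, hAB1]
            change |p.1 + 1 * VV P p - _| ≤ _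
            rw [abs_le]; constructor <;> linarith)
        have h2 : (phi P 1 p).1 = p.1 + 1 * VV P p := congrArg Prod.fst h1
        linarith
    have hs : |p.1 - Ak P (kk l)| ≤ 1 / 32 := by
      rw [abs_le]; constructor <;> linarith
    have hV := (hA p (by linarith) (by rw [hNp]; exact hN.trans_le h1A)).2
    have hV0 := VV_nonneg P p
    obtain ⟨h1, h2⟩ := c7_strip P (2 * kk l + 1) c T hT hs (by linarith)
    rw [← hpdef] at h1 h2
    have hTV : |T * VV P p| ≤ 1 / 4 * (1 / 64) := by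
      rw [abs_mul, abs_of_nonneg hV0]
      exact mul_le_mul hT (by linarith) hV0 (by norm_num)
    have h3 : |c.1 - Ak P (kk l)| < 3 / 32 := by
      rw [h1]
      rw [abs_le] at hs hTV
      rw [abs_lt]
      constructor <;> linarith [hs.1, hs.2, hTV.1, hTV.2]
    have h4 := (hA c (by linarith) (hN.trans_le h1A)).1
    refine ⟨heta2, h3, by linarith, ?_, hy.1, hy.2, hrb⟩
    change Ak P (kk l) - c.1 - T * VV P c < δ
    rw [← h2]
    linarith
  rcases lt_or_ge p.1 (Bk P (kk l) - 1 / 32) with hj | hj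
  · right; left
    exact ⟨heta2, hi, hj, by linarith, hy.1, hy.2, hrb⟩
  · right; right
    have hs : |p.1 - Bk P (kk l)| ≤ 1 / 32 := by
      rw [abs_le]; constructor <;> linarith
    have hV := (hB p (by linarith) (by rw [hNp]; exact hN.trans_le h1B)).2
    have hV0 := VV_nonneg P p
    obtain ⟨h1, h2⟩ := c7_strip P (2 * kk l + 2) c T hT hs (by linarith)
    rw [← hpdef] at h1 h2
    have hTV : |T * VV P p| ≤ 1 / 4 * (1 / 64) := by
      rw [abs_mul, abs_of_nonneg hV0]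
      exact mul_le_mul hT (by linarith) hV0 (by norm_num)
    have h3 : |c.1 - Bk P (kk l)| < 3 / 32 := by
      rw [h1]
      rw [abs_le] at hs hTV
      rw [abs_lt]
      constructor <;> linarith [hs.1, hs.2, hTV.1, hTV.2]
    have h4 := (hB c (by linarith) (hN.trans_le h1B)).1
    refine ⟨heta2, h3, by linarith, ?_, hy.1, hy.2, hrb⟩
    change c.1 + (T + 1) * VV P c - Bk P (kk l) < δ
    rw [← h2]
    have : c.1 + (T + 1) * VV P p = p.1 + VV P p := by rw [h1]; ring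
    linarith

theorem cover (P : Par) (l : ℕ) (δ : ℝ) (hδ : 0 < δ) : ∃ ε₀ : ℝ, 0 < ε₀ ∧ ∀ z : E5,
    |eta P z.1 - aL l| ≤ 1 / 4 → (rb P l z < ε₀ ∨ rb' P l z < ε₀) → 0 < rb P l z →
      z ∈ regA P l δ ∨ z ∈ regM P l δ ∨ z ∈ regB P l δ := by
  obtain ⟨ε₀, hε, h⟩ := c7_small P l (min δ (1 / 64)) (lt_min hδ (by norm_num))
    (min_le_right _ _)
  have hm : min δ (1 / 64) ≤ δ := min_le_left _ _
  refine ⟨ε₀, hε, fun z h1 h2 h3 => ?_⟩
  rcases h z h1 h2 h3 with h4 | h4 | h4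
  · obtain ⟨g1, g2, g3, g4, g5, g6, g7⟩ := h4
    exact Or.inl ⟨g1, g2, g3.trans_le hm, g4.trans_le hm, g5.trans_le hm, g6.trans_le hm, g7⟩
  · obtain ⟨g1, g2, g3, g4, g5, g6, g7⟩ := h4
    exact Or.inr (Or.inl ⟨g1, g2, g3, g4.trans_le hm, g5.trans_le hm, g6.trans_le hm, g7⟩)
  · obtain ⟨g1, g2, g3, g4, g5, g6, g7⟩ := h4
    exact Or.inr (Or.inr ⟨g1, g2, g3.trans_le hm, g4.trans_le hm, g5.trans_le hm,
      g6.trans_le hm, g7⟩)

end CI
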