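import Pool.Agent.LibCI87.C5

/-! ROW C8 (~130 lines).  Bounded support, uniqueness of the translate, position in the fibre.
Use B1, B9, B10, C0, C1, C3, C5 (stated).

`A = Ak P (kk l)`, `B = Bk P (kk l)`.
`fibre_ball`: as in row C7: `rb < ε` gives `e1 y₁, e1 (y₂ - j) < ε`, so (`e1_small`) `|y₁|, |y₂ - j| < r`, `r = (1/2)^(l+8)`;
`rb' < ε` gives the same for `DD y`, `y₂ = (DD y).2 - hh ((DD y).1)`, `|hh t| ≤ |t|`, so `|y₂ - j| < 2 r`, `|y₂| ≤ 1/8`,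
`ff y₂ = 0`, `y₁ = (DD y).1`.
`act_supp`: `|eta - a| ≤ 2 dL ≤ 1/4`; `rb < 1/2`.. for `ε₀ ≤ EE (1/2)` and `≤ 1`: `|NN| < 1`, the `x`-coordinate of the section
point (or its image) is in `(A - 1/2, B + 1/2)`, so `x ∈ (A - 2, B + 2)` (`phi_x_abs`), `|y| ≤ |NN| + |x| + 1` (`KK_abs`), `|θ| ≤ |eta| + |x|`,
`|y₁|, |y₂| ≤ 1`.
`act_unique`: let `M = B - A + 4` and `c > 0` with `|v₂ - al v₁| ≥ c` for all integers `v₂` and `0 < |v₁| ≤ M` (finitely many
`v₁`, `Par.irr`; for each `v₁ ≠ 0`, `|v₂ - al v₁| ≥ |fract|`-distance `> 0`); `c ≤ 1`.  `ε₀` such that `2 √ε₀ < c`, `ε₀ ≤ EE (1/2)`,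
`fibre_ball`.  For `z`, `z + sh v` as in the statement: `|NN (z + v) - NN z| = |v₂ - al v₁| < 2 √ε₀ < c` (`NN_shift`),
`|v₁| ≤ M` since both `x`-coordinates are in `(A - 2, B + 2)`; so `v₁ = 0`, then `|v₂| < 1`, `v₂ = 0`; then
`eta (z + v) - eta z = v₃`, `|v₃| ≤ 3 dL < 1`, `v₃ = 0`; fibre balls: `|v₄|, |v₅| < 1`. -/

set_option autoImplicit false

namespace CI

open Set Function Filter Topology

private theorem C8_rho (P : Par) (l : ℕ) (c y : ℝ × ℝ) {ε : ℝ} (h : rho P l c y < ε) :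
    NN P c ^ 2 < ε ∧ EE (Ak P (kk l) - c.1) < ε ∧ EE (c.1 - Bk P (kk l)) < ε ∧
      e1 y.1 < ε ∧ e1 (y.2 - jL l) < ε := by
  unfold rho el at h
  have h1 := EE_nonneg (Ak P (kk l) - c.1)
  have h2 := EE_nonneg (c.1 - Bk P (kk l))
  have h3 := e1_nonneg y.1
  have h5 := e1_nonneg (y.2 - jL l)
  have h4 := sq_nonneg (NN P c)
  refine ⟨?_, ?_, ?_, ?_, ?_⟩ <;> linarith

private theorem C8_pow (l : ℕ) : ((1 : ℝ) / 2) ^ (l + 7) = 2 * (1 / 2) ^ (l + 8) := by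
  rw [show l + 8 = (l + 7) + 1 from rfl, pow_succ]; ring

private theorem C8_pow_le (l : ℕ) : ((1 : ℝ) / 2) ^ (l + 7) ≤ 1 / 128 := by
  have h1 : ((1 : ℝ) / 2) ^ (l + 7) ≤ (1 / 2) ^ 7 :=
    pow_le_pow_of_le_one (by norm_num) (by norm_num) (by omega)
  have h2 : ((1 : ℝ) / 2) ^ 7 = 1 / 128 := by norm_num
  rw [h2] at h1
  exact h1

theorem fibre_ball (P : Par) (l : ℕ) : ∃ ε₀ : ℝ, 0 < ε₀ ∧ ∀ z : E5,
    (rb P l z < ε₀ ∨ rb' P l z < ε₀) →
      |z.2.1| < (1 / 2) ^ (l + 7) ∧ |z.2.2 - jL l| < (1 / 2) ^ (l + 7) := by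
  have hr : (0 : ℝ) < (1 / 2) ^ (l + 8) := by positivity
  obtain ⟨ε, hε, h⟩ := e1_small _ hr
  refine ⟨ε, hε, ?_⟩
  have hp := C8_pow l
  have hp2 := C8_pow_le l
  rintro z (hz | hz)
  · obtain ⟨-, -, -, h1, h2⟩ := C8_rho P l _ _ hz
    have h3 := h _ h1
    have h4 := h _ h2
    rw [hp]
    constructor <;> linarith
  · obtain ⟨-, -, -, h1, h2⟩ := C8_rho P l _ _ hz
    have h3 := h _ h1
    have h4 := h _ h2
    have h5 : (DD z.2).2 = z.2.2 + hh (DD z.2).1 := rfl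
    have h6 : |hh (DD z.2).1| ≤ |(DD z.2).1| := hh_le (by linarith)
    have h7 : |z.2.2 - jL l| < (1 / 2) ^ (l + 7) := by
      have h8 : z.2.2 - jL l = ((DD z.2).2 - jL l) - hh (DD z.2).1 := by rw [h5]; ring
      rw [h8, hp]
      have h9 := abs_sub ((DD z.2).2 - jL l) (hh (DD z.2).1)
      linarith
    have h10 : |z.2.2| ≤ 1 / 8 := by
      have h11 : z.2.2 = (z.2.2 - jL l) + jL l := by ring
      have h12 := abs_add_le (z.2.2 - jL l) (jL l)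
      rw [← h11, abs_of_pos (jL_pos l)] at h12
      have h13 := jL_le l
      linarith
    have h14 : (DD z.2).1 = z.2.1 := by rw [DD_eq h10]
    rw [h14] at h3
    refine ⟨?_, h7⟩
    rw [hp]; linarith

private theorem C8_core (P : Par) (l : ℕ) : ∃ ε₁ : ℝ, 0 < ε₁ ∧ ∀ ε : ℝ, ε ≤ ε₁ → ∀ z : E5,
    us P l z ∈ Icc (-1:ℝ) 2 → (rb P l z < ε ∨ rb' P l z < ε) →
      |eta P z.1 - aL l| ≤ 2 * dL l ∧ Ak P (kk l) - 2 < z.1.1.1 ∧ z.1.1.1 < Bk P (kk l) + 2 ∧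
        NN P z.1.1 ^ 2 < ε ∧ |z.2.1| < (1 / 2) ^ (l + 7) ∧ |z.2.2 - jL l| < (1 / 2) ^ (l + 7) := by
  obtain ⟨ε, hε, h⟩ := fibre_ball P l
  have hE : 0 < EE (1 / 2) := EE_pos (by norm_num)
  refine ⟨min ε (EE (1 / 2)), lt_min hε hE, ?_⟩
  intro ε' hε' z hus hz
  have hd := dL_pos l
  have hd8 := dL_le l
  have heta : |eta P z.1 - aL l| ≤ 2 * dL l := by
    have h1 : eta P z.1 - aL l = us P l z * dL l := by
      unfold us; rw [div_mul_cancel₀ _ hd.ne']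
    rw [h1, abs_mul, abs_of_pos hd]
    have h2 : |us P l z| ≤ 2 := abs_le.2 ⟨by linarith [hus.1], hus.2⟩
    exact mul_le_mul_of_nonneg_right h2 hd.le
  have hx : ∀ s : ℝ, EE s < ε' → s < 1 / 2 := by
    intro s hs
    by_contra hcon
    rw [not_lt] at hcon
    have h1 := EE_mono hcon
    have h2 := min_le_right ε (EE (1 / 2))
    linarith
  have hfib := h z (by
    have h2 := min_le_left ε (EE (1 / 2))
    rcases hz with hz | hz
    · left; linarith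
    · right; linarith)
  have hab : ∀ t : ℝ, |t| ≤ 5 / 4 → rho P l (phi P t z.1.1) (0, jL l) < ε' →
      Ak P (kk l) - 2 < z.1.1.1 ∧ z.1.1.1 < Bk P (kk l) + 2 ∧ NN P z.1.1 ^ 2 < ε' := by
    intro t ht hr
    obtain ⟨h1, h2, h3, -, -⟩ := C8_rho P l _ _ hr
    have h4 := hx _ h2
    have h5 := hx _ h3
    have h6 := abs_le.1 ((phi_x_abs P z.1.1 t).trans ht)
    rw [NN_phi] at h1
    refine ⟨?_, ?_, h1⟩ <;> linarith [h6.1, h6.2]
  have hab' : ∀ (t : ℝ) (y : ℝ × ℝ), |t| ≤ 5 / 4 → rho P l (phi P t z.1.1) y < ε' →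
      Ak P (kk l) - 2 < z.1.1.1 ∧ z.1.1.1 < Bk P (kk l) + 2 ∧ NN P z.1.1 ^ 2 < ε' := by
    intro t y ht hr
    refine hab t ht (lt_of_le_of_lt ?_ hr)
    unfold rho
    rw [(el_zero_iff l (0, jL l)).2 rfl]
    linarith [el_nonneg l y]
  have heta2 := abs_le.1 (heta.trans (show 2 * dL l ≤ 1 / 4 by linarith))
  rcases hz with hz | hz
  · obtain ⟨h1, h2, h3⟩ := hab' (aL l - eta P z.1) z.2
      (abs_le.2 ⟨by linarith [heta2.1, heta2.2], by linarith [heta2.1, heta2.2]⟩) hz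
    exact ⟨heta, h1, h2, h3, hfib.1, hfib.2⟩
  · obtain ⟨h1, h2, h3⟩ := hab' (aL l - eta P z.1 + 1) (DD z.2)
      (abs_le.2 ⟨by linarith [heta2.1, heta2.2], by linarith [heta2.1, heta2.2]⟩) hz
    exact ⟨heta, h1, h2, h3, hfib.1, hfib.2⟩

theorem act_supp (P : Par) (l : ℕ) : ∃ ε₀ : ℝ, 0 < ε₀ ∧ ∃ R : ℝ, ∀ z : E5,
    us P l z ∈ Icc (-1:ℝ) 2 → (rb P l z < ε₀ ∨ rb' P l z < ε₀) → ‖z‖ ≤ R := by
  obtain ⟨ε₁, hε₁, h⟩ := C8_core P l
  refine ⟨min ε₁ 1, lt_min hε₁ one_pos, |Ak P (kk l)| + |Bk P (kk l)| + |aL l| + 6, ?_⟩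
  intro z hus hz
  obtain ⟨h1, h2, h3, h4, h5, h6⟩ := h _ (min_le_left _ _) z hus hz
  have hNN : |NN P z.1.1| < 1 := by
    rw [← sq_lt_one_iff_abs_lt_one]
    exact lt_of_lt_of_le h4 (min_le_right _ _)
  have hA := neg_abs_le (Ak P (kk l))
  have hA' := abs_nonneg (Ak P (kk l))
  have hB := le_abs_self (Bk P (kk l))
  have hB' := abs_nonneg (Bk P (kk l))
  have ha := le_abs_self (aL l)
  have ha' := neg_abs_le (aL l)
  have ha2 := abs_nonneg (aL l)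
  have hd8 := dL_le l
  have hp2 := C8_pow_le l
  have hal := P.al_pos
  have hal' := P.al_lt
  have hbe := P.be_pos
  have hbe' := P.be_lt
  set X : ℝ := |Ak P (kk l)| + |Bk P (kk l)| + 2 with hX
  have hx : |z.1.1.1| ≤ X := abs_le.2 ⟨by linarith, by linarith⟩
  have hX0 : 0 ≤ X := by positivity
  have halx : |P.al * z.1.1.1| ≤ X := by
    rw [abs_mul, abs_of_pos hal]
    calc P.al * |z.1.1.1| ≤ 1 * |z.1.1.1| := by
          exact mul_le_mul_of_nonneg_right hal'.le (abs_nonneg _)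
      _ ≤ X := by rw [one_mul]; exact hx
  have hbex : |P.be * z.1.1.1| ≤ X := by
    rw [abs_mul, abs_of_pos hbe]
    calc P.be * |z.1.1.1| ≤ 1 * |z.1.1.1| := by
          exact mul_le_mul_of_nonneg_right hbe'.le (abs_nonneg _)
      _ ≤ X := by rw [one_mul]; exact hx
  have hy : |z.1.1.2| ≤ X + 2 := by
    have h7 : z.1.1.2 = NN P z.1.1 + P.al * z.1.1.1 + KK P z.1.1 := by unfold NN; ring
    have h8 := abs_add_le (NN P z.1.1 + P.al * z.1.1.1) (KK P z.1.1)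
    have h9 := abs_add_le (NN P z.1.1) (P.al * z.1.1.1)
    have h10 := KK_abs P z.1.1
    rw [h7]; linarith
  have hθ : |z.1.2| ≤ X + |aL l| + 1 := by
    have h7 : z.1.2 = (eta P z.1 - aL l) + aL l + P.be * z.1.1.1 := by unfold eta; ring
    have h8 := abs_add_le ((eta P z.1 - aL l) + aL l) (P.be * z.1.1.1)
    have h9 := abs_add_le (eta P z.1 - aL l) (aL l)
    rw [h7]; linarith
  have hy2 : |z.2.2| ≤ 1 := by
    have h7 : z.2.2 = (z.2.2 - jL l) + jL l := by ring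
    have h8 := abs_add_le (z.2.2 - jL l) (jL l)
    rw [← h7, abs_of_pos (jL_pos l)] at h8
    have h9 := jL_le l
    linarith
  rw [Prod.norm_def, Prod.norm_def, Prod.norm_def, Prod.norm_def]
  simp only [Real.norm_eq_abs]
  refine max_le (max_le (max_le ?_ ?_) ?_) (max_le ?_ ?_) <;> linarith

private theorem C8_min {α : Type} [DecidableEq α] (s : Finset α) (f : α → ℝ) (h : ∀ x ∈ s, 0 < f x) :
    ∃ c : ℝ, 0 < c ∧ c ≤ 1 ∧ ∀ x ∈ s, c ≤ f x := by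
  induction s using Finset.induction_on with
  | empty => exact ⟨1, one_pos, le_rfl, by simp⟩
  | insert a s ha ih =>
    obtain ⟨c, hc, hc1, h1⟩ := ih (fun x hx => h x (Finset.mem_insert_of_mem hx))
    refine ⟨min c (f a), lt_min hc (h a (Finset.mem_insert_self a s)),
      (min_le_left _ _).trans hc1, fun x hx => ?_⟩
    rcases Finset.mem_insert.1 hx with rfl | hx
    · exact min_le_right _ _
    · exact (min_le_left _ _).trans (h1 x hx)

private theorem C8_int {n : ℤ} (h : |(n : ℝ)| < 1) : n = 0 := by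
  have h1 : |n| < 1 := by exact_mod_cast h
  exact Int.abs_lt_one_iff.1 h1

theorem act_unique (P : Par) (l : ℕ) : ∃ ε₀ : ℝ, 0 < ε₀ ∧ ∀ (z : E5) (v : Z5),
    us P l z ∈ Icc (-1:ℝ) 2 → (rb P l z < ε₀ ∨ rb' P l z < ε₀) →
    us P l (z + sh v) ∈ Icc (-1:ℝ) 2 → (rb P l (z + sh v) < ε₀ ∨ rb' P l (z + sh v) < ε₀) →
      v = 0 := by
  obtain ⟨ε₁, hε₁, h⟩ := C8_core P l
  set M : ℝ := Bk P (kk l) - Ak P (kk l) + 4 with hM
  obtain ⟨c, hc, hc1, hcm⟩ := C8_min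
    ((Finset.Icc (-⌈|M|⌉) ⌈|M|⌉).filter (fun i => i ≠ 0))
    (fun i : ℤ => |P.al * i - round (P.al * i)|) (by
      intro i hi
      rw [Finset.mem_filter] at hi
      rw [abs_pos, sub_ne_zero]
      intro h1
      exact hi.2 (P.irr i _ h1).1)
  have hc4 : 0 < c ^ 2 / 4 := by positivity
  refine ⟨min ε₁ (c ^ 2 / 4), lt_min hε₁ hc4, ?_⟩
  intro z v hus hz hus' hz'
  obtain ⟨h1, h2, h3, h4, h5, h6⟩ := h _ (min_le_left _ _) z hus hz
  obtain ⟨g1, g2, g3, g4, g5, g6⟩ := h _ (min_le_left _ _) (z + sh v) hus' hz'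
  have hd8 := dL_le l
  have hp2 := C8_pow_le l
  have e1' : (z + sh v).1.1.1 = z.1.1.1 + v.1.1.1 := rfl
  have e2 : (z + sh v).1.1 = (z.1.1.1 + v.1.1.1, z.1.1.2 + v.1.1.2) := rfl
  have e3 : (z + sh v).1.2 = z.1.2 + v.1.2 := rfl
  have e4 : (z + sh v).2.1 = z.2.1 + v.2.1 := rfl
  have e5 : (z + sh v).2.2 = z.2.2 + v.2.2 := rfl
  have hN : |NN P z.1.1| < c / 2 := by
    refine abs_lt_of_sq_lt_sq ?_ (by linarith)
    have := lt_of_lt_of_le h4 (min_le_right _ _)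
    calc NN P z.1.1 ^ 2 < c ^ 2 / 4 := this
      _ = (c / 2) ^ 2 := by ring
  have hN' : |NN P (z + sh v).1.1| < c / 2 := by
    refine abs_lt_of_sq_lt_sq ?_ (by linarith)
    have := lt_of_lt_of_le g4 (min_le_right _ _)
    calc NN P (z + sh v).1.1 ^ 2 < c ^ 2 / 4 := this
      _ = (c / 2) ^ 2 := by ring
  rw [e2, NN_shift] at hN'
  have hdiff : |P.al * v.1.1.1 - v.1.1.2| < c := by
    have h7 : P.al * v.1.1.1 - v.1.1.2 = NN P z.1.1 - (NN P z.1.1 + v.1.1.2 - P.al * v.1.1.1) := by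
      ring
    have h8 := abs_sub (NN P z.1.1) (NN P z.1.1 + v.1.1.2 - P.al * v.1.1.1)
    rw [h7]; linarith
  have hv1 : v.1.1.1 = 0 := by
    by_contra hne
    have h7 : |(v.1.1.1 : ℝ)| ≤ |M| := by
      rw [e1'] at g2 g3
      have h8 : |(v.1.1.1 : ℝ)| < M := abs_lt.2 ⟨by linarith, by linarith⟩
      exact h8.le.trans (le_abs_self M)
    have h8 := abs_le.1 (h7.trans (Int.le_ceil |M|))
    have h9 : v.1.1.1 ∈ (Finset.Icc (-⌈|M|⌉) ⌈|M|⌉).filter (fun i => i ≠ 0) := by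
      rw [Finset.mem_filter, Finset.mem_Icc]
      refine ⟨⟨?_, ?_⟩, hne⟩
      · exact_mod_cast h8.1
      · exact_mod_cast h8.2
    have h10 := hcm _ h9
    have h11 := round_le (P.al * v.1.1.1) v.1.1.2
    linarith
  have hv2 : v.1.1.2 = 0 := by
    apply C8_int
    rw [hv1, Int.cast_zero, mul_zero, zero_sub, abs_neg] at hdiff
    linarith
  have hv3 : v.1.2 = 0 := by
    apply C8_int
    have h7 : (v.1.2 : ℝ) = (eta P (z + sh v).1 - aL l) - (eta P z.1 - aL l) := by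
      unfold eta
      rw [e3, e1', hv1, Int.cast_zero]
      ring
    have h8 := abs_sub (eta P (z + sh v).1 - aL l) (eta P z.1 - aL l)
    rw [h7]; linarith
  have hv4 : v.2.1 = 0 := by
    apply C8_int
    have h7 : (v.2.1 : ℝ) = (z + sh v).2.1 - z.2.1 := by rw [e4]; ring
    have h8 := abs_sub (z + sh v).2.1 z.2.1
    rw [h7]; linarith
  have hv5 : v.2.2 = 0 := by
    apply C8_int
    have h7 : (v.2.2 : ℝ) = ((z + sh v).2.2 - jL l) - (z.2.2 - jL l) := by rw [e5]; ring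
    have h8 := abs_sub ((z + sh v).2.2 - jL l) (z.2.2 - jL l)
    rw [h7]; linarith
  ext
  · exact hv1
  · exact hv2
  · exact hv3
  · exact hv4
  · exact hv5

end CI
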