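import Pool.Agent.LibCI87.Defs

/-!
# Classes of functions (definitions)

`U j` are open sets, `w j z ≥ 0` is a weight, `Λ j z ≥ 1` is a cost.  All constants are independent of
the index `j` and of the point `z`.
-/

set_option autoImplicit false

namespace CI

open Set Function Filter Topology

variable {ι E F G : Type*} [NormedAddCommGroup E] [NormedSpace ℝ E] [NormedAddCommGroup F]
  [NormedSpace ℝ F] [NormedAddCommGroup G] [NormedSpace ℝ G]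

/-- all derivatives of `f` are bounded by `C * w * Λ ^ m` -/
structure Cl (U : ι → Set E) (w Λ : ι → E → ℝ) (f : ι → E → F) : Prop where
  smooth : ∀ j, ∀ z ∈ U j, ContDiffAt ℝ ((⊤ : ℕ∞) : WithTop ℕ∞) (f j) z
  bound : ∀ i : ℕ, ∃ C : ℝ, ∃ m : ℕ, ∀ j, ∀ z ∈ U j,
    ‖iteratedFDeriv ℝ i (f j) z‖ ≤ C * (w j z * Λ j z ^ m)

/-- all derivatives of `f` of positive order are bounded by `C * Λ ^ m` -/
structure Sl (U : ι → Set E) (Λ : ι → E → ℝ) (f : ι → E → F) : Prop where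
  smooth : ∀ j, ∀ z ∈ U j, ContDiffAt ℝ ((⊤ : ℕ∞) : WithTop ℕ∞) (f j) z
  bound : ∀ i : ℕ, 1 ≤ i → ∃ C : ℝ, ∃ m : ℕ, ∀ j, ∀ z ∈ U j,
    ‖iteratedFDeriv ℝ i (f j) z‖ ≤ C * Λ j z ^ m

/-- all derivatives of `f` are bounded by `C * Λ ^ (-k)` for all `k` -/
structure Tn (U : ι → Set E) (Λ : ι → E → ℝ) (f : ι → E → F) : Prop where
  smooth : ∀ j, ∀ z ∈ U j, ContDiffAt ℝ ((⊤ : ℕ∞) : WithTop ℕ∞) (f j) z
  bound : ∀ i k : ℕ, ∃ C : ℝ, ∀ j, ∀ z ∈ U j, ‖iteratedFDeriv ℝ i (f j) z‖ * Λ j z ^ k ≤ C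

/-- standing hypotheses on the sets and the cost -/
structure Co (U : ι → Set E) (Λ : ι → E → ℝ) : Prop where
  isOpen : ∀ j, IsOpen (U j)
  one_le : ∀ j, ∀ z ∈ U j, 1 ≤ Λ j z

end CI
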