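import Pool.Agent.LibCI87.Reg
import Pool.Agent.LibCI87.A1
import Pool.Agent.LibCI87.A3
import Pool.Agent.LibCI87.B0
import Pool.Agent.LibCI87.B14

/-! ROW D1.  Classes of the transversal invariant and of the speed near a tip. -/

set_option autoImplicit false

namespace CI

open Set Function Filter Topology

theorem d1_affine (L : E5 →L[ℝ] ℝ) (c : ℝ) (i : ℕ) (hi : 1 ≤ i) (z : E5) :
    ‖iteratedFDeriv ℝ i (fun z => L z + c) z‖ ≤ ‖L‖ := by
  obtain ⟨k, rfl⟩ := Nat.exists_eq_add_of_le hi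
  rw [add_comm 1 k, ← norm_iteratedFDeriv_fderiv]
  have h : fderiv ℝ (fun z => L z + c) = fun _ => L := by
    funext y
    exact (L.hasFDerivAt.add_const c).fderiv
  rw [h]
  rcases Nat.eq_zero_or_pos k with rfl | hk
  · rw [norm_iteratedFDeriv_zero]
  · rw [iteratedFDeriv_const_of_ne (by omega)]
    simp

/-- the general statement: `v` is a function of one variable with flat type near the values of `w` -/
theorem d1_gen (v : ℝ → ℝ) (n : ℝ) (hv : Sm v) (D : Set ℝ)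
    (hfl : ∀ j : ℕ, ∃ C : ℝ, ∃ m : ℕ, 0 ≤ C ∧ ∀ t ∈ D,
      |iteratedDeriv j (fun t => v t - n) t| ≤
        C * (|v t - n| * (1 + |Real.log (|v t - n|)|) ^ m))
    (U : Set E5) (W w : E5 → ℝ) (hU : IsOpen U)
    (hW : ∀ z ∈ U, 0 < W z) (hW1 : ∀ z ∈ U, W z ≤ 1)
    (hw : ∀ z ∈ U, w z ∈ D)
    (hn : ∀ z ∈ U, (v (w z) - n) ^ 2 ≤ W z)
    (hsl : Sl (fun _ : Unit => U) (fun _ z => 1 + |Real.log (W z)|) (fun _ => w)) :
    Cl (fun _ : Unit => U) (fun _ z => Real.sqrt (W z)) (fun _ z => 1 + |Real.log (W z)|)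
      (fun _ z => v (w z) - n) ∧
    Cl (fun _ : Unit => U) (fun _ z => Real.sqrt (W z)) (fun _ z => 1 + |Real.log (W z)|)
      (fun _ z => deriv v (w z)) := by
  have hCo : Co (fun _ : Unit => U) (fun _ z => 1 + |Real.log (W z)|) := ⟨fun _ => hU,
    fun _ z _ => by
      have := abs_nonneg (Real.log (W z))
      linarith⟩
  have hs0 : ∀ (j : Unit), ∀ z ∈ (fun _ : Unit => U) j, 0 ≤ Real.sqrt (W z) :=
    fun _ z _ => Real.sqrt_nonneg _
  have hφs : Sm (fun t => v t - n) := hv.sub contDiff_const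
  have hds : Sm (deriv v) := (contDiff_infty_iff_deriv.1 hv).2
  have key : ∀ j : ℕ, ∃ C : ℝ, ∃ m : ℕ, ∀ z ∈ U,
      |iteratedDeriv j (fun t => v t - n) (w z)| ≤
        C * (Real.sqrt (W z) * (1 + |Real.log (W z)|) ^ m) := by
    intro j
    obtain ⟨C, m, hC0, hC⟩ := hfl j
    obtain ⟨C', hC'0, hC'⟩ := log_mono_sqrt m
    refine ⟨C * C', m, fun z hz => ?_⟩
    calc _ ≤ C * (|v (w z) - n| * (1 + |Real.log (|v (w z) - n|)|) ^ m) :=
          hC _ (hw z hz)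
      _ ≤ C * (C' * (Real.sqrt (W z) * (1 + |Real.log (W z)|) ^ m)) :=
          mul_le_mul_of_nonneg_left (hC' _ _ (hW z hz).le (hW1 z hz) (hn z hz)) hC0
      _ = C * C' * (Real.sqrt (W z) * (1 + |Real.log (W z)|) ^ m) := by ring
  refine ⟨?_, ?_⟩
  · refine Cl.comp (f := fun _ => w)
      (φ := fun _ t => v t - n) hsl hCo hs0 (fun _ _ _ => hφs.contDiffAt)
      (fun j => ?_)
    obtain ⟨C, m, hC⟩ := key j
    refine ⟨C, m, fun _ z hz => ?_⟩
    rw [norm_iteratedFDeriv_eq_norm_iteratedDeriv, Real.norm_eq_abs]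
    exact hC z hz
  · refine Cl.comp (f := fun _ => w)
      (φ := fun _ => deriv v) hsl hCo hs0 (fun _ _ _ => hds.contDiffAt)
      (fun j => ?_)
    obtain ⟨C, m, hC⟩ := key (j + 1)
    refine ⟨C, m, fun _ z hz => ?_⟩
    rw [norm_iteratedFDeriv_eq_norm_iteratedDeriv, Real.norm_eq_abs]
    have h2 := hC z hz
    rw [iteratedDeriv_succ'] at h2
    have h3 : deriv (fun t => v t - n) = deriv v := by
      funext t
      exact deriv_sub_const _
    rw [h3] at h2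
    exact h2

theorem D1_NV (P : Par) (i : ℕ) : ∃ δ₀ : ℝ, 0 < δ₀ ∧ ∀ (U : Set E5) (W : E5 → ℝ), IsOpen U →
    (∀ z ∈ U, 0 < W z) → (∀ z ∈ U, W z ≤ 1) →
    (∀ z ∈ U, |wl P (i + 1) z.1.1 - tt P (i + 1)| < δ₀) →
    (∀ z ∈ U, (vloc P (wl P (i + 1) z.1.1) - nn P (i + 1)) ^ 2 ≤ W z) →
    Cl (fun _ : Unit => U) (fun _ z => Real.sqrt (W z)) (fun _ z => 1 + |Real.log (W z)|)
      (fun _ z => vloc P (wl P (i + 1) z.1.1) - nn P (i + 1)) ∧
    Cl (fun _ : Unit => U) (fun _ z => Real.sqrt (W z)) (fun _ z => 1 + |Real.log (W z)|)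
      (fun _ z => lam P * deriv (vloc P) (wl P (i + 1) z.1.1)) := by
  obtain ⟨δ₀, hδ₀, hfl⟩ := vloc_flat P i
  refine ⟨δ₀, hδ₀, ?_⟩
  intro U W hU hW hW1 hwl hn
  have hCo : Co (fun _ : Unit => U) (fun _ z => 1 + |Real.log (W z)|) := ⟨fun _ => hU,
    fun _ z _ => by
      have := abs_nonneg (Real.log (W z))
      linarith⟩
  have hsl : Sl (fun _ : Unit => U) (fun _ z => 1 + |Real.log (W z)|)
      (fun _ z => wl P (i + 1) z.1.1) := by
    let L : E5 →L[ℝ] ℝ := (ContinuousLinearMap.snd ℝ ℝ ℝ - P.al • ContinuousLinearMap.fst ℝ ℝ ℝ).comp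
      ((ContinuousLinearMap.fst ℝ (ℝ × ℝ) ℝ).comp (ContinuousLinearMap.fst ℝ E3 (ℝ × ℝ)))
    have h : (fun z : E5 => wl P (i + 1) z.1.1) =
        fun z => L z + (P.al * P.J (i + 1) - P.q (i + 1)) := by
      funext z
      simp [L, wl]
      ring
    rw [h]
    exact Sl.of_bounded hCo _ (L.contDiff.add contDiff_const)
      (fun i hi => ⟨‖L‖, fun _ z _ => d1_affine L _ i hi z⟩)
  obtain ⟨h1, h2⟩ := d1_gen (vloc P) (nn P (i + 1)) (vloc_sm P)
    {t | |t - tt P (i + 1)| < δ₀} hfl U W (fun z => wl P (i + 1) z.1.1) hU hW hW1 hwl hn hsl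
  exact ⟨h1, h2.const_mul (lam P)⟩

end CI
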