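import Pool.Agent.LibCI87.Reg
import Pool.Agent.LibCI87.A1
import Pool.Agent.LibCI87.A3
import Pool.Agent.LibCI87.A7
import Pool.Agent.LibCI87.B0
import Pool.Agent.LibCI87.B1

/-! ROW D2.  Classes of `EE (ww)`, `el`, and of a difference. -/

set_option autoImplicit false

namespace CI

open Set Function Filter Topology

section D2aux

variable {ι E F : Type*} [NormedAddCommGroup E] [NormedSpace ℝ E] [NormedAddCommGroup F]
  [NormedSpace ℝ F]

theorem d2_affine (L : E →L[ℝ] F) (c : F) (i : ℕ) (hi : 1 ≤ i) (z : E) :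
    ‖iteratedFDeriv ℝ i (fun z => L z + c) z‖ ≤ ‖L‖ := by
  obtain ⟨k, rfl⟩ := Nat.exists_eq_add_of_le hi
  rw [add_comm 1 k, ← norm_iteratedFDeriv_fderiv]
  have h : fderiv ℝ (fun z => L z + c) = fun _ => L := by
    funext y
    exact (L.hasFDerivAt.add_const c).fderiv
  rw [h]
  rcases Nat.eq_zero_or_pos k with rfl | hk
  · rw [norm_iteratedFDeriv_zero]
  · rw [iteratedFDeriv_const_of_ne (by omega)]
    simp

theorem d2_sl_affine {U : ι → Set E} {Λ : ι → E → ℝ} (hU : Co U Λ) (L : E →L[ℝ] F) (c : F) :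
    Sl U Λ (fun _ z => L z + c) :=
  Sl.of_bounded hU (fun z => L z + c) (L.contDiff.add contDiff_const)
    (fun i hi => ⟨‖L‖, fun _ z _ => d2_affine L c i hi z⟩)

/-- composition with a function of one variable whose derivatives are bounded by
`C * (s * (1 + |log s|) ^ m)` with `s ≤ W` -/
theorem d2_flat {U : Set E} {W f : E → ℝ} {φ : ℝ → ℝ} (hU : IsOpen U) (hφ : Sm φ)
    (hφ0 : ∀ t, 0 ≤ φ t)
    (hfl : ∀ i : ℕ, ∃ C : ℝ, ∃ m : ℕ, 0 ≤ C ∧ ∀ t : ℝ,
      |iteratedDeriv i φ t| ≤ C * (φ t * (1 + |Real.log (φ t)|) ^ m))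
    (hW : ∀ z ∈ U, 0 < W z) (hW1 : ∀ z ∈ U, W z ≤ 1)
    (hf : Sl (fun _ : Unit => U) (fun _ z => 1 + |Real.log (W z)|) (fun _ => f))
    (h : ∀ z ∈ U, φ (f z) ≤ W z) :
    Cl (fun _ : Unit => U) (fun _ => W) (fun _ z => 1 + |Real.log (W z)|)
      (fun _ z => φ (f z)) := by
  have hCo : Co (fun _ : Unit => U) (fun _ z => 1 + |Real.log (W z)|) := ⟨fun _ => hU,
    fun _ z _ => by
      have := abs_nonneg (Real.log (W z))
      linarith⟩
  refine Cl.comp (f := fun _ => f) (φ := fun _ => φ) hf hCo (fun _ z hz => (hW z hz).le)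
    (fun _ _ _ => hφ.contDiffAt) (fun i => ?_)
  obtain ⟨C, m, hC0, hC⟩ := hfl i
  obtain ⟨C', hC'0, hC'⟩ := log_mono m
  refine ⟨C * C', m, fun _ z hz => ?_⟩
  rw [norm_iteratedFDeriv_eq_norm_iteratedDeriv, Real.norm_eq_abs]
  calc _ ≤ C * (φ (f z) * (1 + |Real.log (φ (f z))|) ^ m) := hC _
    _ ≤ C * (C' * (W z * (1 + |Real.log (W z)|) ^ m)) :=
        mul_le_mul_of_nonneg_left (hC' _ _ (hφ0 _) (h z hz) (hW1 z hz)) hC0
    _ = C * C' * (W z * (1 + |Real.log (W z)|) ^ m) := by ring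

end D2aux

theorem D2_EE (U : Set E5) (W ww : E5 → ℝ) (hU : IsOpen U) (hW : ∀ z ∈ U, 0 < W z)
    (hW1 : ∀ z ∈ U, W z ≤ 1)
    (hww : Sl (fun _ : Unit => U) (fun _ z => 1 + |Real.log (W z)|) (fun _ => ww))
    (h : ∀ z ∈ U, EE (ww z) ≤ W z) :
    Cl (fun _ : Unit => U) (fun _ => W) (fun _ z => 1 + |Real.log (W z)|)
      (fun _ z => EE (ww z)) :=
  d2_flat hU EE_sm EE_nonneg EE_flat hW hW1 hww h

theorem D2_el (l : ℕ) (U : Set E5) (W : E5 → ℝ) (hU : IsOpen U) (hW : ∀ z ∈ U, 0 < W z)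
    (hW1 : ∀ z ∈ U, W z ≤ 1) (h : ∀ z ∈ U, el l z.2 ≤ W z) :
    Cl (fun _ : Unit => U) (fun _ => W) (fun _ z => 1 + |Real.log (W z)|)
      (fun _ z => el l z.2) := by
  have hCo : Co (fun _ : Unit => U) (fun _ z => 1 + |Real.log (W z)|) := ⟨fun _ => hU,
    fun _ z _ => by
      have := abs_nonneg (Real.log (W z))
      linarith⟩
  have h1 : Sl (fun _ : Unit => U) (fun _ z => 1 + |Real.log (W z)|)
      (fun _ z => ((ContinuousLinearMap.fst ℝ ℝ ℝ).comp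
        (ContinuousLinearMap.snd ℝ E3 (ℝ × ℝ))) z + 0) := d2_sl_affine hCo _ _
  have h2 : Sl (fun _ : Unit => U) (fun _ z => 1 + |Real.log (W z)|)
      (fun _ z => ((ContinuousLinearMap.snd ℝ ℝ ℝ).comp
        (ContinuousLinearMap.snd ℝ E3 (ℝ × ℝ))) z + -jL l) := d2_sl_affine hCo _ _
  have e1' : ∀ z : E5, ((ContinuousLinearMap.fst ℝ ℝ ℝ).comp
      (ContinuousLinearMap.snd ℝ E3 (ℝ × ℝ))) z + 0 = z.2.1 := fun z => by
    rw [add_zero]
    rfl
  have e2' : ∀ z : E5, ((ContinuousLinearMap.snd ℝ ℝ ℝ).comp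
      (ContinuousLinearMap.snd ℝ E3 (ℝ × ℝ))) z + -jL l = z.2.2 - jL l := fun z => by
    rw [sub_eq_add_neg]
    rfl
  have h3 := d2_flat hU e1_sm e1_nonneg e1_flat hW hW1 h1 (fun z hz => by
    rw [e1' z]
    refine le_trans ?_ (h z hz)
    simp only [el]
    have := e1_nonneg (z.2.2 - jL l)
    linarith)
  have h4 := d2_flat hU e1_sm e1_nonneg e1_flat hW hW1 h2 (fun z hz => by
    rw [e2' z]
    refine le_trans ?_ (h z hz)
    simp only [el]
    have := e1_nonneg z.2.1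
    linarith)
  refine (h3.add h4 hCo (fun _ z hz => (hW z hz).le)).congr hCo (fun _ z _ => ?_)
  simp only [e1' z, e2' z, el]

theorem D2_H (U : Set E5) (W ww V : E5 → ℝ) (hU : IsOpen U) (hW : ∀ z ∈ U, 0 < W z)
    (hW1 : ∀ z ∈ U, W z ≤ 1)
    (hww : Sl (fun _ : Unit => U) (fun _ z => 1 + |Real.log (W z)|) (fun _ => ww))
    (hV : Cl (fun _ : Unit => U) (fun _ z => Real.sqrt (W z)) (fun _ z => 1 + |Real.log (W z)|)
      (fun _ => V))
    (hV0 : ∀ z ∈ U, 0 ≤ V z) (h : ∀ z ∈ U, EE (ww z) ≤ W z) :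
    Cl (fun _ : Unit => U) (fun _ z => W z * Real.sqrt (W z)) (fun _ z => 1 + |Real.log (W z)|)
      (fun _ z => EE (ww z - V z) - EE (ww z)) := by
  have hCo : Co (fun _ : Unit => U) (fun _ z => 1 + |Real.log (W z)|) := ⟨fun _ => hU,
    fun _ z _ => by
      have := abs_nonneg (Real.log (W z))
      linarith⟩
  have hs0 : ∀ (j : Unit), ∀ z ∈ (fun _ : Unit => U) j, 0 ≤ Real.sqrt (W z) :=
    fun _ z _ => Real.sqrt_nonneg _
  have hVn := hV.neg
  have hVs := hVn.sl hCo hs0 1 0 (fun _ z hz => by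
    rw [pow_zero, mul_one, Real.sqrt_le_one]
    exact hW1 z hz)
  have hd := Cl.diff (ξ := EE) (w := fun _ => W) EE_sm hCo (fun _ z hz => (hW z hz).le) hs0 hww hVn
    hVs (fun i hi => by
      obtain ⟨C, m, hC0, hC⟩ := EE_flat i
      obtain ⟨C', hC'0, hC'⟩ := log_mono m
      refine ⟨C * C', m, fun _ z hz s hs => ?_⟩
      have h1 : EE (ww z + s * -V z) ≤ W z := by
        refine le_trans (EE_mono ?_) (h z hz)
        have := mul_nonneg hs.1 (hV0 z hz)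
        linarith
      calc _ ≤ C * (EE (ww z + s * -V z) * (1 + |Real.log (EE (ww z + s * -V z))|) ^ m) := hC _
        _ ≤ C * (C' * (W z * (1 + |Real.log (W z)|) ^ m)) :=
            mul_le_mul_of_nonneg_left (hC' _ _ (EE_nonneg _) h1 (hW1 z hz)) hC0
        _ = C * C' * (W z * (1 + |Real.log (W z)|) ^ m) := by ring)
  exact hd.congr hCo (fun _ z _ => by rw [sub_eq_add_neg (ww z) (V z)])

end CI
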