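import Pool.Agent.LibCI87.Reg
import Pool.Agent.LibCI87.A1
import Pool.Agent.LibCI87.A2
import Pool.Agent.LibCI87.A4
import Pool.Agent.LibCI87.A5
import Pool.Agent.LibCI87.A6
import Pool.Agent.LibCI87.B11
import Pool.Agent.LibCI87.C5

/-! ROW D3.  The fibre difference is tiny. -/

set_option autoImplicit false

namespace CI

open Set Function Filter Topology

section D3aux

variable {ι E F G : Type*} [NormedAddCommGroup E] [NormedSpace ℝ E] [NormedAddCommGroup F]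
  [NormedSpace ℝ F] [NormedAddCommGroup G] [NormedSpace ℝ G]

theorem d3_comp (L : E →L[ℝ] F) (hL : ‖L‖ ≤ 1) {f : F → G} (hf : Sm f) (i : ℕ) (z : E) :
    ‖iteratedFDeriv ℝ i (fun z => f (L z)) z‖ ≤ ‖iteratedFDeriv ℝ i f (L z)‖ := by
  have h := L.iteratedFDeriv_comp_right (n := ((⊤ : ℕ∞) : WithTop ℕ∞)) hf z (i := i)
    (by exact_mod_cast le_top)
  have h2 : (fun z => f (L z)) = f ∘ L := rfl
  rw [h2, h]
  refine (ContinuousMultilinearMap.norm_compContinuousLinearMap_le _ _).trans ?_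
  rw [Finset.prod_const]
  calc ‖iteratedFDeriv ℝ i f (L z)‖ * ‖L‖ ^ (Finset.univ : Finset (Fin i)).card
      ≤ ‖iteratedFDeriv ℝ i f (L z)‖ * 1 :=
        mul_le_mul_of_nonneg_left (pow_le_one₀ (norm_nonneg _) hL) (norm_nonneg _)
    _ = _ := mul_one _

theorem d3_tn_congr {U : ι → Set E} {Λ : ι → E → ℝ} {f g : ι → E → F} (h : Tn U Λ f)
    (hU : ∀ j, IsOpen (U j)) (hfg : ∀ j, ∀ z ∈ U j, g j z = f j z) : Tn U Λ g := by
  have hev : ∀ j, ∀ z ∈ U j, g j =ᶠ[𝓝 z] f j := fun j z hz => by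
    filter_upwards [(hU j).mem_nhds hz] with y hy
    exact hfg j y hy
  refine ⟨fun j z hz => (h.smooth j z hz).congr_of_eventuallyEq (hev j z hz), fun i k => ?_⟩
  obtain ⟨C, hC⟩ := h.bound i k
  refine ⟨C, fun j z hz => ?_⟩
  rw [((hev j z hz).iteratedFDeriv ℝ i).eq_of_nhds]
  exact hC j z hz

end D3aux

theorem D3_R (l : ℕ) : ∃ R : ℝ × ℝ → ℝ, Sm R ∧ ∀ y : ℝ × ℝ, |y.2| ≤ 1 / 8 →
    el l (DD y) - el l y = hh y.1 * R y := by
  have hde : Sm (deriv e1) := (contDiff_infty_iff_deriv.1 e1_sm).2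
  have hf : Sm (fun q : (ℝ × ℝ) × ℝ => deriv e1 (q.1.2 - jL l + q.2 * hh q.1.1)) := by
    refine hde.comp ?_
    refine ((contDiff_snd.comp contDiff_fst).sub contDiff_const).add ?_
    exact contDiff_snd.mul (hh_sm.comp (contDiff_fst.comp contDiff_fst))
  refine ⟨fun y => ∫ s in (0:ℝ)..1, deriv e1 (y.2 - jL l + s * hh y.1), ?_, ?_⟩
  · refine contDiff_iff_contDiffAt.2 (fun y => ?_)
    exact (integral_param (f := fun (y : ℝ × ℝ) (s : ℝ) => deriv e1 (y.2 - jL l + s * hh y.1))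
      isOpen_univ hf.contDiffOn y (mem_univ _)).1
  · intro y hy
    rw [DD_eq hy]
    have h1 : ∀ s : ℝ, HasDerivAt (fun s => e1 (y.2 - jL l + s * hh y.1))
        (hh y.1 * deriv e1 (y.2 - jL l + s * hh y.1)) s := by
      intro s
      have h2 : HasDerivAt e1 (deriv e1 (y.2 - jL l + s * hh y.1)) (y.2 - jL l + s * hh y.1) :=
        (e1_sm.differentiable (by simp)).differentiableAt.hasDerivAt
      have h3 : HasDerivAt (fun s : ℝ => y.2 - jL l + s * hh y.1) (hh y.1) s := by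
        have h4 := ((hasDerivAt_id s).mul_const (hh y.1)).const_add (y.2 - jL l)
        simpa using h4
      have h5 := h2.comp s h3
      rw [mul_comm] at h5
      exact h5
    have hcont : Continuous (fun s : ℝ => deriv e1 (y.2 - jL l + s * hh y.1)) :=
      hde.continuous.comp (by fun_prop)
    have h6 := intervalIntegral.integral_eq_sub_of_hasDerivAt (a := 0) (b := 1)
      (fun s _ => h1 s) ((continuous_const.mul hcont).intervalIntegrable _ _)
    rw [intervalIntegral.integral_const_mul] at h6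
    rw [h6]
    simp only [el, one_mul, zero_mul, add_zero]
    ring_nf

theorem D3_F (l : ℕ) (U : Set E5) (W Λ : E5 → ℝ) (hU : IsOpen U) (hW : ∀ z ∈ U, 0 < W z)
    (hW1 : ∀ z ∈ U, W z ≤ 1) (hΛ : ∀ z ∈ U, 1 ≤ Λ z) (K : ℝ) (hK : ∀ z ∈ U, W z * Λ z ≤ K)
    (hcl : Cl (fun _ : Unit => U) (fun _ => W) (fun _ => Λ) (fun _ => W))
    (hy : ∀ z ∈ U, |z.2.1| < 1 / 16 ∧ |z.2.2 - jL l| < 1 / 16)
    (hel : ∀ z ∈ U, el l z.2 ≤ W z) :
    Tn (fun _ : Unit => U) (fun _ => Λ) (fun _ z => (el l (DD z.2) - el l z.2) / W z) := by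
  obtain ⟨R, hRs, hR⟩ := D3_R l
  let Λ' : E5 → ℝ := fun z => (W z)⁻¹
  have hΛ'1 : ∀ z ∈ U, 1 ≤ Λ' z := fun z hz => (one_le_inv₀ (hW z hz)).2 (hW1 z hz)
  have hWΛ' : ∀ z ∈ U, W z * Λ' z = 1 := fun z hz => mul_inv_cancel₀ (hW z hz).ne'
  have hCo' : Co (fun _ : Unit => U) (fun _ => Λ') := ⟨fun _ => hU, fun _ z hz => hΛ'1 z hz⟩
  have hΛΛ' : ∀ z ∈ U, Λ z ≤ |K| * Λ' z := by
    intro z hz
    have h1 : W z * Λ z ≤ |K| := (hK z hz).trans (le_abs_self _)
    have h2 : Λ z = W z * Λ z * Λ' z := by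
      rw [mul_right_comm, hWΛ' z hz, one_mul]
    rw [h2]
    exact mul_le_mul_of_nonneg_right h1 (inv_nonneg.2 (hW z hz).le)
  -- the class of `W` with the cost `Λ'`
  have hcl' : Cl (fun _ : Unit => U) (fun _ => W) (fun _ => Λ') (fun _ => W) := by
    refine ⟨hcl.smooth, fun i => ?_⟩
    obtain ⟨C, m, hC⟩ := hcl.bound i
    refine ⟨|C| * |K| ^ m, m, fun j z hz => ?_⟩
    have hWz := (hW z hz).le
    have hΛz : 0 ≤ Λ z := zero_le_one.trans (hΛ z hz)
    calc ‖iteratedFDeriv ℝ i W z‖ ≤ C * (W z * Λ z ^ m) := hC j z hz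
      _ ≤ |C| * (W z * Λ z ^ m) := mul_le_mul_of_nonneg_right (le_abs_self _) (by positivity)
      _ ≤ |C| * (W z * (|K| * Λ' z) ^ m) := by
          refine mul_le_mul_of_nonneg_left ?_ (abs_nonneg _)
          exact mul_le_mul_of_nonneg_left (pow_le_pow_left₀ hΛz (hΛΛ' z hz) m) hWz
      _ = |C| * |K| ^ m * (W z * Λ' z ^ m) := by
          rw [mul_pow]
          ring
  have hinv : Cl (fun _ : Unit => U) (fun _ _ => 1) (fun _ => Λ') (fun _ z => (W z)⁻¹) := by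
    refine (hcl'.inv hCo' (fun _ z hz => hW z hz)).mono hCo'
      (fun _ z hz => inv_nonneg.2 (hW z hz).le) 1 1 (fun _ z hz => ?_)
    simp only [pow_one, one_mul]
    exact le_refl _
  -- the first factor
  have hhT : Tn (fun _ : Unit => U) (fun _ => Λ') (fun _ z => hh z.2.1) := by
    let L : E5 →L[ℝ] ℝ := (ContinuousLinearMap.fst ℝ ℝ ℝ).comp
      (ContinuousLinearMap.snd ℝ E3 (ℝ × ℝ))
    have hL : ‖L‖ ≤ 1 := by
      refine (ContinuousLinearMap.opNorm_comp_le _ _).trans ?_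
      calc _ ≤ (1 : ℝ) * 1 := mul_le_mul (ContinuousLinearMap.norm_fst_le _ _ _)
            (ContinuousLinearMap.norm_snd_le _ _ _) (norm_nonneg _) zero_le_one
        _ = 1 := one_mul 1
    refine ⟨fun _ z _ => (hh_sm.comp L.contDiff).contDiffAt, fun i k => ?_⟩
    obtain ⟨C, hC0, hC⟩ := hh_flat i k
    refine ⟨C, fun _ z hz => ?_⟩
    have h1 : ‖iteratedFDeriv ℝ i (fun z : E5 => hh (L z)) z‖ ≤ C * e1 (L z) ^ k := by
      refine (d3_comp L hL hh_sm i z).trans ?_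
      rw [norm_iteratedFDeriv_eq_norm_iteratedDeriv, Real.norm_eq_abs]
      refine hC _ ?_
      have h2 := (hy z hz).1
      show |z.2.1| ≤ 1 / 2
      linarith
    have h3 : e1 (L z) ≤ W z := by
      refine le_trans ?_ (hel z hz)
      show e1 z.2.1 ≤ e1 z.2.1 + e1 (z.2.2 - jL l)
      have := e1_nonneg (z.2.2 - jL l)
      linarith
    have hΛ'0 : 0 ≤ Λ' z := zero_le_one.trans (hΛ'1 z hz)
    calc _ ≤ C * e1 (L z) ^ k * Λ' z ^ k := mul_le_mul_of_nonneg_right h1 (by positivity)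
      _ ≤ C * W z ^ k * Λ' z ^ k := by
          refine mul_le_mul_of_nonneg_right ?_ (by positivity)
          exact mul_le_mul_of_nonneg_left (pow_le_pow_left₀ (e1_nonneg _) h3 k) hC0
      _ = C * (W z * Λ' z) ^ k := by
          rw [mul_pow]
          ring
      _ = C := by rw [hWΛ' z hz, one_pow, mul_one]
  -- the second factor
  have hRc : Cl (fun _ : Unit => U) (fun _ _ => 1) (fun _ => Λ') (fun _ z => R z.2) := by
    let L : E5 →L[ℝ] (ℝ × ℝ) := ContinuousLinearMap.snd ℝ E3 (ℝ × ℝ)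
    have hL : ‖L‖ ≤ 1 := ContinuousLinearMap.norm_snd_le _ _ _
    refine ⟨fun _ z _ => (hRs.comp L.contDiff).contDiffAt, fun i => ?_⟩
    have hcomp : IsCompact (Icc (-(1 / 16) : ℝ) (1 / 16) ×ˢ
        Icc (jL l - 1 / 16) (jL l + 1 / 16)) := isCompact_Icc.prod isCompact_Icc
    obtain ⟨C, hC⟩ := hcomp.exists_bound_of_continuousOn
      (f := iteratedFDeriv ℝ i R) (hRs.continuous_iteratedFDeriv (by exact_mod_cast le_top)).continuousOn
    refine ⟨C, 0, fun _ z hz => ?_⟩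
    simp only [pow_zero, mul_one]
    refine (d3_comp L hL hRs i z).trans (hC _ ?_)
    obtain ⟨h1, h2⟩ := hy z hz
    rw [abs_lt] at h1 h2
    refine ⟨⟨h1.1.le, h1.2.le⟩, ⟨?_, ?_⟩⟩
    · show jL l - 1 / 16 ≤ z.2.2
      linarith [h2.1]
    · show z.2.2 ≤ jL l + 1 / 16
      linarith [h2.2]
  have hprod : Tn (fun _ : Unit => U) (fun _ => Λ')
      (fun _ z => hh z.2.1 * (R z.2 * (W z)⁻¹)) := by
    refine hhT.mul_cl ?_ hCo'
    refine (hRc.mul hinv hCo' (fun _ _ _ => zero_le_one) (fun _ _ _ => zero_le_one)).mono hCo'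
      (fun _ _ _ => by norm_num) 1 0 (fun _ z hz => by simp)
  have hprod2 : Tn (fun _ : Unit => U) (fun _ => Λ)
      (fun _ z => hh z.2.1 * (R z.2 * (W z)⁻¹)) := by
    refine ⟨hprod.smooth, fun i k => ?_⟩
    obtain ⟨C, hC⟩ := hprod.bound i k
    refine ⟨|K| ^ k * C, fun j z hz => ?_⟩
    have hΛz : 0 ≤ Λ z := zero_le_one.trans (hΛ z hz)
    calc _ ≤ ‖iteratedFDeriv ℝ i (fun z : E5 => hh z.2.1 * (R z.2 * (W z)⁻¹)) z‖ *
          (|K| * Λ' z) ^ k :=
          mul_le_mul_of_nonneg_left (pow_le_pow_left₀ hΛz (hΛΛ' z hz) k) (norm_nonneg _)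
      _ = |K| ^ k * (‖iteratedFDeriv ℝ i (fun z : E5 => hh z.2.1 * (R z.2 * (W z)⁻¹)) z‖ *
          Λ' z ^ k) := by
          rw [mul_pow]
          ring
      _ ≤ |K| ^ k * C := mul_le_mul_of_nonneg_left (hC j z hz) (by positivity)
  refine d3_tn_congr hprod2 (fun _ => hU) (fun _ z hz => ?_)
  have h1 : |z.2.2| ≤ 1 / 8 := by
    have h2 := abs_lt.1 (hy z hz).2
    have h3 := jL_pos l
    have h4 := jL_le l
    rw [abs_le]
    constructor <;> linarith [h2.1, h2.2]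
  rw [hR z.2 h1, div_eq_mul_inv, mul_assoc]

end CI
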