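import Pool.Agent.LibCI87.D1
import Pool.Agent.LibCI87.D2
import Pool.Agent.LibCI87.D3

/-! ROW D4.  Common part of the two tips. -/

set_option autoImplicit false

namespace CI

open Set Function Filter Topology

section D4aux

variable {ι E F : Type*} [NormedAddCommGroup E] [NormedSpace ℝ E] [NormedAddCommGroup F]
  [NormedSpace ℝ F]

theorem d4_affine (f : E → F) (L : E →L[ℝ] F) (hf : ∀ z, HasFDerivAt f L z) (i : ℕ) (hi : 1 ≤ i)
    (z : E) : ‖iteratedFDeriv ℝ i f z‖ ≤ ‖L‖ := by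
  obtain ⟨k, rfl⟩ := Nat.exists_eq_add_of_le hi
  rw [add_comm 1 k, ← norm_iteratedFDeriv_fderiv]
  have h : fderiv ℝ f = fun _ => L := by
    funext y
    exact (hf y).fderiv
  rw [h]
  rcases Nat.eq_zero_or_pos k with rfl | hk
  · rw [norm_iteratedFDeriv_zero]
  · rw [iteratedFDeriv_const_of_ne (by omega)]
    simp

theorem d4_affine_sm (f : E → F) (L : E →L[ℝ] F) (hf : ∀ z, HasFDerivAt f L z) : Sm f := by
  have h : f = fun z => L z + f 0 := by
    have h1 : ∀ z, HasFDerivAt (fun z => f z - L z) (0 : E →L[ℝ] F) z := fun z => by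
      have h2 := (hf z).sub L.hasFDerivAt
      rwa [sub_self] at h2
    have h3 : ∀ z, f z - L z = f 0 - L 0 := by
      intro z
      have h4 : Differentiable ℝ (fun z => f z - L z) := fun z => (h1 z).differentiableAt
      exact is_const_of_fderiv_eq_zero h4 (fun z => (h1 z).fderiv) z 0
    funext z
    have h5 := h3 z
    rw [map_zero, sub_zero] at h5
    rw [← h5]
    abel
  rw [h]
  exact L.contDiff.add contDiff_const

theorem d4_sl_add {U : ι → Set E} {Λ : ι → E → ℝ} {f g : ι → E → F} (hU : Co U Λ)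
    (hf : Sl U Λ f) (hg : Sl U Λ g) : Sl U Λ (fun j z => f j z + g j z) := by
  refine ⟨fun j z hz => (hf.smooth j z hz).add (hg.smooth j z hz), fun i hi => ?_⟩
  obtain ⟨C₁, m₁, h₁⟩ := hf.bound i hi
  obtain ⟨C₂, m₂, h₂⟩ := hg.bound i hi
  refine ⟨|C₁| + |C₂|, max m₁ m₂, fun j z hz => ?_⟩
  have hL := hU.one_le j z hz
  have h3 : iteratedFDeriv ℝ i (fun z => f j z + g j z) z =
      iteratedFDeriv ℝ i (f j) z + iteratedFDeriv ℝ i (g j) z := by
    have h4 := iteratedFDeriv_add_apply (𝕜 := ℝ) (i := i) (x := z) (f := f j) (g := g j)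
      ((hf.smooth j z hz).of_le (by exact_mod_cast le_top))
      ((hg.smooth j z hz).of_le (by exact_mod_cast le_top))
    exact h4
  rw [h3]
  refine (norm_add_le _ _).trans ?_
  rw [add_mul]
  refine add_le_add ?_ ?_
  · calc ‖iteratedFDeriv ℝ i (f j) z‖ ≤ C₁ * Λ j z ^ m₁ := h₁ j z hz
      _ ≤ |C₁| * Λ j z ^ m₁ := mul_le_mul_of_nonneg_right (le_abs_self _) (by positivity)
      _ ≤ |C₁| * Λ j z ^ max m₁ m₂ :=
          mul_le_mul_of_nonneg_left (pow_le_pow_right₀ hL (le_max_left _ _)) (abs_nonneg _)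
  · calc ‖iteratedFDeriv ℝ i (g j) z‖ ≤ C₂ * Λ j z ^ m₂ := h₂ j z hz
      _ ≤ |C₂| * Λ j z ^ m₂ := mul_le_mul_of_nonneg_right (le_abs_self _) (by positivity)
      _ ≤ |C₂| * Λ j z ^ max m₁ m₂ :=
          mul_le_mul_of_nonneg_left (pow_le_pow_right₀ hL (le_max_right _ _)) (abs_nonneg _)

end D4aux

theorem tip (P : Par) (l i : ℕ) (σ c₀ c₁ : ℝ) : ∃ δ₀ : ℝ, 0 < δ₀ ∧ ∀ (U : Set E5) (W ww : E5 → ℝ),
    IsOpen U → (∀ z ∈ U, 0 < W z) → (∀ z ∈ U, W z ≤ 1) →
    (∀ z ∈ U, |eta P z.1 - aL l| < 1 / 2) →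
    (∀ z ∈ U, |wl P (i + 1) z.1.1 - tt P (i + 1)| < δ₀) →
    (∀ z ∈ U, NN P z.1.1 = vloc P (wl P (i + 1) z.1.1) - nn P (i + 1)) →
    (∀ z ∈ U, VV P z.1.1 = lam P * deriv (vloc P) (wl P (i + 1) z.1.1)) →
    (∀ z ∈ U, |z.2.1| < 1 / 16 ∧ |z.2.2 - jL l| < 1 / 16) →
    (∀ z, ww z = σ * (z.1.1.1 - c₀) + σ * (aL l - eta P z.1 + c₁) * VV P z.1.1) →
    (∀ z, W z = NN P z.1.1 ^ 2 + EE (ww z) + el l z.2) →
    Cl (fun _ : Unit => U) (fun _ => W) (fun _ z => 1 + |Real.log (W z)|) (fun _ => W) ∧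
    Tn (fun _ : Unit => U) (fun _ z => 1 + |Real.log (W z)|)
      (fun _ z => (EE (ww z - VV P z.1.1) - EE (ww z)) / W z) ∧
    Tn (fun _ : Unit => U) (fun _ z => 1 + |Real.log (W z)|)
      (fun _ z => (el l (DD z.2) - el l z.2) / W z) := by
  obtain ⟨δ₀, hδ₀, hNV⟩ := D1_NV P i
  refine ⟨δ₀, hδ₀, ?_⟩
  intro U W ww hUo hWpos hW1 heta hwl hN hV hy hww hW
  have hCo : Co (fun _ : Unit => U) (fun _ z => 1 + |Real.log (W z)|) := ⟨fun _ => hUo,
    fun _ z _ => by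
      have := abs_nonneg (Real.log (W z))
      linarith⟩
  have hN2 : ∀ z, NN P z.1.1 ^ 2 ≤ W z := fun z => by
    rw [hW z]
    have h1 := EE_nonneg (ww z)
    have h2 := el_nonneg l z.2
    linarith
  have hEE : ∀ z ∈ U, EE (ww z) ≤ W z := fun z _ => by
    rw [hW z]
    have h1 := sq_nonneg (NN P z.1.1)
    have h2 := el_nonneg l z.2
    linarith
  have hel : ∀ z ∈ U, el l z.2 ≤ W z := fun z _ => by
    rw [hW z]
    have h1 := sq_nonneg (NN P z.1.1)
    have h2 := EE_nonneg (ww z)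
    linarith
  obtain ⟨hcN, hcV⟩ := hNV U W hUo hWpos hW1 hwl (fun z hz => by
    rw [← hN z hz]
    exact hN2 z)
  have hs0 : ∀ (j : Unit), ∀ z ∈ (fun _ : Unit => U) j, 0 ≤ Real.sqrt (W z) :=
    fun _ z _ => Real.sqrt_nonneg _
  have hW0 : ∀ (j : Unit), ∀ z ∈ (fun _ : Unit => U) j, 0 ≤ W z := fun _ z hz => (hWpos z hz).le
  have hclN : Cl (fun _ : Unit => U) (fun _ z => Real.sqrt (W z))
      (fun _ z => 1 + |Real.log (W z)|) (fun _ z => NN P z.1.1) :=
    hcN.congr hCo (fun _ z hz => (hN z hz).symm)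
  have hclV : Cl (fun _ : Unit => U) (fun _ z => Real.sqrt (W z))
      (fun _ z => 1 + |Real.log (W z)|) (fun _ z => VV P z.1.1) :=
    hcV.congr hCo (fun _ z hz => (hV z hz).symm)
  have hclNN : Cl (fun _ : Unit => U) (fun _ => W) (fun _ z => 1 + |Real.log (W z)|)
      (fun _ z => NN P z.1.1 * NN P z.1.1) := by
    refine (hclN.mul hclN hCo hs0 hs0).mono hCo
      (fun _ z _ => mul_nonneg (Real.sqrt_nonneg _) (Real.sqrt_nonneg _)) 1 0 (fun _ z hz => ?_)
    rw [Real.mul_self_sqrt (hWpos z hz).le]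
    simp
  -- the class of `ww`
  have hsl1 : Sl (fun _ : Unit => U) (fun _ z => 1 + |Real.log (W z)|)
      (fun _ z => σ * (z.1.1.1 - c₀)) := by
    let L : E5 →L[ℝ] ℝ := σ • ((ContinuousLinearMap.fst ℝ ℝ ℝ).comp
      ((ContinuousLinearMap.fst ℝ (ℝ × ℝ) ℝ).comp (ContinuousLinearMap.fst ℝ E3 (ℝ × ℝ))))
    have hL : ∀ z : E5, HasFDerivAt (fun z : E5 => σ * (z.1.1.1 - c₀)) L z := by
      intro z
      have h : (fun z : E5 => σ * (z.1.1.1 - c₀)) = fun z => L z - σ * c₀ := by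
        funext z
        simp [L]
        ring
      rw [h]
      exact L.hasFDerivAt.sub_const _
    exact Sl.of_bounded hCo _ (d4_affine_sm _ L hL) (fun i hi => ⟨‖L‖, fun _ z _ =>
      d4_affine _ L hL i hi z⟩)
  have hcl2 : Cl (fun _ : Unit => U) (fun _ _ => 1) (fun _ z => 1 + |Real.log (W z)|)
      (fun _ z => σ * (aL l - eta P z.1 + c₁)) := by
    let L : E5 →L[ℝ] ℝ := (-σ) • (((ContinuousLinearMap.snd ℝ (ℝ × ℝ) ℝ).comp
      (ContinuousLinearMap.fst ℝ E3 (ℝ × ℝ))) - P.be • ((ContinuousLinearMap.fst ℝ ℝ ℝ).comp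
      ((ContinuousLinearMap.fst ℝ (ℝ × ℝ) ℝ).comp (ContinuousLinearMap.fst ℝ E3 (ℝ × ℝ)))))
    have hL : ∀ z : E5, HasFDerivAt (fun z : E5 => σ * (aL l - eta P z.1 + c₁)) L z := by
      intro z
      have h : (fun z : E5 => σ * (aL l - eta P z.1 + c₁)) = fun z => L z + σ * (aL l + c₁) := by
        funext z
        simp [L, eta]
        ring
      rw [h]
      exact L.hasFDerivAt.add_const _
    refine ⟨fun _ z _ => (d4_affine_sm _ L hL).contDiffAt, fun i => ?_⟩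
    rcases Nat.eq_zero_or_pos i with rfl | hi
    · refine ⟨|σ| * (1 / 2 + |c₁|), 0, fun _ z hz => ?_⟩
      rw [norm_iteratedFDeriv_zero, Real.norm_eq_abs, abs_mul]
      simp only [pow_zero, mul_one]
      refine mul_le_mul_of_nonneg_left ?_ (abs_nonneg _)
      refine (abs_add_le _ _).trans (add_le_add_left ?_ _)
      rw [abs_sub_comm]
      exact (heta z hz).le
    · refine ⟨‖L‖, 0, fun _ z _ => ?_⟩
      simp only [pow_zero, mul_one]
      exact d4_affine _ L hL i hi z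
  have hcl3 : Cl (fun _ : Unit => U) (fun _ _ => 1) (fun _ z => 1 + |Real.log (W z)|)
      (fun _ z => σ * (aL l - eta P z.1 + c₁) * VV P z.1.1) := by
    refine (hcl2.mul hclV hCo (fun _ _ _ => zero_le_one) hs0).mono hCo
      (fun _ z _ => mul_nonneg zero_le_one (Real.sqrt_nonneg _)) 1 0 (fun _ z hz => ?_)
    simp only [pow_zero, mul_one, one_mul]
    rw [Real.sqrt_le_one]
    exact hW1 z hz
  have hsl3 : Sl (fun _ : Unit => U) (fun _ z => 1 + |Real.log (W z)|)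
      (fun _ z => σ * (aL l - eta P z.1 + c₁) * VV P z.1.1) :=
    hcl3.sl hCo (fun _ _ _ => zero_le_one) 1 0 (fun _ _ _ => by simp)
  have hslww : Sl (fun _ : Unit => U) (fun _ z => 1 + |Real.log (W z)|) (fun _ => ww) := by
    have h1 := d4_sl_add hCo hsl1 hsl3
    have h2 : (fun (_ : Unit) => ww) = fun _ z =>
        σ * (z.1.1.1 - c₀) + σ * (aL l - eta P z.1 + c₁) * VV P z.1.1 := by
      funext _ z
      exact hww z
    rw [h2]
    exact h1
  have hclEE := D2_EE U W ww hUo hWpos hW1 hslww hEE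
  have hclel := D2_el l U W hUo hWpos hW1 hel
  have hclW : Cl (fun _ : Unit => U) (fun _ => W) (fun _ z => 1 + |Real.log (W z)|)
      (fun _ => W) := by
    refine ((hclNN.add hclEE hCo hW0).add hclel hCo hW0).congr hCo (fun _ z _ => ?_)
    rw [hW z]
    ring
  have hV0 : ∀ z ∈ U, 0 ≤ VV P z.1.1 := fun z _ => VV_nonneg P _
  have hclH := D2_H U W ww (fun z => VV P z.1.1) hUo hWpos hW1 hslww hclV hV0 hEE
  have hclInv := hclW.inv hCo (fun _ z hz => hWpos z hz)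
  refine ⟨hclW, ?_, ?_⟩
  · have h1 := hclH.mul hclInv hCo
      (fun _ z hz => mul_nonneg (hWpos z hz).le (Real.sqrt_nonneg _))
      (fun _ z hz => inv_nonneg.2 (hWpos z hz).le)
    have h2 : (fun (_ : Unit) (z : E5) => (EE (ww z - VV P z.1.1) - EE (ww z)) / W z) =
        fun _ z => (EE (ww z - VV P z.1.1) - EE (ww z)) * (W z)⁻¹ := by
      funext _ z
      exact div_eq_mul_inv _ _
    rw [h2]
    refine Tn.of_cl h1 ?_ hCo ?_
    · exact fun _ z hz => mul_nonneg (mul_nonneg (hWpos z hz).le (Real.sqrt_nonneg _))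
        (inv_nonneg.2 (hWpos z hz).le)
    · intro k
      obtain ⟨C, hC⟩ := log_sqrt_bdd k
      refine ⟨C, fun _ z hz => ?_⟩
      have h3 : W z * Real.sqrt (W z) * (W z)⁻¹ = Real.sqrt (W z) := by
        rw [mul_comm (W z) (Real.sqrt (W z)), mul_assoc, mul_inv_cancel₀ (hWpos z hz).ne', mul_one]
      rw [h3]
      exact hC (W z) (hWpos z hz).le (hW1 z hz)
  · obtain ⟨K, hK⟩ := log_bdd 1
    refine D3_F l U W (fun z => 1 + |Real.log (W z)|) hUo hWpos hW1 (fun z hz => hCo.one_le () z hz)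
      K (fun z hz => ?_) hclW hy hel
    have h1 := hK (W z) (hWpos z hz).le (hW1 z hz)
    rw [pow_one] at h1
    exact h1

end CI
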