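import Pool.Agent.LibCI87.D2
import Pool.Agent.LibCI87.D3
import Pool.Agent.LibCI87.C6
import Pool.Agent.LibCI87.A2

/-! ROW D6.  The middle region is regular. -/

set_option autoImplicit false

namespace CI

open Set Function Filter Topology

section D6aux

variable {ι E F G : Type*} [NormedAddCommGroup E] [NormedSpace ℝ E] [NormedAddCommGroup F]
  [NormedSpace ℝ F] [NormedAddCommGroup G] [NormedSpace ℝ G]

theorem d6_comp (L : E →L[ℝ] F) (hL : ‖L‖ ≤ 1) {f : F → G} (hf : Sm f) (i : ℕ) (z : E) :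
    ‖iteratedFDeriv ℝ i (fun z => f (L z)) z‖ ≤ ‖iteratedFDeriv ℝ i f (L z)‖ := by
  have h := L.iteratedFDeriv_comp_right (n := ((⊤ : ℕ∞) : WithTop ℕ∞)) hf z (i := i)
    (by exact_mod_cast le_top)
  have h2 : (fun z => f (L z)) = f ∘ L := rfl
  rw [h2, h]
  refine (ContinuousMultilinearMap.norm_compContinuousLinearMap_le _ _).trans ?_
  rw [Finset.prod_const]
  calc ‖iteratedFDeriv ℝ i f (L z)‖ * ‖L‖ ^ (Finset.univ : Finset (Fin i)).card
      ≤ ‖iteratedFDeriv ℝ i f (L z)‖ * 1 :=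
        mul_le_mul_of_nonneg_left (pow_le_one₀ (norm_nonneg _) hL) (norm_nonneg _)
    _ = _ := mul_one _

theorem d6_cost {U : ι → Set E} {w Λ Λ' : ι → E → ℝ} {f : ι → E → F} (h : Cl U w Λ f)
    (hw : ∀ j, ∀ z ∈ U j, 0 ≤ w j z) (h0 : ∀ j, ∀ z ∈ U j, 0 ≤ Λ j z)
    (hΛ : ∀ j, ∀ z ∈ U j, Λ j z ≤ Λ' j z) : Cl U w Λ' f := by
  refine ⟨h.smooth, fun i => ?_⟩
  obtain ⟨C, m, hC⟩ := h.bound i
  refine ⟨|C|, m, fun j z hz => ?_⟩
  have h1 := hw j z hz
  have h2 := h0 j z hz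
  calc ‖iteratedFDeriv ℝ i (f j) z‖ ≤ C * (w j z * Λ j z ^ m) := hC j z hz
    _ ≤ |C| * (w j z * Λ j z ^ m) := mul_le_mul_of_nonneg_right (le_abs_self _) (by positivity)
    _ ≤ |C| * (w j z * Λ' j z ^ m) := by
        refine mul_le_mul_of_nonneg_left ?_ (abs_nonneg _)
        exact mul_le_mul_of_nonneg_left (pow_le_pow_left₀ h2 (hΛ j z hz) m) h1

theorem d6_tn_zero {U : ι → Set E} {Λ : ι → E → ℝ} (W : ι → E → ℝ) :
    Tn U Λ (fun j z => (0 : ℝ) / W j z) := by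
  have h : (fun (j : ι) (z : E) => (0 : ℝ) / W j z) = fun _ _ => 0 := by
    funext j z
    exact zero_div _
  rw [h]
  refine ⟨fun j z _ => contDiffAt_const, fun i k => ⟨0, fun j z _ => ?_⟩⟩
  have h2 : iteratedFDeriv ℝ i (fun _ : E => (0 : ℝ)) z = 0 := by simp
  rw [h2, norm_zero, zero_mul]

theorem d6_tn_sub {U U' : ι → Set E} {Λ : ι → E → ℝ} {f : ι → E → F} (h : Tn U Λ f)
    (hU : ∀ j, U' j ⊆ U j) : Tn U' Λ f :=
  ⟨fun j z hz => h.smooth j z (hU j hz), fun i k => by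
    obtain ⟨C, hC⟩ := h.bound i k
    exact ⟨C, fun j z hz => hC j z (hU j hz)⟩⟩

end D6aux

theorem d6_small (w₀ : ℝ) (hw : 0 < w₀) : ∃ δ : ℝ, 0 < δ ∧ ∀ n t s : ℝ, |n| < δ → |t| < δ →
    |s| < δ → n ^ 2 + (e1 t + e1 s) < w₀ := by
  obtain ⟨r, hr, hr2⟩ := Metric.continuous_iff.1 e1_sm.continuous 0 (w₀ / 4) (by linarith)
  have h0 : e1 0 = 0 := (e1_zero_iff 0).2 rfl
  have h1 : ∀ t : ℝ, |t| < r → e1 t < w₀ / 4 := by
    intro t ht
    have h2 := hr2 t (by rw [Real.dist_eq, sub_zero]; exact ht)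
    rw [h0, Real.dist_eq, sub_zero, abs_of_nonneg (e1_nonneg t)] at h2
    exact h2
  refine ⟨min r (min (w₀ / 4) 1), lt_min hr (lt_min (by linarith) one_pos), ?_⟩
  intro n t s hn ht hs
  have h3 := h1 t (ht.trans_le (min_le_left _ _))
  have h4 := h1 s (hs.trans_le (min_le_left _ _))
  have h5 : |n| < w₀ / 4 := hn.trans_le ((min_le_right _ _).trans (min_le_left _ _))
  have h6 : |n| < 1 := hn.trans_le ((min_le_right _ _).trans (min_le_right _ _))
  have h7 : n ^ 2 ≤ |n| := by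
    rw [← sq_abs, sq]
    calc |n| * |n| ≤ |n| * 1 := mul_le_mul_of_nonneg_left h6.le (abs_nonneg _)
      _ = |n| := mul_one _
  linarith

theorem regM_reg (P : Par) (l : ℕ) : ∃ δ : ℝ, 0 < δ ∧ ∀ δ' : ℝ, 0 < δ' → δ' ≤ δ →
    ∃ W Λ f0 f1 : E5 → ℝ, Reg P l (regM P l δ') W Λ f0 f1 := by
  obtain ⟨δ₀, hδ₀, hδ₀6, hform⟩ := regM_form P l
  obtain ⟨δ₂, hδ₂, hsm⟩ := d6_small 1 one_pos
  let W : E5 → ℝ := fun z => NN P z.1.1 ^ 2 + el l z.2
  let Λ : E5 → ℝ := fun z => 1 / W z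
  let f1 : E5 → ℝ := fun z => el l (DD z.2) - el l z.2
  let U : Set E5 := regM P l (min δ₀ δ₂)
  have hU0 : U ⊆ regM P l δ₀ := regM_mono P l (min_le_left _ _)
  have hU2 : U ⊆ regM P l δ₂ := regM_mono P l (min_le_right _ _)
  have hUo : IsOpen U := regM_open P l _
  have hrb : ∀ z ∈ U, rb P l z = W z := fun z hz => (hform z (hU0 hz)).1
  have hrb' : ∀ z ∈ U, rb' P l z = W z + f1 z := fun z hz => by
    rw [(hform z (hU0 hz)).2]
    simp only [W, f1]
    ring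
  have hWpos : ∀ z ∈ U, 0 < W z := by
    intro z hz
    rw [← hrb z hz]
    have hz' : z ∈ regM P l (min δ₀ δ₂) := hz
    exact hz'.2.2.2.2.2.2
  have hW1 : ∀ z ∈ U, W z ≤ 1 := by
    intro z hz
    have hz' := hU2 hz
    exact (hsm _ _ _ hz'.2.2.2.1 hz'.2.2.2.2.1 hz'.2.2.2.2.2.1).le
  have hWΛ : ∀ z ∈ U, W z * Λ z = 1 := by
    intro z hz
    simp only [Λ]
    rw [mul_one_div, div_self (hWpos z hz).ne']
  have hlog : ∀ z ∈ U, 1 + |Real.log (W z)| ≤ Λ z := by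
    intro z hz
    have h1 := Real.log_le_sub_one_of_pos (one_div_pos.2 (hWpos z hz))
    rw [one_div, Real.log_inv] at h1
    have h2 : Real.log (W z) ≤ 0 := Real.log_nonpos (hWpos z hz).le (hW1 z hz)
    rw [abs_of_nonpos h2]
    simp only [Λ]
    rw [one_div]
    linarith
  have hΛ1 : ∀ z ∈ U, 1 ≤ Λ z := fun z hz =>
    le_trans (by have := abs_nonneg (Real.log (W z)); linarith) (hlog z hz)
  have hCo : Co (fun _ : Unit => U) (fun _ => Λ) := ⟨fun _ => hUo, fun _ z hz => hΛ1 z hz⟩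
  -- the class of `W`
  have hN : Cl (fun _ : Unit => U) (fun _ _ => 1) (fun _ => Λ) (fun _ z => NN P z.1.1) := by
    let L : E5 →L[ℝ] (ℝ × ℝ) := (ContinuousLinearMap.fst ℝ (ℝ × ℝ) ℝ).comp
      (ContinuousLinearMap.fst ℝ E3 (ℝ × ℝ))
    have hL : ‖L‖ ≤ 1 := by
      refine (ContinuousLinearMap.opNorm_comp_le _ _).trans ?_
      calc _ ≤ (1 : ℝ) * 1 := mul_le_mul (ContinuousLinearMap.norm_fst_le _ _ _)
            (ContinuousLinearMap.norm_fst_le _ _ _) (norm_nonneg _) zero_le_one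
        _ = 1 := one_mul 1
    refine ⟨fun _ z _ => ?_, fun i => ?_⟩
    · exact ((NN_sm P).comp (L.contDiff)).contDiffAt
    · rcases Nat.eq_zero_or_pos i with rfl | hi
      · refine ⟨1, 0, fun _ z hz => ?_⟩
        rw [norm_iteratedFDeriv_zero, Real.norm_eq_abs]
        have hz' : z ∈ regM P l (min δ₀ δ₂) := hz
        have h3 : |NN P z.1.1| < δ₀ := hz'.2.2.2.1.trans_le (min_le_left _ _)
        simp only [pow_zero, mul_one]
        linarith
      · obtain ⟨C, hC0, hC⟩ := NN_iter_bdd P i hi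
        refine ⟨C, 0, fun _ z hz => ?_⟩
        simp only [pow_zero, mul_one]
        exact (d6_comp L hL (NN_sm P) i z).trans (hC _)
  have hNN : Cl (fun _ : Unit => U) (fun _ => W) (fun _ => Λ)
      (fun _ z => NN P z.1.1 * NN P z.1.1) := by
    refine (hN.mul hN hCo (fun _ _ _ => zero_le_one) (fun _ _ _ => zero_le_one)).mono hCo
      (fun _ _ _ => by norm_num) 1 1 (fun _ z hz => ?_)
    simp only [pow_one, one_mul]
    rw [hWΛ z hz]
  have helle : ∀ z ∈ U, el l z.2 ≤ W z := fun z _ => by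
    have := sq_nonneg (NN P z.1.1)
    simp only [W]
    linarith
  have hel : Cl (fun _ : Unit => U) (fun _ => W) (fun _ => Λ) (fun _ z => el l z.2) :=
    d6_cost (D2_el l U W hUo hWpos hW1 helle) (fun _ z hz => (hWpos z hz).le)
      (fun _ z _ => by positivity) (fun _ z hz => hlog z hz)
  have hW : Cl (fun _ : Unit => U) (fun _ => W) (fun _ => Λ) (fun _ => W) := by
    refine (hNN.add hel hCo (fun _ z hz => (hWpos z hz).le)).congr hCo (fun _ z hz => ?_)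
    simp only [W]
    ring
  have ht1 : Tn (fun _ : Unit => U) (fun _ => Λ) (fun _ z => f1 z / W z) := by
    refine D3_F l U W Λ hUo hWpos hW1 hΛ1 1 (fun z hz => (hWΛ z hz).le) hW (fun z hz => ?_) helle
    have hz' : z ∈ regM P l (min δ₀ δ₂) := hz
    exact ⟨hz'.2.2.2.2.1.trans_le ((min_le_left _ _).trans hδ₀6),
      hz'.2.2.2.2.2.1.trans_le ((min_le_left _ _).trans hδ₀6)⟩
  obtain ⟨C, hC⟩ := ht1.bound 0 1
  obtain ⟨δ₃, hδ₃, hsm3⟩ := d6_small (1 / (2 * (|C| + 1))) (by positivity)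
  refine ⟨min (min δ₀ δ₂) δ₃, lt_min (lt_min hδ₀ hδ₂) hδ₃, fun δ' hδ' hle => ?_⟩
  have hsub : regM P l δ' ⊆ U := regM_mono P l (hle.trans (min_le_left _ _))
  have hsub3 : regM P l δ' ⊆ regM P l δ₃ := regM_mono P l (hle.trans (min_le_right _ _))
  refine ⟨W, Λ, fun _ => 0, f1, ?_⟩
  refine
    { isOpen := regM_open P l _
      pos := fun z hz => hWpos z (hsub hz)
      le_one := fun z hz => hW1 z (hsub hz)
      log_le := fun z hz => hlog z (hsub hz)
      rb_eq := fun z hz => by rw [add_zero]; exact hrb z (hsub hz)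
      rb'_eq := fun z hz => hrb' z (hsub hz)
      f0_le := fun z hz => by
        rw [abs_zero]
        exact (half_pos (hWpos z (hsub hz))).le
      f1_le := ?_
      W_cl := hW.subset (fun _ => hsub)
      t0 := d6_tn_zero (fun _ => W)
      t1 := d6_tn_sub ht1 (fun _ => hsub) }
  intro z hz
  have hzU := hsub hz
  have hWz := hWpos z hzU
  have hz3 := hsub3 hz
  have h1 : W z < 1 / (2 * (|C| + 1)) :=
    hsm3 _ _ _ hz3.2.2.2.1 hz3.2.2.2.2.1 hz3.2.2.2.2.2.1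
  have h2 := hC () z hzU
  rw [norm_iteratedFDeriv_zero, Real.norm_eq_abs, pow_one, abs_div, abs_of_pos hWz] at h2
  have h3 : |f1 z| ≤ C * W z * W z := by
    have h4 : |f1 z| / W z * Λ z = |f1 z| / (W z * W z) := by
      simp only [Λ]
      rw [div_mul_div_comm, mul_one]
    rw [h4, div_le_iff₀ (mul_pos hWz hWz)] at h2
    linarith
  have h5 : C * W z ≤ 1 / 2 := by
    rw [lt_div_iff₀ (by positivity)] at h1
    have h6 := le_abs_self C
    have h7 : C * W z ≤ |C| * W z := mul_le_mul_of_nonneg_right h6 hWz.le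
    nlinarith
  calc |f1 z| ≤ C * W z * W z := h3
    _ ≤ 1 / 2 * W z := mul_le_mul_of_nonneg_right h5 hWz.le
    _ = W z / 2 := by ring

end CI
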