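import Pool.Agent.LibCI87.D4
import Pool.Agent.LibCI87.C6
import Pool.Agent.LibCI87.D6

/-! ROW D5.  The two tips are regular. -/

set_option autoImplicit false

namespace CI

open Set Function Filter Topology

theorem d5_half {U : Set E5} {W f : E5 → ℝ} (hW : ∀ z ∈ U, 0 < W z)
    (h : Tn (fun _ : Unit => U) (fun _ z => 1 + |Real.log (W z)|) (fun _ z => f z / W z)) :
    ∃ w₀ : ℝ, 0 < w₀ ∧ ∀ z ∈ U, W z < w₀ → |f z| ≤ W z / 2 := by
  obtain ⟨C, hC⟩ := h.bound 0 1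
  refine ⟨Real.exp (-(2 * (|C| + 1))), Real.exp_pos _, fun z hz hlt => ?_⟩
  have hWz := hW z hz
  have h1 := hC () z hz
  rw [norm_iteratedFDeriv_zero, Real.norm_eq_abs, pow_one, abs_div, abs_of_pos hWz] at h1
  have h2 : Real.log (W z) < -(2 * (|C| + 1)) := by
    rw [Real.log_lt_iff_lt_exp hWz]
    exact hlt
  have h3 : 2 * (|C| + 1) ≤ 1 + |Real.log (W z)| := by
    have := neg_le_abs (Real.log (W z))
    linarith
  have h4 : 0 ≤ |f z| / W z := by positivity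
  have h5 : |f z| / W z * (2 * (|C| + 1)) ≤ C := (mul_le_mul_of_nonneg_left h3 h4).trans h1
  have h6 : |f z| / W z ≤ 1 / 2 := by
    by_contra hx
    push Not at hx
    have h7 := le_abs_self C
    have h8 : 0 ≤ |C| := abs_nonneg C
    nlinarith
  rw [div_le_iff₀ hWz] at h6
  linarith

theorem d5_small (P : Par) (n : ℕ) (w₀ : ℝ) (hw : 0 < w₀) : ∃ δ : ℝ, 0 < δ ∧ ∀ w x t s : ℝ,
    |w - tt P n| < δ → x < δ → |t| < δ → |s| < δ →
      (vloc P w - nn P n) ^ 2 + EE x + (e1 t + e1 s) < w₀ := by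
  obtain ⟨δ₁, hδ₁, h1⟩ := d6_small (w₀ / 2) (by linarith)
  obtain ⟨δ₂, hδ₂, h2⟩ := Metric.continuous_iff.1 (vloc_sm P).continuous (tt P n) δ₁ hδ₁
  refine ⟨min δ₁ (min δ₂ (w₀ / 2)), lt_min hδ₁ (lt_min hδ₂ (by linarith)), ?_⟩
  intro w x t s hwt hx ht hs
  have h3 : |vloc P w - nn P n| < δ₁ := by
    have h4 := h2 w (by
      rw [Real.dist_eq]
      exact hwt.trans_le ((min_le_right _ _).trans (min_le_left _ _)))
    rw [Real.dist_eq, vloc_tt] at h4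
    exact h4
  have h5 := h1 _ t s h3 (ht.trans_le (min_le_left _ _)) (hs.trans_le (min_le_left _ _))
  have h6 : EE x < w₀ / 2 := by
    have h7 : x ≤ w₀ / 2 := (hx.trans_le ((min_le_right _ _).trans (min_le_right _ _))).le
    exact (EE_mono h7).trans_lt (EE_lt_id (by linarith))
  linarith

theorem d5_tn_add {U : Set E5} {W Λ f g : E5 → ℝ} (hU : Co (fun _ : Unit => U) (fun _ => Λ))
    (hf : Tn (fun _ : Unit => U) (fun _ => Λ) (fun _ z => f z / W z))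
    (hg : Tn (fun _ : Unit => U) (fun _ => Λ) (fun _ z => g z / W z)) :
    Tn (fun _ : Unit => U) (fun _ => Λ) (fun _ z => (f z + g z) / W z) := by
  have h : (fun (_ : Unit) (z : E5) => (f z + g z) / W z) =
      fun _ z => f z / W z + g z / W z := by
    funext _ z
    exact add_div _ _ _
  rw [h]
  exact hf.add hg hU

theorem regA_reg (P : Par) (l : ℕ) : ∃ δ : ℝ, 0 < δ ∧ ∀ δ' : ℝ, 0 < δ' → δ' ≤ δ →
    ∃ W Λ f0 f1 : E5 → ℝ, Reg P l (regA P l δ') W Λ f0 f1 := by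
  obtain ⟨δ₀, hδ₀, hδ₀6, hform⟩ := regA_form P l
  obtain ⟨δt, hδt, htip⟩ := tip P l (2 * kk l) (-1) (Ak P (kk l)) 0
  obtain ⟨δ₂, hδ₂, hsm⟩ := d5_small P (2 * kk l + 1) 1 one_pos
  let ww : E5 → ℝ := fun z =>
    -1 * (z.1.1.1 - Ak P (kk l)) + -1 * (aL l - eta P z.1 + 0) * VV P z.1.1
  let W : E5 → ℝ := fun z => NN P z.1.1 ^ 2 + EE (ww z) + el l z.2
  let Λ : E5 → ℝ := fun z => 1 + |Real.log (W z)|
  let f1 : E5 → ℝ := fun z => (EE (ww z - VV P z.1.1) - EE (ww z)) + (el l (DD z.2) - el l z.2)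
  have hwwe : ∀ z, ww z = Ak P (kk l) - z.1.1.1 - (aL l - eta P z.1) * VV P z.1.1 := by
    intro z
    simp only [ww]
    ring
  let δ₁ : ℝ := min δ₀ (min δt δ₂)
  have hδ₁ : 0 < δ₁ := lt_min hδ₀ (lt_min hδt hδ₂)
  let U : Set E5 := regA P l δ₁
  have hU0 : U ⊆ regA P l δ₀ := regA_mono P l (min_le_left _ _)
  have hUt : U ⊆ regA P l δt := regA_mono P l ((min_le_right _ _).trans (min_le_left _ _))
  have hU2 : U ⊆ regA P l δ₂ := regA_mono P l ((min_le_right _ _).trans (min_le_right _ _))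
  have hUo : IsOpen U := regA_open P l _
  have hrb : ∀ z ∈ U, rb P l z = W z := fun z hz => by
    rw [(hform z (hU0 hz)).2.2.2.1]
    simp only [W]
    rw [hwwe]
  have hrb' : ∀ z ∈ U, rb' P l z = W z + f1 z := fun z hz => by
    rw [(hform z (hU0 hz)).2.2.2.2]
    simp only [W, f1]
    rw [hwwe]
    ring
  have hWpos : ∀ z ∈ U, 0 < W z := by
    intro z hz
    rw [← hrb z hz]
    exact (hU0 hz).2.2.2.2.2.2
  have hsmall : ∀ (w₀ δ : ℝ), (∀ w x t s : ℝ,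
      |w - tt P (2 * kk l + 1)| < δ → x < δ → |t| < δ → |s| < δ →
      (vloc P w - nn P (2 * kk l + 1)) ^ 2 + EE x + (e1 t + e1 s) < w₀) →
      ∀ z ∈ U, z ∈ regA P l δ → W z < w₀ := by
    intro w₀ δ hs z hz hzδ
    have h1 := hs _ (ww z) _ _ hzδ.2.2.1 (by rw [hwwe]; exact hzδ.2.2.2.1) hzδ.2.2.2.2.1
      hzδ.2.2.2.2.2.1
    rw [← (hform z (hU0 hz)).2.1] at h1
    exact h1
  have hW1 : ∀ z ∈ U, W z ≤ 1 := fun z hz => (hsmall 1 δ₂ hsm z hz (hU2 hz)).le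
  obtain ⟨hcl, htE, htel⟩ := htip U W ww hUo hWpos hW1 (fun z hz => (hU0 hz).1)
    (fun z hz => (hUt hz).2.2.1) (fun z hz => (hform z (hU0 hz)).2.1)
    (fun z hz => (hform z (hU0 hz)).2.2.1)
    (fun z hz => ⟨(hU0 hz).2.2.2.2.1.trans_le hδ₀6, (hU0 hz).2.2.2.2.2.1.trans_le hδ₀6⟩)
    (fun z => rfl) (fun z => rfl)
  have hCo : Co (fun _ : Unit => U) (fun _ => Λ) := ⟨fun _ => hUo, fun _ z _ => by
    have := abs_nonneg (Real.log (W z))
    simp only [Λ]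
    linarith⟩
  have ht1 : Tn (fun _ : Unit => U) (fun _ => Λ) (fun _ z => f1 z / W z) :=
    d5_tn_add hCo htE htel
  obtain ⟨w₀, hw₀, hhalf⟩ := d5_half hWpos ht1
  obtain ⟨δ₃, hδ₃, hsm3⟩ := d5_small P (2 * kk l + 1) w₀ hw₀
  refine ⟨min δ₁ δ₃, lt_min hδ₁ hδ₃, fun δ' hδ' hle => ?_⟩
  have hsub : regA P l δ' ⊆ U := regA_mono P l (hle.trans (min_le_left _ _))
  have hsub3 : regA P l δ' ⊆ regA P l δ₃ := regA_mono P l (hle.trans (min_le_right _ _))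
  refine ⟨W, Λ, fun _ => 0, f1, ?_⟩
  exact
    { isOpen := regA_open P l _
      pos := fun z hz => hWpos z (hsub hz)
      le_one := fun z hz => hW1 z (hsub hz)
      log_le := fun z hz => le_refl _
      rb_eq := fun z hz => by rw [add_zero]; exact hrb z (hsub hz)
      rb'_eq := fun z hz => hrb' z (hsub hz)
      f0_le := fun z hz => by
        rw [abs_zero]
        exact (half_pos (hWpos z (hsub hz))).le
      f1_le := fun z hz => hhalf z (hsub hz) (hsmall w₀ δ₃ hsm3 z (hsub hz) (hsub3 hz))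
      W_cl := hcl.subset (fun _ => hsub)
      t0 := d6_tn_zero (fun _ => W)
      t1 := d6_tn_sub ht1 (fun _ => hsub) }

theorem regB_reg (P : Par) (l : ℕ) : ∃ δ : ℝ, 0 < δ ∧ ∀ δ' : ℝ, 0 < δ' → δ' ≤ δ →
    ∃ W Λ f0 f1 : E5 → ℝ, Reg P l (regB P l δ') W Λ f0 f1 := by
  obtain ⟨δ₀, hδ₀, hδ₀6, hform⟩ := regB_form P l
  obtain ⟨δt, hδt, htip⟩ := tip P l (2 * kk l + 1) 1 (Bk P (kk l)) 1
  obtain ⟨δ₂, hδ₂, hsm⟩ := d5_small P (2 * kk l + 2) 1 one_pos
  let ww : E5 → ℝ := fun z =>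
    1 * (z.1.1.1 - Bk P (kk l)) + 1 * (aL l - eta P z.1 + 1) * VV P z.1.1
  let W : E5 → ℝ := fun z => NN P z.1.1 ^ 2 + EE (ww z) + el l z.2
  let Λ : E5 → ℝ := fun z => 1 + |Real.log (W z)|
  let f0 : E5 → ℝ := fun z => EE (ww z - VV P z.1.1) - EE (ww z)
  let f1 : E5 → ℝ := fun z => el l (DD z.2) - el l z.2
  have hwwe : ∀ z, ww z = z.1.1.1 + (aL l - eta P z.1 + 1) * VV P z.1.1 - Bk P (kk l) := by
    intro z
    simp only [ww]
    ring
  let δ₁ : ℝ := min δ₀ (min δt δ₂)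
  have hδ₁ : 0 < δ₁ := lt_min hδ₀ (lt_min hδt hδ₂)
  let U : Set E5 := regB P l δ₁
  have hU0 : U ⊆ regB P l δ₀ := regB_mono P l (min_le_left _ _)
  have hUt : U ⊆ regB P l δt := regB_mono P l ((min_le_right _ _).trans (min_le_left _ _))
  have hU2 : U ⊆ regB P l δ₂ := regB_mono P l ((min_le_right _ _).trans (min_le_right _ _))
  have hUo : IsOpen U := regB_open P l _
  have hrb : ∀ z ∈ U, rb P l z = W z + f0 z := fun z hz => by
    rw [(hform z (hU0 hz)).2.2.2.1]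
    simp only [W, f0]
    rw [hwwe]
    ring
  have hrb' : ∀ z ∈ U, rb' P l z = W z + f1 z := fun z hz => by
    rw [(hform z (hU0 hz)).2.2.2.2]
    simp only [W, f1]
    rw [hwwe]
    ring
  have hWpos : ∀ z ∈ U, 0 < W z := by
    intro z hz
    have h1 : 0 < rb P l z := (hU0 hz).2.2.2.2.2.2
    rw [hrb z hz] at h1
    have h2 : f0 z ≤ 0 := by
      have h3 : EE (ww z - VV P z.1.1) ≤ EE (ww z) :=
        EE_mono (by have := VV_nonneg P z.1.1; linarith)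
      simp only [f0]
      linarith
    linarith
  have hsmall : ∀ (w₀ δ : ℝ), (∀ w x t s : ℝ,
      |w - tt P (2 * kk l + 2)| < δ → x < δ → |t| < δ → |s| < δ →
      (vloc P w - nn P (2 * kk l + 2)) ^ 2 + EE x + (e1 t + e1 s) < w₀) →
      ∀ z ∈ U, z ∈ regB P l δ → W z < w₀ := by
    intro w₀ δ hs z hz hzδ
    have h1 := hs _ (ww z) _ _ hzδ.2.2.1 (by rw [hwwe]; exact hzδ.2.2.2.1) hzδ.2.2.2.2.1
      hzδ.2.2.2.2.2.1
    rw [← (hform z (hU0 hz)).2.1] at h1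
    exact h1
  have hW1 : ∀ z ∈ U, W z ≤ 1 := fun z hz => (hsmall 1 δ₂ hsm z hz (hU2 hz)).le
  obtain ⟨hcl, htE, htel⟩ := htip U W ww hUo hWpos hW1 (fun z hz => (hU0 hz).1)
    (fun z hz => (hUt hz).2.2.1) (fun z hz => (hform z (hU0 hz)).2.1)
    (fun z hz => (hform z (hU0 hz)).2.2.1)
    (fun z hz => ⟨(hU0 hz).2.2.2.2.1.trans_le hδ₀6, (hU0 hz).2.2.2.2.2.1.trans_le hδ₀6⟩)
    (fun z => rfl) (fun z => rfl)
  have ht0 : Tn (fun _ : Unit => U) (fun _ => Λ) (fun _ z => f0 z / W z) := htE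
  have ht1 : Tn (fun _ : Unit => U) (fun _ => Λ) (fun _ z => f1 z / W z) := htel
  obtain ⟨w₀, hw₀, hhalf0⟩ := d5_half hWpos ht0
  obtain ⟨w₁, hw₁, hhalf1⟩ := d5_half hWpos ht1
  obtain ⟨δ₃, hδ₃, hsm3⟩ := d5_small P (2 * kk l + 2) (min w₀ w₁) (lt_min hw₀ hw₁)
  refine ⟨min δ₁ δ₃, lt_min hδ₁ hδ₃, fun δ' hδ' hle => ?_⟩
  have hsub : regB P l δ' ⊆ U := regB_mono P l (hle.trans (min_le_left _ _))
  have hsub3 : regB P l δ' ⊆ regB P l δ₃ := regB_mono P l (hle.trans (min_le_right _ _))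
  have hlt : ∀ z ∈ regB P l δ', W z < min w₀ w₁ := fun z hz =>
    hsmall _ δ₃ hsm3 z (hsub hz) (hsub3 hz)
  refine ⟨W, Λ, f0, f1, ?_⟩
  exact
    { isOpen := regB_open P l _
      pos := fun z hz => hWpos z (hsub hz)
      le_one := fun z hz => hW1 z (hsub hz)
      log_le := fun z hz => le_refl _
      rb_eq := fun z hz => hrb z (hsub hz)
      rb'_eq := fun z hz => hrb' z (hsub hz)
      f0_le := fun z hz => hhalf0 z (hsub hz) ((hlt z hz).trans_le (min_le_left _ _))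
      f1_le := fun z hz => hhalf1 z (hsub hz) ((hlt z hz).trans_le (min_le_right _ _))
      W_cl := hcl.subset (fun _ => hsub)
      t0 := d6_tn_sub ht0 (fun _ => hsub)
      t1 := d6_tn_sub ht1 (fun _ => hsub) }

end CI
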