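import Pool.Agent.LibCI87.Reg
import Pool.Agent.LibCI87.A1
import Pool.Agent.LibCI87.A2
import Pool.Agent.LibCI87.A3
import Pool.Agent.LibCI87.A4
import Pool.Agent.LibCI87.A5
import Pool.Agent.LibCI87.A7
import Pool.Agent.LibCI87.B8
import Pool.Agent.LibCI87.C5

/-! ROW D7.  Estimate of `dlt` on a regular region, uniform in `ε`. -/

set_option autoImplicit false

namespace CI

open Set Function Filter Topology

section D7aux

variable {E F G : Type*} [NormedAddCommGroup E] [NormedSpace ℝ E] [NormedAddCommGroup F]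
  [NormedSpace ℝ F] [NormedAddCommGroup G] [NormedSpace ℝ G]

/-- a constant does not change the derivatives of positive order -/
theorem d7_sub_const (f : E → F) (c : F) (i : ℕ) (hi : 1 ≤ i) (z : E) :
    ‖iteratedFDeriv ℝ i (fun z => f z - c) z‖ = ‖iteratedFDeriv ℝ i f z‖ := by
  obtain ⟨k, rfl⟩ := Nat.exists_eq_add_of_le hi
  rw [add_comm 1 k, ← norm_iteratedFDeriv_fderiv, ← norm_iteratedFDeriv_fderiv]
  have h : fderiv ℝ (fun z => f z - c) = fderiv ℝ f := by
    funext y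
    exact fderiv_sub_const c
  rw [h]

theorem d7_affine (f : E → F) (L : E →L[ℝ] F) (hf : ∀ z, HasFDerivAt f L z) (i : ℕ) (hi : 1 ≤ i)
    (z : E) : ‖iteratedFDeriv ℝ i f z‖ ≤ ‖L‖ := by
  obtain ⟨k, rfl⟩ := Nat.exists_eq_add_of_le hi
  rw [add_comm 1 k, ← norm_iteratedFDeriv_fderiv]
  have h : fderiv ℝ f = fun _ => L := by
    funext y
    exact (hf y).fderiv
  rw [h]
  rcases Nat.eq_zero_or_pos k with rfl | hk
  · rw [norm_iteratedFDeriv_zero]
  · rw [iteratedFDeriv_const_of_ne (by omega)]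
    simp

theorem d7_cl {ι : Type*} {U : Set E} {V : ι → Set E} (hV : ∀ j, V j ⊆ U) {w Λ : E → ℝ}
    {f : E → F} (h : Cl (fun _ : Unit => U) (fun _ => w) (fun _ => Λ) (fun _ => f)) :
    Cl V (fun _ => w) (fun _ => Λ) (fun _ => f) := by
  refine ⟨fun j z hz => h.smooth () z (hV j hz), fun i => ?_⟩
  obtain ⟨C, m, hC⟩ := h.bound i
  exact ⟨C, m, fun j z hz => hC () z (hV j hz)⟩

theorem d7_tn {ι : Type*} {U : Set E} {V : ι → Set E} (hV : ∀ j, V j ⊆ U) {Λ : E → ℝ}
    {f : E → F} (h : Tn (fun _ : Unit => U) (fun _ => Λ) (fun _ => f)) :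
    Tn V (fun _ => Λ) (fun _ => f) := by
  refine ⟨fun j z hz => h.smooth () z (hV j hz), fun i k => ?_⟩
  obtain ⟨C, hC⟩ := h.bound i k
  exact ⟨C, fun j z hz => hC () z (hV j hz)⟩

theorem d7_sl_sub {ι : Type*} {V : ι → Set E} {Λ : ι → E → ℝ} {f : ι → E → F}
    (h : Sl V Λ f) (c : ι → F) : Sl V Λ (fun j z => f j z - c j) := by
  refine ⟨fun j z hz => (h.smooth j z hz).sub contDiffAt_const, fun i hi => ?_⟩
  obtain ⟨C, m, hC⟩ := h.bound i hi
  refine ⟨C, m, fun j z hz => ?_⟩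
  rw [d7_sub_const (f j) (c j) i hi z]
  exact hC j z hz

theorem d7_sl_pair {ι : Type*} {V : ι → Set E} {Λ : ι → E → ℝ} {f : ι → E → F}
    {g : ι → E → G} (hU : Co V Λ) (hf : Sl V Λ f) (hg : Sl V Λ g) :
    Sl V Λ (fun j z => (f j z, g j z)) := by
  refine ⟨fun j z hz => (hf.smooth j z hz).prodMk (hg.smooth j z hz), fun i hi => ?_⟩
  obtain ⟨C₁, m₁, h₁⟩ := hf.bound i hi
  obtain ⟨C₂, m₂, h₂⟩ := hg.bound i hi
  refine ⟨max |C₁| |C₂|, max m₁ m₂, fun j z hz => ?_⟩
  have hL := hU.one_le j z hz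
  rw [iteratedFDeriv_prodMk (n := ((⊤ : ℕ∞) : WithTop ℕ∞)) (hf.smooth j z hz)
    (hg.smooth j z hz) (by exact_mod_cast le_top), ContinuousMultilinearMap.opNorm_prod]
  have hC0 : 0 ≤ max |C₁| |C₂| := (abs_nonneg _).trans (le_max_left _ _)
  refine max_le ?_ ?_
  · calc ‖iteratedFDeriv ℝ i (f j) z‖ ≤ C₁ * Λ j z ^ m₁ := h₁ j z hz
      _ ≤ max |C₁| |C₂| * Λ j z ^ m₁ := by
          refine mul_le_mul_of_nonneg_right ?_ (by positivity)
          exact (le_abs_self _).trans (le_max_left _ _)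
      _ ≤ max |C₁| |C₂| * Λ j z ^ max m₁ m₂ :=
          mul_le_mul_of_nonneg_left (pow_le_pow_right₀ hL (le_max_left _ _)) hC0
  · calc ‖iteratedFDeriv ℝ i (g j) z‖ ≤ C₂ * Λ j z ^ m₂ := h₂ j z hz
      _ ≤ max |C₁| |C₂| * Λ j z ^ m₂ := by
          refine mul_le_mul_of_nonneg_right ?_ (by positivity)
          exact (le_abs_self _).trans (le_max_right _ _)
      _ ≤ max |C₁| |C₂| * Λ j z ^ max m₁ m₂ :=
          mul_le_mul_of_nonneg_left (pow_le_pow_right₀ hL (le_max_right _ _)) hC0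

theorem d7_log1 {t : ℝ} (h : |t| ≤ 1 / 2) : |Real.log (1 + t)| ≤ 1 := by
  obtain ⟨h1, h2⟩ := abs_le.1 h
  have h3 : 0 < 1 + t := by linarith
  rw [abs_le]
  constructor
  · have h4 := Real.one_sub_inv_le_log_of_pos h3
    have h5 : (1 + t)⁻¹ ≤ 2 := by
      rw [inv_le_comm₀ h3 (by norm_num)]
      linarith
    linarith
  · have h4 := Real.log_le_sub_one_of_pos h3
    linarith

end D7aux

theorem d7_us (P : Par) (l : ℕ) : ∃ L : E5 →L[ℝ] ℝ, ∀ z, HasFDerivAt (us P l) L z := by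
  let L : E5 →L[ℝ] ℝ := (dL l)⁻¹ • (((ContinuousLinearMap.snd ℝ (ℝ × ℝ) ℝ).comp
    (ContinuousLinearMap.fst ℝ E3 (ℝ × ℝ))) - P.be • ((ContinuousLinearMap.fst ℝ ℝ ℝ).comp
    ((ContinuousLinearMap.fst ℝ (ℝ × ℝ) ℝ).comp (ContinuousLinearMap.fst ℝ E3 (ℝ × ℝ)))))
  refine ⟨L, fun z => ?_⟩
  have h : us P l = fun z => L z - aL l / dL l := by
    funext z
    simp only [us, eta, L, ContinuousLinearMap.smul_apply, ContinuousLinearMap.sub_apply,
      ContinuousLinearMap.comp_apply, ContinuousLinearMap.coe_fst', ContinuousLinearMap.coe_snd',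
      smul_eq_mul]
    ring
  rw [h]
  exact L.hasFDerivAt.sub_const _

theorem reg_est {P : Par} {l : ℕ} {U : Set E5} {W Λ f0 f1 : E5 → ℝ} (h : Reg P l U W Λ f0 f1)
    (i : ℕ) : ∃ C : ℝ, 0 ≤ C ∧ ∀ ε : ℝ, 0 < ε → ε < 1 → ∀ z ∈ U,
      (rb P l z < 2 * ε ∨ rb' P l z < 2 * ε) →
        ContDiffAt ℝ ((⊤ : ℕ∞) : WithTop ℕ∞) (dlt P l ε) z ∧
        ‖iteratedFDeriv ℝ i (dlt P l ε) z‖ * (1 + |Real.log (rb P l z)|) ≤ C := by
  classical
  let ι : Type := {ε : ℝ // 0 < ε ∧ ε < 1}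
  let V : ι → Set E5 := fun j => U ∩ {z | rb P l z < 2 * j.1 ∨ rb' P l z < 2 * j.1}
  have hVU : ∀ j, V j ⊆ U := fun j => inter_subset_left
  have hVo : ∀ j, IsOpen (V j) := by
    intro j
    refine h.isOpen.inter ?_
    exact (isOpen_lt (rb_cont P l) continuous_const).union
      (isOpen_lt (rb'_cont P l) continuous_const)
  have hΛ : ∀ z ∈ U, 1 ≤ Λ z := fun z hz =>
    le_trans (by have := abs_nonneg (Real.log (W z)); linarith) (h.log_le z hz)
  have hCo : Co V (fun _ => Λ) := ⟨hVo, fun j z hz => hΛ z (hVU j hz)⟩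
  -- the classes of the ingredients
  have ht0 : Tn V (fun _ => Λ) (fun _ z => f0 z / W z) := d7_tn hVU h.t0
  have ht1 : Tn V (fun _ => Λ) (fun _ z => f1 z / W z) := d7_tn hVU h.t1
  have hb0 : ∀ z ∈ U, |f0 z / W z| ≤ 1 / 2 := by
    intro z hz
    rw [abs_div, abs_of_pos (h.pos z hz), div_le_iff₀ (h.pos z hz)]
    have := h.f0_le z hz
    linarith
  have hb1 : ∀ z ∈ U, |f1 z / W z| ≤ 1 / 2 := by
    intro z hz
    rw [abs_div, abs_of_pos (h.pos z hz), div_le_iff₀ (h.pos z hz)]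
    have := h.f1_le z hz
    linarith
  have hl0 := ht0.log1p hCo (fun j z hz => hb0 z (hVU j hz))
  have hl1 := ht1.log1p hCo (fun j z hz => hb1 z (hVU j hz))
  have hq : Tn V (fun _ => Λ) (fun _ z => Real.log (1 + f1 z / W z) + -Real.log (1 + f0 z / W z)) :=
    hl1.add hl0.neg hCo
  have hlW : Cl V (fun _ _ => 1) (fun _ => Λ) (fun _ z => Real.log (W z)) := by
    refine Cl.log (f := fun _ => W) (d7_cl hVU h.W_cl) hCo (fun j z hz => h.pos z (hVU j hz)) 1 1 ?_
    intro j z hz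
    have := h.log_le z (hVU j hz)
    rw [one_mul, pow_one]
    linarith
  have hg : Cl V (fun _ _ => 1) (fun _ => Λ)
      (fun _ z => Real.log (W z) + Real.log (1 + f0 z / W z)) :=
    hlW.add hl0.cl hCo (fun _ _ _ => zero_le_one)
  have hgs : Sl V (fun _ => Λ) (fun _ z => Real.log (W z) + Real.log (1 + f0 z / W z)) :=
    hg.sl hCo (fun _ _ _ => zero_le_one) 1 0 (fun _ _ _ => by simp)
  let p : ι → E5 → ℝ := fun j z =>
    (Real.log (W z) + Real.log (1 + f0 z / W z)) - Real.log j.1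
  let q : E5 → ℝ := fun z => Real.log (1 + f1 z / W z) + -Real.log (1 + f0 z / W z)
  have hp : Sl V (fun _ => Λ) p := d7_sl_sub hgs (fun j => Real.log j.1)
  have hnu : Tn V (fun _ => Λ) (fun j z => nu (p j z + q z) - nu (p j z)) := by
    refine Tn.diff nu_sm hCo hp hq ?_
    intro i hi
    obtain ⟨C, hC0, hC⟩ := nu_bdd i
    exact ⟨C, 0, fun j z hz s hs => by simpa using hC _⟩
  -- values
  have hpos0 : ∀ z ∈ U, 0 < 1 + f0 z / W z := fun z hz => by
    have := (abs_le.1 (hb0 z hz)).1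
    linarith
  have hpos1 : ∀ z ∈ U, 0 < 1 + f1 z / W z := fun z hz => by
    have := (abs_le.1 (hb1 z hz)).1
    linarith
  have hrb : ∀ z ∈ U, rb P l z = W z * (1 + f0 z / W z) := fun z hz => by
    rw [h.rb_eq z hz, mul_add, mul_one, mul_div_cancel₀ _ (h.pos z hz).ne']
  have hrb' : ∀ z ∈ U, rb' P l z = W z * (1 + f1 z / W z) := fun z hz => by
    rw [h.rb'_eq z hz, mul_add, mul_one, mul_div_cancel₀ _ (h.pos z hz).ne']
  have hrbp : ∀ z ∈ U, 0 < rb P l z := fun z hz => by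
    rw [hrb z hz]
    exact mul_pos (h.pos z hz) (hpos0 z hz)
  have hrbp' : ∀ z ∈ U, 0 < rb' P l z := fun z hz => by
    rw [hrb' z hz]
    exact mul_pos (h.pos z hz) (hpos1 z hz)
  have hlog : ∀ z ∈ U, Real.log (rb P l z) = Real.log (W z) + Real.log (1 + f0 z / W z) :=
    fun z hz => by
      rw [hrb z hz, Real.log_mul (h.pos z hz).ne' (hpos0 z hz).ne']
  have hlog' : ∀ z ∈ U, Real.log (rb' P l z) = Real.log (W z) + Real.log (1 + f1 z / W z) :=
    fun z hz => by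
      rw [hrb' z hz, Real.log_mul (h.pos z hz).ne' (hpos1 z hz).ne']
  have hpe : ∀ j : ι, ∀ z ∈ U, Real.log (rb P l z / j.1) = p j z := fun j z hz => by
    rw [Real.log_div (hrbp z hz).ne' j.2.1.ne', hlog z hz]
  have hpe' : ∀ j : ι, ∀ z ∈ U, Real.log (rb' P l z / j.1) = p j z + q z := fun j z hz => by
    rw [Real.log_div (hrbp' z hz).ne' j.2.1.ne', hlog' z hz]
    simp only [p, q]
    ring
  -- size of `p`
  have hpb : ∀ j : ι, ∀ z ∈ V j, 1 + |p j z| ≤ 7 * Λ z := by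
    intro j z hz
    have hzU := hVU j hz
    have hW := h.pos z hzU
    have h1 := abs_le.1 (h.f0_le z hzU)
    have h2 := abs_le.1 (h.f1_le z hzU)
    have h3 := h.rb_eq z hzU
    have h4 := h.rb'_eq z hzU
    have h5 : rb P l z < 6 * j.1 := by
      have hj := j.2.1
      rcases hz.2 with h6 | h6
      · linarith
      · linarith [h1.2, h2.1]
    have h7 : |Real.log (rb P l z)| ≤ |Real.log (W z)| + 1 := by
      rw [hlog z hzU]
      exact (abs_add_le _ _).trans (add_le_add_right (d7_log1 (hb0 z hzU)) _)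
    have h8 : |p j z| ≤ 5 + |Real.log (rb P l z)| := by
      rw [← hpe j z hzU]
      have hjpos := j.2.1
      have hjlt := j.2.2
      rcases lt_or_ge (rb P l z) j.1 with h9 | h9
      · rw [Real.log_div (hrbp z hzU).ne' j.2.1.ne']
        have h10 : Real.log (rb P l z) < Real.log j.1 := Real.log_lt_log (hrbp z hzU) h9
        have h11 : Real.log j.1 < 0 := Real.log_neg hjpos hjlt
        rw [abs_of_neg (by linarith), abs_of_neg (by linarith)]
        linarith
      · have h10 : 0 ≤ Real.log (rb P l z / j.1) :=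
          Real.log_nonneg (by rw [le_div_iff₀ hjpos]; linarith)
        rw [abs_of_nonneg h10]
        have h11 := Real.log_le_sub_one_of_pos (div_pos (hrbp z hzU) hjpos)
        have h12 : rb P l z / j.1 ≤ 6 := by
          rw [div_le_iff₀ hjpos]
          exact h5.le
        have h13 := abs_nonneg (Real.log (rb P l z))
        linarith
    have h14 := h.log_le z hzU
    have h15 := hΛ z hzU
    linarith
  -- the cut-off function
  obtain ⟨L, hL⟩ := d7_us P l
  have hus : Sl V (fun _ => Λ) (fun _ => us P l) :=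
    Sl.of_bounded hCo (us P l) (us_sm P l) (fun i hi => ⟨‖L‖, fun _ z _ => d7_affine _ L hL i hi z⟩)
  have hBBsm : Sm (fun q : ℝ × ℝ => BB (PI q.1 q.2)) := BB_sm.comp PI_sm
  have hBB : Cl V (fun _ _ => 1) (fun _ => Λ) (fun j z => BB (PI (p j z) (us P l z))) := by
    refine Cl.comp (f := fun j z => (p j z, us P l z)) (φ := fun _ q => BB (PI q.1 q.2))
      (d7_sl_pair hCo hp hus) hCo (fun _ _ _ => zero_le_one) (fun _ _ _ => hBBsm.contDiffAt) ?_
    intro i
    obtain ⟨C, m, hC0, hC⟩ := BBPI_growth i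
    refine ⟨C * 7 ^ m, m, fun j z hz => ?_⟩
    calc _ ≤ C * (1 + |p j z|) ^ m := hC _
      _ ≤ C * (7 * Λ z) ^ m := by
          refine mul_le_mul_of_nonneg_left ?_ hC0
          exact pow_le_pow_left₀ (by positivity) (hpb j z hz) m
      _ = C * 7 ^ m * (1 * Λ z ^ m) := by
          rw [mul_pow]
          ring
  have hprod : Tn V (fun _ => Λ) (fun j z => ((nu (p j z + q z) - nu (p j z)) *
      BB (PI (p j z) (us P l z))) * dL l) :=
    (hnu.mul_cl hBB hCo).mul_cl (Cl.const (dL l)) hCo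
  -- `dlt` is this product near every point of `V j`
  have heq : ∀ j : ι, ∀ z ∈ V j, dlt P l j.1 z = ((nu (p j z + q z) - nu (p j z)) *
      BB (PI (p j z) (us P l z))) * dL l := by
    intro j z hz
    have hzU := hVU j hz
    have h1 : ¬ rb P l z ≤ 0 := not_le.2 (hrbp z hzU)
    simp only [dlt, if_neg h1]
    rw [mm_pos_eq (div_pos (hrbp z hzU) j.2.1), mm_pos_eq (div_pos (hrbp' z hzU) j.2.1),
      hpe j z hzU, hpe' j z hzU]
    ring
  obtain ⟨C, hC⟩ := hprod.bound i 1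
  refine ⟨max (2 * C) 0, le_max_right _ _, fun ε hε hε1 z hz hzr => ?_⟩
  let j : ι := ⟨ε, hε, hε1⟩
  have hzV : z ∈ V j := ⟨hz, hzr⟩
  have hev : dlt P l ε =ᶠ[𝓝 z] (fun z => ((nu (p j z + q z) - nu (p j z)) *
      BB (PI (p j z) (us P l z))) * dL l) := by
    filter_upwards [(hVo j).mem_nhds hzV] with y hy
    exact heq j y hy
  refine ⟨(hprod.smooth j z hzV).congr_of_eventuallyEq hev, ?_⟩
  rw [(hev.iteratedFDeriv ℝ i).eq_of_nhds]
  have h1 := hC j z hzV
  rw [pow_one] at h1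
  have h2 : 1 + |Real.log (rb P l z)| ≤ 2 * Λ z := by
    have h7 : |Real.log (rb P l z)| ≤ |Real.log (W z)| + 1 := by
      rw [hlog z hz]
      exact (abs_add_le _ _).trans (add_le_add_right (d7_log1 (hb0 z hz)) _)
    have h14 := h.log_le z hz
    have h15 := hΛ z hz
    linarith
  calc _ ≤ ‖iteratedFDeriv ℝ i (fun z => ((nu (p j z + q z) - nu (p j z)) *
      BB (PI (p j z) (us P l z))) * dL l) z‖ * (2 * Λ z) :=
        mul_le_mul_of_nonneg_left h2 (norm_nonneg _)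
    _ = 2 * (‖iteratedFDeriv ℝ i (fun z => ((nu (p j z + q z) - nu (p j z)) *
      BB (PI (p j z) (us P l z))) * dL l) z‖ * Λ z) := by ring
    _ ≤ 2 * C := by linarith
    _ ≤ max (2 * C) 0 := le_max_left _ _

end CI
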