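import Pool.Agent.LibCI87.D5
import Pool.Agent.LibCI87.D6
import Pool.Agent.LibCI87.D7
import Pool.Agent.LibCI87.C7
import Pool.Agent.LibCI87.A8

/-! ROW D8.  Global estimate, smoothness and smallness of `dlt`. -/

set_option autoImplicit false

namespace CI

open Set Function Filter Topology

theorem d8_reg {P : Par} {l : ℕ} {U : Set E5} {W Λ f0 f1 : E5 → ℝ} (h : Reg P l U W Λ f0 f1)
    (i : ℕ) : ∃ C : ℝ, 0 ≤ C ∧ ∀ ε : ℝ, 0 < ε → ε < 1 / 6 → ∀ z ∈ U,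
      (rb P l z < 2 * ε ∨ rb' P l z < 2 * ε) →
        ContDiffAt ℝ ((⊤ : ℕ∞) : WithTop ℕ∞) (dlt P l ε) z ∧
        ‖iteratedFDeriv ℝ i (dlt P l ε) z‖ * (1 + |Real.log (rb P l z)|) ≤ C ∧
        ‖iteratedFDeriv ℝ i (dlt P l ε) z‖ * (1 + |Real.log (6 * ε)|) ≤ C := by
  obtain ⟨C, hC0, hC⟩ := reg_est h i
  refine ⟨C, hC0, fun ε hε hε6 z hz hzr => ?_⟩
  obtain ⟨h1, h2⟩ := hC ε hε (by linarith) z hz hzr
  refine ⟨h1, h2, le_trans (mul_le_mul_of_nonneg_left ?_ (norm_nonneg _)) h2⟩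
  have h3 := abs_le.1 (h.f0_le z hz)
  have h4 := abs_le.1 (h.f1_le z hz)
  have h5 := h.rb_eq z hz
  have h6 := h.rb'_eq z hz
  have hW := h.pos z hz
  have h7 : rb P l z < 6 * ε := by
    rcases hzr with h8 | h8
    · linarith
    · linarith [h3.2, h4.1]
  have h8 : 0 < rb P l z := by linarith [h3.1]
  have h9 : Real.log (rb P l z) ≤ Real.log (6 * ε) := Real.log_le_log h8 h7.le
  have h10 : Real.log (6 * ε) < 0 := Real.log_neg (by linarith) (by linarith)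
  rw [abs_of_neg h10, abs_of_neg (lt_of_le_of_lt h9 h10)]
  linarith

theorem d8_zero {f : E5 → ℝ} {z : E5} (h : f =ᶠ[𝓝 z] fun _ => 0) (i : ℕ) :
    ContDiffAt ℝ ((⊤ : ℕ∞) : WithTop ℕ∞) f z ∧ iteratedFDeriv ℝ i f z = 0 := by
  refine ⟨contDiffAt_const.congr_of_eventuallyEq h, ?_⟩
  rw [(h.iteratedFDeriv ℝ i).eq_of_nhds]
  simp

theorem d8_far (P : Par) (l : ℕ) (ε : ℝ) (z : E5) (hz : 2 * dL l < |eta P z.1 - aL l|) :
    dlt P l ε =ᶠ[𝓝 z] fun _ => 0 := by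
  have hc : Continuous (fun z : E5 => |eta P z.1 - aL l|) :=
    (((eta_sm P).continuous.comp continuous_fst).sub continuous_const).abs
  filter_upwards [(isOpen_lt continuous_const hc).mem_nhds hz] with y hy
  have hy' : 2 * dL l < |eta P y.1 - aL l| := hy
  have hd := dL_pos l
  have h1 : us P l y ≤ -1 ∧ us P l y ≤ -1 ∨ 2 ≤ us P l y := by
    rcases lt_abs.1 hy' with h2 | h2
    · right
      simp only [us]
      rw [le_div_iff₀ hd]
      linarith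
    · left
      have h3 : us P l y ≤ -1 := by
        simp only [us]
        rw [div_le_iff₀ hd]
        linarith
      exact ⟨h3, h3⟩
  simp only [dlt]
  split_ifs with h2
  · rfl
  · rcases h1 with ⟨h3, -⟩ | h3
    · rw [PI_id (Or.inl h3), BB_left h3]
      ring
    · rw [PI_id (Or.inr h3), BB_right h3]
      ring

theorem d8_big (P : Par) (l : ℕ) (ε : ℝ) (hε : 0 < ε) (z : E5) (h1 : 2 * ε ≤ rb P l z)
    (h2 : 2 * ε ≤ rb' P l z) : dlt P l ε =ᶠ[𝓝 z] fun _ => 0 := by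
  have h3 : ε < rb P l z := by linarith
  have h4 : ε < rb' P l z := by linarith
  filter_upwards [(isOpen_lt continuous_const (rb_cont P l)).mem_nhds h3,
    (isOpen_lt continuous_const (rb'_cont P l)).mem_nhds h4] with y hy hy'
  have h5 : 1 ≤ rb P l y / ε := by
    rw [le_div_iff₀ hε, one_mul]
    exact le_of_lt hy
  have h6 : 1 ≤ rb' P l y / ε := by
    rw [le_div_iff₀ hε, one_mul]
    exact le_of_lt hy'
  simp only [dlt]
  split_ifs with h7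
  · rfl
  · rw [mm_one h5, mm_one h6]
    ring

theorem dlt_est (P : Par) (l : ℕ) : ∃ ε₀ : ℝ, 0 < ε₀ ∧ ∀ i : ℕ, ∃ C : ℝ, 0 ≤ C ∧ ∀ ε : ℝ, 0 < ε →
    ε < ε₀ → ∀ z : E5, 0 < rb P l z →
      ContDiffAt ℝ ((⊤ : ℕ∞) : WithTop ℕ∞) (dlt P l ε) z ∧
      ‖iteratedFDeriv ℝ i (dlt P l ε) z‖ * (1 + |Real.log (rb P l z)|) ≤ C ∧
      ‖iteratedFDeriv ℝ i (dlt P l ε) z‖ * (1 + |Real.log (6 * ε)|) ≤ C := by
  obtain ⟨δA, hδA, hA⟩ := regA_reg P l
  obtain ⟨δB, hδB, hB⟩ := regB_reg P l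
  obtain ⟨δM, hδM, hM⟩ := regM_reg P l
  have hδ : 0 < min δA (min δB δM) := lt_min hδA (lt_min hδB hδM)
  obtain ⟨WA, ΛA, f0A, f1A, rA⟩ := hA _ hδ (min_le_left _ _)
  obtain ⟨WB, ΛB, f0B, f1B, rB⟩ := hB _ hδ ((min_le_right _ _).trans (min_le_left _ _))
  obtain ⟨WM, ΛM, f0M, f1M, rM⟩ := hM _ hδ ((min_le_right _ _).trans (min_le_right _ _))
  obtain ⟨ε₁, hε₁, hcov⟩ := cover P l _ hδ
  refine ⟨min (ε₁ / 2) (1 / 6), lt_min (by linarith) (by norm_num), fun i => ?_⟩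
  obtain ⟨CA, hCA0, hCA⟩ := d8_reg rA i
  obtain ⟨CB, hCB0, hCB⟩ := d8_reg rB i
  obtain ⟨CM, hCM0, hCM⟩ := d8_reg rM i
  refine ⟨CA + CB + CM, by positivity, fun ε hε hlt z hz => ?_⟩
  have hε1 : 2 * ε < ε₁ := by
    have := hlt.trans_le (min_le_left _ _)
    linarith
  have hε6 : ε < 1 / 6 := hlt.trans_le (min_le_right _ _)
  by_cases hfar : 2 * dL l < |eta P z.1 - aL l|
  · obtain ⟨h1, h2⟩ := d8_zero (d8_far P l ε z hfar) i
    rw [h2]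
    refine ⟨h1, ?_, ?_⟩ <;>
    · rw [norm_zero, zero_mul]
      positivity
  by_cases hr : rb P l z < 2 * ε ∨ rb' P l z < 2 * ε
  · have h1 : |eta P z.1 - aL l| ≤ 1 / 4 := by
      have := dL_le l
      linarith
    have h2 : rb P l z < ε₁ ∨ rb' P l z < ε₁ := by
      rcases hr with h3 | h3
      · exact Or.inl (h3.trans hε1)
      · exact Or.inr (h3.trans hε1)
    rcases hcov z h1 h2 hz with h3 | h3 | h3
    · obtain ⟨h4, h5, h6⟩ := hCA ε hε hε6 z h3 hr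
      exact ⟨h4, h5.trans (by linarith), h6.trans (by linarith)⟩
    · obtain ⟨h4, h5, h6⟩ := hCM ε hε hε6 z h3 hr
      exact ⟨h4, h5.trans (by linarith), h6.trans (by linarith)⟩
    · obtain ⟨h4, h5, h6⟩ := hCB ε hε hε6 z h3 hr
      exact ⟨h4, h5.trans (by linarith), h6.trans (by linarith)⟩
  · push Not at hr
    obtain ⟨h1, h2⟩ := d8_zero (d8_big P l ε hε z hr.1 hr.2) i
    rw [h2]
    refine ⟨h1, ?_, ?_⟩ <;>
    · rw [norm_zero, zero_mul]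
      positivity

theorem d8_le {x L C η : ℝ} (hη : 0 < η) (hL : C / η ≤ L) (hL0 : 0 ≤ L) (h : x * (1 + L) ≤ C) :
    x ≤ η := by
  rw [div_le_iff₀ hη] at hL
  by_contra hx
  push Not at hx
  have h1 : η * (1 + L) < x * (1 + L) := mul_lt_mul_of_pos_right hx (by linarith)
  nlinarith

theorem d8_both (P : Par) (l : ℕ) : ∃ ε₀ : ℝ, 0 < ε₀ ∧ ∀ ε : ℝ, 0 < ε → ε < ε₀ →
    Sm (dlt P l ε) ∧ ∀ i : ℕ, ∀ z : E5, rb P l z ≤ 0 → iteratedFDeriv ℝ i (dlt P l ε) z = 0 := by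
  obtain ⟨ε₀, hε₀, hest⟩ := dlt_est P l
  refine ⟨ε₀, hε₀, fun ε hε hlt => ?_⟩
  refine flat_ext (f := dlt P l ε) (S := {z | rb P l z ≤ 0})
    (isClosed_le (rb_cont P l) continuous_const) ?_ ?_ ?_
  · intro z hz
    exact if_pos hz
  · intro z hz
    obtain ⟨C, -, hC⟩ := hest 0
    exact (hC ε hε hlt z (not_le.1 hz)).1
  · intro i z₀ hz₀ δ hδ
    obtain ⟨C, hC0, hC⟩ := hest i
    have h1 : rb P l z₀ < Real.exp (-(C / δ)) := lt_of_le_of_lt hz₀ (Real.exp_pos _)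
    obtain ⟨r, hr, hball⟩ := Metric.isOpen_iff.1
      (isOpen_lt (rb_cont P l) (continuous_const (y := Real.exp (-(C / δ))))) z₀ h1
    refine ⟨r, hr, fun z hz hd => ?_⟩
    have hzp : 0 < rb P l z := not_le.1 hz
    have h2 : rb P l z < Real.exp (-(C / δ)) := hball (Metric.mem_ball.2 hd)
    have h3 : Real.log (rb P l z) < -(C / δ) := by
      rw [Real.log_lt_iff_lt_exp hzp]
      exact h2
    have h4 : C / δ ≤ |Real.log (rb P l z)| := by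
      have := neg_le_abs (Real.log (rb P l z))
      linarith
    exact d8_le hδ h4 (abs_nonneg _) (hC ε hε hlt z hzp).2.1

theorem dlt_sm (P : Par) (l : ℕ) : ∃ ε₀ : ℝ, 0 < ε₀ ∧ ∀ ε : ℝ, 0 < ε → ε < ε₀ →
    Sm (dlt P l ε) := by
  obtain ⟨ε₀, hε₀, h⟩ := d8_both P l
  exact ⟨ε₀, hε₀, fun ε h1 h2 => (h ε h1 h2).1⟩

theorem dlt_small (P : Par) (l i : ℕ) (η : ℝ) (hη : 0 < η) : ∃ ε₀ : ℝ, 0 < ε₀ ∧ ∀ ε : ℝ, 0 < ε →
    ε < ε₀ → ∀ z : E5, ‖iteratedFDeriv ℝ i (dlt P l ε) z‖ ≤ η := by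
  obtain ⟨ε₁, hε₁, h1⟩ := d8_both P l
  obtain ⟨ε₂, hε₂, h2⟩ := dlt_est P l
  obtain ⟨C, hC0, hC⟩ := h2 i
  refine ⟨min (min ε₁ ε₂) (Real.exp (-(C / η)) / 6),
    lt_min (lt_min hε₁ hε₂) (div_pos (Real.exp_pos _) (by norm_num)), fun ε hε hlt z => ?_⟩
  have hlt1 : ε < ε₁ := hlt.trans_le ((min_le_left _ _).trans (min_le_left _ _))
  have hlt2 : ε < ε₂ := hlt.trans_le ((min_le_left _ _).trans (min_le_right _ _))
  have hlt3 : 6 * ε < Real.exp (-(C / η)) := by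
    have := hlt.trans_le (min_le_right _ _)
    linarith
  rcases le_or_gt (rb P l z) 0 with hz | hz
  · rw [(h1 ε hε hlt1).2 i z hz, norm_zero]
    exact hη.le
  · have h3 : Real.log (6 * ε) < -(C / η) := by
      rw [Real.log_lt_iff_lt_exp (by linarith)]
      exact hlt3
    have h4 : C / η ≤ |Real.log (6 * ε)| := by
      have := neg_le_abs (Real.log (6 * ε))
      linarith
    exact d8_le hη h4 (abs_nonneg _) (hC ε hε hlt2 z hz).2.2

end CI
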