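import Pool.Agent.LibCI87.Defs

/-! ROW D9.  Periodization. -/

set_option autoImplicit false

namespace CI

open Set Function Filter Topology

theorem sh_add (v w : Z5) : sh (v + w) = sh v + sh w := by
  unfold sh
  ext <;> simp

private theorem d9_norm (v : Z5) : ‖sh v‖ = ‖v‖ := by
  simp [sh, Prod.norm_def, Int.norm_eq_abs]

private theorem d9_fin (ρ : ℝ) : {v : Z5 | ‖sh v‖ ≤ ρ}.Finite := by
  have h : {v : Z5 | ‖sh v‖ ≤ ρ} = Metric.closedBall 0 ρ := by
    ext v; simp [d9_norm]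
  rw [h]
  exact (isCompact_closedBall 0 ρ).finite_of_discrete

private theorem d9_sum (f : E5 → ℝ) (R ρ : ℝ) (hR : ∀ z, R < ‖z‖ → f z = 0) (z : E5)
    (hz : ‖z‖ ≤ ρ) : per f z = ∑ v ∈ (d9_fin (R + ρ)).toFinset, f (z + sh v) := by
  unfold per
  apply finsum_eq_sum_of_support_subset
  intro v hv
  simp only [Finite.coe_toFinset, mem_ofPred_eq]
  by_contra h
  apply hv
  apply hR
  have h1 : ‖sh v‖ ≤ ‖z + sh v‖ + ‖z‖ := by
    calc ‖sh v‖ = ‖(z + sh v) - z‖ := by congr 1; abel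
      _ ≤ _ := norm_sub_le _ _
  have h2 := not_le.1 h
  linarith

theorem per_shift (f : E5 → ℝ) (z : E5) (v : Z5) : per f (z + sh v) = per f z := by
  unfold per
  rw [← finsum_comp_equiv (Equiv.addLeft v) (f := fun w => f (z + sh w))]
  refine finsum_congr fun w => ?_
  rw [Equiv.coe_addLeft]
  rw [sh_add, add_assoc]

theorem per_single {f : E5 → ℝ} {z : E5} {v : Z5} (h : ∀ w, w ≠ v → f (z + sh w) = 0) :
    per f z = f (z + sh v) := finsum_eq_single _ v h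

theorem per_none {f : E5 → ℝ} {z : E5} (h : ∀ w, f (z + sh w) = 0) : per f z = 0 :=
  finsum_eq_zero_of_forall_eq_zero h

theorem per_ne {f : E5 → ℝ} {z : E5} (h : per f z ≠ 0) : ∃ v, f (z + sh v) ≠ 0 := by
  by_contra h1
  push Not at h1
  exact h (per_none h1)

private theorem d9_ev (f : E5 → ℝ) (R : ℝ) (hR : ∀ z, R < ‖z‖ → f z = 0) (z : E5) (ρ : ℝ)
    (hz : ‖z‖ < ρ) :
    per f =ᶠ[𝓝 z] fun x => ∑ v ∈ (d9_fin (R + ρ)).toFinset, f (x + sh v) := by
  filter_upwards [continuous_norm.continuousAt.eventually (gt_mem_nhds hz)] with x hx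
  exact d9_sum f R ρ hR x hx.le

theorem per_cont {f : E5 → ℝ} (hf : Continuous f) (R : ℝ) (hR : ∀ z, R < ‖z‖ → f z = 0) :
    Continuous (per f) := by
  rw [continuous_iff_continuousAt]
  intro z
  refine ContinuousAt.congr ?_ (d9_ev f R hR z (‖z‖ + 1) (by linarith)).symm
  exact (continuous_finsetSum _ fun v _ => hf.comp (continuous_id.add continuous_const)).continuousAt

private theorem d9_t {f : E5 → ℝ} (hf : Sm f) (v : Z5) : Sm (fun x => f (x + sh v)) :=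
  hf.comp (contDiff_id.add contDiff_const)

theorem per_sm {f : E5 → ℝ} (hf : Sm f) (R : ℝ) (hR : ∀ z, R < ‖z‖ → f z = 0) :
    Sm (per f) := by
  refine contDiff_iff_contDiffAt.2 fun z => ?_
  refine ContDiffAt.congr_of_eventuallyEq ?_ (d9_ev f R hR z (‖z‖ + 1) (by linarith))
  exact (ContDiff.sum fun v _ => d9_t hf v).contDiffAt

private theorem d9_one (z : E5) : ∃ u : Z5, ‖z + sh u‖ ≤ 1 := by
  have key : ∀ x : ℝ, ‖x + ((-⌊x⌋ : ℤ) : ℝ)‖ ≤ 1 := by
    intro x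
    have h : x + ((-⌊x⌋ : ℤ) : ℝ) = Int.fract x := by
      push_cast; rw [← sub_eq_add_neg]; rfl
    rw [h, Real.norm_eq_abs, abs_of_nonneg (Int.fract_nonneg x)]
    exact (Int.fract_lt_one x).le
  refine ⟨(((-⌊z.1.1.1⌋, -⌊z.1.1.2⌋), -⌊z.1.2⌋), (-⌊z.2.1⌋, -⌊z.2.2⌋)), ?_⟩
  unfold sh
  simp only [Prod.norm_def, Prod.fst_add, Prod.snd_add]
  exact max_le (max_le (max_le (key _) (key _)) (key _)) (max_le (key _) (key _))

theorem per_bound (R : ℝ) : ∃ N : ℝ, 0 ≤ N ∧ ∀ f : E5 → ℝ, Sm f → (∀ z, R < ‖z‖ → f z = 0) →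
    ∀ (i : ℕ) (K : ℝ), (∀ z, ‖iteratedFDeriv ℝ i f z‖ ≤ K) →
      ∀ z, ‖iteratedFDeriv ℝ i (per f) z‖ ≤ N * K := by
  refine ⟨(d9_fin (R + 2)).toFinset.card, Nat.cast_nonneg _, ?_⟩
  intro f hf hR i K hK z
  obtain ⟨u, hu⟩ := d9_one z
  have h1 : iteratedFDeriv ℝ i (per f) z = iteratedFDeriv ℝ i (per f) (z + sh u) := by
    rw [← iteratedFDeriv_comp_add_right]
    congr 1
    funext x
    exact (per_shift f x u).symm
  have h2 := d9_ev f R hR (z + sh u) 2 (by linarith)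
  have h3 : iteratedFDeriv ℝ i (per f) (z + sh u) =
      ∑ v ∈ (d9_fin (R + 2)).toFinset, iteratedFDeriv ℝ i f (z + sh u + sh v) := by
    rw [(Filter.EventuallyEq.iteratedFDeriv ℝ h2 i).eq_of_nhds]
    rw [iteratedFDeriv_fun_sum_apply
      (fun v _ => ((d9_t hf v).of_le (by exact_mod_cast le_top)).contDiffAt)]
    refine Finset.sum_congr rfl fun v _ => ?_
    rw [iteratedFDeriv_comp_add_right]
  rw [h1, h3]
  refine (norm_sum_le _ _).trans ?_
  refine (Finset.sum_le_card_nsmul _ _ K fun v _ => hK _).trans ?_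
  rw [nsmul_eq_mul]

end CI
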