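import Pool.Agent.LibCI87.Good
import Pool.Agent.LibCI87.B4
import Pool.Agent.LibCI87.B5
import Pool.Agent.LibCI87.B6

/-! ROW E0 (easy, ~50 lines).  Where `qf`, `qf'`, `dlt` are nonzero.  Use B4, B5, B6 (stated).

`BB u ≠ 0` implies `u ∈ (-1, 2)` (`BB_left`, `BB_right`); `mm t ≠ 1` implies `t < 1` (`mm_one`), and `rb / ε < 1` means `rb < ε`.
`dlt`: if `us ∉ (-1,2)` then `PI (..) us = us` (`PI_id`); if `rb, rb' ≥ ε` both `mm` are `1`.  `qf_abs`: `BB_abs`, `0 ≤ mm ≤ 1`. -/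

set_option autoImplicit false

namespace CI

open Set Function Filter Topology

private theorem e0_BB {u : ℝ} (h : BB u ≠ 0) : u ∈ Ioo (-1:ℝ) 2 := by
  refine ⟨?_, ?_⟩
  · by_contra h1
    exact h (BB_left (not_lt.1 h1))
  · by_contra h1
    exact h (BB_right (not_lt.1 h1))

private theorem e0_mm {r ε : ℝ} (hε : 0 < ε) (h : mm (r / ε) ≠ 1) : r < ε := by
  by_contra h1
  exact h (mm_one ((one_le_div hε).2 (not_lt.1 h1)))

theorem qf_ne {P : Par} {l : ℕ} {ε : ℝ} (hε : 0 < ε) {z : E5} (h : qf P l ε z ≠ 0) :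
    us P l z ∈ Ioo (-1:ℝ) 2 ∧ rb P l z < ε := by
  unfold qf at h
  have h1 := right_ne_zero_of_mul h
  refine ⟨e0_BB (right_ne_zero_of_mul h1), e0_mm hε fun h2 => ?_⟩
  exact left_ne_zero_of_mul h1 (by rw [h2, sub_self])

theorem qf'_ne {P : Par} {l : ℕ} {ε : ℝ} (hε : 0 < ε) {z : E5} (h : qf' P l ε z ≠ 0) :
    us P l z ∈ Ioo (-1:ℝ) 2 ∧ rb' P l z < ε := by
  unfold qf' at h
  have h1 := right_ne_zero_of_mul h
  refine ⟨e0_BB (right_ne_zero_of_mul h1), e0_mm hε fun h2 => ?_⟩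
  exact left_ne_zero_of_mul h1 (by rw [h2, sub_self])

theorem dlt_ne {P : Par} {l : ℕ} {ε : ℝ} (hε : 0 < ε) {z : E5} (h : dlt P l ε z ≠ 0) :
    us P l z ∈ Ioo (-1:ℝ) 2 ∧ (rb P l z < ε ∨ rb' P l z < ε) := by
  unfold dlt at h
  split_ifs at h with h0
  · exact absurd rfl h
  · have h1 := right_ne_zero_of_mul h
    refine ⟨?_, ?_⟩
    · have h2 := e0_BB (right_ne_zero_of_mul h1)
      refine ⟨?_, ?_⟩
      · by_contra h3
        rw [PI_id (Or.inl (not_lt.1 h3))] at h2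
        exact h3 h2.1
      · by_contra h3
        rw [PI_id (Or.inr (not_lt.1 h3))] at h2
        exact h3 h2.2
    · by_contra h2
      rw [not_or, not_lt, not_lt] at h2
      apply left_ne_zero_of_mul h1
      rw [mm_one ((one_le_div hε).2 h2.1), mm_one ((one_le_div hε).2 h2.2), sub_self]

theorem qf_abs {P : Par} {l : ℕ} {ε : ℝ} (z : E5) : |qf P l ε z| ≤ 2 * |dL l| := by
  unfold qf
  rw [abs_mul, abs_mul, mul_comm]
  refine mul_le_mul_of_nonneg_right ?_ (abs_nonneg _)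
  have h1 : |1 - mm (rb P l z / ε)| ≤ 1 := by
    rw [abs_le]
    have h2 := mm_nonneg (rb P l z / ε)
    have h3 := mm_le_one (rb P l z / ε)
    constructor <;> linarith
  calc |1 - mm (rb P l z / ε)| * |BB (us P l z)| ≤ 1 * 2 :=
        mul_le_mul h1 (BB_abs _) (abs_nonneg _) zero_le_one
    _ = 2 := by norm_num

end CI
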