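import Pool.Agent.LibCI87.E0
import Pool.Agent.LibCI87.D8
import Pool.Agent.LibCI87.D9
import Pool.Agent.LibCI87.C8

/-! ROW E1 (~90 lines).  Existence of good `ε`, smoothness of `De` and `Fl`.
Use C3, C5, C8, D8, D9, E0 (stated).

`exists_good`: for `ε` below the three numbers of C8 (`fibre_ball`, `act_supp`, `act_unique`: if `ε ≤ ε₀`, `rb < ε → rb < ε₀`), the
number of `dlt_sm`, and, with `N` from `per_bound` for the radius `R` of `act_supp` (`dlt_ne`: `dlt z ≠ 0 → ‖z‖ ≤ R`), the numbers of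
`dlt_small P l i η`, `η = (1/2)^l / (N + 1)`, for `i ≤ l`.  `sm`: `per_sm`; `small`: `per_bound`.
`De_sm`: `contDiff_tsum_of_eventually` with `v k l = (1/2)^l` (for `l ≥ k`).  `Fl_sm`: `Phi_sm`, `DD_sm`. -/

set_option autoImplicit false

namespace CI

open Set Function Filter Topology

theorem exists_good (P : Par) (l : ℕ) : ∃ ε : ℝ, Good P l ε := by
  obtain ⟨ε₁, h1, H1⟩ := fibre_ball P l
  obtain ⟨ε₂, h2, R, H2⟩ := act_supp P l
  obtain ⟨ε₃, h3, H3⟩ := act_unique P l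
  obtain ⟨ε₄, h4, H4⟩ := dlt_sm P l
  obtain ⟨N, hN, H5⟩ := per_bound R
  have hη : 0 < (1 / 2 : ℝ) ^ l / (N + 1) := by positivity
  choose ε₅ h5 H6 using fun i => dlt_small P l i _ hη
  obtain ⟨m, hm, Hm⟩ : ∃ m : ℝ, 0 < m ∧ ∀ i ≤ l, m ≤ ε₅ i := by
    have hne : (Finset.range (l + 1)).Nonempty := ⟨0, Finset.mem_range.2 (by omega)⟩
    refine ⟨(Finset.range (l + 1)).inf' hne ε₅, ?_, fun i hi => ?_⟩
    · rw [Finset.lt_inf'_iff]
      exact fun i _ => h5 i
    · exact Finset.inf'_le _ (Finset.mem_range.2 (by omega))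
  obtain ⟨ε, hε, hε1, hε2, hε3, hε4, hε5⟩ : ∃ ε : ℝ, 0 < ε ∧ ε < ε₁ ∧ ε < ε₂ ∧ ε < ε₃ ∧ ε < ε₄ ∧
      ε < m := by
    have hpos : 0 < min ε₁ (min ε₂ (min ε₃ (min ε₄ m))) :=
      lt_min h1 (lt_min h2 (lt_min h3 (lt_min h4 hm)))
    refine ⟨min ε₁ (min ε₂ (min ε₃ (min ε₄ m))) / 2, half_pos hpos, ?_⟩
    have hlt := half_lt_self hpos
    rw [lt_min_iff, lt_min_iff, lt_min_iff, lt_min_iff] at hlt
    exact ⟨hlt.1, hlt.2.1, hlt.2.2.1, hlt.2.2.2.1, hlt.2.2.2.2⟩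
  have hsupp : ∀ z : E5, us P l z ∈ Icc (-1:ℝ) 2 → (rb P l z < ε ∨ rb' P l z < ε) → ‖z‖ ≤ R :=
    fun z hu hr => H2 z hu (hr.imp (fun h => h.trans hε2) (fun h => h.trans hε2))
  have hR : ∀ z, R < ‖z‖ → dlt P l ε z = 0 := by
    intro z hz
    by_contra hcon
    obtain ⟨hu, hr⟩ := dlt_ne hε hcon
    exact absurd (hsupp z (Ioo_subset_Icc_self hu) hr) (not_le.2 hz)
  have hsm := H4 ε hε hε4
  refine ⟨ε, ⟨hε, fun z hr => H1 z (hr.imp (fun h => h.trans hε1) (fun h => h.trans hε1)),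
    ⟨R, hsupp⟩, fun z v hu hr hu' hr' => H3 z v hu
      (hr.imp (fun h => h.trans hε3) (fun h => h.trans hε3)) hu'
      (hr'.imp (fun h => h.trans hε3) (fun h => h.trans hε3)), per_sm hsm R hR,
    fun i hi z => ?_⟩⟩
  refine (H5 _ hsm hR i _ (H6 i ε hε (hε5.trans_le (Hm i hi))) z).trans ?_
  rw [mul_div_assoc', div_le_iff₀ (by positivity)]
  have : 0 < (1 / 2 : ℝ) ^ l := by positivity
  nlinarith

theorem De_sm (P : Par) (ε : ℕ → ℝ) (hε : ∀ l, Good P l (ε l)) (e : ℕ → Bool) :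
    Sm (De P ε e) := by
  unfold De
  refine contDiff_tsum_of_eventually (v := fun _ l => (1 / 2 : ℝ) ^ l) ?_ ?_ ?_
  · intro l
    by_cases h : e l = true
    · simp only [if_pos h]
      exact (hε l).sm
    · simp only [if_neg h]
      exact contDiff_const
  · intro _ _
    exact summable_geometric_two
  · intro k _
    rw [Nat.cofinite_eq_atTop]
    filter_upwards [eventually_ge_atTop k] with l hl z
    by_cases h : e l = true
    · simp only [if_pos h]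
      exact (hε l).small k hl z
    · simp only [if_neg h]
      have h0 : iteratedFDeriv ℝ k (fun _ : E5 => (0 : ℝ)) z = 0 := by
        rw [iteratedFDeriv_fun_zero]
        rfl
      rw [h0, norm_zero]
      positivity

theorem Fl_sm (P : Par) (ε : ℕ → ℝ) (hε : ∀ l, Good P l (ε l)) (e : ℕ → Bool) :
    Sm (Fl P ε e) := by
  have h1 : Sm (fun z : E5 => ((1 + De P ε e z, z.1) : ℝ × E3)) :=
    (contDiff_const.add (De_sm P ε hε e)).prodMk contDiff_fst
  have h2 : Sm (fun z : E5 => Phi P (1 + De P ε e z) z.1) := (Phi_sm P).comp h1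
  have h3 : Sm (fun z : E5 => DD z.2) := DD_sm.comp contDiff_snd
  exact h2.prodMk h3

end CI
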