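import Pool.Agent.LibCI87.E0
import Pool.Agent.LibCI87.D9
import Pool.Agent.LibCI87.C5

/-! ROW E2 (~100 lines).  The periodizations.  Use B5, C5, D9, E0 (stated).

`per_qf_eq`, `per_qf'_eq`, `per_dlt_eq`: if `w ≠ v` and `f (z + sh w) ≠ 0` then (E0) `z + sh w` satisfies the hypotheses of
`Good.uniq` with `z + sh w = (z + sh v) + sh (w - v)`, so `w - v = 0`: `per_single`.
`per_qf_cont`: `qf` is continuous (`mm_cont`, `rb_cont`, `us_sm`, `BB_sm`), zero for `‖z‖ > R` (`qf_ne`, `Good.supp`): `per_cont`.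
`per_qf_abs`: `per_none` or `per_qf_eq` and `qf_abs`.
`fibre_ne`: `per_ne`, E0, `Good.ball`.
`fibre_disj`: w.l.o.g. `l < l'` (or `l = l'`); `y.2 + v.2 - jL l` and `y.2 + v'.2 - jL l'` are both small, so
`|v.2 - v'.2 - (jL l - jL l')| < (1/2)^(l+7) + (1/2)^(l'+7) ≤ 1/32`, `|jL l - jL l'| ≤ 1/32`, so `v.2 = v'.2` (integers), and then
`jL l - jL l' ≥ (1/2)^(l+6) ≥ (1/2)^(l+7) + (1/2)^(l'+7)` contradicts the strict inequality. -/

set_option autoImplicit false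

namespace CI

open Set Function Filter Topology

theorem E2_eq {P : Par} {l : ℕ} {ε : ℝ} (hε : Good P l ε) {g : E5 → ℝ}
    (hg : ∀ z, g z ≠ 0 → us P l z ∈ Ioo (-1:ℝ) 2 ∧ (rb P l z < ε ∨ rb' P l z < ε))
    {z : E5} {v : Z5} (hu : us P l (z + sh v) ∈ Icc (-1:ℝ) 2)
    (hr : rb P l (z + sh v) < ε ∨ rb' P l (z + sh v) < ε) :
    per g z = g (z + sh v) := by
  refine per_single fun w hw => ?_
  by_contra h
  obtain ⟨h1, h2⟩ := hg _ h
  have h3 : z + sh w = z + sh v + sh (w - v) := by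
    rw [add_assoc, ← sh_add, add_sub_cancel]
  rw [h3] at h1 h2
  exact hw (sub_eq_zero.1 (hε.uniq (z + sh v) (w - v) hu hr ⟨h1.1.le, h1.2.le⟩ h2))

theorem per_qf_eq {P : Par} {l : ℕ} {ε : ℝ} (hε : Good P l ε) {z : E5} {v : Z5}
    (hu : us P l (z + sh v) ∈ Icc (-1:ℝ) 2)
    (hr : rb P l (z + sh v) < ε ∨ rb' P l (z + sh v) < ε) :
    per (qf P l ε) z = qf P l ε (z + sh v) :=
  E2_eq hε (fun _ h => ⟨(qf_ne hε.pos h).1, Or.inl (qf_ne hε.pos h).2⟩) hu hr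

theorem per_qf'_eq {P : Par} {l : ℕ} {ε : ℝ} (hε : Good P l ε) {z : E5} {v : Z5}
    (hu : us P l (z + sh v) ∈ Icc (-1:ℝ) 2)
    (hr : rb P l (z + sh v) < ε ∨ rb' P l (z + sh v) < ε) :
    per (qf' P l ε) z = qf' P l ε (z + sh v) :=
  E2_eq hε (fun _ h => ⟨(qf'_ne hε.pos h).1, Or.inr (qf'_ne hε.pos h).2⟩) hu hr

theorem per_dlt_eq {P : Par} {l : ℕ} {ε : ℝ} (hε : Good P l ε) {z : E5} {v : Z5}
    (hu : us P l (z + sh v) ∈ Icc (-1:ℝ) 2)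
    (hr : rb P l (z + sh v) < ε ∨ rb' P l (z + sh v) < ε) :
    per (dlt P l ε) z = dlt P l ε (z + sh v) :=
  E2_eq hε (fun _ h => dlt_ne hε.pos h) hu hr

theorem per_qf_cont {P : Par} {l : ℕ} {ε : ℝ} (hε : Good P l ε) :
    Continuous (per (qf P l ε)) := by
  obtain ⟨R, hR⟩ := hε.supp
  have hc : Continuous (qf P l ε) := by
    have h1 : Continuous (fun z : E5 => mm (rb P l z / ε)) :=
      mm_cont.comp ((rb_cont P l).div_const ε)
    have h2 : Continuous (fun z : E5 => BB (us P l z)) :=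
      BB_sm.continuous.comp (us_sm P l).continuous
    exact continuous_const.mul ((continuous_const.sub h1).mul h2)
  refine per_cont hc R fun z hz => ?_
  by_contra h
  obtain ⟨h1, h2⟩ := qf_ne hε.pos h
  exact absurd hz (not_lt.2 (hR z ⟨h1.1.le, h1.2.le⟩ (Or.inl h2)))

theorem per_qf_abs {P : Par} {l : ℕ} {ε : ℝ} (hε : Good P l ε) (z : E5) :
    |per (qf P l ε) z| ≤ 2 * dL l := by
  by_cases h : per (qf P l ε) z = 0
  · rw [h, abs_zero]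
    have := dL_pos l
    linarith
  · obtain ⟨v, hv⟩ := per_ne h
    obtain ⟨h1, h2⟩ := qf_ne hε.pos hv
    rw [per_qf_eq hε ⟨h1.1.le, h1.2.le⟩ (Or.inl h2)]
    have h3 := qf_abs (P := P) (l := l) (ε := ε) (z + sh v)
    rwa [abs_of_pos (dL_pos l)] at h3

theorem E2_fibre {P : Par} {l : ℕ} {ε : ℝ} (hε : Good P l ε) {g : E5 → ℝ}
    (hg : ∀ z, g z ≠ 0 → rb P l z < ε ∨ rb' P l z < ε) {z : E5} (h : per g z ≠ 0) :
    ∃ v : ℤ × ℤ, |z.2.1 + v.1| < (1 / 2) ^ (l + 7) ∧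
      |z.2.2 + v.2 - jL l| < (1 / 2) ^ (l + 7) := by
  obtain ⟨v, hv⟩ := per_ne h
  exact ⟨v.2, hε.ball (z + sh v) (hg _ hv)⟩

theorem fibre_ne {P : Par} {l : ℕ} {ε : ℝ} (hε : Good P l ε) {z : E5}
    (h : per (qf P l ε) z ≠ 0 ∨ per (qf' P l ε) z ≠ 0 ∨ per (dlt P l ε) z ≠ 0) :
    ∃ v : ℤ × ℤ, |z.2.1 + v.1| < (1 / 2) ^ (l + 7) ∧ |z.2.2 + v.2 - jL l| < (1 / 2) ^ (l + 7) := by
  rcases h with h | h | h
  · exact E2_fibre hε (fun z hz => Or.inl (qf_ne hε.pos hz).2) h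
  · exact E2_fibre hε (fun z hz => Or.inr (qf'_ne hε.pos hz).2) h
  · exact E2_fibre hε (fun z hz => (dlt_ne hε.pos hz).2) h

theorem E2_disj {l l' : ℕ} (hl : l < l') {y : ℝ} {v v' : ℤ}
    (h : |y + v - jL l| < (1 / 2) ^ (l + 7)) (h' : |y + v' - jL l'| < (1 / 2) ^ (l' + 7)) :
    False := by
  have h1 := abs_lt.1 h
  have h2 := abs_lt.1 h'
  have e1 : jL l = (1 / 2) ^ (l + 5) := rfl
  have e2 : jL l' = (1 / 2) ^ (l' + 5) := rfl
  have p1 : (1 / 2 : ℝ) ^ (l' + 5) ≤ (1 / 2) ^ (l + 6) :=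
    pow_le_pow_of_le_one (by norm_num) (by norm_num) (by omega)
  have p2 : (1 / 2 : ℝ) ^ (l' + 7) ≤ (1 / 2) ^ (l + 7) :=
    pow_le_pow_of_le_one (by norm_num) (by norm_num) (by omega)
  have p3 : (1 / 2 : ℝ) ^ (l + 6) = 2 * (1 / 2) ^ (l + 7) := by rw [pow_succ _ (l + 6)]; ring
  have p4 : (1 / 2 : ℝ) ^ (l + 5) = 4 * (1 / 2) ^ (l + 7) := by
    rw [pow_succ _ (l + 6), pow_succ _ (l + 5)]; ring
  have p5 : (0:ℝ) < (1 / 2) ^ (l' + 5) := by positivity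
  have p6 : (1 / 2 : ℝ) ^ (l + 7) ≤ (1 / 2) ^ 7 :=
    pow_le_pow_of_le_one (by norm_num) (by norm_num) (by omega)
  have p7 : ((1:ℝ) / 2) ^ 7 = 1 / 128 := by norm_num
  have h3 : ((v - v' : ℤ) : ℝ) < 1 := by push_cast; linarith
  have h4 : (-1 : ℝ) < ((v - v' : ℤ) : ℝ) := by push_cast; linarith
  have h5 : v - v' < 1 := by exact_mod_cast h3
  have h6 : -1 < v - v' := by exact_mod_cast h4
  have h7 : v = v' := by omega
  subst h7
  linarith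

theorem fibre_disj {l l' : ℕ} {y : ℝ × ℝ} {v v' : ℤ × ℤ}
    (h : |y.1 + v.1| < (1 / 2) ^ (l + 7) ∧ |y.2 + v.2 - jL l| < (1 / 2) ^ (l + 7))
    (h' : |y.1 + v'.1| < (1 / 2) ^ (l' + 7) ∧ |y.2 + v'.2 - jL l'| < (1 / 2) ^ (l' + 7)) :
    l = l' := by
  rcases lt_trichotomy l l' with hl | hl | hl
  · exact (E2_disj hl h.2 h'.2).elim
  · exact hl
  · exact (E2_disj hl h'.2 h.2).elim

end CI
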