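import Pool.Agent.LibCI87.E2
import Pool.Agent.LibCI87.C3

/-! ROW E3.  The algebra of the collapse, one arc. -/

set_option autoImplicit false

namespace CI

open Set Function Filter Topology

private def e3_u : Z5 := (((0, 0), -1), (0, 0))

private theorem e3_G1 (P : Par) (z : E5) : (Gl P z + sh e3_u).1.1 = phi P 1 z.1.1 := by
  simp [Gl, sh, Phi, e3_u]

private theorem e3_G2 (P : Par) (z : E5) : (Gl P z + sh e3_u).2 = DD z.2 := by
  simp [Gl, sh, e3_u]

private theorem e3_G3 (P : Par) (z : E5) : eta P (Gl P z + sh e3_u).1 = eta P z.1 := by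
  have h1 : eta P (Gl P z + sh e3_u).1 = eta P (Phi P 1 z.1) - 1 := by
    unfold eta
    simp only [Gl, sh, e3_u, Prod.fst_add, Prod.snd_add]
    push_cast
    ring
  rw [h1, eta_Phi]
  ring

private theorem e3_qf' (P : Par) (l : ℕ) (ε : ℝ) (z : E5) :
    qf' P l ε z = qf P l ε (Gl P z + sh e3_u) := by
  have h1 : us P l (Gl P z + sh e3_u) = us P l z := by
    unfold us
    rw [e3_G3]
  have h2 : rb P l (Gl P z + sh e3_u) = rb' P l z := by
    unfold rb rb'
    rw [e3_G3, e3_G1, e3_G2, (phi_isFl P).add]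
  unfold qf qf'
  rw [h1, h2]

private def e3_M (v : Z5) : Z5 := (v.1, (v.2.1 + v.2.2, v.2.1 + 2 * v.2.2))

private theorem e3_GM (P : Par) (z : E5) (v : Z5) : Gl P (z + sh v) = Gl P z + sh (e3_M v) := by
  have h1 : Phi P 1 (z + sh v).1 = Phi P 1 z.1 + (sh (e3_M v)).1 := Phi_shift P 1 z.1 v
  have h2 : DD (z + sh v).2 = DD z.2 + (sh (e3_M v)).2 := DD_shift z.2 v.2.1 v.2.2
  exact Prod.ext h1 h2

private def e3_E : Z5 ≃ Z5 where
  toFun v := e3_M v + e3_u
  invFun w := (w.1 - e3_u.1, (2 * w.2.1 - w.2.2, w.2.2 - w.2.1))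
  left_inv v := by
    simp only [e3_M, e3_u]
    refine Prod.ext ?_ (Prod.ext ?_ ?_)
    · simp
    · simp only [Prod.fst_add, Prod.snd_add]
      ring
    · simp only [Prod.fst_add, Prod.snd_add]
      ring
  right_inv w := by
    simp only [e3_M, e3_u]
    refine Prod.ext ?_ (Prod.ext ?_ ?_)
    · simp
    · simp only [Prod.fst_add, Prod.snd_add]
      ring
    · simp only [Prod.fst_add, Prod.snd_add]
      ring

theorem per_qf_G (P : Par) (l : ℕ) (ε : ℝ) (z : E5) :
    per (qf P l ε) (Gl P z) = per (qf' P l ε) z := by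
  unfold per
  rw [← finsum_comp_equiv e3_E]
  apply finsum_congr
  intro v
  rw [e3_qf', e3_GM, add_assoc, ← sh_add]
  rfl

theorem dlt_alg {P : Par} {l : ℕ} {ε : ℝ} (hε : Good P l ε) (z : E5) :
    per (dlt P l ε) (Phi P (-(per (qf P l ε) z)) z.1, z.2) =
      per (qf P l ε) z - per (qf' P l ε) z := by
  by_cases H : ∃ v : Z5, us P l (z + sh v) ∈ Icc (-1:ℝ) 2 ∧
      (rb P l (z + sh v) < ε ∨ rb' P l (z + sh v) < ε)
  · obtain ⟨v, hu, hr⟩ := H
    rw [per_qf_eq hε hu hr, per_qf'_eq hε hu hr]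
    set p := qf P l ε (z + sh v) with hp
    have hz : ((Phi P (-p) z.1, z.2) : E5) + sh v = (Phi P (-p) (z + sh v).1, (z + sh v).2) := by
      have h1 : Phi P (-p) (z + sh v).1 = Phi P (-p) z.1 + (sh v).1 := Phi_shift P (-p) z.1 v
      rw [h1]
      rfl
    have hrb : rb P l (((Phi P (-p) z.1, z.2) : E5) + sh v) = rb P l (z + sh v) := by
      rw [hz, rb_Phi]
    have hrb' : rb' P l (((Phi P (-p) z.1, z.2) : E5) + sh v) = rb' P l (z + sh v) := by
      rw [hz, rb'_Phi]
    have hd := dL_pos l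
    have hus : us P l (((Phi P (-p) z.1, z.2) : E5) + sh v) =
        piM (mm (rb P l (z + sh v) / ε)) (us P l (z + sh v)) := by
      rw [hz, us_Phi]
      change us P l (z + sh v) + -p / dL l = _
      rw [hp]
      unfold qf piM
      rw [neg_div, mul_div_cancel_left₀ _ hd.ne']
      ring
    have hM0 := mm_nonneg (rb P l (z + sh v) / ε)
    have hM1 := mm_le_one (rb P l (z + sh v) / ε)
    have hin : us P l (((Phi P (-p) z.1, z.2) : E5) + sh v) ∈ Icc (-1:ℝ) 2 := by
      rw [hus]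
      by_cases h : us P l (z + sh v) ∈ Ioo (-1:ℝ) 2
      · exact Ioo_subset_Icc_self (piM_Ioo hM0 hM1 h)
      · rw [piM_id]
        · exact hu
        · by_contra h1
          push Not at h1
          exact h ⟨h1.1, h1.2⟩
    rw [per_dlt_eq hε hin (by rw [hrb, hrb']; exact hr)]
    unfold dlt
    rw [hrb, hrb']
    split_ifs with h0
    · have h1 : rb P l (z + sh v) = 0 := le_antisymm h0 (rb_nonneg P l _)
      have h2 : rb' P l (z + sh v) = 0 :=
        (rb'_zero_iff P l _).2 ((rb_zero_iff P l _).1 h1)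
      rw [hp]
      unfold qf qf'
      rw [h1, h2, sub_self]
    · have h1 : 0 < rb P l (z + sh v) / ε := div_pos (not_le.1 h0) hε.pos
      rw [hus, mm_pos_eq h1, PI_piM, hp]
      unfold qf qf'
      rw [mm_pos_eq h1]
      ring
  · have h1 : per (qf P l ε) z = 0 := per_none fun w => by
      by_contra h
      exact H ⟨w, Ioo_subset_Icc_self (qf_ne hε.pos h).1, Or.inl (qf_ne hε.pos h).2⟩
    have h2 : per (qf' P l ε) z = 0 := per_none fun w => by
      by_contra h
      exact H ⟨w, Ioo_subset_Icc_self (qf'_ne hε.pos h).1, Or.inr (qf'_ne hε.pos h).2⟩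
    have h3 : per (dlt P l ε) z = 0 := per_none fun w => by
      by_contra h
      exact H ⟨w, Ioo_subset_Icc_self (dlt_ne hε.pos h).1, (dlt_ne hε.pos h).2⟩
    rw [h1, h2, neg_zero, Phi_zero, sub_zero]
    exact h3

end CI
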