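import Pool.Agent.LibCI87.E3

/-! ROW E4 (~60 lines).  The algebra of the collapse, all arcs.  Use E2, E3 (stated).

`De (Tl z) = Σ_l [e l] per (dlt l) (Tl z)`, `pe z = Σ_l [e l] per (qf l) z`, `pe (Gl z) = Σ_l [e l] per (qf' l) z` (`per_qf_G`).
Case 1: there is `l₀` such that `y = z.2` is in the fibre ball of `l₀` (conclusion of `fibre_ne`, for some `v`).  For `l ≠ l₀` all of
`per (qf l) (c', y)`, `per (qf' l) (c', y)`, `per (dlt l) (c', y)` vanish, for every `c'` (`fibre_ne`, `fibre_disj`), in particular at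
`z` and at `Tl z` (same `y`).  So the three sums are `[e l₀]` times the term of `l₀` (`tsum_eq_single`).  If `e l₀ = false` all is `0`.
If `e l₀ = true`: `pe z = per (qf l₀) z`, so `Tl z = (Phi (-(per (qf l₀) z)) z.1, z.2)`: `dlt_alg`.
Case 2: no such `l₀`: everything is `0`. -/

set_option autoImplicit false

namespace CI

open Set Function Filter Topology

theorem E4_ite (b : Bool) (x : ℝ) (h : x = 0) : (if b = true then x else 0) = 0 := by
  rw [h, ite_self]

theorem alg_all (P : Par) (ε : ℕ → ℝ) (hε : ∀ l, Good P l (ε l)) (e : ℕ → Bool) (z : E5) :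
    De P ε e (Tl P ε e z) = pe P ε e z - pe P ε e (Gl P z) := by
  have hG : pe P ε e (Gl P z) = ∑' l, if e l = true then per (qf' P l (ε l)) z else 0 := by
    unfold pe
    refine tsum_congr fun l => ?_
    rw [per_qf_G]
  have hT2 : (Tl P ε e z).2 = z.2 := rfl
  rw [hG]
  by_cases hc : ∃ (l₀ : ℕ) (v : ℤ × ℤ), |z.2.1 + v.1| < (1 / 2) ^ (l₀ + 7) ∧
      |z.2.2 + v.2 - jL l₀| < (1 / 2) ^ (l₀ + 7)
  · obtain ⟨l₀, v, hv⟩ := hc
    have hz : ∀ l, l ≠ l₀ → ∀ w : E5, w.2 = z.2 → per (qf P l (ε l)) w = 0 ∧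
        per (qf' P l (ε l)) w = 0 ∧ per (dlt P l (ε l)) w = 0 := by
      intro l hl w hw
      have key : ¬ (per (qf P l (ε l)) w ≠ 0 ∨ per (qf' P l (ε l)) w ≠ 0 ∨
          per (dlt P l (ε l)) w ≠ 0) := by
        intro h
        obtain ⟨v', hv'⟩ := fibre_ne (hε l) h
        rw [hw] at hv'
        exact hl (fibre_disj hv' hv)
      refine ⟨?_, ?_, ?_⟩
      · by_contra h; exact key (Or.inl h)
      · by_contra h; exact key (Or.inr (Or.inl h))
      · by_contra h; exact key (Or.inr (Or.inr h))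
    have t1 : De P ε e (Tl P ε e z) =
        if e l₀ = true then per (dlt P l₀ (ε l₀)) (Tl P ε e z) else 0 := by
      unfold De
      exact tsum_eq_single l₀ fun l hl => E4_ite _ _ (hz l hl _ hT2).2.2
    have t2 : pe P ε e z = if e l₀ = true then per (qf P l₀ (ε l₀)) z else 0 := by
      unfold pe
      exact tsum_eq_single l₀ fun l hl => E4_ite _ _ (hz l hl _ rfl).1
    have t3 : (∑' l, if e l = true then per (qf' P l (ε l)) z else 0) =
        if e l₀ = true then per (qf' P l₀ (ε l₀)) z else 0 :=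
      tsum_eq_single l₀ fun l hl => E4_ite _ _ (hz l hl _ rfl).2.1
    rw [t1, t3]
    by_cases he : e l₀ = true
    · rw [if_pos he] at t2
      rw [if_pos he, if_pos he, t2]
      have hT : Tl P ε e z = (Phi P (-(per (qf P l₀ (ε l₀)) z)) z.1, z.2) := by
        unfold Tl
        rw [t2]
      rw [hT]
      exact dlt_alg (hε l₀) z
    · rw [if_neg he] at t2
      rw [if_neg he, if_neg he, t2, sub_zero]
  · have hz : ∀ l, ∀ w : E5, w.2 = z.2 → per (qf P l (ε l)) w = 0 ∧
        per (qf' P l (ε l)) w = 0 ∧ per (dlt P l (ε l)) w = 0 := by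
      intro l w hw
      have key : ¬ (per (qf P l (ε l)) w ≠ 0 ∨ per (qf' P l (ε l)) w ≠ 0 ∨
          per (dlt P l (ε l)) w ≠ 0) := by
        intro h
        obtain ⟨v', hv'⟩ := fibre_ne (hε l) h
        rw [hw] at hv'
        exact hc ⟨l, v', hv'⟩
      refine ⟨?_, ?_, ?_⟩
      · by_contra h; exact key (Or.inl h)
      · by_contra h; exact key (Or.inr (Or.inl h))
      · by_contra h; exact key (Or.inr (Or.inr h))
    have t1 : De P ε e (Tl P ε e z) = 0 := by
      unfold De
      rw [tsum_congr fun l => E4_ite _ _ (hz l _ hT2).2.2, tsum_zero]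
    have t2 : pe P ε e z = 0 := by
      unfold pe
      rw [tsum_congr fun l => E4_ite _ _ (hz l _ rfl).1, tsum_zero]
    have t3 : (∑' l, if e l = true then per (qf' P l (ε l)) z else 0) = 0 := by
      rw [tsum_congr fun l => E4_ite _ _ (hz l _ rfl).2.1, tsum_zero]
    rw [t1, t2, t3, sub_zero]

end CI
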