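import Pool.Agent.LibCI87.B6

/-! ROW E5.  Flow box lemma on the line. -/

set_option autoImplicit false

namespace CI

open Set Function Filter Topology

private theorem e5_win {d τ s : ℝ} (hd : 0 < d) :
    (s - τ) / d ∈ Icc (-1:ℝ) 2 ↔ τ - d ≤ s ∧ s ≤ τ + 2 * d := by
  rw [mem_Icc, le_div_iff₀ hd, div_le_iff₀ hd]
  constructor
  · rintro ⟨h1, h2⟩
    constructor <;> linarith
  · rintro ⟨h1, h2⟩
    constructor <;> linarith

private theorem e5_piM {M x : ℝ} (h0 : 0 ≤ M) (h1 : M ≤ 1) (hx : x ∈ Icc (-1:ℝ) 2) :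
    piM M x ∈ Icc (-1:ℝ) 2 := by
  by_cases h : x ∈ Ioo (-1:ℝ) 2
  · exact Ioo_subset_Icc_self (piM_Ioo h0 h1 h)
  · rw [piM_id]
    · exact hx
    · by_contra h2
      push Not at h2
      exact h ⟨h2.1, h2.2⟩

theorem flowbox {ι : Type*} {d : ℝ} (hd : 0 < d) (act : ι → Prop) (τ M : ι → ℝ)
    (hM0 : ∀ w, 0 ≤ M w) (hM1 : ∀ w, M w ≤ 1)
    (huniq : ∀ w w' s, act w → act w' → (s - τ w) / d ∈ Icc (-1:ℝ) 2 →
      (s - τ w') / d ∈ Icc (-1:ℝ) 2 → w = w')
    (g : ℝ → ℝ)
    (hg : ∀ w s, act w → (s - τ w) / d ∈ Icc (-1:ℝ) 2 →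
      g s = d * ((1 - M w) * BB ((s - τ w) / d)))
    (hg0 : ∀ s, (∀ w, act w → (s - τ w) / d ∉ Icc (-1:ℝ) 2) → g s = 0)
    {u v : ℝ} (huv : u < v) (h : v - g v ≤ u - g u) :
    ∃ w, act w ∧ M w = 0 ∧ (u - τ w) / d ∈ Icc (0:ℝ) 1 ∧ (v - τ w) / d ∈ Icc (0:ℝ) 1 := by
  have key : ∀ w s, act w → (s - τ w) / d ∈ Icc (-1:ℝ) 2 →
      s - g s = τ w + d * piM (M w) ((s - τ w) / d) := by
    intro w s hw hs
    rw [hg w s hw hs]
    unfold piM
    have h1 : d * ((s - τ w) / d) = s - τ w := mul_div_cancel₀ _ hd.ne'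
    calc s - d * ((1 - M w) * BB ((s - τ w) / d))
        = τ w + (s - τ w) - d * ((1 - M w) * BB ((s - τ w) / d)) := by ring
      _ = τ w + d * ((s - τ w) / d) - d * ((1 - M w) * BB ((s - τ w) / d)) := by rw [h1]
      _ = τ w + d * ((s - τ w) / d - (1 - M w) * BB ((s - τ w) / d)) := by ring
  have stay : ∀ w s, act w → (s - τ w) / d ∈ Icc (-1:ℝ) 2 →
      τ w - d ≤ s - g s ∧ s - g s ≤ τ w + 2 * d := by
    intro w s hw hs
    rw [key w s hw hs]
    have h1 := e5_piM (hM0 w) (hM1 w) hs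
    have h2 : d * (-1) ≤ d * piM (M w) ((s - τ w) / d) := mul_le_mul_of_nonneg_left h1.1 hd.le
    have h3 : d * piM (M w) ((s - τ w) / d) ≤ d * 2 := mul_le_mul_of_nonneg_left h1.2 hd.le
    constructor <;> linarith
  by_cases hU : ∃ w, act w ∧ (u - τ w) / d ∈ Icc (-1:ℝ) 2
  · obtain ⟨w, hw, hwu⟩ := hU
    have hwu' := (e5_win hd).1 hwu
    have hus := stay w u hw hwu
    by_cases hV : ∃ w, act w ∧ (v - τ w) / d ∈ Icc (-1:ℝ) 2
    · obtain ⟨w', hw', hwv⟩ := hV
      have hwv' := (e5_win hd).1 hwv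
      have hvs := stay w' v hw' hwv
      by_cases hww : w = w'
      · subst hww
        rw [key w u hw hwu, key w v hw hwv] at h
        have h1 : piM (M w) ((v - τ w) / d) ≤ piM (M w) ((u - τ w) / d) := by
          have h2 : d * piM (M w) ((v - τ w) / d) ≤ d * piM (M w) ((u - τ w) / d) := by linarith
          exact le_of_mul_le_mul_left h2 hd
        have h3 : (u - τ w) / d < (v - τ w) / d := div_lt_div_of_pos_right (by linarith) hd
        obtain ⟨h4, h5, h6⟩ := piM_key (hM0 w) (hM1 w) h3 h1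
        exact ⟨w, hw, h4, h5, h6⟩
      · exfalso
        have h1 : τ w + 2 * d < τ w' - d := by
          by_contra h2
          push Not at h2
          apply hww
          apply huniq w w' (max (τ w - d) (τ w' - d)) hw hw'
          · rw [e5_win hd]
            refine ⟨le_max_left _ _, max_le (by linarith) h2⟩
          · rw [e5_win hd]
            refine ⟨le_max_right _ _, max_le (by linarith) (by linarith)⟩
        linarith [hus.2, hvs.1]
    · exfalso
      push Not at hV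
      have hgv : g v = 0 := hg0 v hV
      have h1 := hV w hw
      rw [e5_win hd, not_and_or, not_le, not_le] at h1
      rw [hgv, sub_zero] at h
      rcases h1 with h1 | h1
      · linarith [hwu'.1]
      · linarith [hus.2]
  · exfalso
    push Not at hU
    have hgu : g u = 0 := hg0 u hU
    rw [hgu, sub_zero] at h
    by_cases hV : ∃ w, act w ∧ (v - τ w) / d ∈ Icc (-1:ℝ) 2
    · obtain ⟨w', hw', hwv⟩ := hV
      have hwv' := (e5_win hd).1 hwv
      have hvs := stay w' v hw' hwv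
      have h1 := hU w' hw'
      rw [e5_win hd, not_and_or, not_le, not_le] at h1
      rcases h1 with h1 | h1
      · linarith [hvs.1]
      · linarith [hwv'.2]
    · push Not at hV
      rw [hg0 v hV, sub_zero] at h
      linarith

end CI
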