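import Pool.Agent.LibCI87.E2
import Pool.Agent.LibCI87.E5
import Pool.Agent.LibCI87.C3

/-! ROW E6.  The orbits: order and collapse. -/

set_option autoImplicit false

namespace CI

open Set Function Filter Topology

private theorem e6_pt (P : Par) (s : ℝ) (c : E3) (y : ℝ × ℝ) (w : Z5) :
    ((Phi P s c, y) : E5) + sh w = (Phi P s (c + (sh w).1), y + (sh w).2) := by
  rw [Phi_shift]; rfl

private theorem e6_rb (P : Par) (l : ℕ) (s : ℝ) (c : E3) (y : ℝ × ℝ) (w : Z5) :
    rb P l (((Phi P s c, y) : E5) + sh w) = rb P l (((c, y) : E5) + sh w) := by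
  rw [e6_pt, rb_Phi]; rfl

private theorem e6_us (P : Par) (l : ℕ) (s : ℝ) (c : E3) (y : ℝ × ℝ) (w : Z5) :
    us P l (((Phi P s c, y) : E5) + sh w) = (s - (aL l - eta P (c + (sh w).1))) / dL l := by
  rw [e6_pt]
  unfold us
  simp only
  rw [eta_Phi]
  congr 1
  ring

theorem order {P : Par} {l : ℕ} {ε : ℝ} (hε : Good P l ε) (c : E3) (y : ℝ × ℝ) {u v : ℝ}
    (huv : u < v)
    (h : v - per (qf P l ε) (Phi P v c, y) ≤ u - per (qf P l ε) (Phi P u c, y)) :
    ∃ w : Z5, y + (sh w).2 = (0, jL l) ∧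
      ArcL P l (Phi P u c + (sh w).1) (Phi P v c + (sh w).1) := by
  obtain ⟨w, hw, hM, hu, hv⟩ := flowbox (dL_pos l)
    (fun w : Z5 => rb P l (((c, y) : E5) + sh w) < ε)
    (fun w : Z5 => aL l - eta P (c + (sh w).1))
    (fun w : Z5 => mm (rb P l (((c, y) : E5) + sh w) / ε))
    (fun w => mm_nonneg _) (fun w => mm_le_one _)
    (by
      intro w w' s h1 h2 h3 h4
      rw [← e6_us P l s c y w] at h3
      rw [← e6_us P l s c y w'] at h4
      rw [← e6_rb P l s c y w] at h1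
      rw [← e6_rb P l s c y w'] at h2
      have h5 : ((Phi P s c, y) : E5) + sh w' = (Phi P s c, y) + sh w + sh (w' - w) := by
        rw [add_assoc, ← sh_add, add_sub_cancel]
      rw [h5] at h2 h4
      exact (sub_eq_zero.1 (hε.uniq _ _ h3 (Or.inl h1) h4 (Or.inl h2))).symm)
    (fun s => per (qf P l ε) (Phi P s c, y))
    (by
      intro w s h1 h2
      rw [← e6_us P l s c y w] at h2
      rw [← e6_rb P l s c y w] at h1
      show per (qf P l ε) (Phi P s c, y) = _
      rw [per_qf_eq hε h2 (Or.inl h1)]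
      unfold qf
      rw [e6_rb, e6_us])
    (by
      intro s h1
      show per (qf P l ε) (Phi P s c, y) = 0
      refine per_none fun w => ?_
      by_contra h2
      obtain ⟨h3, h4⟩ := qf_ne hε.pos h2
      rw [e6_us] at h3
      rw [e6_rb] at h4
      exact h1 w h4 ⟨h3.1.le, h3.2.le⟩)
    huv h
  have h0 : rb P l (((c, y) : E5) + sh w) = 0 := by
    refine le_antisymm ?_ (rb_nonneg P l _)
    have h1 := (mm_zero_iff _).1 hM
    by_contra h2
    exact absurd h1 (not_le.2 (div_pos (not_le.1 h2) hε.pos))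
  have hu0 : rb P l (((Phi P u c, y) : E5) + sh w) = 0 := by rw [e6_rb, h0]
  obtain ⟨h1, h2, h3⟩ := (rb_zero_iff P l _).1 hu0
  refine ⟨w, h3, h1, h2, ?_, v - u, ?_, ?_⟩
  · have h4 := e6_us P l u c y w
    have h5 : us P l (((Phi P u c, y) : E5) + sh w) ∈ Icc (0:ℝ) 1 := by rw [h4]; exact hu
    have h6 : us P l (((Phi P u c, y) : E5) + sh w) =
      (eta P (Phi P u c + (sh w).1) - aL l) / dL l := rfl
    rw [h6, mem_Icc, le_div_iff₀ (dL_pos l), div_le_iff₀ (dL_pos l)] at h5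
    constructor <;> linarith [h5.1, h5.2]
  · rw [Phi_shift, ← Phi_add, sub_add_cancel]
  · have h4 := e6_us P l v c y w
    have h5 : us P l (((Phi P v c, y) : E5) + sh w) ∈ Icc (0:ℝ) 1 := by rw [h4]; exact hv
    have h6 : us P l (((Phi P v c, y) : E5) + sh w) =
      (eta P (Phi P v c + (sh w).1) - aL l) / dL l := rfl
    rw [h6, mem_Icc, le_div_iff₀ (dL_pos l), div_le_iff₀ (dL_pos l)] at h5
    have h7 : eta P (Phi P v c + (sh w).1) = eta P (Phi P u c + (sh w).1) + (v - u) := by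
      rw [← Phi_shift, ← Phi_shift, eta_Phi, eta_Phi]
      ring
    rw [h7] at h5
    constructor <;> linarith [h5.1, h5.2]

private theorem e6_per {P : Par} {l : ℕ} {ε : ℝ} (hε : Good P l ε) (c : E3)
    (h1 : NN P c.1 = 0) (h2 : c.1.1 ∈ Icc (Ak P (kk l)) (Bk P (kk l)))
    (h3 : eta P c ∈ Icc (aL l) (aL l + dL l)) :
    per (qf P l ε) (c, (0, jL l)) = eta P c - aL l := by
  have hd := dL_pos l
  have hr : rb P l ((c, (0, jL l)) : E5) = 0 := (rb_zero_iff P l _).2 ⟨h1, h2, rfl⟩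
  have hu : us P l ((c, (0, jL l)) : E5) ∈ Icc (0:ℝ) 1 := by
    have h6 : us P l ((c, (0, jL l)) : E5) = (eta P c - aL l) / dL l := rfl
    rw [h6, mem_Icc, le_div_iff₀ hd, div_le_iff₀ hd]
    constructor <;> linarith [h3.1, h3.2]
  have h0 : ((c, (0, jL l)) : E5) + sh 0 = (c, (0, jL l)) := by
    have : sh 0 = 0 := by
      have h := sh_add 0 0
      rw [add_zero] at h
      exact left_eq_add.1 h
    rw [this, add_zero]
  have h4 := per_qf_eq (v := 0) hε (z := ((c, (0, jL l)) : E5))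
    (by rw [h0]; exact ⟨by linarith [hu.1], by linarith [hu.2]⟩)
    (by rw [h0, hr]; exact Or.inl hε.pos)
  rw [h4, h0]
  unfold qf
  rw [hr, zero_div, mm_zero le_rfl, sub_zero, one_mul, BB_eq hu]
  unfold us
  exact mul_div_cancel₀ _ hd.ne'

theorem collapse {P : Par} {l : ℕ} {ε : ℝ} (hε : Good P l ε) (c c' : E3) (h : ArcL P l c c') :
    Phi P (-(per (qf P l ε) (c, (0, jL l)))) c =
      Phi P (-(per (qf P l ε) (c', (0, jL l)))) c' := by
  obtain ⟨h1, h2, h3, t, rfl, h4⟩ := h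
  have h5 : NN P (Phi P t c).1 = 0 := by
    have : (Phi P t c).1 = phi P t c.1 := rfl
    rw [this, NN_phi, h1]
  have hr : rb P l ((c, (0, jL l)) : E5) = 0 := (rb_zero_iff P l _).2 ⟨h1, h2, rfl⟩
  have hr' : rb P l ((Phi P t c, (0, jL l)) : E5) = 0 := by rw [rb_Phi, hr]
  have h6 := ((rb_zero_iff P l _).1 hr').2.1
  rw [e6_per hε c h1 h2 h3, e6_per hε (Phi P t c) h5 h6 (by rw [eta_Phi]; exact h4), eta_Phi,
    ← Phi_add]
  congr 1
  ring

end CI
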