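import Pool.Agent.LibCI87.Defs2

/-!
# Good `ε` (definition)
-/

set_option autoImplicit false

namespace CI

open Set Function Filter Topology

/-- `ε` is small enough for the arc `l` -/
structure Good (P : Par) (l : ℕ) (ε : ℝ) : Prop where
  pos : 0 < ε
  ball : ∀ z : E5, (rb P l z < ε ∨ rb' P l z < ε) →
    |z.2.1| < (1 / 2) ^ (l + 7) ∧ |z.2.2 - jL l| < (1 / 2) ^ (l + 7)
  supp : ∃ R : ℝ, ∀ z : E5, us P l z ∈ Icc (-1:ℝ) 2 → (rb P l z < ε ∨ rb' P l z < ε) → ‖z‖ ≤ R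
  uniq : ∀ (z : E5) (v : Z5), us P l z ∈ Icc (-1:ℝ) 2 → (rb P l z < ε ∨ rb' P l z < ε) →
    us P l (z + sh v) ∈ Icc (-1:ℝ) 2 → (rb P l (z + sh v) < ε ∨ rb' P l (z + sh v) < ε) → v = 0
  sm : Sm (per (dlt P l ε))
  small : ∀ i ≤ l, ∀ z, ‖iteratedFDeriv ℝ i (per (dlt P l ε)) z‖ ≤ (1 / 2) ^ l

end CI
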