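import Pool.Agent.LibCI87.E1
import Pool.Agent.LibCI87.E4
import Pool.Agent.LibCI87.E6

/-!
# Main theorem of the analytic half
-/

set_option autoImplicit false

namespace CI

open Set Function Filter Topology

/-- **Main theorem of the analytic half.** -/
theorem collapse_main (P : Par) : ∃ ε : ℕ → ℝ, (∀ l, 0 < ε l) ∧
    (∀ e, Sm (Fl P ε e)) ∧
    (∀ l, Continuous (per (dlt P l (ε l)))) ∧
    (∀ l z, |per (dlt P l (ε l)) z| ≤ (1 / 2) ^ l) ∧
    (∀ l, Continuous (per (qf P l (ε l)))) ∧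
    (∀ l z, |per (qf P l (ε l)) z| ≤ 2 * dL l) ∧
    (∀ l l' c c' y, per (qf P l (ε l)) (c, y) ≠ 0 → per (qf P l' (ε l')) (c', y) ≠ 0 → l = l') ∧
    (∀ e z, De P ε e (Tl P ε e z) = pe P ε e z - pe P ε e (Gl P z)) ∧
    (∀ l c y u v, u < v →
      v - per (qf P l (ε l)) (Phi P v c, y) ≤ u - per (qf P l (ε l)) (Phi P u c, y) →
      ∃ w : Z5, y + (sh w).2 = (0, jL l) ∧
        ArcL P l (Phi P u c + (sh w).1) (Phi P v c + (sh w).1)) ∧
    (∀ l c c', ArcL P l c c' →
      Phi P (-(per (qf P l (ε l)) (c, (0, jL l)))) c =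
        Phi P (-(per (qf P l (ε l)) (c', (0, jL l)))) c') := by
  choose ε hε using fun l => exists_good P l
  refine ⟨ε, fun l => (hε l).pos, fun e => Fl_sm P ε hε e, fun l => (hε l).sm.continuous, ?_,
    fun l => per_qf_cont (hε l), fun l z => per_qf_abs (hε l) z, ?_,
    fun e z => alg_all P ε hε e z, fun l c y u v huv h => order (hε l) c y huv h,
    fun l c c' h => collapse (hε l) c c' h⟩
  · intro l z
    have h := (hε l).small 0 (Nat.zero_le l) z
    rwa [norm_iteratedFDeriv_zero, Real.norm_eq_abs] at h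
  · intro l l' c c' y h h'
    obtain ⟨v, hv⟩ := fibre_ne (hε l) (z := (c, y)) (Or.inl h)
    obtain ⟨v', hv'⟩ := fibre_ne (hε l') (z := (c', y)) (Or.inl h')
    exact fibre_disj hv hv'

end CI
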