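import Pool.Agent.LibCI87.Defs

/-! ROW O1 (STRONG, only Mathlib, ~120 lines).  The superposition operator is `C^∞`.

`K` compact, `f : E → F` of class `C^∞`; `N_f : C(K, E) → C(K, F)`, `γ ↦ f ∘ γ`.
Step 1: `N_f` is continuous (`ContinuousMap.continuous_postcomp` / `ContinuousMap.continuous_comp..`).
Step 2: for `f` of class `C^1`, `HasFDerivAt N_f (L_γ) γ` with `L_γ u = (t ↦ fderiv f (γ t) (u t))`.
`L_γ` is the image of `N_{fderiv f} γ ∈ C(K, E →L F)` under the continuous linear map
`Θ : C(K, E →L[ℝ] F) →L[ℝ] (C(K, E) →L[ℝ] C(K, F))`, `Θ A u t = A t (u t)` (build it with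
`LinearMap.mkContinuous₂` or `ContinuousLinearMap` `mkContinuous`, norm `≤ 1`).
Remainder: `‖f (γ t + u t) - f (γ t) - f' (γ t) (u t)‖ ≤ ε ‖u t‖` when `‖u‖ < δ`: `δ` is given by uniform
continuity of `f'` near the compact set `γ(K)`: for every `ε > 0` there is `δ > 0` with
`‖f' y - f' x‖ ≤ ε` for `x ∈ γ(K)`, `dist y x < δ` (compactness: `IsCompact.uniformContinuousAt_of_continuousAt` or
finite cover), then the mean value inequality on the segment (`Convex.norm_image_sub_le_of_norm_fderiv_le'`).
Step 3: induction: for all `n : ℕ` and all `F` and `f` of class `C^∞`, `N_f` is `C^n`: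
`contDiff_succ_iff_fderiv`-style (`contDiff_succ_iff_hasFDerivAt`), `fderiv N_f = Θ ∘ N_{fderiv f}`.
(Universe: take `F` in the universe of `E`... `E →L[ℝ] F` stays in `max u v`; to run the induction over `F`
assume `E F : Type` or `Type u` both: here everything is in `Type`.) -/

set_option autoImplicit false

namespace CI

open Set Function Filter Topology

section

variable {K E F : Type} [TopologicalSpace K] [CompactSpace K] [NormedAddCommGroup E]
    [NormedSpace ℝ E] [NormedAddCommGroup F] [NormedSpace ℝ F]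

/-- pointwise application of a continuous family of linear maps -/
private noncomputable def o1T : C(K, E →L[ℝ] F) →L[ℝ] (C(K, E) →L[ℝ] C(K, F)) :=
  LinearMap.mkContinuous₂ (LinearMap.mk₂ ℝ
    (fun (A : C(K, E →L[ℝ] F)) (u : C(K, E)) =>
      (⟨fun t => A t (u t), A.continuous.clm_apply u.continuous⟩ : C(K, F)))
    (fun _ _ _ => by ext; simp) (fun _ _ _ => by ext; simp) (fun _ _ _ => by ext; simp)
    (fun _ _ _ => by ext; simp)) 1 (fun A u => by
      rw [ContinuousMap.norm_le _ (by positivity)]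
      intro t
      change ‖A t (u t)‖ ≤ _
      rw [one_mul]
      exact le_trans (ContinuousLinearMap.le_opNorm _ _) (mul_le_mul (A.norm_coe_le_norm t)
        (u.norm_coe_le_norm t) (norm_nonneg _)
        (le_trans (norm_nonneg _) (A.norm_coe_le_norm t))))

private theorem o1T_apply (A : C(K, E →L[ℝ] F)) (u : C(K, E)) (t : K) :
    o1T A u t = A t (u t) := rfl

private theorem o1_deriv (f : C(E, F)) (f' : C(E, E →L[ℝ] F)) (hf : ∀ x, HasFDerivAt f (f' x) x)
    (γ : C(K, E)) :
    HasFDerivAt (fun γ : C(K, E) => f.comp γ) (o1T (f'.comp γ)) γ := by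
  rw [hasFDerivAt_iff_isLittleO_nhds_zero, Asymptotics.isLittleO_iff]
  intro ε hε
  have h1 := (isCompact_range γ.continuous).uniformContinuousAt_of_continuousAt f'
    (fun a _ => f'.continuous.continuousAt) (Metric.dist_mem_uniformity hε)
  obtain ⟨δ, hδ, h2⟩ := Metric.mem_uniformity_dist.1 h1
  have h3 : ∀ᶠ u : C(K, E) in 𝓝 0, ‖u‖ < δ := by
    filter_upwards [Metric.ball_mem_nhds (0 : C(K, E)) hδ] with u hu
    rwa [mem_ball_zero_iff] at hu
  filter_upwards [h3] with u hu
  rw [ContinuousMap.norm_le _ (by positivity)]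
  intro t
  change ‖f (γ t + u t) - f (γ t) - f' (γ t) (u t)‖ ≤ ε * ‖u‖
  have h4 : ‖u t‖ < δ := lt_of_le_of_lt (u.norm_coe_le_norm t) hu
  have h5 := (convex_ball (γ t) δ).norm_image_sub_le_of_norm_fderiv_le' (𝕜 := ℝ) (f := f)
    (φ := f' (γ t)) (C := ε) (x := γ t) (y := γ t + u t)
    (fun x _ => (hf x).differentiableAt) (fun x hx => by
      rw [(hf x).fderiv, ← dist_eq_norm, dist_comm]
      have h6 : dist (γ t) x < δ := by
        rw [dist_comm]
        exact hx
      exact le_of_lt (h2 h6 (mem_range_self t))) (Metric.mem_ball_self hδ)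
    (by rwa [mem_ball_iff_norm, add_sub_cancel_left])
  rw [add_sub_cancel_left] at h5
  exact le_trans h5 (mul_le_mul_of_nonneg_left (u.norm_coe_le_norm t) hε.le)

private theorem o1_nat (n : ℕ) : ∀ (F : Type) [NormedAddCommGroup F] [NormedSpace ℝ F]
    (f : C(E, F)), Sm f → ContDiff ℝ n (fun γ : C(K, E) => f.comp γ) := by
  induction n with
  | zero =>
    intro F _ _ f _
    rw [Nat.cast_zero, contDiff_zero]
    exact ContinuousMap.continuous_postcomp f
  | succ n ih =>
    intro F _ _ f hf
    have h1 : Sm (fderiv ℝ f) := hf.fderiv_right (by norm_cast)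
    have h2 := ih (E →L[ℝ] F) ⟨fderiv ℝ f, h1.continuous⟩ h1
    rw [Nat.cast_add, Nat.cast_one, contDiff_succ_iff_hasFDerivAt]
    refine ⟨_, (o1T (K := K) (E := E) (F := F)).contDiff.comp h2, fun γ => ?_⟩
    exact o1_deriv f ⟨fderiv ℝ f, h1.continuous⟩
      (fun x => (hf.differentiable (by norm_num) x).hasFDerivAt) γ

end

theorem nemytskii_sm {K E F : Type} [TopologicalSpace K] [CompactSpace K] [NormedAddCommGroup E]
    [NormedSpace ℝ E] [NormedAddCommGroup F] [NormedSpace ℝ F] (f : E → F) (hf : Sm f) :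
    Sm (fun γ : C(K, E) => (⟨fun t => f (γ t), hf.continuous.comp γ.continuous⟩ : C(K, F))) := by
  rw [Sm, contDiff_infty]
  intro n
  exact o1_nat n F ⟨f, hf.continuous⟩ hf

end CI
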