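import Pool.Agent.LibCI87.Defs

/-! ROW O2 (only Mathlib, ~130 lines).  Global flow of a Lipschitz vector field (continuity only).

Adapt file `Pool/Agent/LibCPE48/QS1.lean` (theorem `exists_isR`: contraction in a weighted norm): on the
complete space of bounded continuous functions `w : E × ℝ → E` put
`Θ w (c, t) = exp(-2 L' |t|) • ∫ τ in 0..t, Z (c + exp(2 L' |τ|) • w (c, τ))` with `L' = L + 1` — here `Z` is
bounded by `B`, so `‖Θ w‖ ≤ |t| B exp(-2 L'|t|) ≤ B`; contraction constant `1/2`.  The fixed point `w` gives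
`Φ t c = c + exp(2 L'|t|) • w (c, t)`, `Φ t c = c + ∫_0^t Z (Φ τ c)`, jointly continuous, so `HasDerivAt`.
Group law: both `t ↦ Φ (t + s) c` and `t ↦ Φ t (Φ s c)` solve the ODE with the same value at `0`:
`ODE_solution_unique_univ` (`LipschitzOnWith L (Z) univ`). -/

set_option autoImplicit false

namespace CI

open Set Function Filter Topology

private theorem o2_exp (t : ℝ) : |∫ τ in (0:ℝ)..t, Real.exp (2 * |τ|)| ≤ Real.exp (2 * |t|) / 2 := by
  rcases le_total 0 t with ht | ht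
  · have h1 : ∫ τ in (0:ℝ)..t, Real.exp (2 * |τ|) = ∫ τ in (0:ℝ)..t, Real.exp (2 * τ) := by
      apply intervalIntegral.integral_congr
      intro τ hτ
      rw [uIcc_of_le ht] at hτ
      simp only [abs_of_nonneg hτ.1]
    have h2 : ∫ τ in (0:ℝ)..t, Real.exp (2 * τ) = Real.exp (2 * t) / 2 - Real.exp (2 * 0) / 2 := by
      apply intervalIntegral.integral_eq_sub_of_hasDerivAt (f := fun τ => Real.exp (2 * τ) / 2)
      · intro τ _
        have h3 : HasDerivAt (fun τ : ℝ => 2 * τ) 2 τ := by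
          simpa using (hasDerivAt_id τ).const_mul 2
        have h4 := h3.exp.div_const 2
        have h5 : Real.exp (2 * τ) * 2 / 2 = Real.exp (2 * τ) := by ring
        rw [h5] at h4
        exact h4
      · exact Continuous.intervalIntegrable (by fun_prop) _ _
    rw [h1, h2, abs_of_nonneg ht, abs_of_nonneg]
    · rw [mul_zero, Real.exp_zero]
      linarith
    · have : Real.exp 0 ≤ Real.exp (2 * t) := Real.exp_le_exp.mpr (by linarith)
      rw [Real.exp_zero] at this
      rw [mul_zero, Real.exp_zero]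
      linarith
  · have h1 : ∫ τ in (0:ℝ)..t, Real.exp (2 * |τ|) = ∫ τ in (0:ℝ)..t, Real.exp (-2 * τ) := by
      apply intervalIntegral.integral_congr
      intro τ hτ
      rw [uIcc_of_ge ht] at hτ
      simp only [abs_of_nonpos hτ.2]
      congr 1
      ring
    have h2 : ∫ τ in (0:ℝ)..t, Real.exp (-2 * τ) =
        -Real.exp (-2 * t) / 2 - -Real.exp (-2 * 0) / 2 := by
      apply intervalIntegral.integral_eq_sub_of_hasDerivAt (f := fun τ => -Real.exp (-2 * τ) / 2)
      · intro τ _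
        have h3 : HasDerivAt (fun τ : ℝ => -2 * τ) (-2) τ := by
          simpa using (hasDerivAt_id τ).const_mul (-2)
        have h4 := h3.exp.neg.div_const 2
        have h5 : -(Real.exp (-2 * τ) * -2) / 2 = Real.exp (-2 * τ) := by ring
        rw [h5] at h4
        exact h4
      · exact Continuous.intervalIntegrable (by fun_prop) _ _
    rw [h1, h2, abs_of_nonpos ht, abs_of_nonpos]
    · have h6 : (-2 : ℝ) * t = 2 * -t := by ring
      rw [h6, mul_zero, Real.exp_zero]
      linarith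
    · have : Real.exp 0 ≤ Real.exp (-2 * t) := Real.exp_le_exp.mpr (by linarith)
      rw [Real.exp_zero] at this
      rw [mul_zero, Real.exp_zero]
      linarith

section

variable {E : Type} [NormedAddCommGroup E] [NormedSpace ℝ E]

/-- the integrand -/
private noncomputable def o2F (Z : E → E) (w : E × ℝ → E) (c : E) (τ : ℝ) : E :=
  Z (c + Real.exp (2 * |τ|) • w (c, τ))

private theorem o2_cont {Z : E → E} (hZ : Continuous Z) {w : E × ℝ → E} (hw : Continuous w) :
    Continuous (fun q : E × ℝ => o2F Z w q.1 q.2) := by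
  unfold o2F
  have h1 : Continuous (fun q : E × ℝ => q.1 + Real.exp (2 * |q.2|) • w (q.1, q.2)) := by
    fun_prop
  exact hZ.comp h1

private theorem o2_contI {Z : E → E} (hZ : Continuous Z) {w : E × ℝ → E} (hw : Continuous w) :
    Continuous (fun q : E × ℝ => ∫ τ in (0:ℝ)..q.2, o2F Z w q.1 τ) := by
  apply intervalIntegral.continuous_parametric_intervalIntegral_of_continuous
    (f := fun (q : E × ℝ) τ => o2F Z w q.1 τ) (s := fun q : E × ℝ => q.2)
  · have h1 : Continuous (fun z : (E × ℝ) × ℝ => ((z.1.1, z.2) : E × ℝ)) := by fun_prop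
    exact (o2_cont hZ hw).comp h1
  · exact continuous_snd

private theorem o2_slice {Z : E → E} (hZ : Continuous Z) {w : E × ℝ → E} (hw : Continuous w)
    (c : E) : Continuous (fun τ : ℝ => o2F Z w c τ) :=
  (o2_cont hZ hw).comp (Continuous.prodMk_right c)

private theorem o2_norm {Z : E → E} {B : ℝ} (hB0 : 0 ≤ B) (hB : ∀ c, ‖Z c‖ ≤ B)
    (w : E × ℝ → E) (q : E × ℝ) :
    ‖Real.exp (-(2 * |q.2|)) • ∫ τ in (0:ℝ)..q.2, o2F Z w q.1 τ‖ ≤ B := by
  rw [norm_smul, Real.norm_eq_abs, abs_of_pos (Real.exp_pos _)]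
  have h1 := intervalIntegral.norm_integral_le_of_norm_le_const (a := 0) (b := q.2) (C := B)
    (f := fun τ => o2F Z w q.1 τ) (fun x _ => hB _)
  rw [sub_zero] at h1
  have h2 : |q.2| ≤ Real.exp (2 * |q.2|) := by
    have := Real.add_one_le_exp (2 * |q.2|)
    have h3 := abs_nonneg q.2
    linarith
  have h3 : Real.exp (-(2 * |q.2|)) * Real.exp (2 * |q.2|) = 1 := by
    rw [← Real.exp_add]; simp
  calc Real.exp (-(2 * |q.2|)) * ‖∫ τ in (0:ℝ)..q.2, o2F Z w q.1 τ‖
      ≤ Real.exp (-(2 * |q.2|)) * (B * Real.exp (2 * |q.2|)) :=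
        mul_le_mul_of_nonneg_left (h1.trans (mul_le_mul_of_nonneg_left h2 hB0)) (Real.exp_pos _).le
    _ = B * (Real.exp (-(2 * |q.2|)) * Real.exp (2 * |q.2|)) := by ring
    _ = B := by rw [h3, mul_one]

/-- the operator -/
private noncomputable def o2Th {Z : E → E} (hZ : Continuous Z) {B : ℝ} (hB0 : 0 ≤ B)
    (hB : ∀ c, ‖Z c‖ ≤ B) (w : BoundedContinuousFunction (E × ℝ) E) :
    BoundedContinuousFunction (E × ℝ) E :=
  BoundedContinuousFunction.ofNormedAddCommGroup
    (fun q : E × ℝ => Real.exp (-(2 * |q.2|)) • ∫ τ in (0:ℝ)..q.2, o2F Z w q.1 τ)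
    ((by fun_prop : Continuous (fun q : E × ℝ => Real.exp (-(2 * |q.2|)))).smul
      (o2_contI hZ w.continuous)) B (o2_norm hB0 hB w)

private theorem o2_contr {Z : E → E} (hL : LipschitzWith 1 Z) {B : ℝ} (hB0 : 0 ≤ B)
    (hB : ∀ c, ‖Z c‖ ≤ B) : ContractingWith (1 / 2) (o2Th hL.continuous hB0 hB) := by
  refine ⟨by norm_num, LipschitzWith.of_dist_le_mul ?_⟩
  intro w w'
  rw [BoundedContinuousFunction.dist_le (by positivity)]
  rintro ⟨c, t⟩
  have hZ := hL.continuous
  have h0 : dist (o2Th hL.continuous hB0 hB w (c, t)) (o2Th hL.continuous hB0 hB w' (c, t)) =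
      Real.exp (-(2 * |t|)) * ‖∫ τ in (0:ℝ)..t, (o2F Z w c τ - o2F Z w' c τ)‖ := by
    rw [intervalIntegral.integral_sub
      ((o2_slice hZ w.continuous c).intervalIntegrable _ _)
      ((o2_slice hZ w'.continuous c).intervalIntegrable _ _), dist_eq_norm]
    change ‖Real.exp (-(2 * |t|)) • (∫ τ in (0:ℝ)..t, o2F Z w c τ) -
      Real.exp (-(2 * |t|)) • (∫ τ in (0:ℝ)..t, o2F Z w' c τ)‖ = _
    rw [← smul_sub, norm_smul, Real.norm_eq_abs, abs_of_pos (Real.exp_pos _)]
  rw [h0]
  have h1 : ‖∫ τ in (0:ℝ)..t, (o2F Z w c τ - o2F Z w' c τ)‖ ≤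
      |∫ τ in (0:ℝ)..t, Real.exp (2 * |τ|) * dist w w'| := by
    apply intervalIntegral.norm_integral_le_abs_of_norm_le
    · refine Filter.Eventually.of_forall ?_
      intro τ
      unfold o2F
      have h5 := hL.norm_sub_le (c + Real.exp (2 * |τ|) • w (c, τ))
        (c + Real.exp (2 * |τ|) • w' (c, τ))
      refine h5.trans ?_
      rw [add_sub_add_left_eq_sub, ← smul_sub, norm_smul, Real.norm_eq_abs,
        abs_of_pos (Real.exp_pos _), ← dist_eq_norm, NNReal.coe_one, one_mul]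
      exact mul_le_mul_of_nonneg_left (BoundedContinuousFunction.dist_coe_le_dist _)
        (Real.exp_pos _).le
    · exact Continuous.intervalIntegrable (by fun_prop) _ _
  rw [intervalIntegral.integral_mul_const, abs_mul, abs_of_nonneg dist_nonneg] at h1
  have h2 := o2_exp t
  have h3 : Real.exp (-(2 * |t|)) * Real.exp (2 * |t|) = 1 := by
    rw [← Real.exp_add]; simp
  calc Real.exp (-(2 * |t|)) * ‖∫ τ in (0:ℝ)..t, (o2F Z w c τ - o2F Z w' c τ)‖
      ≤ Real.exp (-(2 * |t|)) * (Real.exp (2 * |t|) / 2 * dist w w') :=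
        mul_le_mul_of_nonneg_left (h1.trans (mul_le_mul_of_nonneg_right h2 dist_nonneg))
          (Real.exp_pos _).le
    _ = (Real.exp (-(2 * |t|)) * Real.exp (2 * |t|)) * (1 / 2 * dist w w') := by ring
    _ = _ := by
      rw [h3]
      simp

private theorem o2_one [CompleteSpace E] {Z : E → E} (hL : LipschitzWith 1 Z) {B : ℝ}
    (hB0 : 0 ≤ B) (hB : ∀ c, ‖Z c‖ ≤ B) :
    ∃ Φ : ℝ → E → E, Continuous (fun q : ℝ × E => Φ q.1 q.2) ∧ (∀ c, Φ 0 c = c) ∧
      ∀ t c, HasDerivAt (fun t => Φ t c) (Z (Φ t c)) t := by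
  have hZ := hL.continuous
  obtain ⟨w, hw⟩ : ∃ w, o2Th hL.continuous hB0 hB w = w :=
    ⟨_, ContractingWith.fixedPoint_isFixedPt (o2_contr hL hB0 hB)⟩
  have hr : ∀ c t, Real.exp (2 * |t|) • w (c, t) = ∫ τ in (0:ℝ)..t, o2F Z w c τ := by
    intro c t
    have h1 : w (c, t) = Real.exp (-(2 * |t|)) • ∫ τ in (0:ℝ)..t, o2F Z w c τ := by
      conv_lhs => rw [← hw]
      rfl
    rw [h1, smul_smul, ← Real.exp_add]
    simp
  refine ⟨fun t c => c + Real.exp (2 * |t|) • w (c, t), ?_, ?_, ?_⟩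
  · have h1 : Continuous (fun q : ℝ × E => w (q.2, q.1)) :=
      w.continuous.comp (continuous_snd.prodMk continuous_fst)
    exact continuous_snd.add
      ((by fun_prop : Continuous (fun q : ℝ × E => Real.exp (2 * |q.1|))).smul h1)
  · intro c
    simp only [hr]
    simp
  · intro t c
    have h2 : (fun t => c + Real.exp (2 * |t|) • w (c, t)) =
        fun t => c + ∫ τ in (0:ℝ)..t, o2F Z w c τ := by
      funext t
      rw [hr c t]
    change HasDerivAt (fun t => c + Real.exp (2 * |t|) • w (c, t)) (o2F Z w c t) t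
    rw [h2]
    exact (((o2_slice hZ w.continuous c).integral_hasStrictDerivAt 0 t).hasDerivAt).const_add c

end

theorem exists_flow {E : Type} [NormedAddCommGroup E] [NormedSpace ℝ E] [CompleteSpace E]
    (Z : E → E) (L : NNReal) (hL : LipschitzWith L Z) (B : ℝ) (hB : ∀ c, ‖Z c‖ ≤ B) :
    ∃ Φ : ℝ → E → E, Continuous (fun q : ℝ × E => Φ q.1 q.2) ∧ (∀ c, Φ 0 c = c) ∧
      (∀ s t c, Φ (s + t) c = Φ s (Φ t c)) ∧
      ∀ t c, HasDerivAt (fun t => Φ t c) (Z (Φ t c)) t := by
  have hl : (0 : ℝ) < L + 1 := by positivity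
  have hB0 : 0 ≤ B := le_trans (norm_nonneg _) (hB 0)
  have hL1 : LipschitzWith 1 (fun c => ((L : ℝ) + 1)⁻¹ • Z c) := by
    refine LipschitzWith.of_dist_le_mul fun c c' => ?_
    rw [dist_eq_norm, dist_eq_norm, ← smul_sub, norm_smul, norm_inv, Real.norm_eq_abs,
      abs_of_pos hl, NNReal.coe_one, one_mul, inv_mul_le_iff₀ hl]
    refine le_trans (hL.norm_sub_le c c') ?_
    exact mul_le_mul_of_nonneg_right (by linarith) (norm_nonneg _)
  obtain ⟨Φ, hc, h0, hd⟩ := o2_one hL1 (B := B) hB0 (fun c => by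
    rw [norm_smul, norm_inv, Real.norm_eq_abs, abs_of_pos hl, inv_mul_le_iff₀ hl]
    have h1 := hB c
    have h2 : (0 : ℝ) ≤ L := L.2
    nlinarith)
  have hd' : ∀ t c, HasDerivAt (fun t => Φ (((L : ℝ) + 1) * t) c)
      (Z (Φ (((L : ℝ) + 1) * t) c)) t := by
    intro t c
    have h1 : HasDerivAt (fun t : ℝ => ((L : ℝ) + 1) * t) ((L : ℝ) + 1) t := by
      simpa using (hasDerivAt_id t).const_mul ((L : ℝ) + 1)
    have h2 := (hd (((L : ℝ) + 1) * t) c).scomp t h1
    rw [smul_smul, mul_inv_cancel₀ hl.ne', one_smul] at h2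
    exact h2
  refine ⟨fun t c => Φ (((L : ℝ) + 1) * t) c, ?_, ?_, ?_, hd'⟩
  · exact hc.comp ((continuous_const.mul continuous_fst).prodMk continuous_snd)
  · intro c
    change Φ (((L : ℝ) + 1) * 0) c = c
    rw [mul_zero, h0]
  · intro s t c
    have h1 : (fun s => Φ (((L : ℝ) + 1) * (s + t)) c) =
        fun s => Φ (((L : ℝ) + 1) * s) (Φ (((L : ℝ) + 1) * t) c) := by
      refine ODE_solution_unique_univ (v := fun _ => Z) (s := fun _ => univ) (K := L)
        (t₀ := 0) (fun _ => hL.lipschitzOnWith) (fun s => ⟨?_, mem_univ _⟩)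
        (fun s => ⟨hd' s _, mem_univ _⟩) ?_
      · exact (hd' (s + t) c).comp_add_const s t
      · change Φ (((L : ℝ) + 1) * (0 + t)) c = Φ (((L : ℝ) + 1) * 0) (Φ (((L : ℝ) + 1) * t) c)
        rw [mul_zero, h0, zero_add]
    exact congrFun h1 s

end CI
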