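import Pool.Agent.LibCI87.Defs2
import Pool.Agent.LibCI87.Cls

/-!
# Regular regions (definition)
-/

set_option autoImplicit false

namespace CI

open Set Function Filter Topology

/-- on the open set `U`: `rb = W + f0`, `rb' = W + f1`, where `W > 0` is a symbol of its own size with
cost `Λ ≥ 1 + |log W|` and `f0 / W`, `f1 / W` are tiny -/
structure Reg (P : Par) (l : ℕ) (U : Set E5) (W Λ f0 f1 : E5 → ℝ) : Prop where
  isOpen : IsOpen U
  pos : ∀ z ∈ U, 0 < W z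
  le_one : ∀ z ∈ U, W z ≤ 1
  log_le : ∀ z ∈ U, 1 + |Real.log (W z)| ≤ Λ z
  rb_eq : ∀ z ∈ U, rb P l z = W z + f0 z
  rb'_eq : ∀ z ∈ U, rb' P l z = W z + f1 z
  f0_le : ∀ z ∈ U, |f0 z| ≤ W z / 2
  f1_le : ∀ z ∈ U, |f1 z| ≤ W z / 2
  W_cl : Cl (fun _ : Unit => U) (fun _ => W) (fun _ => Λ) (fun _ => W)
  t0 : Tn (fun _ : Unit => U) (fun _ => Λ) (fun _ z => f0 z / W z)
  t1 : Tn (fun _ : Unit => U) (fun _ => Λ) (fun _ z => f1 z / W z)

end CI
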